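import Pool.Agent.P.MP_48d4bc_co.Defs

-- part Pool.Agent.P.MP_48d4bc_co.Layers
section

set_option autoImplicit false

namespace Pool.Agent.P.MP_48d4bc_co

open Cardinal Set

universe u

variable {V : Type u}

def stepCl (f : Finset V → Set V) (A : Set V) : Set V :=
  A ∪ ⋃ t : {t : Finset V // (t : Set V) ⊆ A}, f t.1

theorem mk_finset_subset_le (A : Set V) :
    #{t : Finset V // (t : Set V) ⊆ A} ≤ max #A ℵ₀ := by
  classical
  have h1 : #{t : Finset V // (t : Set V) ⊆ A} ≤ #(Finset A) := by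
    refine mk_le_of_injective (f := fun t => t.1.subtype (· ∈ A)) ?_
    intro t t' h
    have h2 := congrArg (Finset.map (Function.Embedding.subtype (· ∈ A))) h
    simp only [Finset.subtype_map] at h2
    rw [Finset.filter_true_of_mem (fun x hx => t.2 hx),
      Finset.filter_true_of_mem (fun x hx => t'.2 hx)] at h2
    exact Subtype.ext h2
  refine h1.trans ?_
  rcases finite_or_infinite A with h | h
  · have : Finite (Finset A) := inferInstance
    exact (mk_le_aleph0).trans (le_max_right _ _)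
  · exact (mk_finset_of_infinite A).le.trans (le_max_left _ _)

theorem mk_stepCl_le {f : Finset V → Set V} (hf : ∀ t, (f t).Countable) (A : Set V) :
    #(stepCl f A) ≤ max #A ℵ₀ := by
  refine (mk_union_le _ _).trans (add_le_of_le (le_max_right _ _) (le_max_left _ _) ?_)
  refine (mk_iUnion_le _).trans (mul_le_of_le (le_max_right _ _) (mk_finset_subset_le A) ?_)
  exact ciSup_le' fun t => (le_aleph0_iff_set_countable.2 (hf _)).trans (le_max_right _ _)

theorem stepCl_mono (f : Finset V → Set V) : Monotone (stepCl f) := by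
  intro A B h x hx
  rcases hx with hx | hx
  · exact Or.inl (h hx)
  · obtain ⟨t, ht⟩ := mem_iUnion.1 hx
    exact Or.inr (mem_iUnion.2 ⟨⟨t.1, t.2.trans h⟩, ht⟩)

def fullCl (f : Finset V → Set V) (A : Set V) : Set V := ⋃ n : ℕ, (stepCl f)^[n] A

theorem fullCl_mono (f : Finset V → Set V) : Monotone (fullCl f) :=
  fun _ _ h => iUnion_mono fun n => (stepCl_mono f).iterate n h

theorem subset_fullCl (f : Finset V → Set V) (A : Set V) : A ⊆ fullCl f A :=
  subset_iUnion (fun n : ℕ => (stepCl f)^[n] A) 0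

theorem mk_fullCl_le {f : Finset V → Set V} (hf : ∀ t, (f t).Countable) (A : Set V) :
    #(fullCl f A) ≤ max #A ℵ₀ := by
  have h : ∀ n : ℕ, #((stepCl f)^[n] A) ≤ max #A ℵ₀ := by
    intro n
    induction n with
    | zero => exact le_max_left _ _
    | succ n ih =>
      rw [Function.iterate_succ_apply']
      exact (mk_stepCl_le hf _).trans (max_le ih (le_max_right _ _))
  have h2 : fullCl f A = ⋃ n : ULift.{u} ℕ, (stepCl f)^[n.down] A := by
    ext x
    simp only [fullCl, mem_iUnion]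
    exact ⟨fun ⟨n, hn⟩ => ⟨⟨n⟩, hn⟩, fun ⟨n, hn⟩ => ⟨n.down, hn⟩⟩
  rw [h2]
  refine (mk_iUnion_le _).trans (mul_le_of_le (le_max_right _ _) ?_ (ciSup_le' fun n => h _))
  simp

theorem fullCl_closed (f : Finset V → Set V) (A : Set V) (t : Finset V)
    (ht : (t : Set V) ⊆ fullCl f A) : f t ⊆ fullCl f A := by
  have hm : Monotone fun n : ℕ => (stepCl f)^[n] A := by
    refine monotone_nat_of_le_succ fun n => ?_
    rw [Function.iterate_succ_apply']
    exact subset_union_left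
  obtain ⟨n, hn⟩ : ∃ n : ℕ, (t : Set V) ⊆ (stepCl f)^[n] A := by
    classical
    induction t using Finset.induction_on with
    | empty => exact ⟨0, by simp⟩
    | insert a s _ ih =>
      rw [Finset.coe_insert, insert_subset_iff] at ht
      obtain ⟨n, hn⟩ := ih ht.2
      obtain ⟨m, hm'⟩ := mem_iUnion.1 ht.1
      refine ⟨max n m, ?_⟩
      rw [Finset.coe_insert, insert_subset_iff]
      exact ⟨hm (le_max_right n m) hm', hn.trans (hm (le_max_left n m))⟩
  intro x hx
  refine mem_iUnion.2 ⟨n + 1, ?_⟩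
  rw [Function.iterate_succ_apply']
  exact Or.inr (mem_iUnion.2 ⟨⟨t, hn⟩, hx⟩)

/-- Decomposition of an uncountable set into smaller closed layers. -/
theorem exists_layers {f : Finset V → Set V} (hf : ∀ t, (f t).Countable) (S : Set V)
    (hS : ℵ₀ < #S) :
    ∃ rk : V → Ordinal.{u}, (∀ k, #{v | v ∈ S ∧ rk v = k} < #S) ∧
      ∀ v ∈ S, ∀ t : Finset V, t.Nonempty → (∀ w ∈ t, w ∈ S ∧ rk w < rk v) → v ∉ f t := by
  classical
  obtain ⟨e⟩ : Nonempty ((#S).ord.ToType ≃ S) := Cardinal.eq.1 (Cardinal.mk_ord_toType _)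
  have : IsWellOrder (#S).ord.ToType (· < ·) := isWellOrder_lt
  let M : (#S).ord.ToType → Set V := fun k => fullCl f ((fun j => (e j).1) '' Iic k)
  have hMmono : Monotone M := fun a b hab => fullCl_mono f (image_mono (Iic_subset_Iic.2 hab))
  have hMc : ∀ k, #(M k) < #S := by
    intro k
    refine lt_of_le_of_lt (mk_fullCl_le hf _) (max_lt (mk_image_le.trans_lt ?_) hS)
    have h1 : #(Iio k) < #S := Cardinal.mk_Iio_toType_ord_lt k
    have h2 : (Iic k : Set (#S).ord.ToType) = insert k (Iio k) := by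
      ext x; simp [le_iff_lt_or_eq, or_comm]
    rw [h2]
    exact lt_of_le_of_lt mk_insert_le (add_lt_of_lt hS.le h1 (one_lt_aleph0.trans hS))
  have hex : ∀ v ∈ S, ({k | v ∈ M k} : Set _).Nonempty := fun v hv =>
    ⟨e.symm ⟨v, hv⟩, subset_fullCl f _ ⟨e.symm ⟨v, hv⟩, mem_Iic.2 le_rfl, by simp⟩⟩
  let r : ∀ v ∈ S, (#S).ord.ToType := fun v hv => wellFounded_lt.min _ (hex v hv)
  have hr1 : ∀ v hv, v ∈ M (r v hv) := fun v hv => wellFounded_lt.min_mem _ (hex v hv)
  have hr2 : ∀ v hv k, v ∈ M k → r v hv ≤ k := fun v hv k hk =>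
    not_lt.1 (wellFounded_lt.not_lt_min {k | v ∈ M k} hk)
  refine ⟨fun v => if hv : v ∈ S then Ordinal.typein (· < ·) (r v hv) else 0, ?_, ?_⟩
  · intro k
    by_cases h : ∃ v, v ∈ S ∧ (if hv : v ∈ S then Ordinal.typein (· < ·) (r v hv) else 0) = k
    · obtain ⟨v, hv, hvk⟩ := h
      refine lt_of_le_of_lt (mk_le_mk_of_subset ?_) (hMc (r v hv))
      rintro w ⟨hw, hwk⟩
      simp only [hv, hw, dif_pos] at hvk hwk
      have : r w hw = r v hv := (Ordinal.typein _).injective (hwk.trans hvk.symm)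
      rw [← this]
      exact hr1 w hw
    · have : {v | v ∈ S ∧ (if hv : v ∈ S then Ordinal.typein (· < ·) (r v hv) else 0) = k} = ∅ :=
        eq_empty_of_forall_notMem fun v hv => h ⟨v, hv⟩
      rw [this]
      simpa using aleph0_pos.trans hS
  · intro v hv t ht hlt hvt
    obtain ⟨w, hw, hmax⟩ := t.attach.exists_max_image (fun w => r w.1 (hlt w.1 w.2).1)
      (Finset.attach_nonempty_iff.2 ht)
    have h1 : (t : Set V) ⊆ M (r w.1 (hlt w.1 w.2).1) := fun x hx =>
      hMmono (hmax ⟨x, hx⟩ (Finset.mem_attach _ _)) (hr1 x (hlt x hx).1)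
    have h2 := hr2 v hv _ (fullCl_closed f _ t h1 hvt)
    have h3 := (hlt w.1 w.2).2
    simp only [hv, (hlt w.1 w.2).1, dif_pos, Ordinal.typein_lt_typein] at h3
    exact absurd h2 (not_le.2 h3)

theorem exists_greedy {K : Type*} [LinearOrder K] [WellFoundedLT K] (rk : V → K) (B : V → Set V)
    (hB : ∀ v, (B v).Finite) (hlt : ∀ v, ∀ w ∈ B v, rk w < rk v) :
    ∃ g : V → ℕ, ∀ v, ∀ w ∈ B v, g w ≠ g v := by
  classical
  have wf : WellFounded (InvImage (· < ·) rk) := InvImage.wf rk wellFounded_lt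
  let g : V → ℕ := wf.fix fun v rec =>
    (hB v).toFinset.attach.sup (fun w => rec w.1 (hlt v w.1 ((hB v).mem_toFinset.1 w.2))) + 1
  have hg : ∀ v, g v = (hB v).toFinset.attach.sup (fun w => g w.1) + 1 := fun v =>
    WellFounded.fix_eq _ _ _
  refine ⟨g, fun v w hw => ne_of_lt ?_⟩
  rw [hg v]
  exact Nat.lt_succ_of_le (Finset.le_sup (f := fun w : (hB v).toFinset => g w.1)
    (Finset.mem_attach _ ⟨w, (hB v).mem_toFinset.2 hw⟩))

end Pool.Agent.P.MP_48d4bc_co
end

-- part Pool.Agent.P.MP_48d4bc_co.Count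
section

set_option autoImplicit false

/-! Graphs without a complete tripartite subgraph are countable unions of triangle-free graphs. -/

namespace Pool.Agent.P.MP_48d4bc_co

open Cardinal Set

universe u

variable {V : Type u} (H : SimpleGraph V)

/-- common neighbours inside `S` -/
def cn (S : Set V) (t : Finset V) : Set V := {v | v ∈ S ∧ ∀ w ∈ t, H.Adj w v}

open Classical in
/-- the common neighbours, if there are only countably many -/
noncomputable def fcn (S : Set V) (t : Finset V) : Set V :=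
  if (cn H S t).Countable then cn H S t else ∅

theorem fcn_countable (S : Set V) (t : Finset V) : (fcn H S t).Countable := by
  unfold fcn
  split_ifs with h
  exacts [h, countable_empty]

theorem exists_of_notMem_fcn {S : Set V} {t : Finset V} {v : V} (h1 : v ∈ cn H S t)
    (h2 : v ∉ fcn H S t) (n : ℕ) : ∃ B : Finset V, (B : Set V) ⊆ cn H S t ∧ B.card = n := by
  refine Set.Infinite.exists_subset_card_eq (fun hf => h2 ?_) n
  rw [fcn, if_pos hf.countable]
  exact h1

/-- no complete bipartite subgraph inside `S` -/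
def No2 (n : ℕ) (S : Set V) : Prop :=
  ∀ A B : Finset V, (A : Set V) ⊆ S → (B : Set V) ⊆ S → A.card = n → B.card = n →
    ¬ ∀ a ∈ A, ∀ b ∈ B, H.Adj a b

/-- no complete tripartite subgraph -/
def No3 (n : ℕ) : Prop :=
  ∀ A B C : Finset V, A.card = n → B.card = n → C.card = n →
    (∀ a ∈ A, ∀ b ∈ B, H.Adj a b) → (∀ a ∈ A, ∀ c ∈ C, H.Adj a c) →
    ¬ ∀ b ∈ B, ∀ c ∈ C, H.Adj b c

theorem exists_inj_of_le {S : Set V} (h : #S ≤ ℵ₀) : ∃ g : V → ℕ, InjOn g S :=
  countable_iff_exists_injOn.1 (le_aleph0_iff_set_countable.1 h)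

theorem vertex_col (n : ℕ) (S : Set V) (hS : No2 H n S) :
    ∃ g : V → ℕ, ∀ x ∈ S, ∀ y ∈ S, H.Adj x y → g x ≠ g y := by
  induction h : #S using WellFoundedLT.induction generalizing S with
  | ind κ ih =>
  subst h
  rcases le_or_gt #S ℵ₀ with h | h
  · obtain ⟨g, hg⟩ := exists_inj_of_le h
    exact ⟨g, fun x hx y hy a e => a.ne (hg hx hy e)⟩
  obtain ⟨rk, h1, h2⟩ := exists_layers (fcn_countable H S) S h
  choose c hc using fun k => ih _ (h1 k) {v | v ∈ S ∧ rk v = k}
    (fun A B hA hB => hS A B (fun _ x => (hA x).1) fun _ x => (hB x).1) rfl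
  have hn : 0 < n := Nat.pos_of_ne_zero fun e =>
    hS ∅ ∅ (by simp) (by simp) e.symm e.symm (by simp)
  obtain ⟨g, hg⟩ := exists_greedy rk (fun v => {w | v ∈ S ∧ w ∈ S ∧ rk w < rk v ∧ H.Adj w v})
    (fun v => by
      by_contra hf
      obtain ⟨t, ht, hc⟩ := Set.Infinite.exists_subset_card_eq hf n
      have hne : t.Nonempty := Finset.card_pos.1 (hc ▸ hn)
      obtain ⟨w, hw⟩ := id hne
      obtain ⟨B, hB, hB'⟩ := exists_of_notMem_fcn H (S := S) (t := t) (v := v)
        ⟨(ht hw).1, fun w hw => (ht hw).2.2.2⟩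
        (h2 v (ht hw).1 t hne fun w hw => ⟨(ht hw).2.1, (ht hw).2.2.1⟩) n
      exact hS t B (fun w hw => (ht hw).2.1) (fun w hw => (hB hw).1) hc hB'
        fun a ha b hb => (hB hb).2 a ha)
    (fun v w hw => hw.2.2.1)
  refine ⟨fun v => Nat.pair (g v) (c (rk v) v), fun x hx y hy a e => ?_⟩
  obtain ⟨e1, e2⟩ := Nat.pair_eq_pair.1 e
  rcases lt_trichotomy (rk x) (rk y) with l | l | l
  · exact hg y x ⟨hy, hx, l, a⟩ e1
  · exact hc (rk y) x ⟨hx, l⟩ y ⟨hy, rfl⟩ a (l ▸ e2)
  · exact hg x y ⟨hx, hy, l, a.symm⟩ e1.symm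

theorem edge_col (n : ℕ) (hH : No3 H n) (S : Set V) :
    ∃ c : Sym2 V → ℕ, ∀ x ∈ S, ∀ y ∈ S, ∀ z ∈ S, H.Adj x y → H.Adj x z → H.Adj y z →
      c s(x, y) = c s(x, z) → c s(x, y) ≠ c s(y, z) := by
  classical
  induction h : #S using WellFoundedLT.induction generalizing S with
  | ind κ ih =>
  subst h
  rcases le_or_gt #S ℵ₀ with h | h
  · obtain ⟨g, hg⟩ := exists_inj_of_le h
    refine ⟨Sym2.lift ⟨fun x y => g x + g y, fun x y => add_comm _ _⟩,
      fun x _ y hy z hz _ _ a e => ?_⟩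
    simp only [Sym2.lift_mk, add_right_inj] at e
    exact absurd (hg hy hz e) a.ne
  obtain ⟨rk, h1, h2⟩ := exists_layers (fcn_countable H S) S h
  choose c hc using fun k => ih _ (h1 k) {v | v ∈ S ∧ rk v = k} rfl
  have hn : 0 < n := Nat.pos_of_ne_zero fun e =>
    hH ∅ ∅ ∅ e.symm e.symm e.symm (by simp) (by simp) (by simp)
  choose φ hφ using fun v => vertex_col H n {w | v ∈ S ∧ w ∈ S ∧ rk w < rk v ∧ H.Adj w v}
    fun A B hA hB a b hAB => by
      have hne : A.Nonempty := Finset.card_pos.1 (a ▸ hn)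
      obtain ⟨w, hw⟩ := id hne
      have ht : ∀ w ∈ A ∪ B, v ∈ S ∧ w ∈ S ∧ rk w < rk v ∧ H.Adj w v := fun w hw =>
        (Finset.mem_union.1 hw).elim (fun x => hA x) fun x => hB x
      obtain ⟨C, hC, hC'⟩ := exists_of_notMem_fcn H (S := S) (t := A ∪ B) (v := v)
        ⟨(hA hw).1, fun w hw => (ht w hw).2.2.2⟩
        (h2 v (hA hw).1 _ hne.inl fun w hw => ⟨(ht w hw).2.1, (ht w hw).2.2.1⟩) n
      exact hH A B C a b hC' hAB (fun x hx y hy => (hC hy).2 x (Finset.mem_union_left _ hx))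
        fun x hx y hy => (hC hy).2 x (Finset.mem_union_right _ hx)
  let d : V → V → ℕ := fun x y =>
    if rk x < rk y then 2 * φ y x + 1 else if rk y < rk x then 2 * φ x y + 1
    else 2 * c (rk x) s(x, y)
  have d1 : ∀ x y, rk x < rk y → d x y = 2 * φ y x + 1 := fun x y l => if_pos l
  have d2 : ∀ x y, rk y < rk x → d x y = 2 * φ x y + 1 := fun x y l =>
    (if_neg l.not_gt).trans (if_pos l)
  have d3 : ∀ x y, rk x = rk y → d x y = 2 * c (rk x) s(x, y) := fun x y l =>
    (if_neg l.not_lt).trans (if_neg l.not_gt)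
  have hd : ∀ x y, d x y = d y x := fun x y => by
    rcases lt_trichotomy (rk x) (rk y) with l | l | l
    · rw [d1 _ _ l, d2 _ _ l]
    · rw [d3 _ _ l, d3 _ _ l.symm, l, Sym2.eq_swap]
    · rw [d2 _ _ l, d1 _ _ l]
  have top : ∀ x ∈ S, ∀ y ∈ S, ∀ z ∈ S, H.Adj x y → H.Adj x z → H.Adj y z → rk x < rk z →
      rk y < rk z → d x z ≠ d y z := fun x hx y hy z hz a b e l l' q => by
    rw [d1 _ _ l, d1 _ _ l'] at q
    exact hφ z x ⟨hz, hx, l, b⟩ y ⟨hz, hy, l', e⟩ a (by omega)
  have par : ∀ x y z w, rk x = rk y → d x y = d z w → rk z = rk w := fun x y z w l q => by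
    rw [d3 _ _ l] at q
    rcases lt_trichotomy (rk z) (rk w) with l | l | l
    · rw [d1 _ _ l] at q; omega
    · exact l
    · rw [d2 _ _ l] at q; omega
  refine ⟨Sym2.lift ⟨d, hd⟩, fun x hx y hy z hz a b e p q => ?_⟩
  simp only [Sym2.lift_mk] at p q
  by_cases l : rk x = rk y
  · have l' := par _ _ _ _ l p
    have l'' := par _ _ _ _ l q
    rw [d3 _ _ l, d3 _ _ l'] at p
    rw [d3 _ _ l, d3 _ _ l'', ← l] at q
    exact hc (rk x) x ⟨hx, rfl⟩ y ⟨hy, l.symm⟩ z ⟨hz, l'.symm⟩ a b e (by omega) (by omega)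
  have l' : rk x ≠ rk z := fun l' => l (par _ _ _ _ l' p.symm)
  have l'' : rk y ≠ rk z := fun l'' => l (par _ _ _ _ l'' q.symm)
  rcases lt_or_gt_of_ne l with m | m
  · rcases lt_or_gt_of_ne l'' with m' | m'
    · exact top x hx y hy z hz a b e (m.trans m') m' (p.symm.trans q)
    · exact top x hx z hz y hy b a e.symm m m' (q.trans (hd _ _))
  · rcases lt_or_gt_of_ne l' with m' | m'
    · exact top x hx y hy z hz a b e m' (m.trans m') (p.symm.trans q)
    · exact top y hy z hz x hx e a.symm b.symm m m' ((hd _ _).trans (p.trans (hd _ _)))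

theorem no3_of_free {α : Type*} [Finite α] {G : SimpleGraph α} (hG : G.Colorable 3)
    (h : G.Free H) : No3 H (Nat.card α) := by
  classical
  intro A B C a b c hAB hAC hBC
  obtain ⟨col⟩ := hG
  have := Fintype.ofFinite α
  let P : Fin 3 → Finset V := ![A, B, C]
  have hP : ∀ i, Fintype.card α = Fintype.card (P i) := fun i => by
    rw [Fintype.card_coe, ← Nat.card_eq_fintype_card]
    fin_cases i
    exacts [a.symm, b.symm, c.symm]
  have adj : ∀ i j, i ≠ j → ∀ x ∈ P i, ∀ y ∈ P j, H.Adj x y := fun i j hij x hx y hy => by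
    fin_cases i <;> fin_cases j
    all_goals first | exact absurd rfl hij | skip
    exacts [hAB x hx y hy, hAC x hx y hy, (hAB y hy x hx).symm, hBC x hx y hy,
      (hAC y hy x hx).symm, (hBC y hy x hx).symm]
  let e := fun i => Fintype.equivOfCardEq (hP i)
  refine h ⟨⟨⟨fun x => (e (col x) x).1, fun {x y} hxy =>
    adj _ _ (col.valid hxy) _ (e _ x).2 _ (e _ y).2⟩, fun x y hxy => ?_⟩⟩
  have hxy' : (e (col x) x).1 = (e (col y) y).1 := hxy
  by_cases hc : col x = col y
  · rw [hc] at hxy'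
    exact (e _).injective (Subtype.ext hxy')
  · exact absurd hxy' (adj _ _ hc _ (e _ x).2 _ (e _ y).2).ne

theorem countable_colouring {α β : Type*} [Finite α] {G₁ : SimpleGraph α} {G₂ : SimpleGraph β}
    (h1 : G₁.Colorable 3) (h2 : ¬ G₂.CliqueFree 3) (h : G₁.Free H) :
    ∃ c : Sym2 V → ℕ, ¬ HasMonoCopy G₂ H c := by
  classical
  obtain ⟨c, hc⟩ := edge_col H _ (no3_of_free H h1 h) univ
  refine ⟨c, fun ⟨f, k, hf⟩ => h2 fun s hs => ?_⟩
  obtain ⟨x, y, z, a, b, e, -⟩ := SimpleGraph.is3Clique_iff.1 hs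
  exact hc _ trivial _ trivial _ trivial (f.toHom.map_adj a) (f.toHom.map_adj b)
    (f.toHom.map_adj e) ((hf _ _ a).trans (hf _ _ b).symm) ((hf _ _ a).trans (hf _ _ e).symm)

end Pool.Agent.P.MP_48d4bc_co
end
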