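import Mathlib

-- part Pool.Agent.P.MP_48d4bc_co.Tools
section

set_option autoImplicit false

namespace Pool.Agent.P.MP_48d4bc_co

open Cardinal

/-- A well order in which every `I`-indexed family is strictly bounded. -/
theorem exists_big (I : Type) : ∃ (L : Type) (_ : LinearOrder L) (_ : WellFoundedLT L)
    (_ : Nonempty L), ∀ f : I → L, ∃ b, ∀ i, f i < b := by
  let κ : Cardinal.{0} := Order.succ (max #I ℵ₀)
  have hreg : κ.IsRegular := isRegular_succ (le_max_right _ _)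
  have hne : Nonempty κ.ord.ToType := by
    rw [← mk_ne_zero_iff, mk_ord_toType]
    exact hreg.pos.ne'
  refine ⟨κ.ord.ToType, inferInstance, inferInstance, hne, fun f => ?_⟩
  have h : ¬ IsCofinal (Set.range f) := by
    intro h
    have h1 := Order.cof_le h
    rw [Ordinal.cof_toType, hreg.cof_ord] at h1
    have h2 : #(Set.range f) ≤ #I := mk_range_le
    have h3 : #I < κ := lt_of_le_of_lt (le_max_left _ _) (Order.lt_succ _)
    exact absurd (h1.trans h2) (not_le.2 h3)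
  obtain ⟨b, hb⟩ := not_isCofinal_iff.1 h
  exact ⟨b, fun i => hb _ ⟨i, rfl⟩⟩

/-- A well ordered copy of a type. -/
theorem exists_wo (Y : Type) : ∃ (W : Type) (_ : LinearOrder W) (_ : WellFoundedLT W),
    Nonempty (W ≃ Y) :=
  ⟨(#Y).ord.ToType, inferInstance, inferInstance, Cardinal.eq.1 (by simp)⟩

/-- Recursion along a well order. -/
theorem exists_rec {K S : Type} [LinearOrder K] [WellFoundedLT K] [Nonempty S]
    (step : K → (K → S) → S)
    (hstep : ∀ ξ f g, (∀ ζ, ζ < ξ → f ζ = g ζ) → step ξ f = step ξ g) :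
    ∃ f : K → S, ∀ ξ, f ξ = step ξ f := by
  classical
  let d : S := Classical.arbitrary S
  let f : K → S := (wellFounded_lt (α := K)).fix
    (fun ξ rec => step ξ (fun ζ => if h : ζ < ξ then rec ζ h else d))
  refine ⟨f, fun ξ => ?_⟩
  have : f ξ = step ξ (fun ζ => if _h : ζ < ξ then f ζ else d) := by
    simp only [f]
    rw [WellFounded.fix_eq]
  rw [this]
  exact hstep _ _ _ fun ζ h => dif_pos h

/-- Recursion with choices along a well order. -/
theorem exists_rec_rel {K S : Type} [LinearOrder K] [WellFoundedLT K] [Nonempty S]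
    (Q : K → (K → S) → S → Prop)
    (hQ : ∀ ξ f g, (∀ ζ, ζ < ξ → f ζ = g ζ) → Q ξ f = Q ξ g) :
    ∃ f : K → S, ∀ ξ, (∃ x, Q ξ f x) → Q ξ f (f ξ) := by
  obtain ⟨f, hf⟩ := exists_rec (fun ξ f => Classical.epsilon (Q ξ f))
    (fun ξ f g h => by rw [hQ ξ f g h])
  refine ⟨f, fun ξ h => ?_⟩
  rw [hf ξ]
  exact Classical.epsilon_spec h

/-- A well order of steps such that every datum occurs above every small family of steps. -/
theorem exists_book (J I C : Type) [Nonempty J] [Nonempty C] :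
    ∃ (Θ : Type) (_ : LinearOrder Θ) (_ : WellFoundedLT Θ) (_ : Nonempty Θ)
      (k : Θ → J) (D : Θ → I → Θ) (g : Θ → I → C),
      ∀ (j : J) (D' : I → Θ) (g' : I → C), ∃ α, k α = j ∧ D α = D' ∧ g α = g' ∧ ∀ i, D' i < α := by
  obtain ⟨L, _, _, hLne, hL⟩ := exists_big I
  let κ : Cardinal.{0} := max (max (max #J #I) (max #L #C)) ℵ₀
  have hκ : ℵ₀ ≤ κ := le_max_right _ _
  have hJ : #J ≤ κ := le_max_of_le_left (le_max_of_le_left (le_max_left _ _))
  have hI : #I ≤ κ := le_max_of_le_left (le_max_of_le_left (le_max_right _ _))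
  have hL' : #L ≤ κ := le_max_of_le_left (le_max_of_le_right (le_max_left _ _))
  have hC : #C ≤ κ := le_max_of_le_left (le_max_of_le_right (le_max_right _ _))
  have h2 : κ ≤ 2 ^ κ := (cantor κ).le
  have h3 : ℵ₀ ≤ 2 ^ κ := hκ.trans h2
  let W : Type := (2 ^ κ : Cardinal.{0}).ord.ToType
  have hW : #W = 2 ^ κ := by simp [W]
  have hpow : ∀ a : Cardinal.{0}, a ≤ 2 ^ κ → a ^ #I ≤ 2 ^ κ := by
    intro a ha
    calc a ^ #I ≤ (2 ^ κ) ^ #I := power_le_power_right ha
      _ ≤ (2 ^ κ) ^ κ := power_le_power_left (power_ne_zero _ two_ne_zero) hI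
      _ = 2 ^ κ := by rw [← power_mul, mul_eq_self hκ]
  have hmul : ∀ a b : Cardinal.{0}, a ≤ 2 ^ κ → b ≤ 2 ^ κ → a * b ≤ 2 ^ κ := by
    intro a b ha hb
    calc a * b ≤ 2 ^ κ * 2 ^ κ := mul_le_mul' ha hb
      _ = 2 ^ κ := mul_eq_self h3
  have hcard : #(J × (I → L ×ₗ W) × (I → C)) ≤ #W := by
    have e : #(L ×ₗ W) = #L * #W := by
      rw [mul_def]
      rfl
    rw [← mul_def, ← mul_def, ← power_def, ← power_def, e, hW]
    exact hmul _ _ (hJ.trans h2) (hmul _ _ (hpow _ (hmul _ _ (hL'.trans h2) le_rfl))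
      (hpow _ (hC.trans h2)))
  obtain ⟨e⟩ := (Cardinal.le_def _ _).1 hcard
  have hWne : Nonempty W := by
    rw [← mk_ne_zero_iff, hW]
    exact power_ne_zero _ two_ne_zero
  have hΘ : Nonempty (L ×ₗ W) := ⟨toLex (Classical.arbitrary L, Classical.arbitrary W)⟩
  let dec : W → J × (I → L ×ₗ W) × (I → C) := Function.invFun e
  have hdec : ∀ x, dec (e x) = x := Function.leftInverse_invFun e.injective
  refine ⟨L ×ₗ W, inferInstance, inferInstance, hΘ, fun α => (dec (ofLex α).2).1,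
    fun α => (dec (ofLex α).2).2.1, fun α => (dec (ofLex α).2).2.2, fun j D' g' => ?_⟩
  obtain ⟨b, hb⟩ := hL (fun i => (ofLex (D' i)).1)
  refine ⟨toLex (b, e (j, D', g')), by simp [hdec], by simp [hdec], by simp [hdec], fun i => ?_⟩
  exact Prod.Lex.lt_iff.2 (Or.inl (hb i))

end Pool.Agent.P.MP_48d4bc_co
end

-- part Pool.Agent.P.MP_48d4bc_co.StepUp
section

set_option autoImplicit false

namespace Pool.Agent.P.MP_48d4bc_co

/-- `(a, F)` is a cone of the `(r+1)`-uniform hypergraph `T`. -/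
def IsCone {X : Type} [DecidableEq X] (r : ℕ) (T : Finset X → Prop) (a : X) (F : Set X) : Prop :=
  a ∉ F ∧ (∀ s : Finset X, ↑s ⊆ F → s.card = r → T (insert a s)) ∧
    ∀ s : Finset X, ↑s ⊆ F → s.card = r + 1 → ¬ T s

/-- Every colouring of finite sets is canonical up to size `r` on a large cone. -/
def ConeRamsey (r : ℕ) (C I : Type) : Prop :=
  ∃ (X : Type) (_ : LinearOrder X) (_ : WellFoundedLT X) (T : Finset X → Prop),
    ∀ π : Finset X → C, ∃ (a : X) (F : Set X), (∀ f : I → X, ¬ F ⊆ Set.range f) ∧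
      (∀ η ∈ F, a < η) ∧ IsCone r T a F ∧
      ∀ s t : Finset X, ↑s ⊆ insert a F → ↑t ⊆ insert a F → s.card = t.card → s.card ≤ r →
        π s = π t

theorem coneRamsey_zero (C I : Type) : ConeRamsey 0 C I := by
  classical
  obtain ⟨L, _, _, hne, hL⟩ := exists_big (Option I)
  let a : L := Classical.arbitrary L
  refine ⟨L, inferInstance, inferInstance, fun s => a ∈ s, fun π => ⟨a, Set.Ioi a, ?_,
    fun _ h => h, ⟨lt_irrefl a, fun s _ _ => Finset.mem_insert_self _ _, ?_⟩, ?_⟩⟩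
  · intro f hf
    obtain ⟨b, hb⟩ := hL (fun o => o.elim a f)
    obtain ⟨i, hi⟩ := hf (hb none)
    have := hb (some i)
    simp only [Option.elim] at this
    exact absurd hi this.ne
  · intro s hs _ ha
    exact lt_irrefl a (hs ha)
  · intro s t _ _ h1 h2
    have h3 : s = ∅ := Finset.card_eq_zero.1 (by omega)
    have h4 : t = ∅ := Finset.card_eq_zero.1 (by omega)
    rw [h3, h4]

/-- End homogeneous combs. -/
theorem exists_comb (K C : Type) [LinearOrder K] [WellFoundedLT K] :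
    ∃ (X : Type) (_ : LinearOrder X) (_ : WellFoundedLT X) (Λ : Type) (fn : X → K → Λ),
      ∀ π : Finset X → C, ∃ (b : K → X) (β : K → Λ) (p : Finset K → C), StrictMono b ∧
        (∀ ξ ζ, ζ < ξ → fn (b ξ) ζ = β ζ) ∧ (∀ ξ, fn (b ξ) ξ ≠ β ξ) ∧
        ∀ (ξ : K) (u : Finset K), (∀ ζ ∈ u, ζ < ξ) → π (insert (b ξ) (u.image b)) = p u := by
  classical
  obtain ⟨Λ, _, _, hΛ, hbig⟩ := exists_big (K × (Finset K → C))
  obtain ⟨W, _, _, ⟨e⟩⟩ := exists_wo (K → Λ)
  let X : Type := Λ ×ₗ W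
  have hX : Nonempty X := ⟨toLex (Classical.arbitrary Λ, e.symm (Classical.arbitrary _))⟩
  let fn : X → K → Λ := fun x => e (ofLex x).2
  refine ⟨X, inferInstance, inferInstance, Λ, fn, fun π => ?_⟩
  let P : K → (K → Λ) → (K → X) → (Finset K → C) → X → Prop := fun ξ β b p x =>
    (∀ ζ, ζ < ξ → fn x ζ = β ζ) ∧ (∀ ζ, ζ < ξ → b ζ < x) ∧
      ∀ u : Finset K, (∀ ζ ∈ u, ζ < ξ) → π (insert x (u.image b)) = p u
  have hP : ∀ ξ β β' b b' p p', (∀ ζ, ζ < ξ → β ζ = β' ζ) → (∀ ζ, ζ < ξ → b ζ = b' ζ) →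
      (∀ u : Finset K, (∀ ζ ∈ u, ζ < ξ) → p u = p' u) → P ξ β b p = P ξ β' b' p' := by
    intro ξ β β' b b' p p' h1 h2 h3
    funext x
    simp only [P]
    refine propext (and_congr (forall_congr' fun ζ => forall_congr' fun h => by rw [h1 ζ h])
      (and_congr (forall_congr' fun ζ => forall_congr' fun h => by rw [h2 ζ h])
        (forall_congr' fun u => forall_congr' fun h => ?_)))
    rw [h3 u h, Finset.image_congr (f := b) (g := b') fun ζ hζ => h2 ζ (h ζ hζ)]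
  choose bd hbd using hbig
  let A : K → (K → Λ × ((Finset K → C) → X)) → (Finset K → C) → X := fun ξ f p =>
    Classical.epsilon (P ξ (fun ζ => (f ζ).1) (fun ζ => (f ζ).2 p) p)
  have hA : ∀ ξ f f', (∀ ζ, ζ < ξ → f ζ = f' ζ) → A ξ f = A ξ f' := by
    intro ξ f f' h
    funext p
    simp only [A]
    rw [hP ξ _ (fun ζ => (f' ζ).1) _ (fun ζ => (f' ζ).2 p) p p (fun ζ hζ => by rw [h ζ hζ])
      (fun ζ hζ => by rw [h ζ hζ]) (fun _ _ => rfl)]
  obtain ⟨f, hf⟩ := exists_rec (K := K) (S := Λ × ((Finset K → C) → X))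
    (fun ξ f => (bd (fun q => fn (A ξ f q.2) ξ), A ξ f))
    (fun ξ f f' h => by rw [hA ξ f f' h])
  let β : K → Λ := fun ζ => (f ζ).1
  let x₀ : X := toLex (bd (fun q => (ofLex ((f q.1).2 q.2)).1), e.symm β)
  have hx₀ : fn x₀ = β := by simp [fn, x₀]
  have hlt : ∀ ξ p, (f ξ).2 p < x₀ := fun ξ p =>
    Prod.Lex.lt_iff.2 (Or.inl (hbd (fun q => (ofLex ((f q.1).2 q.2)).1) (ξ, p)))
  obtain ⟨b, hb⟩ := exists_rec (K := K) (S := X)
    (fun ξ b => Classical.epsilon (P ξ β b (fun u => π (insert x₀ (u.image b)))))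
    (fun ξ b b' h => by
      rw [hP ξ β β b b' _ (fun u => π (insert x₀ (u.image b'))) (fun _ _ => rfl) h
        (fun u hu => by
          rw [Finset.image_congr (f := b) (g := b') fun ζ hζ => h ζ (hu ζ hζ)])])
  let p : Finset K → C := fun u => π (insert x₀ (u.image b))
  have hab : ∀ ξ, (f ξ).2 p = b ξ := by
    intro ξ
    induction ξ using WellFoundedLT.induction with
    | ind ξ ih =>
      rw [hf ξ, hb ξ]
      simp only [A]
      rw [hP ξ _ β _ b p p (fun _ _ => rfl) ih (fun _ _ => rfl)]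
  have hspec : ∀ ξ, P ξ β b p (b ξ) := by
    intro ξ
    have h : ∃ x, P ξ β b p x :=
      ⟨x₀, fun ζ _ => by rw [hx₀], fun ζ _ => by rw [← hab ζ]; exact hlt ζ p, fun _ _ => rfl⟩
    have h2 := Classical.epsilon_spec h
    rw [← hb ξ] at h2
    exact h2
  refine ⟨b, β, p, fun ζ ξ h => (hspec ξ).2.1 ζ h, fun ξ => (hspec ξ).1, fun ξ => ?_,
    fun ξ => (hspec ξ).2.2⟩
  have h1 : β ξ = bd (fun q => fn (A ξ f q.2) ξ) := by
    simp only [β]
    rw [hf ξ]
  have h2 : A ξ f p = b ξ := by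
    rw [← hab ξ, hf ξ]
  have h3 := hbd (fun q => fn (A ξ f q.2) ξ) (ξ, p)
  rw [← h1] at h3
  simp only [h2] at h3
  exact h3.ne

theorem coneRamsey_succ {r : ℕ} {C I : Type} (h : ConeRamsey r C I) :
    ConeRamsey (r + 1) C I := by
  classical
  obtain ⟨K, _, _, T, hK⟩ := h
  obtain ⟨X, _, _, Λ, fn, hX⟩ := exists_comb K C
  let DS : Finset X → Set K := fun s =>
    {ξ | ∃ x ∈ s, ∃ y ∈ s, fn x ξ ≠ fn y ξ ∧ ∀ ζ, ζ < ξ → fn x ζ = fn y ζ}
  refine ⟨X, inferInstance, inferInstance, fun s => ∃ u : Finset K, ↑u = DS s ∧ T u, fun π => ?_⟩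
  obtain ⟨b, β, p, hb, h1, h2, h3⟩ := hX π
  obtain ⟨a, F, hF, haF, ⟨hc1, hc2, hc3⟩, hhom⟩ := hK p
  have hDS : ∀ (u : Finset K) (ξ : K), (∀ ζ ∈ u, ζ < ξ) →
      DS (insert (b ξ) (u.image b)) = ↑u := by
    intro u ξ hu
    have hmem : ∀ x, x ∈ insert (b ξ) (u.image b) ↔ ∃ η, (η = ξ ∨ η ∈ u) ∧ b η = x := by
      intro x
      simp only [Finset.mem_insert, Finset.mem_image]
      constructor
      · rintro (rfl | ⟨η, h, rfl⟩)
        · exact ⟨ξ, Or.inl rfl, rfl⟩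
        · exact ⟨η, Or.inr h, rfl⟩
      · rintro ⟨η, rfl | h, rfl⟩
        · exact Or.inl rfl
        · exact Or.inr ⟨η, h, rfl⟩
    have key : ∀ η η' ζ, η < η' → fn (b η) ζ ≠ fn (b η') ζ →
        (∀ ζ', ζ' < ζ → fn (b η) ζ' = fn (b η') ζ') → ζ = η := by
      intro η η' ζ hlt hne hall
      rcases lt_trichotomy ζ η with hh | hh | hh
      · exact absurd (by rw [h1 η ζ hh, h1 η' ζ (hh.trans hlt)]) hne
      · exact hh
      · exact absurd (by rw [hall η hh, h1 η' η hlt]) (h2 η)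
    have hup : ∀ η η', (η = ξ ∨ η ∈ u) → (η' = ξ ∨ η' ∈ u) → η < η' → η ∈ u := by
      rintro η η' (rfl | h) (rfl | h') hlt
      · exact absurd hlt (lt_irrefl _)
      · exact absurd hlt (not_lt.2 (hu _ h').le)
      · exact h
      · exact h
    ext ζ
    constructor
    · rintro ⟨x, hx, y, hy, hne, hall⟩
      obtain ⟨η, hη, rfl⟩ := (hmem x).1 hx
      obtain ⟨η', hη', rfl⟩ := (hmem y).1 hy
      rcases lt_trichotomy η η' with hh | hh | hh
      · rw [key η η' ζ hh hne hall]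
        exact hup η η' hη hη' hh
      · exact absurd (by rw [hh]) hne
      · rw [key η' η ζ hh hne.symm fun ζ' h => (hall ζ' h).symm]
        exact hup η' η hη' hη hh
    · intro hζ
      refine ⟨b ζ, (hmem _).2 ⟨ζ, Or.inr hζ, rfl⟩, b ξ, (hmem _).2 ⟨ξ, Or.inl rfl, rfl⟩, ?_, ?_⟩
      · rw [h1 ξ ζ (hu ζ hζ)]
        exact h2 ζ
      · intro ζ' h
        rw [h1 ζ ζ' h, h1 ξ ζ' (h.trans (hu ζ hζ))]
  have hsplit : ∀ (S : Set K) (s : Finset X) (m : ℕ), ↑s ⊆ b '' S → s.card = m + 1 →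
      ∃ (u : Finset K) (ξ : K), ↑u ⊆ S ∧ ξ ∈ S ∧ u.card = m ∧ (∀ ζ ∈ u, ζ < ξ) ∧
        s = insert (b ξ) (u.image b) := by
    intro S s m hs hcard
    obtain ⟨v, hv, rfl⟩ := Finset.subset_set_image_iff.1 hs
    rw [Finset.card_image_of_injective _ hb.injective] at hcard
    have hne : v.Nonempty := Finset.card_pos.1 (by omega)
    refine ⟨v.erase (v.max' hne), v.max' hne, fun ζ hζ => hv (Finset.mem_of_mem_erase hζ),
      hv (v.max'_mem hne), by rw [Finset.card_erase_of_mem (v.max'_mem hne), hcard]; rfl,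
      fun ζ hζ => Finset.lt_max'_of_mem_erase_max' v hne hζ, ?_⟩
    rw [← Finset.image_insert, Finset.insert_erase (v.max'_mem hne)]
  refine ⟨b a, b '' F, fun f hf => ?_, ?_, ⟨?_, ?_, ?_⟩, ?_⟩
  · have : Nonempty K := ⟨a⟩
    refine hF (fun i => Function.invFun b (f i)) fun η hη => ?_
    obtain ⟨i, hi⟩ := hf ⟨η, hη, rfl⟩
    exact ⟨i, by simp only [hi, Function.leftInverse_invFun hb.injective η]⟩
  · rintro _ ⟨η, hη, rfl⟩
    exact hb (haF η hη)
  · rintro ⟨η, hη, he⟩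
    exact hc1 (hb.injective he ▸ hη)
  · intro s hs hcard
    obtain ⟨u, ξ, hu, hξ, huc, hlt, rfl⟩ := hsplit F s r hs hcard
    refine ⟨insert a u, ?_, hc2 u hu huc⟩
    rw [Finset.insert_comm, ← Finset.image_insert, hDS]
    intro ζ hζ
    rcases Finset.mem_insert.1 hζ with rfl | hζ
    · exact haF ξ hξ
    · exact hlt ζ hζ
  · rintro s hs hcard ⟨w, hw, hT⟩
    obtain ⟨u, ξ, hu, _, huc, hlt, rfl⟩ := hsplit F s (r + 1) hs hcard
    rw [hDS u ξ hlt, Finset.coe_inj] at hw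
    exact hc3 u hu huc (hw ▸ hT)
  · intro s t hs ht hst hr
    rw [← Set.image_insert_eq] at hs ht
    rcases Nat.eq_zero_or_eq_succ_pred s.card with h0 | h0
    · have ht0 : t = ∅ := Finset.card_eq_zero.1 (hst ▸ h0)
      rw [Finset.card_eq_zero.1 h0, ht0]
    · obtain ⟨u, ξ, hu, _, huc, hlt, rfl⟩ := hsplit _ s _ hs h0
      obtain ⟨u', ξ', hu', _, huc', hlt', rfl⟩ := hsplit _ t _ ht (hst ▸ h0)
      rw [h3 ξ u hlt, h3 ξ' u' hlt']
      refine hhom u u' hu hu' (by rw [huc, huc', hst]) ?_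
      rw [huc]
      simp only [Nat.pred_eq_sub_one]
      omega

theorem coneRamsey (r : ℕ) (C I : Type) : ConeRamsey r C I := by
  induction r with
  | zero => exact coneRamsey_zero C I
  | succ r ih => exact coneRamsey_succ ih

end Pool.Agent.P.MP_48d4bc_co
end
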