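import Pool.Agent.P.MP_48d4bc_co.Defs

set_option autoImplicit false

/-! The partite construction: Ramsey graphs whose copies form no short cycles along edges. -/

namespace Pool.Agent.P.MP_48d4bc_co

open Set

/-- every small subfamily splits into two parts sharing at most one point -/
def Sparse {ι ε : Type} (E : ι → Set ε) (g : ℕ) : Prop :=
  ∀ X : Finset ι, 2 ≤ X.card → X.card ≤ g → ∃ p : ι → Prop, (∃ i ∈ X, p i) ∧ (∃ i ∈ X, ¬ p i) ∧
    {e | (∃ i ∈ X, p i ∧ e ∈ E i) ∧ ∃ i ∈ X, ¬ p i ∧ e ∈ E i}.Subsingleton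

/-- a finite graph with a system of induced copies -/
structure Sys {α : Type} (A : SimpleGraph α) : Type 1 where
  /-- vertices -/
  W : Type
  finW : Finite W
  /-- the graph -/
  H : SimpleGraph W
  /-- indices of copies -/
  ι : Type
  finι : Finite ι
  /-- the copies -/
  emb : ι → A ↪g H

variable {α : Type} {A : SimpleGraph α}

/-- the edges of a copy -/
def Sys.E (S : Sys A) (i : S.ι) : Set (Sym2 S.W) :=
  {e | ∃ a b, A.Adj a b ∧ e = s(S.emb i a, S.emb i b)}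

/-- some copy is monochromatic -/
def Sys.Ram (S : Sys A) (κ : Type) : Prop :=
  ∀ c : Sym2 S.W → κ, ∃ i k, ∀ a b, A.Adj a b → c s(S.emb i a, S.emb i b) = k

/-- every triangle lies in a copy -/
def Sys.Tri (S : Sys A) : Prop :=
  ∀ x y z, S.H.Adj x y → S.H.Adj x z → S.H.Adj y z →
    ∃ i, x ∈ range (S.emb i) ∧ y ∈ range (S.emb i) ∧ z ∈ range (S.emb i)

/-- the bipartite statement -/
def RB (κ : Type) (g : ℕ) : Prop :=
  ∀ (α : Type) [Finite α] (A : SimpleGraph α) (s : α → Bool), (∀ a b, A.Adj a b → s a ≠ s b) →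
    ∃ (S : Sys A) (t : S.W → Bool), (∀ x y, S.H.Adj x y → t x ≠ t y) ∧
      (∀ i a, t (S.emb i a) = s a) ∧ S.Ram κ ∧ Sparse S.E g

theorem rb_one (κ : Type) [Finite κ] : RB κ 1 := by
  intro α _ A s hs
  let Ω := {p : α × α // A.Adj p.1 p.2 ∧ s p.1 = true}
  obtain ⟨ι, _, hι⟩ := Combinatorics.Line.exists_mono_in_high_dimension Ω κ
  let H : SimpleGraph (Bool × (ι → α)) :=
    { Adj := fun u v => u.1 ≠ v.1 ∧ ∀ k, A.Adj (u.2 k) (v.2 k)
      symm := ⟨fun u v h => ⟨h.1.symm, fun k => (h.2 k).symm⟩⟩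
      loopless := ⟨fun u h => h.1 rfl⟩ }
  let f : Combinatorics.Line Ω ι → α → Bool × (ι → α) := fun l a =>
    (s a, fun k => (l.idxFun k).elim a fun w => if s a then w.1.1 else w.1.2)
  have hf : ∀ l : Combinatorics.Line Ω ι, ∃ k, ∀ a, (f l a).2 k = a := fun l =>
    l.proper.imp fun k hk a => by simp [f, hk]
  refine ⟨⟨_, inferInstance, H, Combinatorics.Line Ω ι,
    Finite.of_injective (fun l => l.idxFun) fun _ _ h => Combinatorics.Line.ext h,
    fun l => ⟨⟨f l, fun a b h => ?_⟩, fun {a b} => ⟨fun h => ?_, fun h => ⟨hs a b h, fun k => ?_⟩⟩⟩⟩,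
    Prod.fst, fun x y h => h.1, fun _ _ => rfl, fun c => ?_, fun X h1 h2 => by omega⟩
  · obtain ⟨k, hk⟩ := hf l
    rw [← hk a, h, hk b]
  · obtain ⟨k, hk⟩ := hf l
    have := h.2 k
    simp only [Function.Embedding.coeFn_mk] at this
    rwa [hk a, hk b] at this
  · have := hs a b h
    simp only [Function.Embedding.coeFn_mk, f]
    cases l.idxFun k with
    | none => exact h
    | some w =>
      cases ha : s a <;> cases hb : s b
      · exact absurd (ha.trans hb.symm) this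
      · exact w.2.1.symm
      · exact w.2.1
      · exact absurd (ha.trans hb.symm) this
  · obtain ⟨l, k, hl⟩ := hι fun w => c s((true, fun k => (w k).1.1), (false, fun k => (w k).1.2))
    have key : ∀ a b, A.Adj a b → s a = true → c s(f l a, f l b) = k := fun a b h ha => by
      have hb : s b = false := by
        have := hs a b h
        rw [ha] at this
        simpa using this
      rw [← hl ⟨(a, b), h, ha⟩]
      congr 2
      · refine Prod.ext ha (funext fun j => ?_)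
        simp only [f, ha, Combinatorics.Line.coe_apply]
        cases l.idxFun j <;> rfl
      · refine Prod.ext hb (funext fun j => ?_)
        simp only [f, hb, Combinatorics.Line.coe_apply]
        cases l.idxFun j <;> rfl
    refine ⟨l, k, fun a b h => ?_⟩
    cases ha : s a
    · rw [Sym2.eq_swap]
      refine key b a h.symm ?_
      have := hs a b h
      rw [ha] at this
      simpa using this.symm
    · exact key a b h ha

/-- pictures of the partite construction -/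
structure Pic {W₀ ι₀ : Type} {B : SimpleGraph W₀} (j : ι₀ → A →g B) (κ : Type) (g : ℕ)
    (D : Finset (Sym2 W₀)) : Type 1 extends Sys A where
  /-- the projection -/
  π : H →g B
  /-- the copy below -/
  below : ι → ι₀
  proj : ∀ i a, π (emb i a) = j (below i) a
  sparse : Sparse toSys.E g
  tri : toSys.Tri
  ram : ∀ c : Sym2 W → κ, ∃ χ : Sym2 W₀ → κ, ∀ m, ∃ i, below i = m ∧ ∀ a b, A.Adj a b →
    s(j m a, j m b) ∈ D → c s(emb i a, emb i b) = χ s(j m a, j m b)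

variable {W₀ ι₀ : Type} {B : SimpleGraph W₀} {j : ι₀ → A →g B} {κ : Type} {g : ℕ}

theorem pic_zero [Finite α] [Finite ι₀] [Nonempty κ] : Nonempty (Pic j κ g ∅) := by
  let H : SimpleGraph (ι₀ × α) :=
    { Adj := fun u v => u.1 = v.1 ∧ A.Adj u.2 v.2
      symm := ⟨fun u v h => ⟨h.1.symm, h.2.symm⟩⟩
      loopless := ⟨fun u h => h.2.ne rfl⟩ }
  refine ⟨⟨⟨_, inferInstance, H, ι₀, inferInstance, fun m => ⟨⟨fun a => (m, a), fun a b h =>
    congrArg Prod.snd h⟩, fun {a b} => ⟨fun h => h.2, fun h => ⟨rfl, h⟩⟩⟩⟩,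
    ⟨fun u => j u.1 u.2, fun {u v} h => ?_⟩, id, fun _ _ => rfl, fun X h1 _ => ?_, ?_,
    fun c => ⟨fun _ => Classical.arbitrary κ, fun m => ⟨m, rfl, fun a b _ h => by simp at h⟩⟩⟩⟩
  · have := (j u.1).map_adj h.2
    rw [← show u.1 = v.1 from h.1]
    exact this
  · obtain ⟨x, hx, y, hy, hxy⟩ := Finset.one_lt_card.1 h1
    refine ⟨(· = x), ⟨x, hx, rfl⟩, ⟨y, hy, hxy.symm⟩, ?_⟩
    rintro e ⟨⟨i, -, rfl, a, b, -, rfl⟩, i', -, h, a', b', -, e⟩
    rcases Sym2.eq_iff.1 e with e | e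
    · exact absurd (congrArg Prod.fst e.1).symm h
    · exact absurd (congrArg Prod.fst e.1).symm h
  · rintro ⟨m, a⟩ ⟨m', b⟩ ⟨m'', c⟩ ⟨h1, -⟩ ⟨h2, -⟩ -
    obtain rfl : m = m' := h1
    obtain rfl : m = m'' := h2
    exact ⟨m, ⟨a, rfl⟩, ⟨b, rfl⟩, c, rfl⟩

section Step

variable {D : Finset (Sym2 W₀)} (P : Pic j κ g D) (x y : W₀)

/-- the bipartite part of a picture -/
def Pic.part : SimpleGraph {w : P.W // P.π w = x ∨ P.π w = y} := P.H.comap Subtype.val

variable {x y} (S : Sys (P.part x y))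

open Classical in
/-- the standard copies of the old picture -/
noncomputable def Pic.φ (c : S.ι) (w : P.W) : S.W ⊕ S.ι × P.W :=
  if h : P.π w = x ∨ P.π w = y then Sum.inl (S.emb c ⟨w, h⟩) else Sum.inr (c, w)

theorem Pic.φ_eq {c c' : S.ι} {a a' : P.W} (h : P.φ S c a = P.φ S c' a') :
    (c = c' ∧ a = a') ∨ ∃ ha ha', S.emb c ⟨a, ha⟩ = S.emb c' ⟨a', ha'⟩ := by
  unfold Pic.φ at h
  split_ifs at h with h1 h2 h2
  · exact Or.inr ⟨h1, h2, Sum.inl.inj h⟩
  · exact Or.inl (Prod.mk.inj (Sum.inr.inj h))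

theorem Pic.φ_inl (c : S.ι) {a : P.W} (h : P.π a = x ∨ P.π a = y) :
    P.φ S c a = Sum.inl (S.emb c ⟨a, h⟩) := dif_pos h

theorem Pic.φ_inj (c : S.ι) : Function.Injective (P.φ S c) := fun a a' h => by
  rcases P.φ_eq S h with h | ⟨_, _, h⟩
  · exact h.2
  · exact congrArg Subtype.val ((S.emb c).injective h)

/-- the amalgamated graph -/
def Pic.amal : SimpleGraph (S.W ⊕ S.ι × P.W) where
  Adj u v := ∃ c a b, P.H.Adj a b ∧ u = P.φ S c a ∧ v = P.φ S c b
  symm := ⟨fun _ _ ⟨c, a, b, h, h1, h2⟩ => ⟨c, b, a, h.symm, h2, h1⟩⟩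
  loopless := ⟨fun _ ⟨c, _, _, h, h1, h2⟩ => h.ne (P.φ_inj S c (h1.symm.trans h2))⟩

theorem Pic.amal_adj (c : S.ι) {a b : P.W} (h : (P.amal S).Adj (P.φ S c a) (P.φ S c b)) :
    P.H.Adj a b := by
  obtain ⟨c', a', b', h, h1, h2⟩ := h
  rcases P.φ_eq S h1 with ⟨rfl, rfl⟩ | ⟨ha, ha', e1⟩
  · rwa [P.φ_inj S c h2]
  rcases P.φ_eq S h2 with ⟨rfl, rfl⟩ | ⟨hb, hb', e2⟩
  · rwa [P.φ_inj S c h1]
  have : S.H.Adj (S.emb c' ⟨a', ha'⟩) (S.emb c' ⟨b', hb'⟩) := (S.emb c').map_adj_iff.2 h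
  rw [← e1, ← e2] at this
  exact (S.emb c).map_adj_iff.1 this

/-- the standard copies as embeddings -/
noncomputable def Pic.ψ (c : S.ι) : P.H ↪g P.amal S :=
  ⟨⟨P.φ S c, P.φ_inj S c⟩, ⟨P.amal_adj S c, fun h => ⟨c, _, _, h, rfl, rfl⟩⟩⟩

/-- the new system -/
noncomputable def Pic.sys : Sys A where
  W := S.W ⊕ S.ι × P.W
  finW := by
    have := S.finW
    have := S.finι
    have := P.finW
    infer_instance
  H := P.amal S
  ι := S.ι × P.ι
  finι := by
    have := S.finι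
    have := P.finι
    infer_instance
  emb z := (P.ψ S z.1).comp (P.emb z.2)

theorem Pic.sys_emb (z : S.ι × P.ι) (a : α) : (P.sys S).emb z a = P.φ S z.1 (P.emb z.2 a) := rfl

theorem Pic.meet {z z' : S.ι × P.ι} (h : z.1 ≠ z'.1) {e : Sym2 (P.sys S).W}
    (h1 : e ∈ (P.sys S).E z) (h2 : e ∈ (P.sys S).E z') : ∃ a b ha hb, A.Adj a b ∧
      e = s(Sum.inl (S.emb z.1 ⟨P.emb z.2 a, ha⟩), Sum.inl (S.emb z.1 ⟨P.emb z.2 b, hb⟩)) := by
  obtain ⟨a, b, hab, rfl⟩ := h1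
  obtain ⟨a', b', -, e⟩ := h2
  have k : ∀ {u v}, (P.sys S).emb z u = (P.sys S).emb z' v →
      P.π (P.emb z.2 u) = x ∨ P.π (P.emb z.2 u) = y := fun e =>
    (P.φ_eq S e).elim (fun e => absurd e.1 h) fun ⟨e, _⟩ => e
  have ha := (Sym2.eq_iff.1 e).elim (fun e => k e.1) fun e => k e.1
  have hb := (Sym2.eq_iff.1 e).elim (fun e => k e.2) fun e => k e.2
  exact ⟨a, b, ha, hb, hab, by rw [P.sys_emb, P.sys_emb, P.φ_inl S _ ha, P.φ_inl S _ hb]; rfl⟩

end Step

theorem Pic.sys_sparse {D : Finset (Sym2 W₀)} (P : Pic j κ (g + 1) D) {x y : W₀}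
    (S : Sys (P.part x y)) (hj : ∀ m, Function.Injective (j m)) (hS : Sparse S.E g) :
    Sparse (P.sys S).E (g + 1) := by
  classical
  intro X h1 h2
  change Finset (S.ι × P.ι) at X
  by_cases ha : ∀ z ∈ X, ∀ z' ∈ X, z.1 = z'.1
  · have hc : (X.image Prod.snd).card = X.card :=
      Finset.card_image_of_injOn fun z hz z' hz' e => Prod.ext (ha z hz z' hz') e
    obtain ⟨p, ⟨i, hi, p1⟩, ⟨i', hi', p2⟩, hp⟩ :=
      P.sparse (X.image Prod.snd) (hc ▸ h1) (hc ▸ h2)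
    obtain ⟨z, hz, rfl⟩ := Finset.mem_image.1 hi
    obtain ⟨z', hz', rfl⟩ := Finset.mem_image.1 hi'
    refine ⟨fun w => p w.2, ⟨z, hz, p1⟩, ⟨z', hz', p2⟩,
      (hp.image (Sym2.map (P.φ S z.1))).anti ?_⟩
    rintro e ⟨⟨w, hw, q, a, b, hab, rfl⟩, w', hw', q', a', b', hab', e⟩
    refine ⟨s(P.emb w.2 a, P.emb w.2 b), ⟨⟨w.2, Finset.mem_image_of_mem _ hw, q, a, b, hab, rfl⟩,
      w'.2, Finset.mem_image_of_mem _ hw', q', a', b', hab', ?_⟩, ?_⟩
    · apply Sym2.map.injective (P.φ_inj S w.1)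
      rw [Sym2.map_mk, Sym2.map_mk]
      refine e.trans ?_
      rw [ha w hw w' hw']
      rfl
    · rw [ha z hz w hw]
      rfl
  push Not at ha
  obtain ⟨z, hz, z', hz', hne⟩ := ha
  by_cases hb : (X.image Prod.fst).card ≤ g
  · obtain ⟨p, ⟨i, hi, p1⟩, ⟨i', hi', p2⟩, hp⟩ := hS (X.image Prod.fst) (Finset.one_lt_card.2
      ⟨_, Finset.mem_image_of_mem _ hz, _, Finset.mem_image_of_mem _ hz', hne⟩) hb
    obtain ⟨u, hu, rfl⟩ := Finset.mem_image.1 hi
    obtain ⟨u', hu', rfl⟩ := Finset.mem_image.1 hi'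
    refine ⟨fun w => p w.1, ⟨u, hu, p1⟩, ⟨u', hu', p2⟩, (hp.image (Sym2.map Sum.inl)).anti ?_⟩
    rintro e ⟨⟨w, hw, q, he⟩, w', hw', q', he'⟩
    have hw1 : w.1 ≠ w'.1 := fun e => q' (show p w'.1 from e ▸ q)
    obtain ⟨a, b, ha, hb, hab, e1⟩ := P.meet S hw1 he he'
    obtain ⟨a', b', ha', hb', hab', e2⟩ := P.meet S hw1.symm he' he
    refine ⟨_, ⟨⟨w.1, Finset.mem_image_of_mem _ hw, q, ⟨_, ha⟩, ⟨_, hb⟩,
      (P.emb w.2).map_adj_iff.2 hab, rfl⟩, w'.1, Finset.mem_image_of_mem _ hw', q', ⟨_, ha'⟩,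
      ⟨_, hb'⟩, (P.emb w'.2).map_adj_iff.2 hab', ?_⟩, e1.symm⟩
    exact Sym2.map.injective Sum.inl_injective (e1.symm.trans e2)
  have hi : InjOn Prod.fst (X : Set (S.ι × P.ι)) :=
    Finset.injOn_of_card_image_eq (le_antisymm Finset.card_image_le (h2.trans (not_le.1 hb)))
  refine ⟨(· = z), ⟨z, hz, rfl⟩, ⟨z', hz', fun e => hne (e ▸ rfl)⟩, ?_⟩
  have key : ∀ e, ((∃ w ∈ X, w = z ∧ e ∈ (P.sys S).E w) ∧ ∃ w ∈ X, ¬ w = z ∧ e ∈ (P.sys S).E w) →
      ∃ a b, e = Sym2.map ((P.sys S).emb z) s(a, b) ∧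
        Sym2.map (j (P.below z.2)) s(a, b) = s(x, y) := by
    rintro e ⟨⟨w, hw, rfl, he⟩, w', hw', q', he'⟩
    obtain ⟨a, b, ha, hb, hab, e1⟩ := P.meet S (fun e => q' (hi hw hw' e).symm) he he'
    refine ⟨a, b, by
      rw [e1, Sym2.map_mk, P.sys_emb, P.sys_emb, P.φ_inl S _ ha, P.φ_inl S _ hb]; rfl, ?_⟩
    rw [P.proj] at ha hb
    have := ((j (P.below w.2)).map_adj hab).ne
    rw [Sym2.map_mk, Sym2.eq_iff]
    rcases ha with ha | ha <;> rcases hb with hb | hb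
    · exact absurd (ha.trans hb.symm) this
    · exact Or.inl ⟨ha, hb⟩
    · exact Or.inr ⟨ha, hb⟩
    · exact absurd (ha.trans hb.symm) this
  intro e he e' he'
  obtain ⟨a, b, rfl, e1⟩ := key e he
  obtain ⟨a', b', rfl, e2⟩ := key e' he'
  rw [Sym2.map.injective (hj _) (e1.trans e2.symm)]

theorem pic_step [DecidableEq (Sym2 W₀)] {D : Finset (Sym2 W₀)} (P : Pic j κ (g + 1) D)
    (hj : ∀ m, Function.Injective (j m)) (hR : RB κ g) (e : Sym2 W₀) :
    Nonempty (Pic j κ (g + 1) (insert e D)) := by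
  classical
  induction e using Sym2.ind with
  | _ x y =>
  have := P.finW
  obtain ⟨S, t, h1, h2, h3, h4⟩ := hR _ (P.part x y) (fun w => decide (P.π w.1 = x)) fun a b h e =>
    (P.π.map_adj h).ne (by
      by_cases ha : P.π a.1 = x
      · exact ha.trans (of_decide_eq_true (e ▸ decide_eq_true ha)).symm
      · exact (a.2.resolve_left ha).trans
          (b.2.resolve_left (of_decide_eq_false (e ▸ decide_eq_false ha))).symm)
  let π : S.W ⊕ S.ι × P.W → W₀ := Sum.elim (fun v => if t v then x else y) fun z => P.π z.2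
  have hπ : ∀ c w, π (P.φ S c w) = P.π w := fun c w => by
    unfold Pic.φ
    split_ifs with h
    · simp only [π, Sum.elim_inl, h2, decide_eq_true_eq]
      split_ifs with h'
      exacts [h'.symm, (h.resolve_left h').symm]
    · rfl
  have hom : ∀ {u v}, (P.amal S).Adj u v → B.Adj (π u) (π v) := by
    rintro _ _ ⟨c, a, b, h, rfl, rfl⟩
    rw [hπ, hπ]
    exact P.π.map_adj h
  have tri : ∀ u v w, (P.amal S).Adj u v → (P.amal S).Adj u w → (P.amal S).Adj v w →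
      ¬ (π u = x ∨ π u = y) → ∃ i, u ∈ range ((P.sys S).emb i) ∧
        v ∈ range ((P.sys S).emb i) ∧ w ∈ range ((P.sys S).emb i) := by
    rintro _ _ _ ⟨c, a, b, h, rfl, rfl⟩ ⟨c', a', d, h', e, rfl⟩ h'' hu
    rw [hπ] at hu
    obtain ⟨rfl, rfl⟩ := (P.φ_eq S e).resolve_right fun ⟨ha, _⟩ => hu ha
    obtain ⟨i, ⟨_, rfl⟩, ⟨_, rfl⟩, _, rfl⟩ := P.tri a b d h h' (P.amal_adj S c h'')
    exact ⟨(c, i), ⟨_, rfl⟩, ⟨_, rfl⟩, _, rfl⟩
  refine ⟨⟨P.sys S, ⟨π, hom⟩, fun z => P.below z.2, fun z a => (hπ _ _).trans (P.proj _ _),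
    P.sys_sparse S hj h4, fun u v w a b c => ?_, fun c => ?_⟩⟩
  · by_cases hu : π u = x ∨ π u = y
    · by_cases hv : π v = x ∨ π v = y
      · have hw : ¬ (π w = x ∨ π w = y) := fun hw => by
          have := (hom a).ne
          have := (hom b).ne
          have := (hom c).ne
          rcases hu with hu | hu <;> rcases hv with hv | hv <;> rcases hw with hw | hw <;>
            simp_all
        obtain ⟨i, p, q, r⟩ := tri w u v b.symm c.symm a hw
        exact ⟨i, q, r, p⟩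
      · obtain ⟨i, p, q, r⟩ := tri v u w a.symm c b hv
        exact ⟨i, q, p, r⟩
    · exact tri u v w a b c hu
  · obtain ⟨i, k, hk⟩ := h3 (c ∘ Sym2.map Sum.inl)
    obtain ⟨χ, hχ⟩ := P.ram (c ∘ Sym2.map (P.φ S i))
    refine ⟨Function.update χ s(x, y) k, fun m => ?_⟩
    obtain ⟨l, rfl, hl⟩ := hχ m
    refine ⟨(i, l), rfl, fun a b hab hD => ?_⟩
    by_cases he : s(j (P.below l) a, j (P.below l) b) = s(x, y)
    · rw [he, Function.update_self]
      rw [← P.proj, ← P.proj, Sym2.eq_iff] at he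
      have ha : P.π (P.emb l a) = x ∨ P.π (P.emb l a) = y := he.imp And.left And.left
      have hb : P.π (P.emb l b) = x ∨ P.π (P.emb l b) = y := he.symm.imp And.right And.right
      rw [← hk ⟨_, ha⟩ ⟨_, hb⟩ ((P.emb l).map_adj_iff.2 hab), P.sys_emb, P.sys_emb,
        P.φ_inl S _ ha, P.φ_inl S _ hb]
      rfl
    · rw [Function.update_of_ne he]
      exact hl a b hab ((Finset.mem_insert.1 hD).resolve_left he)

theorem exists_sys [Finite α] [Finite ι₀] [Finite W₀] [Nonempty κ]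
    (hj : ∀ m, Function.Injective (j m)) (hR : RB κ g)
    (hB : ∀ c : Sym2 W₀ → κ, ∃ m k, ∀ a b, A.Adj a b → c s(j m a, j m b) = k) :
    ∃ (S : Sys A) (π : S.H →g B), (∀ i, ∃ m, ∀ a, π (S.emb i a) = j m a) ∧ S.Ram κ ∧
      Sparse S.E (g + 1) ∧ S.Tri := by
  classical
  have := Fintype.ofFinite (Sym2 W₀)
  have h : ∀ D, Nonempty (Pic j κ (g + 1) D) := fun D => by
    induction D using Finset.induction_on with
    | empty => exact pic_zero
    | insert e D _ ih => exact ih.elim fun P => pic_step P hj hR e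
  obtain ⟨P⟩ := h Finset.univ
  refine ⟨P.toSys, P.π, fun i => ⟨_, P.proj i⟩, fun c => ?_, P.sparse, P.tri⟩
  obtain ⟨χ, hχ⟩ := P.ram c
  obtain ⟨m, k, hk⟩ := hB χ
  obtain ⟨i, -, hi⟩ := hχ m
  exact ⟨i, k, fun a b h => (hi a b h (Finset.mem_univ _)).trans (hk a b h)⟩

theorem rb (κ : Type) [Finite κ] [Nonempty κ] (g : ℕ) : RB κ (g + 1) := by
  induction g with
  | zero => exact rb_one κ
  | succ g ih =>
    intro α _ A s hs
    obtain ⟨S, t, h1, h2, h3, -⟩ := rb_one κ α A s hs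
    have := S.finW
    have := S.finι
    obtain ⟨T, π, h4, h5, h6, -⟩ := exists_sys (j := fun i => (S.emb i).toHom)
      (fun i => (S.emb i).injective) ih h3
    refine ⟨T, t ∘ π, fun x y h => h1 _ _ (π.map_adj h), fun i a => ?_, h5, h6⟩
    obtain ⟨m, hm⟩ := h4 i
    exact (congrArg t (hm a)).trans (h2 m a)

end Pool.Agent.P.MP_48d4bc_co
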