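import Mathlib
import Pool.Agent.K.MP_48d4bc_co.C1
import Pool.Agent.P.MP_48d4bc_co.Defs

-- part Pool.Agent.P.MP_48d4bc_co.Host
section

set_option autoImplicit false

namespace Pool.Agent.P.MP_48d4bc_co

/-- Well founded trees with marked children. -/
inductive Tr (Θ : Type) : Type
  | mk (s : Set Θ) (ch : s → Tr Θ) (fl : Set Θ) : Tr Θ

namespace Tr

variable {Θ : Type}

/-- Rank of a tree. -/
noncomputable def rk : Tr Θ → Ordinal.{0}
  | mk _ ch _ => ⨆ i, Order.succ (rk (ch i))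

/-- `u` is a marked child of `v`. -/
def Nb (u : Tr Θ) : Tr Θ → Prop
  | mk _ ch fl => ∃ i, ch i = u ∧ i.1 ∈ fl

theorem rk_lt (s : Set Θ) (ch : s → Tr Θ) (fl : Set Θ) (i : s) : rk (ch i) < rk (mk s ch fl) := by
  rw [rk]
  exact Order.succ_le_iff.1 (Ordinal.le_iSup (fun i => Order.succ (rk (ch i))) i)

theorem Nb.rk_lt {u v : Tr Θ} (h : Nb u v) : rk u < rk v := by
  obtain ⟨s, ch, fl⟩ := v
  obtain ⟨i, rfl, _⟩ := h
  exact Tr.rk_lt s ch fl i

/-- The raw graph. -/
def raw (Θ : Type) : SimpleGraph (Tr Θ) where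
  Adj u v := Nb u v ∨ Nb v u
  symm := ⟨fun _ _ h => h.symm⟩
  loopless := ⟨fun _ h => by rcases h with h | h <;> exact lt_irrefl _ h.rk_lt⟩

/-- The marked children span no `n`-clique. -/
def Ok (n : ℕ) (v : Tr Θ) : Prop :=
  ∀ t : Finset (Tr Θ), (∀ u ∈ t, Nb u v) → ¬ (raw Θ).IsNClique n t

end Tr

open Tr

/-- A graph without `(n+1)`-cliques having the extension property for `Θ`-indexed families. -/
theorem exists_host (Θ : Type) {n : ℕ} (hn : 1 ≤ n) :
    ∃ (V : Type) (_ : Nonempty V) (G : SimpleGraph V), G.CliqueFree (n + 1) ∧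
      ∀ (y : Θ → V) (A : Set V), (∀ t : Finset V, ↑t ⊆ A → ¬ G.IsNClique n t) →
        ∃ z, ∀ i, z ≠ y i ∧ (G.Adj (y i) z ↔ y i ∈ A) := by
  classical
  let V : Type := {v : Tr Θ // Ok n v}
  let G : SimpleGraph V := (raw Θ).comap Subtype.val
  have hleaf : Ok n (Tr.mk (∅ : Set Θ) (fun i => i.2.elim) ∅) := by
    intro t ht hc
    obtain ⟨u, hu⟩ : t.Nonempty := Finset.card_pos.1 (by rw [hc.card_eq]; omega)
    obtain ⟨i, _, _⟩ := ht u hu
    exact i.2
  refine ⟨V, ⟨⟨_, hleaf⟩⟩, G, ?_, ?_⟩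
  · intro t ht
    have hne : t.Nonempty := Finset.card_pos.1 (by rw [ht.card_eq]; omega)
    obtain ⟨v, hv, hmax⟩ := Finset.exists_max_image t (fun v => rk v.1) hne
    refine v.2 ((t.erase v).map (Function.Embedding.subtype _)) ?_ ⟨?_, ?_⟩
    · intro u hu
      obtain ⟨w, hw, rfl⟩ := Finset.mem_map.1 hu
      obtain ⟨hwv, hwt⟩ := Finset.mem_erase.1 hw
      rcases ht.isClique hwt hv hwv with h | h
      · exact h
      · exact absurd h.rk_lt (not_lt.2 (hmax w hwt))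
    · intro u hu u' hu' hne
      obtain ⟨w, hw, rfl⟩ := Finset.mem_map.1 hu
      obtain ⟨w', hw', rfl⟩ := Finset.mem_map.1 hu'
      exact ht.isClique (Finset.mem_of_mem_erase hw) (Finset.mem_of_mem_erase hw')
        (fun h => hne (by rw [h]))
    · rw [Finset.card_map, Finset.card_erase_of_mem hv, ht.card_eq]
      rfl
  · intro y A hA
    let z : Tr Θ := Tr.mk Set.univ (fun i => (y i.1).1) {i | y i ∈ A}
    have hz : Ok n z := by
      intro t ht hc
      refine hA (t.subtype _) ?_ ⟨?_, ?_⟩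
      · intro w hw
        obtain ⟨i, hi, hiA⟩ := ht w.1 (Finset.mem_subtype.1 hw)
        have : y i.1 = w := Subtype.ext hi
        rw [← this]
        exact hiA
      · intro w hw w' hw' hne
        exact hc.isClique (Finset.mem_subtype.1 hw) (Finset.mem_subtype.1 hw')
          (fun h => hne (Subtype.ext h))
      · rw [Finset.card_subtype, Finset.filter_true_of_mem, hc.card_eq]
        intro u hu
        obtain ⟨i, hi, _⟩ := ht u hu
        rw [← hi]
        exact (y i.1).2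
    have hrk : ∀ i, rk (y i).1 < rk z := fun i =>
      Tr.rk_lt Set.univ (fun i => (y i.1).1) {i | y i ∈ A} ⟨i, trivial⟩
    refine ⟨⟨z, hz⟩, fun i => ⟨fun h => ?_, ?_, fun h => Or.inl ⟨⟨i, trivial⟩, rfl, h⟩⟩⟩
    · have := hrk i
      rw [← h] at this
      exact lt_irrefl _ this
    · rintro (h | h)
      · obtain ⟨i', hi', hA'⟩ := h
        have : y i'.1 = y i := Subtype.ext hi'
        rw [← this]
        exact hA'
      · exact absurd h.rk_lt (not_lt.2 (hrk i).le)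

end Pool.Agent.P.MP_48d4bc_co
end

-- part Pool.Agent.P.MP_48d4bc_co.Reflect
section

set_option autoImplicit false

namespace Pool.Agent.P.MP_48d4bc_co

/-- No chain of `n` cones with a common point. -/
def NoChain (n : ℕ) {X J : Type} (lab : J → X) (F : J → Set X) : Prop :=
  ∀ (ι : Type) [LinearOrder ι] (u : Finset ι) (k : ι → J) (η : X), u.card = n →
    (∀ β ∈ u, ∀ α ∈ u, β < α → lab (k α) ∈ F (k β)) → (∀ β ∈ u, η ∈ F (k β)) → False

theorem ext_on {n : ℕ} {X J Θ V : Type} [LinearOrder Θ] [Nonempty V] {lab : J → X}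
    {F : J → Set X} (hfree : NoChain n lab F) {G : SimpleGraph V}
    (hG : ∀ (y : Θ → V) (A : Set V), (∀ t : Finset V, ↑t ⊆ A → ¬ G.IsNClique n t) →
      ∃ z, ∀ i, z ≠ y i ∧ (G.Adj (y i) z ↔ y i ∈ A))
    (k : Θ → J) (y : Θ → V) (S : Set Θ)
    (hS : ∀ α ∈ S, ∀ β ∈ S, β < α → y α ≠ y β ∧ (G.Adj (y β) (y α) ↔ lab (k α) ∈ F (k β)))
    (η : X) : ∃ v, ∀ β ∈ S, v ≠ y β ∧ (G.Adj (y β) v ↔ η ∈ F (k β)) := by
  classical
  have hinj : Set.InjOn y S := by
    intro α hα β hβ h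
    rcases lt_trichotomy α β with hlt | heq | hlt
    · exact absurd h.symm (hS β hβ α hα hlt).1
    · exact heq
    · exact absurd h (hS α hα β hβ hlt).1
  let y' : Θ → V := fun β => if β ∈ S then y β else Classical.arbitrary V
  obtain ⟨v, hv⟩ := hG y' (y '' {β | β ∈ S ∧ η ∈ F (k β)}) (by
    intro t ht hc
    obtain ⟨u, hu, rfl⟩ := Finset.subset_set_image_iff.1 ht
    have huS : ∀ β ∈ u, β ∈ S := fun β hβ => (hu hβ).1
    refine hfree Θ u k η ?_ ?_ fun β hβ => (hu hβ).2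
    · rw [← hc.card_eq, Finset.card_image_of_injOn (hinj.mono huS)]
    · intro β hβ α hα hlt
      have h := hS α (huS α hα) β (huS β hβ) hlt
      exact h.2.1 (hc.isClique (Finset.mem_image_of_mem y hβ) (Finset.mem_image_of_mem y hα)
        h.1.symm))
  refine ⟨v, fun β hβ => ?_⟩
  have h := hv β
  simp only [y', if_pos hβ] at h
  refine ⟨h.1, h.2.trans ⟨?_, fun hη => ⟨β, ⟨hβ, hη⟩, rfl⟩⟩⟩
  rintro ⟨β', hβ', he⟩
  rw [← hinj hβ'.1 hβ he]
  exact hβ'.2

/-- The reflection lemma. -/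
theorem reflect {n : ℕ} (hn : 1 ≤ n) {X J : Type} (I C : Type) [Nonempty J] [Nonempty C]
    (lab : J → X) (F : J → Set X) (hfree : NoChain n lab F) :
    ∃ (V : Type) (G : SimpleGraph V), G.CliqueFree (n + 1) ∧ ∀ c : Sym2 V → C,
      ∃ (Θ : Type) (_ : LinearOrder Θ) (_ : Nonempty Θ) (k : Θ → J) (y : Θ → V) (z : X → V),
        (∀ β α, β < α → lab (k α) ∈ F (k β) → G.Adj (y β) (y α)) ∧
        (∀ β η, η ∈ F (k β) → G.Adj (y β) (z η)) ∧
        ∀ (j : J) (D : I → Θ), ∃ α, k α = j ∧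
          ∀ i, D i < α ∧ c s(y (D i), y α) = c s(y (D i), z (lab j)) := by
  classical
  obtain ⟨Θ, _, _, hΘ, k, D, g, hbook⟩ := exists_book J I C
  obtain ⟨V, hV, G, hG, hext⟩ := exists_host Θ hn
  refine ⟨V, G, hG, fun c => ?_⟩
  let Q1 : Θ → (Θ → V) → V → Prop := fun α y v =>
    ∀ β, β < α → v ≠ y β ∧ (G.Adj (y β) v ↔ lab (k α) ∈ F (k β))
  let Q2 : Θ → (Θ → V) → V → Prop := fun α y v =>
    ∀ i, D α i < α → c s(y (D α i), v) = g α i
  have hQ1 : ∀ α y y', (∀ ζ, ζ < α → y ζ = y' ζ) → Q1 α y = Q1 α y' := by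
    intro α y y' h
    funext v
    simp only [Q1]
    exact propext (forall_congr' fun β => forall_congr' fun hβ => by rw [h β hβ])
  have hQ2 : ∀ α y y', (∀ ζ, ζ < α → y ζ = y' ζ) → Q2 α y = Q2 α y' := by
    intro α y y' h
    funext v
    simp only [Q2]
    exact propext (forall_congr' fun i => forall_congr' fun hi => by rw [h _ hi])
  obtain ⟨y, hy⟩ := exists_rec_rel
    (fun α y v => Q1 α y v ∧ ((∃ v', Q1 α y v' ∧ Q2 α y v') → Q2 α y v))
    (fun α y y' h => by rw [hQ1 α y y' h, hQ2 α y y' h])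
  have hstep : ∀ α, (∃ v, Q1 α y v) →
      Q1 α y (y α) ∧ ((∃ v', Q1 α y v' ∧ Q2 α y v') → Q2 α y (y α)) := by
    rintro α ⟨v, hv⟩
    apply hy
    by_cases h : ∃ v', Q1 α y v' ∧ Q2 α y v'
    · obtain ⟨v', h1, h2⟩ := h
      exact ⟨v', h1, fun _ => h2⟩
    · exact ⟨v, hv, fun h' => absurd h' h⟩
  have hall : ∀ α, Q1 α y (y α) := by
    intro α
    induction α using WellFoundedLT.induction with
    | ind α ih =>
      obtain ⟨v, hv⟩ := ext_on hfree hext k y (Set.Iio α)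
        (fun γ hγ β _ hlt => ih γ hγ β hlt) (lab (k α))
      exact (hstep α ⟨v, hv⟩).1
  choose z hz using ext_on hfree hext k y Set.univ (fun γ _ β _ hlt => hall γ β hlt)
  refine ⟨Θ, inferInstance, hΘ, k, y, z, fun β α hlt h => (hall α β hlt).2.2 h,
    fun β η h => (hz η β trivial).2.2 h, fun j D' => ?_⟩
  obtain ⟨α, h1, h2, h3, h4⟩ := hbook j D' (fun i => c s(y (D' i), z (lab j)))
  refine ⟨α, h1, fun i => ⟨h4 i, ?_⟩⟩
  have h5 := (hstep α ⟨_, hall α⟩).2 ⟨z (lab j), fun β _ => by rw [h1]; exact hz _ β trivial,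
    fun i _ => by rw [h2, h3]⟩ i (by rw [h2]; exact h4 i)
  rw [h2, h3] at h5
  exact h5

end Pool.Agent.P.MP_48d4bc_co
end

-- part Pool.Agent.P.MP_48d4bc_co.Clique
section

set_option autoImplicit false

namespace Pool.Agent.P.MP_48d4bc_co

theorem noChain_of_isCone {X : Type} [DecidableEq X] {r : ℕ} {T : Finset X → Prop} :
    NoChain (r + 2) (fun p : {p : X × Set X // IsCone (r + 1) T p.1 p.2} => p.1.1)
      (fun p => p.1.2) := by
  classical
  intro ι _ u k η hu h1 h2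
  have hne : u.Nonempty := Finset.card_pos.1 (by omega)
  set β₁ := u.min' hne with hβ₁
  have hm1 : β₁ ∈ u := u.min'_mem hne
  have hc1 : (u.erase β₁).card = r + 1 := by rw [Finset.card_erase_of_mem hm1, hu]; rfl
  have hne' : (u.erase β₁).Nonempty := Finset.card_pos.1 (by omega)
  set β₂ := (u.erase β₁).min' hne' with hβ₂
  have hm2 : β₂ ∈ u.erase β₁ := (u.erase β₁).min'_mem hne'
  set w := (u.erase β₁).erase β₂ with hw
  have hc2 : w.card = r := by rw [hw, Finset.card_erase_of_mem hm2, hc1]; rfl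
  have hwu : ∀ γ ∈ w, γ ∈ u := fun γ h => Finset.mem_of_mem_erase (Finset.mem_of_mem_erase h)
  have hlt1 : ∀ γ ∈ u.erase β₁, β₁ < γ := fun γ h => Finset.min'_lt_of_mem_erase_min' u hne h
  have hlt2 : ∀ γ ∈ w, β₂ < γ := fun γ h => Finset.min'_lt_of_mem_erase_min' _ hne' h
  let a : ι → X := fun γ => (k γ).1.1
  have hinj : Set.InjOn a ↑w := by
    intro γ hγ γ' hγ' he
    rcases lt_trichotomy γ γ' with h | h | h
    · have h3 := h1 γ (hwu γ hγ) γ' (hwu γ' hγ') h
      exact absurd (show a γ ∈ (k γ).1.2 from he ▸ h3) (k γ).2.1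
    · exact h
    · have h3 := h1 γ' (hwu γ' hγ') γ (hwu γ hγ) h
      exact absurd (show a γ' ∈ (k γ').1.2 from he ▸ h3) (k γ').2.1
  have hη : η ∉ w.image a := by
    intro h
    obtain ⟨γ, hγ, he⟩ := Finset.mem_image.1 h
    exact (k γ).2.1 (show a γ ∈ (k γ).1.2 from he ▸ h2 γ (hwu γ hγ))
  have hs : (insert η (w.image a)).card = r + 1 := by
    rw [Finset.card_insert_of_notMem hη, Finset.card_image_of_injOn hinj, hc2]
  have hsub : ∀ β ∈ u, (∀ γ ∈ w, β < γ) → ↑(insert η (w.image a)) ⊆ (k β).1.2 := by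
    intro β hβ hlt x hx
    rcases Finset.mem_insert.1 hx with rfl | hx
    · exact h2 β hβ
    · obtain ⟨γ, hγ, rfl⟩ := Finset.mem_image.1 hx
      exact h1 β hβ γ (hwu γ hγ) (hlt γ hγ)
  have hs2 := hsub β₂ (Finset.mem_of_mem_erase hm2) hlt2
  have hT := (k β₂).2.2.1 _ hs2 hs
  refine (k β₁).2.2.2 _ ?_ ?_ hT
  · rw [Finset.coe_insert]
    exact Set.insert_subset (h1 β₁ hm1 β₂ (Finset.mem_of_mem_erase hm2) (hlt1 β₂ hm2))
      (hsub β₁ hm1 fun γ hγ => hlt1 γ (Finset.mem_of_mem_erase hγ))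
  · rw [Finset.card_insert_of_notMem (fun h => (k β₂).2.1 (hs2 h)), hs]

/-- A graph without `(r+3)`-cliques such that every edge colouring with colours from `C` has a
monochromatic `(r+2)`-clique. -/
theorem clique_ramsey (r : ℕ) (C : Type) [Nonempty C] :
    ∃ (V : Type) (G : SimpleGraph V), G.CliqueFree (r + 3) ∧ ∀ c : Sym2 V → C,
      ∃ (t : Finset V) (j : C), G.IsNClique (r + 2) t ∧ ∀ u ∈ t, ∀ v ∈ t, u ≠ v → c s(u, v) = j := by
  classical
  obtain ⟨X, _, _, T, hX⟩ := coneRamsey (r + 1) (ℕ → Set C) (C × ℕ)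
  let J : Type := {p : X × Set X // IsCone (r + 1) T p.1 p.2}
  have hJ : Nonempty J := by
    obtain ⟨a, F, _, _, h, _⟩ := hX (fun _ _ => ∅)
    exact ⟨⟨(a, F), h⟩⟩
  obtain ⟨V, G, hG, hV⟩ := reflect (n := r + 2) (by omega) (Finset X × ℕ × C × ℕ) C
    (fun p : J => p.1.1) (fun p => p.1.2) noChain_of_isCone
  refine ⟨V, G, hG, fun c => ?_⟩
  obtain ⟨Θ, _, hΘ, k, y, z, h1, h2, h3⟩ := hV c
  let Wit : ℕ → Finset X → C → Finset Θ → Prop := fun i s j W => W.card = i ∧
    (∀ β ∈ W, ∀ α ∈ W, β < α → (k α).1.1 ∈ (k β).1.2 ∧ c s(y β, y α) = j) ∧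
      ∀ β ∈ W, ∀ η ∈ s, η ∈ (k β).1.2 ∧ c s(y β, z η) = j
  obtain ⟨a, F, hF, haF, hcone, hhom⟩ := hX (fun s i => {j | ∃ W, Wit i s j W})
  have hen : ∀ W : Finset Θ, ∃ e : ℕ → Θ, ↑W ⊆ Set.range e := fun W =>
    Set.countable_iff_exists_subset_range.1 W.countable_toSet
  choose en hen using hen
  obtain ⟨α, hα, hD⟩ := h3 ⟨(a, F), hcone⟩
    (fun q => en (Classical.epsilon (Wit q.2.1 q.1 q.2.2.1)) q.2.2.2)
  have hinf : ∃ j, {η | η ∈ F ∧ c s(y α, z η) = j}.Infinite := by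
    by_contra hc
    push Not at hc
    have : Nonempty X := ⟨a⟩
    have h4 : ∀ j, ∃ e : ℕ → X, {η | η ∈ F ∧ c s(y α, z η) = j} ⊆ Set.range e := fun j =>
      Set.countable_iff_exists_subset_range.1 (hc j).countable
    choose e he using h4
    refine hF (fun q => e q.1 q.2) fun η hη => ?_
    obtain ⟨t, ht⟩ := he _ ⟨hη, rfl⟩
    exact ⟨(_, t), ht⟩
  obtain ⟨j, hj⟩ := hinf
  have main : ∀ i m, i + m = r + 2 → 1 ≤ m → ∀ s : Finset X, ↑s ⊆ insert a F → s.card = m →
      ∃ W, Wit i s j W := by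
    intro i
    induction i with
    | zero =>
      intro m _ _ s _ _
      exact ⟨∅, rfl, by simp, by simp⟩
    | succ i ih =>
      intro m hm hm1 s hs hcard
      obtain ⟨s₀, hs₀, hc₀⟩ := hj.exists_subset_card_eq m
      have hs₀F : ↑s₀ ⊆ F := fun η hη => (hs₀ hη).1
      have ha : a ∉ s₀ := fun h => hcone.1 (hs₀F h)
      have hex := ih (m + 1) (by omega) (by omega) (insert a s₀)
        (by rw [Finset.coe_insert]; exact Set.insert_subset_insert hs₀F)
        (by rw [Finset.card_insert_of_notMem ha, hc₀])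
      have hW := Classical.epsilon_spec hex
      set W := Classical.epsilon (Wit i (insert a s₀) j) with hWdef
      have hcov : ∀ β ∈ W, β < α ∧ c s(y β, y α) = c s(y β, z a) := by
        intro β hβ
        obtain ⟨t, ht⟩ := hen W hβ
        have := hD (insert a s₀, i, j, t)
        simp only [← hWdef, ht] at this
        exact this
      have hnew : Wit (i + 1) s₀ j (insert α W) := by
        refine ⟨?_, ?_, ?_⟩
        · rw [Finset.card_insert_of_notMem (fun h => lt_irrefl _ (hcov α h).1), hW.1]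
        · intro β hβ γ hγ hlt
          rcases Finset.mem_insert.1 hγ with hγ' | hγ' <;>
            rcases Finset.mem_insert.1 hβ with hβ' | hβ'
          · rw [hγ', hβ'] at hlt
            exact absurd hlt (lt_irrefl _)
          · have h5 := hW.2.2 β hβ' a (Finset.mem_insert_self _ _)
            rw [hγ', hα, (hcov β hβ').2]
            exact h5
          · rw [hβ'] at hlt
            exact absurd hlt (not_lt.2 (hcov γ hγ').1.le)
          · exact hW.2.1 β hβ' γ hγ' hlt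
        · intro β hβ η hη
          rcases Finset.mem_insert.1 hβ with rfl | hβ
          · rw [hα]
            exact hs₀ hη
          · exact hW.2.2 β hβ η (Finset.mem_insert_of_mem hη)
      have h6 := congrFun (hhom s₀ s (hs₀F.trans (Set.subset_insert _ _)) hs
        (by rw [hc₀, hcard]) (by omega)) (i + 1)
      have h7 : j ∈ {j | ∃ W, Wit (i + 1) s₀ j W} := ⟨_, hnew⟩
      rw [h6] at h7
      exact h7
  obtain ⟨W, hW1, hW2, hW3⟩ := main (r + 1) 1 rfl le_rfl {a} (by simp) rfl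
  have hadj : ∀ β ∈ W, ∀ γ ∈ W, β ≠ γ → G.Adj (y β) (y γ) ∧ c s(y β, y γ) = j := by
    intro β hβ γ hγ hne
    rcases lt_or_gt_of_ne hne with h | h
    · exact ⟨h1 β γ h (hW2 β hβ γ hγ h).1, (hW2 β hβ γ hγ h).2⟩
    · exact ⟨(h1 γ β h (hW2 γ hγ β hβ h).1).symm, by rw [Sym2.eq_swap]; exact (hW2 γ hγ β hβ h).2⟩
  have hz : ∀ β ∈ W, G.Adj (y β) (z a) ∧ c s(y β, z a) = j := fun β hβ =>
    ⟨h2 β a (hW3 β hβ a (by simp)).1, (hW3 β hβ a (by simp)).2⟩
  have hall : ∀ u ∈ insert (z a) (W.image y), ∀ v ∈ insert (z a) (W.image y), u ≠ v →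
      G.Adj u v ∧ c s(u, v) = j := by
    intro u hu v hv hne
    rcases Finset.mem_insert.1 hu with rfl | hu
    · rcases Finset.mem_insert.1 hv with rfl | hv
      · exact absurd rfl hne
      · obtain ⟨γ, hγ, rfl⟩ := Finset.mem_image.1 hv
        exact ⟨(hz γ hγ).1.symm, by rw [Sym2.eq_swap]; exact (hz γ hγ).2⟩
    · obtain ⟨β, hβ, rfl⟩ := Finset.mem_image.1 hu
      rcases Finset.mem_insert.1 hv with rfl | hv
      · exact hz β hβ
      · obtain ⟨γ, hγ, rfl⟩ := Finset.mem_image.1 hv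
        exact hadj β hβ γ hγ fun h => hne (by rw [h])
  refine ⟨insert (z a) (W.image y), j, ⟨fun u hu v hv hne => (hall u hu v hv hne).1, ?_⟩,
    fun u hu v hv hne => (hall u hu v hv hne).2⟩
  rw [Finset.card_insert_of_notMem, Finset.card_image_of_injOn, hW1]
  · intro β hβ γ hγ he
    by_contra hne
    exact (hadj β hβ γ hγ hne).1.ne he
  · intro h
    obtain ⟨γ, hγ, he⟩ := Finset.mem_image.1 h
    exact (hz γ hγ).1.ne he

end Pool.Agent.P.MP_48d4bc_co
end

-- part Pool.Agent.P.MP_48d4bc_co.CliqueMain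
section

set_option autoImplicit false

namespace Pool.Agent.P.MP_48d4bc_co

universe u

theorem clique_host {α β : Type} [Finite β] (G₁ : SimpleGraph α) (G₂ : SimpleGraph β)
    (h : ¬ G₁.CliqueFree (Nat.card β + 1)) :
    ∃ (V : Type u) (H : SimpleGraph V), G₁.Free H ∧ ∀ c : Sym2 V → ℕ, HasMonoCopy G₂ H c := by
  classical
  have := Fintype.ofFinite β
  have hsmall : ∀ (W : Type) (K : SimpleGraph W), K.CliqueFree (Nat.card β + 1) →
      (∀ c : Sym2 W → ℕ, ∃ (t : Finset W) (j : ℕ), K.IsNClique (Nat.card β) t ∧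
        ∀ x ∈ t, ∀ y ∈ t, x ≠ y → c s(x, y) = j) →
      ∃ (V : Type u) (H : SimpleGraph V), G₁.Free H ∧ ∀ c : Sym2 V → ℕ, HasMonoCopy G₂ H c := by
    intro W K hK hc
    refine ⟨ULift.{u} W, K.comap ULift.down, ?_, fun c => ?_⟩
    · rintro ⟨f⟩
      apply h
      have h1 : G₁.IsContained K :=
        ⟨⟨⟨fun a => (f a).down, fun hab => f.toHom.map_adj hab⟩,
          fun a b he => f.injective (ULift.down_injective he)⟩⟩
      exact hK.comap h1
    · obtain ⟨t, j, ht, hj⟩ := hc (fun e => c (e.map ULift.up))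
      have e : β ≃ t := Fintype.equivOfCardEq (by
        rw [Fintype.card_coe, ht.card_eq, Nat.card_eq_fintype_card])
      have hne : ∀ a b, G₂.Adj a b → (e a).1 ≠ (e b).1 := fun a b hab he =>
        hab.ne (e.injective (Subtype.ext he))
      refine ⟨⟨⟨fun a => ULift.up (e a).1, fun {a b} hab => ?_⟩, fun a b he => ?_⟩, j,
        fun a b hab => ?_⟩
      · exact ht.isClique (e a).2 (e b).2 (hne a b hab)
      · exact e.injective (Subtype.ext (ULift.up_injective he))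
      · exact hj _ (e a).2 _ (e b).2 (hne a b hab)
  obtain h0 | h0 | ⟨r, hr⟩ : Nat.card β = 0 ∨ Nat.card β = 1 ∨ ∃ r, Nat.card β = r + 2 := by
    rcases hn : Nat.card β with _ | _ | r
    · exact Or.inl rfl
    · exact Or.inr (Or.inl rfl)
    · exact Or.inr (Or.inr ⟨r, rfl⟩)
  · refine hsmall Empty ⊥ ?_ fun c => ⟨∅, 0, by rw [h0]; simp, by simp⟩
    rw [h0]
    exact SimpleGraph.cliqueFree_of_card_lt (by simp)
  · refine hsmall Unit ⊥ ?_ fun c => ⟨{()}, 0, by rw [h0]; simp, by simp⟩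
    rw [h0]
    exact SimpleGraph.cliqueFree_of_card_lt (by simp)
  · obtain ⟨W, K, hK, hc⟩ := clique_ramsey r ℕ
    exact hsmall W K (by rw [hr]; exact hK) (by rw [hr]; exact hc)

end Pool.Agent.P.MP_48d4bc_co
end
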