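import Pool.Agent.P.MP_48d4bc_co.EXDefs
import Pool.Agent.Lib.PrimrecProp.Basic
import Pool.Agent.K.MP_48d4bc_co.C0
import Pool.Agent.K.MP_48d4bc_co.C2
import Pool.Agent.Lib.Ramsey.Basic
import Mathlib
import Pool.Agent.P.MP_067fd8_lc.TM

-- part Pool.Agent.P.MP_48d4bc_co.EXSig
section

set_option autoImplicit false

/-! The gadget, systems of local isomorphisms, their graphs and their models. -/

namespace Pool.Agent.P.MP_48d4bc_co.EX

open Set Function Pool.Agent.Lib.PrimrecProp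

universe u

/-- edges of the gadget -/
def gamE : List (ℕ × ℕ) :=
  [(0, 3), (0, 4), (0, 5), (1, 6), (1, 7), (1, 8), (2, 3), (2, 5), (2, 7), (3, 4), (3, 5), (3, 6),
    (3, 7), (3, 8), (4, 6), (6, 7), (6, 8)]

/-- the gadget, with roots 0, 1, 2 -/
def Gam : SimpleGraph (Fin 9) := graphOf 9 gamE

/-- the two copies of the gadget, glued at 0 and 1 -/
def gi (s : Bool) (j : Fin 9) : Bool × Fin 9 := (if j.1 < 2 then false else s, j)

/-- vertices of the forbidden graph -/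
abbrev GV := {v : Bool × Fin 9 // v.2.1 < 2 → v.1 = false}

/-- the forbidden graph -/
def GG : SimpleGraph GV :=
  SimpleGraph.fromRel fun u v => ∃ s a b, Gam.Adj a b ∧ u.1 = gi s a ∧ v.1 = gi s b

/-- the vertices of the eight copies in a thick gadget -/
def th (m a : ℕ) : ℕ := cond (leb a 2) a (6 * m + a)

/-- edges of a thick gadget -/
def thE : List (ℕ × ℕ) := (pairs (List.range 8) gamE).map fun z => (th z.1 z.2.1, th z.1 z.2.2)

/-- names -/
abbrev Nm := ℕ × ℕ × ℕ × ℕ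

/-- facts -/
abbrev Ft := Nm × Nm × Nm

/-- vertices -/
abbrev Vx := ℕ × Bool × Ft × ℕ

/-- first end of the edge -/
def nx : Nm := (0, 0, 0, 0)
/-- second end of the edge -/
def ny : Nm := (0, 0, 0, 1)
/-- marker -/
def m1 : Nm := (0, 0, 0, 2)
/-- marker -/
def m2 : Nm := (0, 0, 0, 3)
/-- marker -/
def m3 : Nm := (0, 0, 0, 4)

/-- a system: further names, further facts, glue lists -/
structure Sig where
  /-- further names -/
  rest : List Nm
  /-- further facts -/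
  extra : List Ft
  /-- glue lists -/
  glue : List (List (Nm × Nm))

/-- all names from the further names -/
def namesOf (rest : List Nm) : List Nm := nx :: ny :: m1 :: m2 :: m3 :: rest

/-- marker facts and the chain through all names -/
def baseOf (rest : List Nm) : List Ft :=
  (nx, ny, m1) :: (ny, nx, m2) :: (nx, m1, m2) :: (ny, m2, m3) ::
    (List.range rest.length).map fun i => ((m3 :: rest).getD i nx, ny, rest.getD i nx)

/-- the other side of a glued name -/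
def back (g : List (Nm × Nm)) (a : Nm) : Bool × Nm :=
  g.foldr (fun p r => cond (eqb p.2 a) (false, p.1) r) (true, a)

/-- the vertex of a name on a side -/
def nv (i : ℕ) (r : Bool × Nm) : Vx := (i, r.1, (r.2, r.2, r.2), 0)

namespace Sig

variable (S : Sig)

/-- all names -/
def names : List Nm := namesOf S.rest

/-- all facts -/
def facts : List Ft := baseOf S.rest ++ S.extra

/-- a glue list -/
def gl (i : ℕ) : List (Nm × Nm) := S.glue.getD i []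

/-- the vertex of a name in a copy -/
def vtx (i : ℕ) (s : Bool) (a : Nm) : Vx := nv i (cond s (back (S.gl i) a) (false, a))

/-- the vertices of the gadget of a fact in a copy -/
def gad (i : ℕ) (s : Bool) (φ : Ft) (j : ℕ) : Vx :=
  cond (eqb j 0) (S.vtx i s φ.1) (cond (eqb j 1) (S.vtx i s φ.2.1)
    (cond (eqb j 2) (S.vtx i s φ.2.2) (i, s, φ, j)))

/-- all edges -/
def edges : List (Vx × Vx) :=
  (pairs (List.range S.glue.length) [false, true]).flatMap fun z =>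
    (S.vtx z.1 z.2 nx, S.vtx z.1 z.2 ny) :: (pairs S.facts thE).map fun w =>
      (S.gad z.1 z.2 w.1 w.2.1, S.gad z.1 z.2 w.1 w.2.2)

/-- the coded edges -/
def code : List (ℕ × ℕ) := S.edges.map fun e => (Encodable.encode e.1, Encodable.encode e.2)

/-- the number of coded vertices -/
def size : ℕ := S.code.foldr (fun e r => e.1 + e.2 + r) 1

/-- ends of edges -/
def Valid : Set Vx := {v | ∃ e ∈ S.edges, v = e.1 ∨ v = e.2}

/-- adjacency -/
def Ad (u v : Vx) : Prop := (u, v) ∈ S.edges ∨ (v, u) ∈ S.edges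

/-- well formed systems -/
structure WF : Prop where
  nodup : S.names.Nodup
  pos : 0 < S.glue.length
  ext : ∀ φ ∈ S.extra, φ.1 ∈ S.names ∧ φ.2.1 ∈ S.names ∧ φ.2.2 ∈ S.names ∧ φ.1 ≠ φ.2.1 ∧
    φ.1 ≠ φ.2.2 ∧ φ.2.1 ≠ φ.2.2 ∧ φ.2.2 ≠ nx ∧ φ.2.2 ≠ ny
  mem : ∀ i, ∀ p ∈ S.gl i, p.1 ∈ S.names ∧ p.2 ∈ S.names ∧ p.1 ≠ nx ∧ p.1 ≠ ny ∧ p.2 ≠ nx ∧ p.2 ≠ ny
  bij : ∀ i, ∀ p ∈ S.gl i, ∀ p' ∈ S.gl i, (p.1 = p'.1 ↔ p.2 = p'.2)

/-- property (1) for the graph of the system -/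
def P1 : Prop :=
  ∀ (κ : Type) [Finite κ] [Nonempty κ], ∃ (W : Type u) (H : SimpleGraph W), GG.Free H ∧
    ∀ c : Sym2 W → κ, ∃ (f : Vx → W) (k : κ), InjOn f S.Valid ∧
      ∀ e ∈ S.edges, H.Adj (f e.1) (f e.2) ∧ c s(f e.1, f e.2) = k

/-- models -/
structure Model : Type 1 where
  /-- points -/
  A : Type
  /-- the operation -/
  R : A → A → A → Prop
  /-- the named points -/
  ν : Nm → A
  /-- the local isomorphisms -/
  Θ : ℕ → A → A → Prop
  fn : ∀ a b c c', R a b c → R a b c' → c = c'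
  inj : ∀ a ∈ S.names, ∀ b ∈ S.names, ν a = ν b → a = b
  fact : ∀ φ ∈ S.facts, R (ν φ.1) (ν φ.2.1) (ν φ.2.2)
  glue : ∀ i < S.glue.length, ∀ p ∈ S.gl i, Θ i (ν p.1) (ν p.2)
  bij : ∀ i < S.glue.length, ∀ a a' b b', Θ i a a' → Θ i b b' → (a = b ↔ a' = b')
  fwd : ∀ i < S.glue.length, ∀ a a' b b' c, Θ i a a' → Θ i b b' → R a b c →
    ∃ c', R a' b' c' ∧ Θ i c c'

/-- finite ordered typed models; `r` is the rank in the order -/
structure GModel (N : ℕ) : Type 1 where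
  /-- points -/
  A : Type
  /-- the operation of a type -/
  R : ℕ → ℕ → A → A → A → Prop
  /-- the named points -/
  ν : Nm → A
  /-- the local isomorphisms at a level -/
  Θ : ℕ → ℕ → A → A → Prop
  /-- the rank -/
  r : A → ℕ
  fin : Finite A
  rinj : Injective r
  fn : ∀ x y a b c c', R x y a b c → R x y a b c' → c = c'
  irr : ∀ x y a c, ¬ R x y a a c
  inj : ∀ a ∈ S.names, ∀ b ∈ S.names, ν a = ν b → a = b
  fact : ∀ x y, x < y → y < N → ∀ φ ∈ S.facts, R x y (ν φ.1) (ν φ.2.1) (ν φ.2.2)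
  glue : ∀ i < S.glue.length, ∀ z < N, ∀ p ∈ S.gl i, Θ i z (ν p.1) (ν p.2)
  bij : ∀ i < S.glue.length, ∀ z < N, ∀ a a' b b', Θ i z a a' → Θ i z b b' → (a = b ↔ a' = b')
  fwd : ∀ i < S.glue.length, ∀ w z y, w < z → z < y → y < N → ∀ a a' b b' c, Θ i z a a' →
    Θ i z b b' → R w z a b c → ∃ c', R z y a' b' c' ∧ Θ i z c c'
  bwd : ∀ i < S.glue.length, ∀ w z y, w < z → z < y → y < N → ∀ a a' b b' c', Θ i z a a' →
    Θ i z b b' → R z y a' b' c' → ∃ c, R w z a b c ∧ Θ i z c c'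
  lo : r (ν nx) < r (ν ny) ∧ ∀ a, a ≠ ν nx → r (ν ny) ≤ r a
  mono : ∀ i < S.glue.length, ∀ z < N, ∀ a a' b b', Θ i z a a' → Θ i z b b' → r a < r b →
    r a' < r b'
  off : ∀ i < S.glue.length, ∀ z < N, ∀ a a', Θ i z a a' →
    a ≠ ν nx ∧ a ≠ ν ny ∧ a' ≠ ν nx ∧ a' ≠ ν ny
  only : ∀ i < S.glue.length, ∀ z < N, ∀ a ∈ S.names, ∀ b ∈ S.names, Θ i z (ν a) (ν b) →
    (a, b) ∈ S.gl i

end Sig

end Pool.Agent.P.MP_48d4bc_co.EX
end

-- part Pool.Agent.P.MP_48d4bc_co.EXGam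
section

set_option autoImplicit false

/-! Facts on the gadget and on the forbidden graph. -/

namespace Pool.Agent.P.MP_48d4bc_co.EX

open Set Function Pool.Agent.Lib.PrimrecProp

theorem gam_adj {a b : Fin 9} : Gam.Adj a b ↔ (a.1, b.1) ∈ gamE ∨ (b.1, a.1) ∈ gamE := by
  rw [Gam, graphOf, SimpleGraph.fromRel_adj]
  refine ⟨fun h => h.2, fun h => ⟨?_, h⟩⟩
  rintro rfl
  revert a
  decide

instance EXGam_dec : DecidableRel Gam.Adj := fun _ _ => decidable_of_iff' _ gam_adj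

theorem gamE_lt {e : ℕ × ℕ} (h : e ∈ gamE) : e.1 < e.2 ∧ 3 ≤ e.2 ∧ e.2 < 9 := by
  revert e
  decide

theorem gam_edge_tri {a b : Fin 9} (h : Gam.Adj a b) : ∃ c, Gam.Adj a c ∧ Gam.Adj b c := by
  revert a b
  decide +kernel

/-- the nine triangles -/
def EXGam_tri : Fin 9 → Finset (Fin 9) :=
  ![{0, 3, 4}, {0, 3, 5}, {1, 6, 7}, {1, 6, 8}, {2, 3, 5}, {2, 3, 7}, {3, 4, 6}, {3, 6, 7},
    {3, 6, 8}]

/-- edges with two triangles through them -/
def EXGam_sh : List ((Fin 9 × Fin 9) × Fin 9 × Fin 9) :=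
  [((0, 3), 0, 1), ((3, 4), 0, 6), ((3, 5), 1, 4), ((1, 6), 2, 3), ((6, 7), 2, 7), ((6, 8), 3, 8),
    ((2, 3), 4, 5), ((3, 7), 5, 7), ((3, 6), 6, 7), ((3, 6), 7, 8)]

theorem EXGam_clique (i : Fin 9) : Gam.IsNClique 3 (EXGam_tri i) := by
  revert i
  decide +kernel

theorem EXGam_ex {t : Finset (Fin 9)} (h : Gam.IsNClique 3 t) : ∃ i, t = EXGam_tri i := by
  obtain ⟨x, y, z, a, b, c, rfl⟩ := SimpleGraph.is3Clique_iff.1 h
  have : ∀ x y : Fin 9, Gam.Adj x y → ∀ z, Gam.Adj x z → Gam.Adj y z →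
      ∃ i, {x, y, z} = EXGam_tri i := by decide +kernel
  exact this x y a z b c

theorem EXGam_cut : ∀ q0 q1 q2 q3 q4 q5 q6 q7 q8 : Bool,
    (∃ i, ![q0, q1, q2, q3, q4, q5, q6, q7, q8] i = true) →
    (∃ i, ![q0, q1, q2, q3, q4, q5, q6, q7, q8] i = false) →
    ∃ w ∈ EXGam_sh, ∃ w' ∈ EXGam_sh, w.1 ≠ w'.1 ∧
      ![q0, q1, q2, q3, q4, q5, q6, q7, q8] w.2.1 ≠ ![q0, q1, q2, q3, q4, q5, q6, q7, q8] w.2.2 ∧
      ![q0, q1, q2, q3, q4, q5, q6, q7, q8] w'.2.1 ≠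
        ![q0, q1, q2, q3, q4, q5, q6, q7, q8] w'.2.2 := by
  decide +kernel

theorem gam_linked : TriangleLinked Gam := by
  have hs : ∀ w ∈ EXGam_sh, Gam.Adj w.1.1 w.1.2 ∧ w.1.1 ∈ EXGam_tri w.2.1 ∧
      w.1.2 ∈ EXGam_tri w.2.1 ∧ w.1.1 ∈ EXGam_tri w.2.2 ∧ w.1.2 ∈ EXGam_tri w.2.2 :=
    @of_decide_eq_true _ (List.decidableBAll _ _) (by decide +kernel)
  have hn : ∀ w ∈ EXGam_sh, ∀ w' ∈ EXGam_sh, w.1 ≠ w'.1 →
      s(w.1.1, w.1.2) ≠ s(w'.1.1, w'.1.2) :=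
    @of_decide_eq_true _ (@List.decidableBAll _ _ (fun _ => List.decidableBAll _ _) _)
      (by decide +kernel)
  refine ⟨fun v => ?_, fun p ⟨t, ht, p1⟩ ⟨t', ht', p2⟩ => ?_⟩
  · have : ∀ v : Fin 9, ∃ i, v ∈ EXGam_tri i := by decide +kernel
    obtain ⟨i, hi⟩ := this v
    exact ⟨_, EXGam_clique i, hi⟩
  classical
  obtain ⟨i, rfl⟩ := EXGam_ex ht
  obtain ⟨j, rfl⟩ := EXGam_ex ht'
  let q : Fin 9 → Bool := fun i => decide (p (EXGam_tri i))
  have hq : ![q 0, q 1, q 2, q 3, q 4, q 5, q 6, q 7, q 8] = q := by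
    funext i
    fin_cases i <;> rfl
  have h := EXGam_cut (q 0) (q 1) (q 2) (q 3) (q 4) (q 5) (q 6) (q 7) (q 8)
  rw [hq] at h
  obtain ⟨w, hw, w', hw', hne, h1, h2⟩ := h ⟨i, decide_eq_true p1⟩ ⟨j, decide_eq_false p2⟩
  have key : ∀ w ∈ EXGam_sh, q w.2.1 ≠ q w.2.2 → s(w.1.1, w.1.2) ∈ {e | e ∈ Gam.edgeSet ∧
      (∃ t, Gam.IsNClique 3 t ∧ p t ∧ ∀ v ∈ e, v ∈ t) ∧
        ∃ t, Gam.IsNClique 3 t ∧ ¬ p t ∧ ∀ v ∈ e, v ∈ t} := fun w hw h => by
    obtain ⟨a, b, c, d, e⟩ := hs w hw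
    have m1 : ∀ v ∈ s(w.1.1, w.1.2), v ∈ EXGam_tri w.2.1 := fun v hv => by
      rcases Sym2.mem_iff.1 hv with rfl | rfl
      exacts [b, c]
    have m2 : ∀ v ∈ s(w.1.1, w.1.2), v ∈ EXGam_tri w.2.2 := fun v hv => by
      rcases Sym2.mem_iff.1 hv with rfl | rfl
      exacts [d, e]
    by_cases h1 : p (EXGam_tri w.2.1)
    · have h2 : ¬ p (EXGam_tri w.2.2) := fun h2 =>
        h ((decide_eq_true h1).trans (decide_eq_true h2).symm)
      exact ⟨a, ⟨_, EXGam_clique _, h1, m1⟩, _, EXGam_clique _, h2, m2⟩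
    · have h2 : p (EXGam_tri w.2.2) := by
        by_contra h2
        exact h ((decide_eq_false h1).trans (decide_eq_false h2).symm)
      exact ⟨a, ⟨_, EXGam_clique _, h2, m2⟩, _, EXGam_clique _, h1, m1⟩
  exact ⟨_, key w hw h1, _, key w' hw' h2, hn w hw w' hw' hne⟩

set_option synthInstance.maxSize 4096 in
theorem EXGam_rig : ∀ b3 b0 : Fin 9, Gam.Adj b0 b3 → ∀ b4, Gam.Adj b0 b4 → Gam.Adj b3 b4 →
    ∀ b5, Gam.Adj b0 b5 → Gam.Adj b3 b5 → b4 ≠ b5 → ∀ b2, Gam.Adj b2 b3 → Gam.Adj b2 b5 →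
    b0 ≠ b2 → ∀ b7, Gam.Adj b2 b7 → Gam.Adj b3 b7 → b5 ≠ b7 → b4 ≠ b7 → ∀ b6, Gam.Adj b3 b6 →
    Gam.Adj b4 b6 → Gam.Adj b6 b7 → b0 ≠ b6 → b2 ≠ b6 → ∀ b8, Gam.Adj b3 b8 → Gam.Adj b6 b8 →
    b4 ≠ b8 → b7 ≠ b8 → ∀ b1, Gam.Adj b1 b6 → Gam.Adj b1 b7 → Gam.Adj b1 b8 → b1 ≠ b3 →
    b0 = 0 ∧ b1 = 1 ∧ b2 = 2 := by
  decide +kernel

theorem gam_rigid (β : Fin 9 → Fin 9) (hi : Injective β)
    (h : ∀ a b, Gam.Adj a b → Gam.Adj (β a) (β b)) : β 0 = 0 ∧ β 1 = 1 ∧ β 2 = 2 :=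
  EXGam_rig (β 3) (β 0) (h _ _ (by decide)) (β 4) (h _ _ (by decide)) (h _ _ (by decide))
    (β 5) (h _ _ (by decide)) (h _ _ (by decide)) (hi.ne (by decide))
    (β 2) (h _ _ (by decide)) (h _ _ (by decide)) (hi.ne (by decide))
    (β 7) (h _ _ (by decide)) (h _ _ (by decide)) (hi.ne (by decide)) (hi.ne (by decide))
    (β 6) (h _ _ (by decide)) (h _ _ (by decide)) (h _ _ (by decide)) (hi.ne (by decide))
    (hi.ne (by decide)) (β 8) (h _ _ (by decide)) (h _ _ (by decide)) (hi.ne (by decide))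
    (hi.ne (by decide)) (β 1) (h _ _ (by decide)) (h _ _ (by decide)) (h _ _ (by decide))
    (hi.ne (by decide))

theorem gam_nbr {a : ℕ} (h : a < 9) : ∃ w ∈ gamE, w.1 = a ∨ w.2 = a := by
  revert a
  decide

theorem gam_no_common (j : ℕ) : ¬ ((0, j) ∈ gamE ∧ (1, j) ∈ gamE) := by
  rintro ⟨h0, h1⟩
  have h : j < 9 := (gamE_lt h0).2.2
  revert j
  have : ∀ j < 9, (0, j) ∈ gamE → (1, j) ∈ gamE → False := by decide
  exact fun j h0 h1 h => this j h h0 h1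

theorem th_root (m : ℕ) {a : ℕ} (h : a ≤ 2) : th m a = a := by
  have : leb a 2 = true := by simpa [leb] using h
  rw [th, this, cond_true]

theorem th_int (m : ℕ) {a : ℕ} (h : 3 ≤ a) : th m a = 6 * m + a := by
  have : leb a 2 = false := decide_eq_false (by omega)
  rw [th, this, cond_false]

theorem th_inj {m m' a a' : ℕ} (h : a < 9) (h' : a' < 9) (e : th m a = th m' a') :
    a = a' ∧ (a ≤ 2 ∨ m = m') := by
  rcases le_or_gt a 2 with h1 | h1 <;> rcases le_or_gt a' 2 with h2 | h2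
  · rw [th_root _ h1, th_root _ h2] at e
    omega
  · rw [th_root _ h1, th_int _ h2] at e
    omega
  · rw [th_int _ h1, th_root _ h2] at e
    omega
  · rw [th_int _ h1, th_int _ h2] at e
    omega

theorem exists_th {j : ℕ} (h : j < 51) : ∃ m < 8, ∃ a < 9, j = th m a := by
  rcases le_or_gt j 2 with h1 | h1
  · exact ⟨0, by omega, j, by omega, (th_root _ h1).symm⟩
  · refine ⟨(j - 3) / 6, by omega, (j - 3) % 6 + 3, by omega, ?_⟩
    rw [th_int _ (by omega)]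
    omega

theorem mem_thE {e : ℕ × ℕ} : e ∈ thE ↔ ∃ m < 8, ∃ w ∈ gamE, e = (th m w.1, th m w.2) := by
  rw [thE, List.mem_map]
  constructor
  · rintro ⟨z, hz, rfl⟩
    have h := mem_pairs.1 hz
    exact ⟨z.1, List.mem_range.1 h.1, z.2, h.2, rfl⟩
  · rintro ⟨m, hm, w, hw, rfl⟩
    exact ⟨(m, w), mem_pairs.2 ⟨List.mem_range.2 hm, hw⟩, rfl⟩

theorem thE_lt {e : ℕ × ℕ} (h : e ∈ thE) : e.1 < e.2 ∧ 3 ≤ e.2 ∧ e.2 < 51 := by
  obtain ⟨m, hm, w, hw, rfl⟩ := mem_thE.1 h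
  obtain ⟨h1, h2, h3⟩ := gamE_lt hw
  change th m w.1 < th m w.2 ∧ 3 ≤ th m w.2 ∧ th m w.2 < 51
  rw [th_int _ h2]
  rcases le_or_gt w.1 2 with h4 | h4
  · rw [th_root _ h4]
    omega
  · rw [th_int _ h4]
    omega

theorem EXGam_gg {u v : GV} :
    GG.Adj u v ↔ ∃ s a b, Gam.Adj a b ∧ u.1 = gi s a ∧ v.1 = gi s b := by
  rw [GG, SimpleGraph.fromRel_adj]
  constructor
  · rintro ⟨-, h | ⟨s, a, b, h, h1, h2⟩⟩
    · exact h
    · exact ⟨s, b, a, h.symm, h2, h1⟩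
  · rintro ⟨s, a, b, h, h1, h2⟩
    refine ⟨?_, Or.inl ⟨s, a, b, h, h1, h2⟩⟩
    rintro rfl
    exact h.ne (congrArg Prod.snd (h1.symm.trans h2))

/-- a vertex of a copy -/
def EXGam_v (s : Bool) (j : Fin 9) : GV := ⟨gi s j, fun h => if_pos h⟩

theorem gg_col : GG.Colorable 3 := by
  refine ⟨SimpleGraph.Coloring.mk (fun v => (![1, 0, 1, 0, 2, 2, 1, 2, 2] : Fin 9 → Fin 3) v.1.2)
    fun {u v} h => ?_⟩
  obtain ⟨s, a, b, h, h1, h2⟩ := EXGam_gg.1 h
  have : ∀ a b : Fin 9, Gam.Adj a b → (![1, 0, 1, 0, 2, 2, 1, 2, 2] : Fin 9 → Fin 3) a ≠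
      (![1, 0, 1, 0, 2, 2, 1, 2, 2] : Fin 9 → Fin 3) b := by decide +kernel
  rw [h1, h2]
  exact this a b h

theorem gg_nbr (v : GV) : ∃ w, GG.Adj v w := by
  have : ∀ a : Fin 9, ∃ b, Gam.Adj a b := by decide +kernel
  obtain ⟨b, hb⟩ := this v.1.2
  refine ⟨EXGam_v v.1.1 b, EXGam_gg.2 ⟨v.1.1, v.1.2, b, hb, Prod.ext ?_ rfl, rfl⟩⟩
  change v.1.1 = if v.1.2.1 < 2 then false else v.1.1
  split_ifs with h
  · exact v.2 h
  · rfl

/-- a copy of the gadget in the forbidden graph -/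
def EXGam_copy (s : Bool) : Gam.Copy GG :=
  ⟨⟨EXGam_v s, fun {a b} h => EXGam_gg.2 ⟨s, a, b, h, rfl, rfl⟩⟩,
    fun _ _ h => congrArg (fun v : GV => v.1.2) h⟩

theorem gg_free {W : Type*} {H : SimpleGraph W} : GG.Free H ↔ ∀ ψ ψ' : Gam.Copy H,
    ψ 0 = ψ' 0 → ψ 1 = ψ' 1 → ∃ a b : Fin 9, 2 ≤ a.1 ∧ 2 ≤ b.1 ∧ ψ a = ψ' b := by
  constructor
  · intro hF ψ ψ' h0 h1
    by_contra hn
    have hn' : ∀ a b : Fin 9, 2 ≤ a.1 → 2 ≤ b.1 → ψ a ≠ ψ' b := fun a b ha hb e =>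
      hn ⟨a, b, ha, hb, e⟩
    have lo : ∀ a : Fin 9, a.1 < 2 → ψ a = ψ' a := fun a ha => by
      have : a = 0 ∨ a = 1 := by
        revert a
        decide
      rcases this with rfl | rfl
      exacts [h0, h1]
    have cr : ∀ a b : Fin 9, ¬ b.1 < 2 → ψ a ≠ ψ' b := fun a b hb e => by
      by_cases ha : a.1 < 2
      · have := ψ'.injective ((lo a ha).symm.trans e)
        exact hb (this ▸ ha)
      · exact hn' a b (by omega) (by omega) e
    let f : Bool × Fin 9 → W := fun v => cond v.1 (ψ' v.2) (ψ v.2)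
    have hf : ∀ s a, f (gi s a) = cond s (ψ' a) (ψ a) := fun s a => by
      by_cases ha : a.1 < 2
      · have : gi s a = (false, a) := Prod.ext (if_pos ha) rfl
        rw [this]
        cases s
        · rfl
        · exact lo a ha
      · have : gi s a = (s, a) := Prod.ext (if_neg ha) rfl
        rw [this]
    refine hF ⟨⟨⟨fun v => f v.1, fun {u v} h => ?_⟩, ?_⟩⟩
    · obtain ⟨s, a, b, h, h1, h2⟩ := EXGam_gg.1 h
      rw [h1, h2, hf, hf]
      cases s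
      · exact ψ.toHom.map_adj h
      · exact ψ'.toHom.map_adj h
    · rintro ⟨⟨s, a⟩, ha⟩ ⟨⟨t, b⟩, hb⟩ e
      refine Subtype.ext ?_
      cases s <;> cases t
      · exact Prod.ext rfl (ψ.injective e)
      · exact absurd e (cr a b fun h => Bool.noConfusion (hb h))
      · exact absurd e.symm (cr b a fun h => Bool.noConfusion (ha h))
      · exact Prod.ext rfl (ψ'.injective e)
  · rintro h ⟨f⟩
    obtain ⟨a, b, ha, hb, e⟩ := h (f.comp (EXGam_copy false)) (f.comp (EXGam_copy true)) rfl rfl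
    have e1 : EXGam_v false a = EXGam_v true b := f.injective e
    have e2 : (if a.1 < 2 then false else false) = if b.1 < 2 then false else true :=
      congrArg (fun v : GV => v.1.1) e1
    rw [if_neg (by omega), if_neg (by omega)] at e2
    exact Bool.noConfusion e2

end Pool.Agent.P.MP_48d4bc_co.EX
end

-- part Pool.Agent.P.MP_48d4bc_co.EXVtx
section

set_option autoImplicit false

/-! Vertices and edges of the graph of a system. -/

namespace Pool.Agent.P.MP_48d4bc_co.EX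

open Set Function Pool.Agent.Lib.PrimrecProp

namespace Sig

variable {S : Sig}

theorem mem_edges {e : Vx × Vx} : e ∈ S.edges ↔ ∃ i < S.glue.length, ∃ s,
    e = (S.vtx i s nx, S.vtx i s ny) ∨
      ∃ φ ∈ S.facts, ∃ m < 8, ∃ w ∈ gamE,
        e = (S.gad i s φ (th m w.1), S.gad i s φ (th m w.2)) := by
  unfold edges
  rw [List.mem_flatMap]
  constructor
  · rintro ⟨z, hz, he⟩
    rw [mem_pairs, List.mem_range] at hz
    refine ⟨z.1, hz.1, z.2, ?_⟩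
    rcases List.mem_cons.1 he with he | he
    · exact Or.inl he
    · obtain ⟨w, hw, rfl⟩ := List.mem_map.1 he
      rw [mem_pairs] at hw
      obtain ⟨m, hm, w', hw', e'⟩ := mem_thE.1 hw.2
      refine Or.inr ⟨w.1, hw.1, m, hm, w', hw', ?_⟩
      rw [e']
  · rintro ⟨i, hi, s, he⟩
    refine ⟨(i, s), ?_, ?_⟩
    · rw [mem_pairs, List.mem_range]
      refine ⟨hi, ?_⟩
      cases s <;> simp
    · rcases he with he | ⟨φ, hφ, m, hm, w, hw, he⟩
      · exact List.mem_cons.2 (Or.inl he)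
      · refine List.mem_cons.2 (Or.inr (List.mem_map.2 ⟨(φ, (th m w.1, th m w.2)), ?_, he.symm⟩))
        rw [mem_pairs]
        exact ⟨hφ, mem_thE.2 ⟨m, hm, w, hw, rfl⟩⟩

theorem exvtx_nv_inj {i i' : ℕ} {r r' : Bool × Nm} : nv i r = nv i' r' ↔ i = i' ∧ r = r' := by
  constructor
  · intro h
    unfold nv at h
    simp only [Prod.mk.injEq] at h
    exact ⟨h.1, Prod.ext h.2.1 h.2.2.1.1⟩
  · rintro ⟨rfl, rfl⟩
    rfl

theorem exvtx_back (g : List (Nm × Nm)) (a : Nm) :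
    (∃ b, (b, a) ∈ g ∧ back g a = (false, b)) ∨ ((∀ b, (b, a) ∉ g) ∧ back g a = (true, a)) := by
  induction g with
  | nil => exact Or.inr ⟨fun b hb => by simp at hb, rfl⟩
  | cons p g ih =>
    have e : back (p :: g) a = cond (eqb p.2 a) (false, p.1) (back g a) := rfl
    by_cases hp : p.2 = a
    · left
      refine ⟨p.1, ?_, ?_⟩
      · rw [← hp]
        exact List.mem_cons_self
      · rw [e, (eqb_iff _ _).2 hp]
        rfl
    · have hq : eqb p.2 a = false := by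
        cases hx : eqb p.2 a
        · rfl
        · exact absurd ((eqb_iff _ _).1 hx) hp
      rw [e, hq]
      rcases ih with ⟨b, hb, e'⟩ | ⟨hb, e'⟩
      · exact Or.inl ⟨b, List.mem_cons_of_mem _ hb, e'⟩
      · refine Or.inr ⟨fun b hb' => ?_, e'⟩
        rcases List.mem_cons.1 hb' with hb' | hb'
        · exact hp (by rw [← hb'])
        · exact hb b hb'

theorem exvtx_chain {i : ℕ} (hi : i < S.rest.length) :
    ((m3 :: S.rest).getD i nx, ny, S.rest.getD i nx) ∈ S.facts := by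
  unfold facts baseOf
  refine List.mem_append_left _ ?_
  refine List.mem_cons_of_mem _ (List.mem_cons_of_mem _ (List.mem_cons_of_mem _
    (List.mem_cons_of_mem _ ?_)))
  exact List.mem_map.2 ⟨i, List.mem_range.2 hi, rfl⟩

theorem WF.facts (h : S.WF) {φ : Ft} (hφ : φ ∈ S.facts) : φ.1 ∈ S.names ∧ φ.2.1 ∈ S.names ∧
    φ.2.2 ∈ S.names ∧ φ.1 ≠ φ.2.1 ∧ φ.1 ≠ φ.2.2 ∧ φ.2.1 ≠ φ.2.2 ∧ φ.2.2 ≠ nx ∧ φ.2.2 ≠ ny := by
  rcases List.mem_append.1 hφ with hb | hb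
  swap
  · exact h.ext φ hb
  have hn := h.nodup
  unfold names namesOf at hn ⊢
  unfold baseOf at hb
  rcases List.mem_cons.1 hb with rfl | hb
  · simp [nx, ny, m1]
  rcases List.mem_cons.1 hb with rfl | hb
  · simp [nx, ny, m2]
  rcases List.mem_cons.1 hb with rfl | hb
  · simp [nx, ny, m1, m2]
  rcases List.mem_cons.1 hb with rfl | hb
  · simp [nx, ny, m2, m3]
  obtain ⟨i, hi, rfl⟩ := List.mem_map.1 hb
  rw [List.mem_range] at hi
  have hi' : i < (m3 :: S.rest).length := by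
    rw [List.length_cons]
    omega
  have hi'' : i + 1 < (m3 :: S.rest).length := by
    rw [List.length_cons]
    omega
  have e1 : (m3 :: S.rest).getD i nx = (m3 :: S.rest)[i] := List.getD_eq_getElem _ _ hi'
  have e2 : S.rest.getD i nx = (m3 :: S.rest)[i + 1] := by
    rw [List.getD_eq_getElem _ _ hi]
    rfl
  have k1 : (m3 :: S.rest)[i] ∈ m3 :: S.rest := List.getElem_mem _
  have k2 : (m3 :: S.rest)[i + 1] ∈ m3 :: S.rest := List.getElem_mem _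
  have n1 := List.nodup_cons.1 hn
  have n2 := List.nodup_cons.1 n1.2
  have n3 := List.nodup_cons.1 n2.2
  have n4 := List.nodup_cons.1 n3.2
  have up : ∀ a, a ∈ m3 :: S.rest → a ∈ m1 :: m2 :: m3 :: S.rest := fun a ha =>
    List.mem_cons_of_mem _ (List.mem_cons_of_mem _ ha)
  dsimp only
  rw [e1, e2]
  refine ⟨List.mem_cons_of_mem _ (List.mem_cons_of_mem _ (up _ k1)),
    List.mem_cons_of_mem _ List.mem_cons_self,
    List.mem_cons_of_mem _ (List.mem_cons_of_mem _ (up _ k2)), ?_, ?_, ?_, ?_, ?_⟩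
  · intro e
    exact n2.1 (e ▸ up _ k1)
  · intro e
    have := (List.Nodup.getElem_inj_iff n4.2).1 e
    omega
  · intro e
    exact n2.1 (e ▸ up _ k2)
  · intro e
    exact n1.1 (e ▸ List.mem_cons_of_mem _ (up _ k2))
  · intro e
    exact n2.1 (e ▸ up _ k2)

theorem vtx_false (i : ℕ) (a : Nm) : S.vtx i false a = nv i (false, a) := rfl

theorem WF.vtx_true (h : S.WF) (i : ℕ) (a : Nm) :
    (∃ b, (b, a) ∈ S.gl i ∧ S.vtx i true a = nv i (false, b)) ∨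
      ((∀ b, (b, a) ∉ S.gl i) ∧ S.vtx i true a = nv i (true, a)) := by
  have _ := h
  have e : S.vtx i true a = nv i (back (S.gl i) a) := rfl
  rcases exvtx_back (S.gl i) a with ⟨b, hb, e'⟩ | ⟨hb, e'⟩
  · exact Or.inl ⟨b, hb, by rw [e, e']⟩
  · exact Or.inr ⟨hb, by rw [e, e']⟩

theorem WF.exvtx_ft (h : S.WF) {i i' : ℕ} {a b : Nm} :
    S.vtx i false a = S.vtx i' true b ↔ i = i' ∧ (a, b) ∈ S.gl i := by
  rw [vtx_false]
  rcases h.vtx_true i' b with ⟨c, hc, e⟩ | ⟨hc, e⟩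
  · rw [e, exvtx_nv_inj]
    constructor
    · rintro ⟨rfl, e'⟩
      have : a = c := congrArg Prod.snd e'
      exact ⟨rfl, this ▸ hc⟩
    · rintro ⟨rfl, hab⟩
      have : a = c := (h.bij i (a, b) hab (c, b) hc).2 rfl
      exact ⟨rfl, by rw [this]⟩
  · rw [e, exvtx_nv_inj]
    constructor
    · rintro ⟨_, e'⟩
      exact absurd (congrArg Prod.fst e') (by simp)
    · rintro ⟨rfl, hab⟩
      exact absurd hab (hc a)

theorem WF.exvtx_tt (h : S.WF) {i i' : ℕ} {a b : Nm} :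
    S.vtx i true a = S.vtx i' true b ↔ i = i' ∧ a = b := by
  constructor
  swap
  · rintro ⟨rfl, rfl⟩
    rfl
  intro e0
  rcases h.vtx_true i a with ⟨c, hc, e⟩ | ⟨hc, e⟩
  · rw [e, ← vtx_false (S := S), h.exvtx_ft] at e0
    exact ⟨e0.1, (h.bij i (c, a) hc (c, b) e0.2).1 rfl⟩
  · rcases h.vtx_true i' b with ⟨d, hd, e'⟩ | ⟨hd, e'⟩
    · rw [e, e', exvtx_nv_inj] at e0
      exact absurd (congrArg Prod.fst e0.2) (by simp)
    · rw [e, e', exvtx_nv_inj] at e0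
      exact ⟨e0.1, congrArg Prod.snd e0.2⟩

theorem WF.vtx_eq (h : S.WF) {i i' : ℕ} {s s' : Bool} {a b : Nm} :
    S.vtx i s a = S.vtx i' s' b ↔ i = i' ∧ ((s = s' ∧ a = b) ∨
      (s = false ∧ s' = true ∧ (a, b) ∈ S.gl i) ∨ (s = true ∧ s' = false ∧ (b, a) ∈ S.gl i)) := by
  cases s <;> cases s'
  · rw [vtx_false, vtx_false, exvtx_nv_inj]
    simp
  · rw [h.exvtx_ft]
    simp
  · rw [eq_comm, h.exvtx_ft]
    constructor
    · rintro ⟨rfl, hab⟩
      exact ⟨rfl, Or.inr (Or.inr ⟨rfl, rfl, hab⟩)⟩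
    · rintro ⟨rfl, hab⟩
      refine ⟨rfl, ?_⟩
      simpa using hab
  · rw [h.exvtx_tt]
    simp

theorem vtx_last (i : ℕ) (s : Bool) (a : Nm) : (S.vtx i s a).2.2.2 = 0 := rfl

theorem gad_zero (i : ℕ) (s : Bool) (φ : Ft) : S.gad i s φ 0 = S.vtx i s φ.1 := rfl

theorem gad_one (i : ℕ) (s : Bool) (φ : Ft) : S.gad i s φ 1 = S.vtx i s φ.2.1 := rfl

theorem gad_two (i : ℕ) (s : Bool) (φ : Ft) : S.gad i s φ 2 = S.vtx i s φ.2.2 := rfl

theorem gad_int (i : ℕ) (s : Bool) (φ : Ft) {j : ℕ} (h : 3 ≤ j) : S.gad i s φ j = (i, s, φ, j) := by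
  have h0 : eqb j 0 = false := decide_eq_false (by omega)
  have h1 : eqb j 1 = false := decide_eq_false (by omega)
  have h2 : eqb j 2 = false := decide_eq_false (by omega)
  unfold gad
  rw [h0, h1, h2]
  rfl

theorem exvtx_cases (j : ℕ) : j = 0 ∨ j = 1 ∨ j = 2 ∨ 3 ≤ j := by omega

theorem WF.exvtx_same (h : S.WF) {i : ℕ} {s : Bool} {a b : Nm} (e : S.vtx i s a = S.vtx i s b) :
    a = b := by
  rcases (h.vtx_eq.1 e).2 with e | e | e
  · exact e.2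
  · exact absurd (e.1.symm.trans e.2.1) (by simp)
  · exact absurd (e.1.symm.trans e.2.1) (by simp)

theorem WF.gad_inj (h : S.WF) {i : ℕ} {s : Bool} {φ : Ft} (hφ : φ ∈ S.facts) {j j' : ℕ}
    (e : S.gad i s φ j = S.gad i s φ j') : j = j' := by
  obtain ⟨-, -, -, d1, d2, d3, -, -⟩ := h.facts hφ
  have low : ∀ k, k < 3 → (S.gad i s φ k).2.2.2 = 0 := by
    intro k hk
    rcases exvtx_cases k with rfl | rfl | rfl | hk'
    · rfl
    · rfl
    · rfl
    · omega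
  by_cases hj : 3 ≤ j
  · have e4 : (S.gad i s φ j).2.2.2 = (S.gad i s φ j').2.2.2 := by rw [e]
    rw [gad_int i s φ hj] at e4
    by_cases hj' : 3 ≤ j'
    · rw [gad_int i s φ hj'] at e4
      exact e4
    · rw [low j' (by omega)] at e4
      dsimp only at e4
      omega
  by_cases hj' : 3 ≤ j'
  · have e4 : (S.gad i s φ j).2.2.2 = (S.gad i s φ j').2.2.2 := by rw [e]
    rw [gad_int i s φ hj', low j (by omega)] at e4
    dsimp only at e4
    omega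
  rcases exvtx_cases j with rfl | rfl | rfl | hk
  · rcases exvtx_cases j' with rfl | rfl | rfl | hk'
    · rfl
    · exact absurd (h.exvtx_same e) d1
    · exact absurd (h.exvtx_same e) d2
    · omega
  · rcases exvtx_cases j' with rfl | rfl | rfl | hk'
    · exact absurd (h.exvtx_same e).symm d1
    · rfl
    · exact absurd (h.exvtx_same e) d3
    · omega
  · rcases exvtx_cases j' with rfl | rfl | rfl | hk'
    · exact absurd (h.exvtx_same e).symm d2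
    · exact absurd (h.exvtx_same e).symm d3
    · rfl
    · omega
  · omega

theorem gad_valid {i : ℕ} (hi : i < S.glue.length) (s : Bool) {φ : Ft} (hφ : φ ∈ S.facts)
    {j : ℕ} (hj : j < 51) : S.gad i s φ j ∈ S.Valid := by
  obtain ⟨m, hm, a, ha, rfl⟩ := exists_th hj
  obtain ⟨w, hw, e⟩ := gam_nbr ha
  refine ⟨(S.gad i s φ (th m w.1), S.gad i s φ (th m w.2)),
    mem_edges.2 ⟨i, hi, s, Or.inr ⟨φ, hφ, m, hm, w, hw, rfl⟩⟩, ?_⟩
  rcases e with e | e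
  · exact Or.inl (by rw [e])
  · exact Or.inr (by rw [e])

theorem vtx_valid {i : ℕ} (hi : i < S.glue.length) (s : Bool) {a : Nm} (ha : a ∈ S.names) :
    S.vtx i s a ∈ S.Valid := by
  have base : ∀ φ ∈ baseOf S.rest, S.vtx i s φ.2.2 ∈ S.Valid := fun φ hφ =>
    gad_valid hi s (φ := φ) (List.mem_append_left _ hφ) (j := 2) (by omega)
  unfold names namesOf at ha
  rcases List.mem_cons.1 ha with rfl | ha
  · exact ⟨_, mem_edges.2 ⟨i, hi, s, Or.inl rfl⟩, Or.inl rfl⟩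
  rcases List.mem_cons.1 ha with rfl | ha
  · exact ⟨_, mem_edges.2 ⟨i, hi, s, Or.inl rfl⟩, Or.inr rfl⟩
  rcases List.mem_cons.1 ha with rfl | ha
  · exact base (nx, ny, m1) (by simp [baseOf])
  rcases List.mem_cons.1 ha with rfl | ha
  · exact base (ny, nx, m2) (by simp [baseOf])
  rcases List.mem_cons.1 ha with rfl | ha
  · exact base (ny, m2, m3) (by simp [baseOf])
  obtain ⟨k, hk, rfl⟩ := List.getElem_of_mem ha
  have := gad_valid hi s (exvtx_chain hk) (j := 2) (by omega)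
  rw [gad_two] at this
  dsimp only at this
  rwa [List.getD_eq_getElem _ _ hk] at this

theorem WF.valid_cases (h : S.WF) {v : Vx} (hv : v ∈ S.Valid) : ∃ i < S.glue.length, ∃ s,
    (∃ a ∈ S.names, v = S.vtx i s a) ∨ ∃ φ ∈ S.facts, ∃ j, 3 ≤ j ∧ j < 51 ∧ v = (i, s, φ, j) := by
  obtain ⟨e, he, hv⟩ := hv
  obtain ⟨i, hi, s, he⟩ := mem_edges.1 he
  refine ⟨i, hi, s, ?_⟩
  rcases he with rfl | ⟨φ, hφ, m, hm, w, hw, rfl⟩
  · left
    rcases hv with rfl | rfl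
    · exact ⟨nx, by simp [names, namesOf], rfl⟩
    · exact ⟨ny, by simp [names, namesOf], rfl⟩
  · have hlt := thE_lt (mem_thE.2 ⟨m, hm, w, hw, rfl⟩)
    dsimp only at hlt hv
    obtain ⟨f1, f2, f3, -⟩ := h.facts hφ
    have key : ∀ j, j < 51 → (∃ a ∈ S.names, S.gad i s φ j = S.vtx i s a) ∨
        ∃ φ' ∈ S.facts, ∃ j', 3 ≤ j' ∧ j' < 51 ∧ S.gad i s φ j = (i, s, φ', j') := by
      intro j hj
      rcases exvtx_cases j with rfl | rfl | rfl | hk
      · exact Or.inl ⟨_, f1, rfl⟩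
      · exact Or.inl ⟨_, f2, rfl⟩
      · exact Or.inl ⟨_, f3, rfl⟩
      · exact Or.inr ⟨φ, hφ, j, hk, hj, gad_int i s φ hk⟩
    rcases hv with rfl | rfl
    · exact key _ (by omega)
    · exact key _ (by omega)

theorem WF.edge_ne (h : S.WF) {e : Vx × Vx} (he : e ∈ S.edges) : e.1 ≠ e.2 := by
  obtain ⟨i, hi, s, he⟩ := mem_edges.1 he
  rcases he with rfl | ⟨φ, hφ, m, hm, w, hw, rfl⟩
  · intro e
    have := h.exvtx_same e
    simp [nx, ny] at this
  · intro e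
    have hlt := thE_lt (mem_thE.2 ⟨m, hm, w, hw, rfl⟩)
    have := h.gad_inj hφ e
    dsimp only at hlt
    omega

theorem valid_finite : S.Valid.Finite := by
  refine ((S.edges.map Prod.fst).finite_toSet.union (S.edges.map Prod.snd).finite_toSet).subset ?_
  rintro v ⟨e, he, rfl | rfl⟩
  · exact Or.inl (List.mem_map.2 ⟨e, he, rfl⟩)
  · exact Or.inr (List.mem_map.2 ⟨e, he, rfl⟩)

end Sig

end Pool.Agent.P.MP_48d4bc_co.EX
end

-- part Pool.Agent.P.MP_48d4bc_co.EXBridge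
section

set_option autoImplicit false

/-! From the coded graph to the system. -/

namespace Pool.Agent.P.MP_48d4bc_co.EX

open Set Function Pool.Agent.Lib.PrimrecProp

universe u

theorem EXBridge_fold (L : List (ℕ × ℕ)) :
    0 < L.foldr (fun e r => e.1 + e.2 + r) 1 ∧
      ∀ e ∈ L, e.1 + e.2 < L.foldr (fun e r => e.1 + e.2 + r) 1 := by
  induction L with
  | nil => simp
  | cons a L ih =>
    rw [List.foldr_cons]
    refine ⟨by omega, fun e he => ?_⟩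
    rcases List.mem_cons.1 he with rfl | he
    · omega
    · have := ih.2 e he
      omega

theorem EXBridge_code {S : Sig} {a b : ℕ} : (a, b) ∈ S.code ↔
    ∃ e ∈ S.edges, Encodable.encode e.1 = a ∧ Encodable.encode e.2 = b := by
  simp only [Sig.code, List.mem_map, Prod.mk.injEq]

theorem EXBridge_lt {S : Sig} {v : Vx} (hv : v ∈ S.Valid) : Encodable.encode v < S.size := by
  obtain ⟨e, he, hv⟩ := hv
  have := (EXBridge_fold S.code).2 _ (EXBridge_code.2 ⟨e, he, rfl, rfl⟩)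
  unfold Sig.size
  rcases hv with rfl | rfl <;> simp only at this <;> omega

theorem EXBridge_fst {S : Sig} {e : Vx × Vx} (he : e ∈ S.edges) : e.1 ∈ S.Valid :=
  ⟨e, he, Or.inl rfl⟩

theorem EXBridge_snd {S : Sig} {e : Vx × Vx} (he : e ∈ S.edges) : e.2 ∈ S.Valid :=
  ⟨e, he, Or.inr rfl⟩

theorem EXBridge_adj {S : Sig} (h : S.WF) {e : Vx × Vx} (he : e ∈ S.edges) :
    (graphOf S.size S.code).Adj ⟨_, EXBridge_lt (EXBridge_fst he)⟩
      ⟨_, EXBridge_lt (EXBridge_snd he)⟩ := by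
  rw [graphOf, SimpleGraph.fromRel_adj]
  refine ⟨fun e' => h.edge_ne he (Encodable.encode_injective (Fin.mk.inj e')), Or.inl ?_⟩
  exact EXBridge_code.2 ⟨e, he, rfl, rfl⟩

theorem EXBridge_tri {S : Sig} (h : S.WF) : ¬ (graphOf S.size S.code).CliqueFree 3 := by
  classical
  have hφ : (nx, ny, m1) ∈ S.facts := by simp [Sig.facts, baseOf]
  have key : ∀ w ∈ gamE, (S.gad 0 false (nx, ny, m1) (th 0 w.1),
      S.gad 0 false (nx, ny, m1) (th 0 w.2)) ∈ S.edges := fun w hw =>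
    Sig.mem_edges.2 ⟨0, h.pos, false, Or.inr ⟨_, hφ, 0, by norm_num, w, hw, rfl⟩⟩
  have h1 := EXBridge_adj h (key (0, 3) (by simp [gamE]))
  have h2 := EXBridge_adj h (key (0, 4) (by simp [gamE]))
  have h3 := EXBridge_adj h (key (3, 4) (by simp [gamE]))
  exact fun hc => hc _ (SimpleGraph.is3Clique_triple_iff.2 ⟨h1, h2, h3⟩)

theorem EXBridge_free {W X : Type u} {H : SimpleGraph W} (h : GG.Free H) :
    GG.Free (H.map (Sum.inl : W → W ⊕ X)) := by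
  rintro ⟨f⟩
  have key : ∀ a b, GG.Adj a b → ∃ x y, H.Adj x y ∧ Sum.inl x = f a ∧ Sum.inl y = f b :=
    fun a b hab => (SimpleGraph.map_adj (Function.Embedding.inl (α := W) (β := X)) H _ _).1
      (f.toHom.map_adj hab)
  have hv : ∀ a, ∃ x, Sum.inl x = f a := fun a => by
    obtain ⟨b, hb⟩ := gg_nbr a
    obtain ⟨x, -, -, hx, -⟩ := key a b hb
    exact ⟨x, hx⟩
  choose g hg using hv
  refine h ⟨⟨⟨g, fun {a b} hab => ?_⟩, fun a b hab => f.injective ?_⟩⟩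
  · obtain ⟨x, y, hxy, hx, hy⟩ := key a b hab
    rw [Sum.inl_injective ((hg a).trans hx.symm), Sum.inl_injective ((hg b).trans hy.symm)]
    exact hxy
  · exact (hg a).symm.trans ((congrArg Sum.inl hab).trans (hg b))

theorem Sig.WF.exc_iff {S : Sig} (h : S.WF) :
    Exceptional.{u} GG (graphOf S.size S.code) ↔ Sig.P1.{u} S := by
  classical
  constructor
  · rintro ⟨h1, -⟩ κ _ _
    obtain ⟨W, H, hf, hc⟩ := h1 (Nat.card κ) Nat.card_pos
    refine ⟨W, H, hf, fun c => ?_⟩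
    obtain ⟨F, k, hF⟩ := hc fun e => Finite.equivFin κ (c e)
    let f : Vx → W := fun v => if hv : Encodable.encode v < S.size then F ⟨_, hv⟩
      else F ⟨0, (EXBridge_fold S.code).1⟩
    have hv : ∀ v (hv : v ∈ S.Valid), f v = F ⟨_, EXBridge_lt hv⟩ := fun v hv =>
      dif_pos (EXBridge_lt hv)
    refine ⟨f, (Finite.equivFin κ).symm k, fun a ha b hb hab => ?_, fun e he => ?_⟩
    · rw [hv a ha, hv b hb] at hab
      exact Encodable.encode_injective (Fin.mk.inj (F.injective hab))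
    · rw [hv _ (EXBridge_fst he), hv _ (EXBridge_snd he)]
      exact ⟨F.toHom.map_adj (EXBridge_adj h he),
        (Equiv.eq_symm_apply _).2 (hF _ _ (EXBridge_adj h he))⟩
  · intro hP
    refine ⟨fun n hn => ?_, fun V H hH => countable_colouring H gg_col (EXBridge_tri h) hH⟩
    have : Nonempty (Fin n) := ⟨⟨0, hn⟩⟩
    obtain ⟨W, H, hf, hc⟩ := hP (Fin n)
    refine ⟨W ⊕ ULift.{u} (Fin S.size), H.map Sum.inl, EXBridge_free hf, fun c => ?_⟩
    obtain ⟨f, k, hi, he⟩ := hc fun e => c (e.map Sum.inl)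
    let F : Fin S.size → W ⊕ ULift.{u} (Fin S.size) := fun a =>
      if ha : ∃ v ∈ S.Valid, Encodable.encode v = a.1 then Sum.inl (f ha.choose) else Sum.inr ⟨a⟩
    have hF : ∀ (a : Fin S.size), ∀ v ∈ S.Valid, Encodable.encode v = a.1 →
        F a = Sum.inl (f v) := fun a v hv e => by
      have ha : ∃ v ∈ S.Valid, Encodable.encode v = a.1 := ⟨v, hv, e⟩
      rw [← Encodable.encode_injective (ha.choose_spec.2.trans e.symm)]
      exact dif_pos ha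
    have hG : ∀ (a : Fin S.size), (¬ ∃ v ∈ S.Valid, Encodable.encode v = a.1) →
        F a = Sum.inr ⟨a⟩ := fun a ha => dif_neg ha
    have h1 : ∀ a b : Fin S.size, (a.1, b.1) ∈ S.code →
        (H.map (Sum.inl : W → W ⊕ ULift.{u} (Fin S.size))).Adj (F a) (F b) ∧
          c s(F a, F b) = k := fun a b hab => by
      obtain ⟨e, hm, ea, eb⟩ := EXBridge_code.1 hab
      rw [hF a _ (EXBridge_fst hm) ea, hF b _ (EXBridge_snd hm) eb]
      exact ⟨(SimpleGraph.map_adj (Function.Embedding.inl (α := W)) H _ _).2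
        ⟨_, _, (he e hm).1, rfl, rfl⟩, (he e hm).2⟩
    have h2 : ∀ a b : Fin S.size, (graphOf S.size S.code).Adj a b →
        (H.map (Sum.inl : W → W ⊕ ULift.{u} (Fin S.size))).Adj (F a) (F b) ∧
          c s(F a, F b) = k := fun a b hab => by
      rw [graphOf, SimpleGraph.fromRel_adj] at hab
      rcases hab.2 with hab | hab
      · exact h1 a b hab
      · exact ⟨(h1 b a hab).1.symm, by rw [Sym2.eq_swap]; exact (h1 b a hab).2⟩
    refine ⟨⟨⟨F, fun {a b} hab => (h2 a b hab).1⟩, fun a b hab => ?_⟩, k,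
      fun a b hab => (h2 a b hab).2⟩
    change F a = F b at hab
    by_cases ha : ∃ v ∈ S.Valid, Encodable.encode v = a.1 <;>
      by_cases hb : ∃ v ∈ S.Valid, Encodable.encode v = b.1
    · obtain ⟨v, hv, ea⟩ := ha
      obtain ⟨w, hw, eb⟩ := hb
      rw [hF a v hv ea, hF b w hw eb] at hab
      exact Fin.ext (by rw [← ea, ← eb, hi hv hw (Sum.inl_injective hab)])
    · obtain ⟨v, hv, ea⟩ := ha
      rw [hF a v hv ea, hG b hb] at hab
      exact absurd hab Sum.inl_ne_inr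
    · obtain ⟨w, hw, eb⟩ := hb
      rw [hG a ha, hF b w hw eb] at hab
      exact absurd hab Sum.inr_ne_inl
    · rw [hG a ha, hG b hb] at hab
      exact congrArg ULift.down (Sum.inr_injective hab)

end Pool.Agent.P.MP_48d4bc_co.EX
end

-- part Pool.Agent.P.MP_48d4bc_co.EXStr
section

set_option autoImplicit false

/-! Structures with a binary operation, not everywhere defined, and typed copies of a template. -/

namespace Pool.Agent.P.MP_48d4bc_co.EX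

open Set Function

/-- points, the graph of an operation, and the sections (copies of the template) of each type -/
structure Str (A ty : Type) : Type 1 where
  /-- points -/
  W : Type
  /-- the operation -/
  R : W → W → W → Prop
  /-- sections -/
  Sec : ty → Set (A → W)

/-- the template: an edge and an operation for each type -/
structure Tpl (A ty : Type) where
  /-- first end of the edge -/
  x : A
  /-- second end of the edge -/
  y : A
  /-- the operation -/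
  R : ty → A → A → A → Prop
  ne : x ≠ y
  fn : ∀ α a b c c', R α a b c → R α a b c' → c = c'

variable {A ty : Type}

/-- the template of a type as a structure -/
@[reducible] def Tpl.str (T : Tpl A ty) (α : ty) : Str A ty :=
  ⟨A, T.R α, fun β => {σ | β = α ∧ σ = id}⟩

/-- homomorphisms -/
structure Hom (M N : Str A ty) (f : M.W → N.W) : Prop where
  rel : ∀ a b c, M.R a b c → N.R (f a) (f b) (f c)
  sec : ∀ α, ∀ σ ∈ M.Sec α, f ∘ σ ∈ N.Sec α

/-- strong embeddings -/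
structure Strong (T : Tpl A ty) (M N : Str A ty) (f : M.W → N.W) : Prop where
  hom : Hom M N f
  inj : Injective f
  refl : ∀ a b z, N.R (f a) (f b) z → ∃ c, M.R a b c ∧ z = f c
  back : ∀ α, ∀ τ ∈ N.Sec α, τ T.x ∈ range f → τ T.y ∈ range f → ∃ σ ∈ M.Sec α, τ = f ∘ σ

/-- finite, functional, all sections strong -/
structure Good (T : Tpl A ty) (M : Str A ty) : Prop where
  fin : Finite M.W
  fn : ∀ a b c c', M.R a b c → M.R a b c' → c = c'
  str : ∀ α, ∀ σ ∈ M.Sec α, Strong T (T.str α) M σ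

/-- the edges of the sections -/
def Str.Adj (M : Str A ty) (T : Tpl A ty) (u v : M.W) : Prop :=
  ∃ α, ∃ σ ∈ M.Sec α, (σ T.x = u ∧ σ T.y = v) ∨ (σ T.x = v ∧ σ T.y = u)

/-- a good structure with a system of strong copies of `Q` -/
structure Sy (T : Tpl A ty) (Q : Str A ty) : Type 1 where
  /-- the structure -/
  M : Str A ty
  good : Good T M
  /-- indices of the copies -/
  ι : Type
  finι : Finite ι
  /-- the copies -/
  emb : ι → Q.W → M.W
  str : ∀ i, Strong T Q M (emb i)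

variable {T : Tpl A ty} {Q : Str A ty}

/-- the edges of a copy -/
def Sy.E (S : Sy T Q) (i : S.ι) : Set (Sym2 S.M.W) :=
  {e | ∃ α, ∃ σ ∈ Q.Sec α, e = s(S.emb i (σ T.x), S.emb i (σ T.y))}

/-- in some copy the colour of a section from `Rel` depends only on its type -/
def Sy.Ram (S : Sy T Q) (Rel : ty → Set (A → Q.W)) (κ : Type) : Prop :=
  ∀ c : (A → S.M.W) → κ, ∃ (i : S.ι) (χ : ty → κ), ∀ α, ∀ σ ∈ Rel α, c (S.emb i ∘ σ) = χ α

/-- every triangle lies in a copy -/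
def Sy.Tri (S : Sy T Q) : Prop :=
  ∀ u v w, S.M.Adj T u v → S.M.Adj T u w → S.M.Adj T v w →
    ∃ i, u ∈ range (S.emb i) ∧ v ∈ range (S.emb i) ∧ w ∈ range (S.emb i)

/-- the partite statement -/
def RB (T : Tpl A ty) (κ : Type) (g : ℕ) : Prop :=
  ∀ (α : ty) (Q : Str A ty) (t : Q.W → A), Good T Q → Hom Q (T.str α) t →
    ∃ (S : Sy T Q) (t' : S.M.W → A), Hom S.M (T.str α) t' ∧ (∀ i a, t' (S.emb i a) = t a) ∧
      S.Ram Q.Sec κ ∧ Sparse S.E g

/-- pictures over a base `B` that need not be good -/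
structure Pic (T : Tpl A ty) {Q B : Str A ty} {ι₀ : Type} (j : ι₀ → Q.W → B.W) (κ : Type) (g : ℕ)
    (D : Set (A → B.W)) : Type 1 extends Sy T Q where
  /-- the projection -/
  π : M.W → B.W
  hom : Hom M B π
  /-- the copy below -/
  below : ι → ι₀
  proj : ∀ i a, π (emb i a) = j (below i) a
  sparse : Sparse toSy.E g
  tri : toSy.Tri
  ram : ∀ c : (A → M.W) → κ, ∃ χ : (A → B.W) → κ, ∀ m, ∃ i, below i = m ∧ ∀ α, ∀ σ ∈ Q.Sec α,
    j m ∘ σ ∈ D → c (emb i ∘ σ) = χ (j m ∘ σ)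

theorem Hom.comp {M N P : Str A ty} {f : M.W → N.W} {g : N.W → P.W} (hg : Hom N P g)
    (hf : Hom M N f) : Hom M P (g ∘ f) :=
  ⟨fun _ _ _ h => hg.rel _ _ _ (hf.rel _ _ _ h), fun α σ h => hg.sec α _ (hf.sec α σ h)⟩

theorem Strong.comp {M N P : Str A ty} {f : M.W → N.W} {g : N.W → P.W} (hg : Strong T N P g)
    (hf : Strong T M N f) : Strong T M P (g ∘ f) := by
  refine ⟨hg.hom.comp hf.hom, hg.inj.comp hf.inj, fun a b z h => ?_,
    fun α τ h ⟨a, ha⟩ ⟨b, hb⟩ => ?_⟩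
  · obtain ⟨c, h1, rfl⟩ := hg.refl _ _ z h
    obtain ⟨d, h2, rfl⟩ := hf.refl _ _ c h1
    exact ⟨d, h2, rfl⟩
  · obtain ⟨σ, h1, rfl⟩ := hg.back α τ h ⟨_, ha⟩ ⟨_, hb⟩
    obtain ⟨ρ, h2, rfl⟩ := hf.back α σ h1 ⟨a, hg.inj ha⟩ ⟨b, hg.inj hb⟩
    exact ⟨ρ, h2, rfl⟩

theorem Hom.sec_ty {α β : ty} {t : Q.W → A} (h : Hom Q (T.str α) t) {σ : A → Q.W}
    (hσ : σ ∈ Q.Sec β) : β = α := (h.sec β σ hσ).1

theorem Hom.sec_id {α β : ty} {t : Q.W → A} (h : Hom Q (T.str α) t) {σ : A → Q.W}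
    (hσ : σ ∈ Q.Sec β) (a : A) : t (σ a) = a := congrFun (h.sec β σ hσ).2 a

theorem Strong.uniq {M : Str A ty} {α β : ty} {σ τ : A → M.W} (h : Strong T (T.str α) M σ)
    (hτ : τ ∈ M.Sec β) (hx : τ T.x ∈ range σ) (hy : τ T.y ∈ range σ) : β = α ∧ τ = σ := by
  obtain ⟨ρ, h1, h2⟩ := h.back β τ hτ hx hy
  refine ⟨h1.1, ?_⟩
  rw [h2, h1.2]
  rfl

theorem Strong.mem {M : Str A ty} {α : ty} {σ : A → M.W} (h : Strong T (T.str α) M σ) :
    σ ∈ M.Sec α :=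
  h.hom.sec α id ⟨rfl, rfl⟩

theorem Good.adj_ne {M : Str A ty} (h : Good T M) {u v : M.W} (a : M.Adj T u v) : u ≠ v := by
  obtain ⟨α, σ, hσ, ⟨rfl, rfl⟩ | ⟨rfl, rfl⟩⟩ := a
  exacts [(h.str α σ hσ).inj.ne T.ne, (h.str α σ hσ).inj.ne T.ne.symm]

theorem Str.Adj.symm {M : Str A ty} {u v : M.W} (a : M.Adj T u v) : M.Adj T v u :=
  a.imp fun _ h => h.imp fun _ h => ⟨h.1, h.2.symm⟩

/-- the graph of a good structure -/
def Good.graph {M : Str A ty} (h : Good T M) : SimpleGraph M.W where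
  Adj := M.Adj T
  symm := ⟨fun _ _ a => a.symm⟩
  loopless := ⟨fun _ a => h.adj_ne a rfl⟩

/-- the part on a set of points -/
@[reducible] def Str.part (P : Str A ty) (U : Set P.W) : Str A ty :=
  ⟨U, fun a b c => P.R a b c, fun α => {σ | Subtype.val ∘ σ ∈ P.Sec α}⟩

/-- a set closed under the operation and under sections of its edges -/
structure Closed (T : Tpl A ty) (P : Str A ty) (U : Set P.W) : Prop where
  rel : ∀ a b c, P.R a b c → a ∈ U → b ∈ U → c ∈ U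
  sec : ∀ α, ∀ σ ∈ P.Sec α, σ T.x ∈ U → σ T.y ∈ U → ∀ a, σ a ∈ U

/-- the disjoint union of a family -/
@[reducible] def Str.sum {J : Type} (M : J → Str A ty) : Str A ty :=
  ⟨Σ β, (M β).W,
    fun u v w => ∃ β a b c, (M β).R a b c ∧ u = ⟨β, a⟩ ∧ v = ⟨β, b⟩ ∧ w = ⟨β, c⟩,
    fun α => {τ | ∃ β, ∃ σ ∈ (M β).Sec α, τ = fun a => ⟨β, σ a⟩}⟩

/-- the inclusion of a summand -/
def Str.inc {J : Type} (M : J → Str A ty) (β : J) (a : (M β).W) : (Str.sum M).W := ⟨β, a⟩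

section Amal

variable {P : Str A ty} {U : Set P.W} (S : Sy T (P.part U))

open Classical in
/-- the standard copies in the amalgam -/
noncomputable def φ (c : S.ι) (w : P.W) : S.M.W ⊕ S.ι × P.W :=
  if h : w ∈ U then Sum.inl (S.emb c ⟨w, h⟩) else Sum.inr (c, w)

/-- the amalgam of copies of `P` along a system of copies of a part -/
@[reducible] noncomputable def amal : Str A ty :=
  ⟨S.M.W ⊕ S.ι × P.W,
    fun u v z => ∃ c a b d, P.R a b d ∧ u = φ S c a ∧ v = φ S c b ∧ z = φ S c d,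
    fun α => {τ | ∃ c, ∃ σ ∈ P.Sec α, τ = φ S c ∘ σ}⟩

theorem φ_eq {c c' : S.ι} {a a' : P.W} (h : φ S c a = φ S c' a') :
    (c = c' ∧ a = a') ∨ ∃ ha ha', S.emb c ⟨a, ha⟩ = S.emb c' ⟨a', ha'⟩ := by
  unfold φ at h
  split_ifs at h with h1 h2 h2
  · exact Or.inr ⟨h1, h2, Sum.inl.inj h⟩
  · exact Or.inl (Prod.mk.inj (Sum.inr.inj h))

theorem φ_inl (c : S.ι) {a : P.W} (h : a ∈ U) : φ S c a = Sum.inl (S.emb c ⟨a, h⟩) := dif_pos h

theorem φ_inj (c : S.ι) : Injective (φ S c) := fun a a' h => by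
  rcases φ_eq S h with h | ⟨_, _, h⟩
  · exact h.2
  · exact congrArg Subtype.val ((S.str c).inj h)

end Amal

end Pool.Agent.P.MP_48d4bc_co.EX
end

-- part Pool.Agent.P.MP_48d4bc_co.EXB1
section

set_option autoImplicit false

/-! The structures attached to a finite ordered typed model. -/

namespace Pool.Agent.P.MP_48d4bc_co.EX

open Set Function Pool.Agent.Lib.PrimrecProp

/-- increasing triples -/
abbrev Tr (N : ℕ) : Type := {β : Fin N × Fin N × Fin N // β.1 < β.2.1 ∧ β.2.1 < β.2.2}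

/-- the middle level of a triple -/
def Tr.z {N : ℕ} (β : Tr N) : ℕ := β.1.2.1.1

/-- the types of the two sides -/
def Tr.ty {N : ℕ} (β : Tr N) (s : Bool) : Fin N × Fin N :=
  cond s (β.1.2.1, β.1.2.2) (β.1.1, β.1.2.1)

namespace Sig.GModel

variable {S : Sig} {N : ℕ} (M : S.GModel N)

/-- the template -/
def T : Tpl M.A (Fin N × Fin N) :=
  ⟨M.ν nx, M.ν ny, fun α => M.R α.1.1 α.2.1, fun h => absurd (congrArg M.r h) M.lo.1.ne,
    fun α => M.fn α.1.1 α.2.1⟩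

/-- points: amalgams, inner vertices, free sections -/
abbrev BW : Type :=
  (Fin S.glue.length × Bool × M.A) ⊕ S.Valid ⊕ ({e // e ∈ S.edges} × M.A)

variable (β : Tr N)

open Classical in
/-- the two sides of an amalgam -/
noncomputable def sg (i : Fin S.glue.length) (s : Bool) (a : M.A) : M.BW :=
  if h : s = true ∧ ∃ b, M.Θ i β.z b a then Sum.inl (i, false, h.2.choose) else Sum.inl (i, s, a)

open Classical in
/-- the copy of the graph -/
noncomputable def up (h0 : 0 < S.glue.length) (v : Vx) : M.BW :=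
  if h : v.2.2.2 = 0 ∧ v.1 < S.glue.length then M.sg β ⟨v.1, h.2⟩ v.2.1 (M.ν v.2.2.1.1)
  else if h' : v ∈ S.Valid then Sum.inr (Sum.inl ⟨v, h'⟩) else Sum.inl (⟨0, h0⟩, false, M.ν nx)

open Classical in
/-- the free section over an edge of a gadget -/
noncomputable def fr (h0 : 0 < S.glue.length) (e : {e // e ∈ S.edges}) (a : M.A) : M.BW :=
  if a = M.ν nx then M.up β h0 e.1.1 else if a = M.ν ny then M.up β h0 e.1.2
  else Sum.inr (Sum.inr (e, a))

/-- all sections of a type -/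
def Secs (h0 : 0 < S.glue.length) (α : Fin N × Fin N) : Set (M.A → M.BW) :=
  {σ | (∃ i s, α = β.ty s ∧ σ = M.sg β i s) ∨
    ∃ e : {e // e ∈ S.edges}, e.1.2.2.2.2 ≠ 0 ∧ α = β.ty false ∧ σ = M.fr β h0 e}

/-- the structure -/
@[reducible] def B (h0 : 0 < S.glue.length) : Str M.A (Fin N × Fin N) :=
  ⟨M.BW, fun u v w => ∃ α, ∃ σ ∈ M.Secs β h0 α, ∃ a b c, M.T.R α a b c ∧
    u = σ a ∧ v = σ b ∧ w = σ c, M.Secs β h0⟩

theorem sg_false (i : Fin S.glue.length) (a : M.A) :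
    M.sg β i false a = Sum.inl (i, false, a) := by
  unfold sg
  rw [dif_neg (by simp)]

theorem EXB1_true (i : Fin S.glue.length) (a : M.A) :
    (∃ b, M.Θ i β.z b a ∧ M.sg β i true a = Sum.inl (i, false, b)) ∨
      ((∀ b, ¬ M.Θ i β.z b a) ∧ M.sg β i true a = Sum.inl (i, true, a)) := by
  unfold sg
  by_cases h : ∃ b, M.Θ i β.z b a
  · exact Or.inl ⟨h.choose, h.choose_spec, dif_pos ⟨rfl, h⟩⟩
  · exact Or.inr ⟨fun b hb => h ⟨b, hb⟩, dif_neg fun h1 => h h1.2⟩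

omit M in
theorem EXB1_z : β.z < N := β.1.2.1.2

theorem EXB1_ft {i i' : Fin S.glue.length} {a b : M.A} :
    M.sg β i false a = M.sg β i' true b ↔ i = i' ∧ M.Θ i β.z a b := by
  rw [sg_false]
  rcases M.EXB1_true β i' b with ⟨c, hc, e⟩ | ⟨hc, e⟩ <;> rw [e]
  · constructor
    · intro h
      simp only [Sum.inl.injEq, Prod.mk.injEq, true_and] at h
      obtain ⟨rfl, rfl⟩ := h
      exact ⟨rfl, hc⟩
    · rintro ⟨rfl, h⟩
      rw [(M.bij i i.2 _ (EXB1_z β) a b c b h hc).2 rfl]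
  · constructor
    · intro h
      simp at h
    · rintro ⟨rfl, h⟩
      exact absurd h (hc a)

theorem EXB1_tt {i i' : Fin S.glue.length} {a b : M.A}
    (h : M.sg β i true a = M.sg β i' true b) : i = i' ∧ a = b := by
  rcases M.EXB1_true β i a with ⟨c, hc, e⟩ | ⟨hc, e⟩ <;>
    rcases M.EXB1_true β i' b with ⟨c', hc', e'⟩ | ⟨hc', e'⟩ <;> rw [e, e'] at h
  · simp only [Sum.inl.injEq, Prod.mk.injEq, true_and] at h
    obtain ⟨rfl, rfl⟩ := h
    exact ⟨rfl, (M.bij i i.2 _ (EXB1_z β) c a c b hc hc').1 rfl⟩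
  · simp at h
  · simp at h
  · simpa using h

theorem EXB1_inl (i : Fin S.glue.length) (s : Bool) (a : M.A) :
    ∃ x, M.sg β i s a = Sum.inl x := by
  unfold sg
  split_ifs
  · exact ⟨_, rfl⟩
  · exact ⟨_, rfl⟩

theorem EXB1_nv (h0 : 0 < S.glue.length) (i : Fin S.glue.length) (s : Bool) (a : Nm) :
    M.up β h0 (nv i (s, a)) = M.sg β i s (M.ν a) := by
  unfold up
  exact dif_pos ⟨rfl, i.2⟩

theorem sg_eq {i i' : Fin S.glue.length} {s s' : Bool} {a b : M.A} :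
    M.sg β i s a = M.sg β i' s' b ↔ i = i' ∧ ((s = s' ∧ a = b) ∨
      (s = false ∧ s' = true ∧ M.Θ i β.z a b) ∨ (s = true ∧ s' = false ∧ M.Θ i β.z b a)) := by
  cases s <;> cases s'
  · rw [sg_false, sg_false]
    simp
  · rw [EXB1_ft]
    simp
  · rw [eq_comm, EXB1_ft]
    constructor
    · rintro ⟨rfl, h⟩
      exact ⟨rfl, Or.inr (Or.inr ⟨rfl, rfl, h⟩)⟩
    · rintro ⟨rfl, h⟩
      simpa using h
  · constructor
    · intro h
      exact ⟨(M.EXB1_tt β h).1, Or.inl ⟨rfl, (M.EXB1_tt β h).2⟩⟩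
    · rintro ⟨rfl, h⟩
      have h1 : a = b := by simpa using h
      rw [h1]

theorem up_vtx (h : S.WF) (i : Fin S.glue.length) (s : Bool) {a : Nm} (ha : a ∈ S.names) :
    M.up β h.pos (S.vtx i s a) = M.sg β i s (M.ν a) := by
  have _ := ha
  cases s
  · rw [vtx_false, EXB1_nv]
  · rcases h.vtx_true i a with ⟨b, hb, e⟩ | ⟨-, e⟩
    · rw [e, EXB1_nv, EXB1_ft]
      exact ⟨rfl, M.glue i i.2 _ (EXB1_z β) (b, a) hb⟩
    · rw [e, EXB1_nv]

theorem up_int (h : S.WF) {v : Vx} (hv : v ∈ S.Valid) (h0 : v.2.2.2 ≠ 0) :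
    M.up β h.pos v = Sum.inr (Sum.inl ⟨v, hv⟩) := by
  unfold up
  rw [dif_neg fun h1 => h0 h1.1, dif_pos hv]

theorem up_inj (h : S.WF) : InjOn (M.up β h.pos) S.Valid := by
  intro u hu v hv e
  obtain ⟨i, hi, s, h1⟩ := h.valid_cases hu
  obtain ⟨i', hi', s', h2⟩ := h.valid_cases hv
  rcases h1 with ⟨a, ha, rfl⟩ | ⟨φ, -, j, hj, -, rfl⟩ <;>
    rcases h2 with ⟨b, hb, rfl⟩ | ⟨φ', -, j', hj', -, rfl⟩
  · rw [M.up_vtx β h ⟨i, hi⟩ s ha, M.up_vtx β h ⟨i', hi'⟩ s' hb, sg_eq] at e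
    obtain ⟨e1, e2⟩ := e
    obtain rfl : i = i' := congrArg Fin.val e1
    refine h.vtx_eq.2 ⟨rfl, ?_⟩
    rcases e2 with ⟨e3, e4⟩ | ⟨e3, e4, e5⟩ | ⟨e3, e4, e5⟩
    · exact Or.inl ⟨e3, M.inj a ha b hb e4⟩
    · exact Or.inr (Or.inl ⟨e3, e4, M.only i hi _ (EXB1_z β) a ha b hb e5⟩)
    · exact Or.inr (Or.inr ⟨e3, e4, M.only i hi _ (EXB1_z β) b hb a ha e5⟩)
  · obtain ⟨x, hx⟩ := M.EXB1_inl β ⟨i, hi⟩ s (M.ν a)
    rw [M.up_vtx β h ⟨i, hi⟩ s ha, hx, M.up_int β h hv (by show j' ≠ 0; omega)] at e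
    exact absurd e Sum.inl_ne_inr
  · obtain ⟨x, hx⟩ := M.EXB1_inl β ⟨i', hi'⟩ s' (M.ν b)
    rw [M.up_vtx β h ⟨i', hi'⟩ s' hb, hx, M.up_int β h hu (by show j ≠ 0; omega)] at e
    exact absurd e Sum.inr_ne_inl
  · rw [M.up_int β h hu (by show j ≠ 0; omega), M.up_int β h hv (by show j' ≠ 0; omega)] at e
    exact congrArg Subtype.val (Sum.inl.inj (Sum.inr.inj e))

omit M β in
/-- an edge is a glue edge or has an inner second end with a larger last coordinate -/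
theorem edge_cases (h : S.WF) {e : Vx × Vx} (he : e ∈ S.edges) :
    (∃ i : Fin S.glue.length, ∃ s, e = (S.vtx i s nx, S.vtx i s ny)) ∨
      e.1.2.2.2 < e.2.2.2.2 := by
  have _ := h
  obtain ⟨i, hi, s, rfl | ⟨φ, -, m, hm, w, hw, rfl⟩⟩ := mem_edges.1 he
  · exact Or.inl ⟨⟨i, hi⟩, s, rfl⟩
  · right
    obtain ⟨h1, h2, -⟩ := thE_lt (mem_thE.2 ⟨m, hm, w, hw, rfl⟩)
    simp only at h1 h2 ⊢
    rw [gad_int i s φ h2]
    generalize th m w.1 = j at h1
    show (S.gad i s φ j).2.2.2 < th m w.2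
    by_cases h3 : 3 ≤ j
    · rw [gad_int i s φ h3]
      exact h1
    · have h4 : (S.gad i s φ j).2.2.2 = 0 := by
        obtain rfl | rfl | rfl : j = 0 ∨ j = 1 ∨ j = 2 := by omega
        · rfl
        · rfl
        · rfl
      omega

theorem EXB1_frx (h0 : 0 < S.glue.length) (e : {e // e ∈ S.edges}) :
    M.fr β h0 e (M.ν nx) = M.up β h0 e.1.1 := by
  unfold fr
  rw [if_pos rfl]

theorem EXB1_fry (h0 : 0 < S.glue.length) (e : {e // e ∈ S.edges}) :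
    M.fr β h0 e (M.ν ny) = M.up β h0 e.1.2 := by
  unfold fr
  rw [if_neg fun h1 => M.lo.1.ne (congrArg M.r h1).symm, if_pos rfl]

omit M β in
theorem EXB1_nx : nx ∈ S.names := List.mem_cons_self

omit M β in
theorem EXB1_ny : ny ∈ S.names := List.mem_cons_of_mem _ List.mem_cons_self

theorem sec_of_edge (h : S.WF) {e : Vx × Vx} (he : e ∈ S.edges) :
    ∃ s, ∃ σ ∈ M.Secs β h.pos (β.ty s),
      σ (M.ν nx) = M.up β h.pos e.1 ∧ σ (M.ν ny) = M.up β h.pos e.2 := by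
  rcases edge_cases h he with ⟨i, s, rfl⟩ | h1
  · exact ⟨s, M.sg β i s, Or.inl ⟨i, s, rfl, rfl⟩, (M.up_vtx β h i s EXB1_nx).symm,
      (M.up_vtx β h i s EXB1_ny).symm⟩
  · exact ⟨false, M.fr β h.pos ⟨e, he⟩, Or.inr ⟨⟨e, he⟩, by show e.2.2.2.2 ≠ 0; omega, rfl, rfl⟩,
      M.EXB1_frx β h.pos ⟨e, he⟩, M.EXB1_fry β h.pos ⟨e, he⟩⟩

theorem edge_of_sec (h : S.WF) {α : Fin N × Fin N} {σ : M.A → M.BW}
    (hσ : σ ∈ M.Secs β h.pos α) : ∃ e ∈ S.edges,
      σ (M.ν nx) = M.up β h.pos e.1 ∧ σ (M.ν ny) = M.up β h.pos e.2 := by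
  rcases hσ with ⟨i, s, -, rfl⟩ | ⟨e, -, -, rfl⟩
  · exact ⟨(S.vtx i s nx, S.vtx i s ny), mem_edges.2 ⟨i, i.2, s, Or.inl rfl⟩,
      (M.up_vtx β h i s EXB1_nx).symm, (M.up_vtx β h i s EXB1_ny).symm⟩
  · exact ⟨e.1, e.2, M.EXB1_frx β h.pos e, M.EXB1_fry β h.pos e⟩

theorem rel_of_fact (h : S.WF) {i : ℕ} (hi : i < S.glue.length) (s : Bool) {φ : Ft}
    (hφ : φ ∈ S.facts) : (M.B β h.pos).R (M.up β h.pos (S.vtx i s φ.1))
      (M.up β h.pos (S.vtx i s φ.2.1)) (M.up β h.pos (S.vtx i s φ.2.2)) := by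
  obtain ⟨h1, h2, h3, -⟩ := h.facts hφ
  refine ⟨β.ty s, M.sg β ⟨i, hi⟩ s, Or.inl ⟨⟨i, hi⟩, s, rfl, rfl⟩, M.ν φ.1, M.ν φ.2.1, M.ν φ.2.2,
    ?_, M.up_vtx β h ⟨i, hi⟩ s h1, M.up_vtx β h ⟨i, hi⟩ s h2, M.up_vtx β h ⟨i, hi⟩ s h3⟩
  cases s
  · exact M.fact _ _ β.2.1 β.1.2.1.2 φ hφ
  · exact M.fact _ _ β.2.2 β.1.2.2.2 φ hφ

end Sig.GModel

end Pool.Agent.P.MP_48d4bc_co.EX
end

-- part Pool.Agent.P.MP_48d4bc_co.EXB2
section

set_option autoImplicit false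

/-! The structures of a finite ordered typed model are good. -/

namespace Pool.Agent.P.MP_48d4bc_co.EX

open Set Function Pool.Agent.Lib.PrimrecProp

namespace Sig.GModel

variable {S : Sig} {N : ℕ} (M : S.GModel N) (β : Tr N)

theorem EXB2_sg (i : Fin S.glue.length) (s : Bool) (a : M.A) : ∃ q, M.sg β i s a = Sum.inl q := by
  unfold sg
  split_ifs
  exacts [⟨_, rfl⟩, ⟨_, rfl⟩]

theorem EXB2_up (h0 : 0 < S.glue.length) (v : Vx) (q : {e // e ∈ S.edges} × M.A) :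
    M.up β h0 v ≠ Sum.inr (Sum.inr q) := by
  unfold up
  split_ifs with h1 h2
  · obtain ⟨p, hp⟩ := M.EXB2_sg β ⟨v.1, h1.2⟩ v.2.1 (M.ν v.2.2.1.1)
    rw [hp]
    exact Sum.inl_ne_inr
  · exact fun e => Sum.inl_ne_inr (Sum.inr.inj e)
  · exact Sum.inl_ne_inr

theorem EXB2_fr (h0 : 0 < S.glue.length) (e : {e // e ∈ S.edges}) (a : M.A) :
    (a = M.ν nx ∧ M.fr β h0 e a = M.up β h0 e.1.1) ∨
      (a = M.ν ny ∧ M.fr β h0 e a = M.up β h0 e.1.2) ∨
        M.fr β h0 e a = Sum.inr (Sum.inr (e, a)) := by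
  unfold fr
  split_ifs with h1 h2
  exacts [Or.inl ⟨h1, rfl⟩, Or.inr (Or.inl ⟨h2, rfl⟩), Or.inr (Or.inr rfl)]

omit M β in
theorem EXB2_v1 (e : {e // e ∈ S.edges}) : e.1.1 ∈ S.Valid := ⟨e.1, e.2, Or.inl rfl⟩

omit M β in
theorem EXB2_v2 (e : {e // e ∈ S.edges}) : e.1.2 ∈ S.Valid := ⟨e.1, e.2, Or.inr rfl⟩

omit M β in
theorem EXB2_lt (h : S.WF) (e : {e // e ∈ S.edges}) (he : e.1.2.2.2.2 ≠ 0) :
    e.1.1.2.2.2 < e.1.2.2.2.2 := by
  rcases edge_cases h e.2 with ⟨i, s, h1⟩ | h1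
  · exact absurd (by rw [h1]; rfl) he
  · exact h1

/-- equal values of two free sections -/
theorem EXB2_fr_eq (h : S.WF) {e e' : {e // e ∈ S.edges}} {a a' : M.A}
    (q : M.fr β h.pos e a = M.fr β h.pos e' a') : (e = e' ∧ a = a') ∨
      (((a = M.ν nx ∧ a' = M.ν nx ∧ e.1.1 = e'.1.1) ∨ (a = M.ν nx ∧ a' = M.ν ny ∧ e.1.1 = e'.1.2)) ∨
      ((a = M.ν ny ∧ a' = M.ν nx ∧ e.1.2 = e'.1.1) ∨
        (a = M.ν ny ∧ a' = M.ν ny ∧ e.1.2 = e'.1.2))) := by
  have I := M.up_inj β h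
  rcases M.EXB2_fr β h.pos e a with ⟨h1, h2⟩ | ⟨h1, h2⟩ | h2 <;>
    rcases M.EXB2_fr β h.pos e' a' with ⟨h3, h4⟩ | ⟨h3, h4⟩ | h4 <;> rw [h2, h4] at q
  · exact Or.inr (Or.inl (Or.inl ⟨h1, h3, I (EXB2_v1 e) (EXB2_v1 e') q⟩))
  · exact Or.inr (Or.inl (Or.inr ⟨h1, h3, I (EXB2_v1 e) (EXB2_v2 e') q⟩))
  · exact absurd q (M.EXB2_up β _ _ _)
  · exact Or.inr (Or.inr (Or.inl ⟨h1, h3, I (EXB2_v2 e) (EXB2_v1 e') q⟩))
  · exact Or.inr (Or.inr (Or.inr ⟨h1, h3, I (EXB2_v2 e) (EXB2_v2 e') q⟩))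
  · exact absurd q (M.EXB2_up β _ _ _)
  · exact absurd q.symm (M.EXB2_up β _ _ _)
  · exact absurd q.symm (M.EXB2_up β _ _ _)
  · exact Or.inl (Prod.mk.inj (Sum.inr.inj (Sum.inr.inj q)))

theorem EXB2_inj (h : S.WF) {α : Fin N × Fin N} {σ : M.A → M.BW} (hσ : σ ∈ M.Secs β h.pos α) :
    Injective σ := by
  intro a b q
  rcases hσ with ⟨i, s, -, rfl⟩ | ⟨e, -, -, rfl⟩
  · rcases ((M.sg_eq β).1 q).2 with h1 | h1 | h1
    · exact h1.2
    · exact absurd (h1.1.symm.trans h1.2.1) Bool.false_ne_true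
    · exact absurd (h1.2.1.symm.trans h1.1) Bool.false_ne_true
  · rcases M.EXB2_fr_eq β h q with h1 | (h1 | h1) | (h1 | h1)
    · exact h1.2
    · exact h1.1.trans h1.2.1.symm
    · exact absurd h1.2.2 (h.edge_ne e.2)
    · exact absurd h1.2.2.symm (h.edge_ne e.2)
    · exact h1.1.trans h1.2.1.symm

theorem EXB2_sg_fr (h : S.WF) {i : Fin S.glue.length} {s : Bool} {e : {e // e ∈ S.edges}}
    (he : e.1.2.2.2.2 ≠ 0) {a a' : M.A} (q : M.sg β i s a = M.fr β h.pos e a') :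
    a' = M.ν nx := by
  obtain ⟨p, hp⟩ := M.EXB2_sg β i s a
  rw [hp] at q
  rcases M.EXB2_fr β h.pos e a' with ⟨h3, -⟩ | ⟨-, h4⟩ | h4
  · exact h3
  · rw [h4, M.up_int β h (EXB2_v2 e) he] at q
    exact absurd q Sum.inl_ne_inr
  · rw [h4] at q
    exact absurd q Sum.inl_ne_inr

/-- two sections that share two points -/
theorem EXB2_two (h : S.WF) {α α' : Fin N × Fin N} {σ τ : M.A → M.BW}
    (hσ : σ ∈ M.Secs β h.pos α) (hτ : τ ∈ M.Secs β h.pos α') {a b a' b' : M.A}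
    (qa : σ a = τ a') (qb : σ b = τ b') (hne : a' ≠ b') :
    (α = α' ∧ σ = τ) ∨ ∃ i : Fin S.glue.length,
      (α = β.ty false ∧ α' = β.ty true ∧ σ = M.sg β i false ∧ τ = M.sg β i true ∧
        M.Θ i β.z a a' ∧ M.Θ i β.z b b') ∨
      (α = β.ty true ∧ α' = β.ty false ∧ σ = M.sg β i true ∧ τ = M.sg β i false ∧
        M.Θ i β.z a' a ∧ M.Θ i β.z b' b) := by
  have hne' : a ≠ b := fun q => hne (M.EXB2_inj β h hτ (qa.symm.trans (q ▸ qb)))
  rcases hσ with ⟨i, s, rfl, rfl⟩ | ⟨e, he, rfl, rfl⟩ <;>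
    rcases hτ with ⟨i', s', rfl, rfl⟩ | ⟨e', he', rfl, rfl⟩
  · obtain ⟨rfl, h1⟩ := (M.sg_eq β).1 qa
    have h2 := ((M.sg_eq β).1 qb).2
    rcases h1 with ⟨rfl, -⟩ | ⟨rfl, rfl, h1⟩ | ⟨rfl, rfl, h1⟩
    · exact Or.inl ⟨rfl, rfl⟩
    · rcases h2 with h2 | h2 | h2
      · exact absurd h2.1 Bool.false_ne_true
      · exact Or.inr ⟨i, Or.inl ⟨rfl, rfl, rfl, rfl, h1, h2.2.2⟩⟩
      · exact absurd h2.1 Bool.false_ne_true
    · rcases h2 with h2 | h2 | h2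
      · exact absurd h2.1.symm Bool.false_ne_true
      · exact absurd h2.2.1 Bool.false_ne_true
      · exact Or.inr ⟨i, Or.inr ⟨rfl, rfl, rfl, rfl, h1, h2.2.2⟩⟩
  · exact absurd ((M.EXB2_sg_fr β h he' qa).trans (M.EXB2_sg_fr β h he' qb).symm) hne
  · exact absurd ((M.EXB2_sg_fr β h he qa.symm).trans (M.EXB2_sg_fr β h he qb.symm).symm) hne'
  · have l := EXB2_lt h e he
    have l' := EXB2_lt h e' he'
    refine Or.inl ⟨rfl, congrArg _ ?_⟩
    rcases M.EXB2_fr_eq β h qa with h1 | (h1 | h1) | (h1 | h1)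
    · exact h1.1
    all_goals
      rcases M.EXB2_fr_eq β h qb with h2 | (h2 | h2) | (h2 | h2)
      · exact h2.1
      all_goals first
        | exact absurd (h1.1.trans h2.1.symm) hne'
        | exact absurd (h1.2.1.trans h2.2.1.symm) hne
        | exact Subtype.ext (Prod.ext h1.2.2 h2.2.2)
        | exact Subtype.ext (Prod.ext h2.2.2 h1.2.2)
        | (rw [h1.2.2, h2.2.2] at l; exact absurd l l'.not_gt)

theorem EXB2_key (h : S.WF) {α α' : Fin N × Fin N} {σ τ : M.A → M.BW}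
    (hσ : σ ∈ M.Secs β h.pos α) (hτ : τ ∈ M.Secs β h.pos α') {a b a' b' c' : M.A}
    (qa : σ a = τ a') (qb : σ b = τ b') (hR : M.T.R α' a' b' c') :
    ∃ c, M.T.R α a b c ∧ σ c = τ c' := by
  have hne : a' ≠ b' := fun q => M.irr _ _ b' c' (q ▸ hR)
  rcases M.EXB2_two β h hσ hτ qa qb hne with ⟨rfl, rfl⟩ |
    ⟨i, ⟨rfl, rfl, rfl, rfl, h1, h2⟩ | ⟨rfl, rfl, rfl, rfl, h1, h2⟩⟩
  · obtain rfl := M.EXB2_inj β h hσ qa
    obtain rfl := M.EXB2_inj β h hσ qb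
    exact ⟨c', hR, rfl⟩
  · obtain ⟨c, h3, h4⟩ := M.bwd i i.2 β.1.1 β.z β.1.2.2 β.2.1 β.2.2 β.1.2.2.2 a a' b b' c' h1 h2 hR
    exact ⟨c, h3, (M.sg_eq β).2 ⟨rfl, Or.inr (Or.inl ⟨rfl, rfl, h4⟩)⟩⟩
  · obtain ⟨c, h3, h4⟩ := M.fwd i i.2 β.1.1 β.z β.1.2.2 β.2.1 β.2.2 β.1.2.2.2 a' a b' b c' h1 h2 hR
    exact ⟨c, h3, (M.sg_eq β).2 ⟨rfl, Or.inr (Or.inr ⟨rfl, rfl, h4⟩)⟩⟩

end Sig.GModel

theorem Sig.GModel.good {S : Sig} {N : ℕ} (M : S.GModel N) (β : Tr N) (h : S.WF) :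
    Good M.T (M.B β h.pos) := by
  refine ⟨?_, ?_, fun α σ hσ => ⟨⟨fun a b c hR => ⟨α, σ, hσ, a, b, c, hR, rfl, rfl, rfl⟩, ?_⟩,
    M.EXB2_inj β h hσ, ?_, ?_⟩⟩
  · have := M.fin
    have : Finite S.Valid := Sig.valid_finite.to_subtype
    have : Finite {e // e ∈ S.edges} := (List.finite_toSet S.edges).to_subtype
    exact inferInstanceAs (Finite M.BW)
  · rintro u v w w' ⟨α, σ, hσ, a, b, c, hR, rfl, rfl, rfl⟩ ⟨α', τ, hτ, a', b', c', hR', qa, qb, rfl⟩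
    obtain ⟨d, h1, h2⟩ := M.EXB2_key β h hσ hτ qa qb hR'
    rw [← h2, M.T.fn α a b c d hR h1]
  · rintro α' ρ ⟨rfl, rfl⟩
    exact hσ
  · rintro a b z ⟨α', τ, hτ, a', b', c', hR', qa, qb, rfl⟩
    obtain ⟨d, h1, h2⟩ := M.EXB2_key β h hσ hτ qa qb hR'
    exact ⟨d, h1, h2.symm⟩
  · rintro α' τ hτ ⟨a, qa⟩ ⟨b, qb⟩
    rcases M.EXB2_two β h hσ hτ qa qb M.T.ne with ⟨rfl, rfl⟩ |
      ⟨i, ⟨-, -, -, -, h1, -⟩ | ⟨-, -, -, -, h1, -⟩⟩
    · exact ⟨id, ⟨rfl, rfl⟩, rfl⟩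
    · exact absurd rfl (M.off i i.2 β.z β.1.2.1.2 _ _ h1).2.2.1
    · exact absurd rfl (M.off i i.2 β.z β.1.2.1.2 _ _ h1).1

end Pool.Agent.P.MP_48d4bc_co.EX
end

-- part Pool.Agent.P.MP_48d4bc_co.EXB3
section

set_option autoImplicit false

/-! An order on the structures of a finite ordered typed model. -/

namespace Pool.Agent.P.MP_48d4bc_co.EX

open Set Function Pool.Agent.Lib.PrimrecProp

theorem EXB3_lt {l l' k k' m m' c c' : ℕ}
    (h : l < l' ∨ l = l' ∧ (k < k' ∨ k = k' ∧ m < m')) :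
    (toLex (l, toLex (k, toLex (m, c))) : ℕ ×ₗ ℕ ×ₗ ℕ ×ₗ ℕ) <
      toLex (l', toLex (k', toLex (m', c'))) := by
  simp only [Prod.Lex.toLex_lt_toLex]
  omega

/-- two keys that order an amalgam of two copies of the points -/
theorem EXB3_amal {A : Type} [Finite A] (r : A → ℕ) (Θ : A → A → Prop)
    (h : ∀ a a' b b', Θ a a' → Θ b b' → r a' < r b' → r a < r b) :
    ∃ k : A → ℕ, (∀ a b, r a < r b → k a ≤ k b) ∧ (∀ a a' b, Θ a a' → r a' < r b → r a < k b) ∧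
      ∀ a b b', Θ b b' → r a < r b' → k a ≤ r b := by
  classical
  have := Fintype.ofFinite A
  refine ⟨fun a => Finset.univ.sup fun b => if ∃ c, Θ b c ∧ r c < r a then r b + 1 else 0,
    fun a b hab => Finset.sup_mono_fun fun d _ => ?_, fun a a' b h1 h2 => ?_,
    fun a b b' h1 h2 => Finset.sup_le fun d _ => ?_⟩
  · split_ifs with h1 h2
    · exact le_rfl
    · obtain ⟨c, h3, h4⟩ := h1
      exact absurd ⟨c, h3, h4.trans hab⟩ h2
    · exact Nat.zero_le _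
    · exact le_rfl
  · refine lt_of_lt_of_le ?_ (Finset.le_sup (Finset.mem_univ a))
    rw [if_pos ⟨a', h1, h2⟩]
    exact Nat.lt_succ_self _
  · split_ifs with h3
    · obtain ⟨c, h4, h5⟩ := h3
      exact h d c b b' h4 h1 (h5.trans h2)
    · exact Nat.zero_le _

theorem Sig.GModel.order {S : Sig} {N : ℕ} (M : S.GModel N) (β : Tr N) (h : S.WF) :
    ∃ ρ : M.BW → ℕ ×ₗ ℕ ×ₗ ℕ ×ₗ ℕ, Injective ρ ∧ ∀ α, ∀ σ ∈ M.Secs β h.pos α, ∀ a b,
      M.r a < M.r b → ρ (σ a) < ρ (σ b) := by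
  classical
  have := M.fin
  have hz : β.z < N := β.1.2.1.2
  have hback : ∀ (i : Fin S.glue.length) a a' b b', M.Θ i β.z a a' → M.Θ i β.z b b' →
      M.r a' < M.r b' → M.r a < M.r b := by
    intro i a a' b b' h1 h2 h3
    rcases lt_trichotomy (M.r a) (M.r b) with h4 | h4 | h4
    · exact h4
    · rw [(M.bij i i.2 _ hz _ _ _ _ h1 h2).1 (M.rinj h4)] at h3
      exact absurd h3 (lt_irrefl _)
    · exact absurd (M.mono i i.2 _ hz _ _ _ _ h2 h1 h4) h3.not_gt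
  choose k hk1 hk2 hk3 using fun i : Fin S.glue.length =>
    EXB3_amal M.r (M.Θ i β.z) (hback i)
  have hV : Finite S.Valid := Sig.valid_finite
  have hE : Finite {e // e ∈ S.edges} := (List.finite_toSet S.edges).to_subtype
  obtain ⟨code, hcode⟩ := exists_injective_nat M.BW
  let l : M.BW → ℕ := Sum.elim (fun _ => 0) (Sum.elim (fun _ => 1) fun _ => 2)
  let p : M.BW → ℕ := Sum.elim (fun w => cond w.2.1 (k w.1 w.2.2) (M.r w.2.2 + 1))
    (Sum.elim (fun v => v.1.2.2.2) fun w => M.r w.2)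
  let q : M.BW → ℕ := Sum.elim (fun w => cond w.2.1 (M.r w.2.2 + 1) 0) fun _ => 0
  refine ⟨fun w => toLex (l w, toLex (p w, toLex (q w, code w))), fun w w' hw => hcode ?_, ?_⟩
  · simpa using congrArg (fun x : ℕ ×ₗ ℕ ×ₗ ℕ ×ₗ ℕ => (ofLex (ofLex (ofLex x).2).2).2) hw
  have htrue : ∀ i a, (∃ b, M.Θ i.1 β.z b a ∧ M.sg β i true a = Sum.inl (i, false, b)) ∨
      M.sg β i true a = Sum.inl (i, true, a) := by
    intro i a
    unfold Sig.GModel.sg
    split_ifs with h1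
    · exact Or.inl ⟨_, h1.2.choose_spec, rfl⟩
    · exact Or.inr rfl
  have hsg : ∀ i s a, l (M.sg β i s a) = 0 := by
    intro i s a
    unfold Sig.GModel.sg
    split_ifs <;> rfl
  rintro α σ (⟨i, s, -, rfl⟩ | ⟨e, he, -, rfl⟩) a b hab <;> refine EXB3_lt ?_
  · cases s
    · rw [M.sg_false, M.sg_false]
      exact Or.inr ⟨rfl, Or.inl (Nat.succ_lt_succ hab)⟩
    · rcases htrue i a with ⟨a', h1, h2⟩ | h2 <;> rcases htrue i b with ⟨b', h3, h4⟩ | h4 <;>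
        rw [h2, h4] <;> refine Or.inr ⟨rfl, ?_⟩
      · exact Or.inl (Nat.succ_lt_succ (hback i _ _ _ _ h1 h3 hab))
      · rcases (Nat.succ_le_of_lt (hk2 i _ _ _ h1 hab)).lt_or_eq with h5 | h5
        · exact Or.inl h5
        · exact Or.inr ⟨h5, Nat.succ_pos _⟩
      · exact Or.inl (Nat.lt_succ_of_le (hk3 i _ _ _ h3 hab))
      · rcases (hk1 i _ _ hab).lt_or_eq with h5 | h5
        · exact Or.inl h5
        · exact Or.inr ⟨h5, Nat.succ_lt_succ hab⟩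
  · have hv1 : e.1.1 ∈ S.Valid := ⟨e.1, e.2, Or.inl rfl⟩
    have hv2 : e.1.2 ∈ S.Valid := ⟨e.1, e.2, Or.inr rfl⟩
    have hlt : e.1.1.2.2.2 < e.1.2.2.2.2 := by
      rcases Sig.GModel.edge_cases h e.2 with ⟨i, s, h1⟩ | h1
      · exact absurd (by rw [h1]; rfl) he
      · exact h1
    have hu2 := M.up_int β h hv2 he
    have hu1 : l (M.up β h.pos e.1.1) = 0 ∨
        M.up β h.pos e.1.1 = Sum.inr (Sum.inl ⟨e.1.1, hv1⟩) := by
      unfold Sig.GModel.up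
      split_ifs
      · exact Or.inl (hsg _ _ _)
      · exact Or.inr rfl
    have hlo := M.lo.1
    have hxy : M.ν ny ≠ M.ν nx := fun h1 => hlo.ne' (congrArg M.r h1)
    have hbx : b ≠ M.ν nx := by
      rintro rfl
      by_cases h1 : a = M.ν nx
      · exact absurd hab (h1 ▸ lt_irrefl _)
      · have := M.lo.2 a h1
        omega
    have fx : M.fr β h.pos e (M.ν nx) = M.up β h.pos e.1.1 := if_pos rfl
    have fy : M.fr β h.pos e (M.ν ny) = Sum.inr (Sum.inl ⟨e.1.2, hv2⟩) :=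
      ((if_neg hxy).trans (if_pos rfl)).trans hu2
    have fo : ∀ c, c ≠ M.ν nx → c ≠ M.ν ny → M.fr β h.pos e c = Sum.inr (Sum.inr (e, c)) :=
      fun c h1 h2 => (if_neg h1).trans (if_neg h2)
    by_cases ha : a = M.ν nx
    · rw [ha, fx]
      by_cases hb : b = M.ν ny
      · rw [hb, fy]
        rcases hu1 with h1 | h1
        · exact Or.inl (h1.trans_lt Nat.one_pos)
        · rw [h1]
          exact Or.inr ⟨rfl, Or.inl hlt⟩
      · rw [fo b hbx hb]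
        rcases hu1 with h1 | h1
        · exact Or.inl (h1.trans_lt Nat.two_pos)
        · rw [h1]
          exact Or.inl Nat.one_lt_two
    · have hb : b ≠ M.ν ny := by
        rintro rfl
        exact absurd (M.lo.2 a ha) hab.not_ge
      rw [fo b hbx hb]
      by_cases ha' : a = M.ν ny
      · rw [ha', fy]
        exact Or.inl Nat.one_lt_two
      · rw [fo a ha ha']
        exact Or.inr ⟨rfl, Or.inl hab⟩

end Pool.Agent.P.MP_48d4bc_co.EX
end

-- part Pool.Agent.P.MP_48d4bc_co.EXHJ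
section

set_option autoImplicit false

/-! The partite lemma from the Hales-Jewett theorem. -/

namespace Pool.Agent.P.MP_48d4bc_co.EX

open Set Function

section

variable {A ty : Type} (T : Tpl A ty) (α : ty) (Q : Str A ty) (ι : Type)

/-- the section of a word -/
def EXHJ_sec (p : ι → Q.Sec α) (a : A) : A × (ι → Q.W) := (a, fun k => (p k).1 a)

/-- the power of a structure -/
@[reducible] def EXHJ_pow : Str A ty :=
  ⟨A × (ι → Q.W), fun u v z => T.R α u.1 v.1 z.1 ∧ ∀ k, Q.R (u.2 k) (v.2 k) (z.2 k),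
    fun β => {τ | β = α ∧ ∃ p, τ = EXHJ_sec α Q ι p}⟩

/-- the copy of a line -/
def EXHJ_emb (t : Q.W → A) (l : Combinatorics.Line (Q.Sec α) ι) (w : Q.W) : A × (ι → Q.W) :=
  (t w, fun k => (l.idxFun k).elim w fun σ => σ.1 (t w))

variable {T α Q ι}

theorem EXHJ_uniq (hQ : Good T Q) (σ τ : Q.Sec α) (hx : τ.1 T.x = σ.1 T.x)
    (hy : τ.1 T.y = σ.1 T.y) : τ.1 = σ.1 :=
  ((hQ.str α σ.1 σ.2).uniq τ.2 ⟨_, hx.symm⟩ ⟨_, hy.symm⟩).2

theorem EXHJ_good [Finite A] [Finite ι] (hQ : Good T Q) : Good T (EXHJ_pow T α Q ι) := by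
  have := hQ.fin
  refine ⟨inferInstance, fun u v z z' h h' => Prod.ext (T.fn α _ _ _ _ h.1 h'.1)
    (funext fun k => hQ.fn _ _ _ _ (h.2 k) (h'.2 k)), ?_⟩
  rintro β τ ⟨rfl, p, rfl⟩
  refine ⟨⟨fun a b c h => ⟨h, fun k => (hQ.str β _ (p k).2).hom.rel a b c h⟩, ?_⟩,
    fun a b h => congrArg Prod.fst h, fun a b z h => ⟨z.1, h.1, Prod.ext rfl (funext fun k => ?_)⟩,
    ?_⟩
  · rintro γ σ ⟨rfl, rfl⟩
    exact ⟨rfl, p, rfl⟩
  · exact hQ.fn _ _ _ _ (h.2 k) ((hQ.str β _ (p k).2).hom.rel a b z.1 h.1)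
  · rintro γ τ ⟨rfl, q, rfl⟩ ⟨a, ha⟩ ⟨b, hb⟩
    have h1 : a = T.x := congrArg Prod.fst ha
    have h2 : b = T.y := congrArg Prod.fst hb
    subst h1 h2
    refine ⟨id, ⟨rfl, rfl⟩, funext fun c => Prod.ext rfl (funext fun k => ?_)⟩
    exact congrFun (EXHJ_uniq hQ (p k) (q k) (congrFun (congrArg Prod.snd ha) k).symm
      (congrFun (congrArg Prod.snd hb) k).symm) c

theorem EXHJ_comp {t : Q.W → A} (ht : Hom Q (T.str α) t) (l : Combinatorics.Line (Q.Sec α) ι)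
    (σ : Q.Sec α) : EXHJ_emb α Q ι t l ∘ σ.1 = EXHJ_sec α Q ι (l σ) := by
  funext a
  have h := ht.sec_id σ.2 a
  refine Prod.ext h (funext fun k => ?_)
  simp only [EXHJ_emb, EXHJ_sec, Function.comp, h, Combinatorics.Line.coe_apply]
  cases l.idxFun k <;> rfl

theorem EXHJ_strong (hQ : Good T Q) {t : Q.W → A} (ht : Hom Q (T.str α) t)
    (l : Combinatorics.Line (Q.Sec α) ι) :
    Strong T Q (EXHJ_pow T α Q ι) (EXHJ_emb α Q ι t l) := by
  obtain ⟨k₀, hk₀⟩ := l.proper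
  have h0 : ∀ w, (EXHJ_emb α Q ι t l w).2 k₀ = w := fun w => by simp [EXHJ_emb, hk₀]
  have hrel : ∀ a b c, Q.R a b c → ∀ k, Q.R ((EXHJ_emb α Q ι t l a).2 k)
      ((EXHJ_emb α Q ι t l b).2 k) ((EXHJ_emb α Q ι t l c).2 k) := by
    intro a b c h k
    simp only [EXHJ_emb]
    cases l.idxFun k with
    | none => exact h
    | some σ => exact (hQ.str α _ σ.2).hom.rel _ _ _ (ht.rel a b c h)
  refine ⟨⟨fun a b c h => ⟨ht.rel a b c h, hrel a b c h⟩, fun β σ hσ => ?_⟩,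
    fun a b h => by rw [← h0 a, h, h0 b], fun a b z h => ?_, ?_⟩
  · obtain rfl := ht.sec_ty hσ
    exact ⟨rfl, l ⟨σ, hσ⟩, EXHJ_comp ht l ⟨σ, hσ⟩⟩
  · have h1 : Q.R a b (z.2 k₀) := by
      have := h.2 k₀
      rwa [h0, h0] at this
    exact ⟨z.2 k₀, h1, Prod.ext (T.fn α _ _ _ _ h.1 (ht.rel _ _ _ h1))
      (funext fun k => hQ.fn _ _ _ _ (h.2 k) (hrel _ _ _ h1 k))⟩
  · rintro β τ ⟨rfl, p, rfl⟩ ⟨a, ha⟩ ⟨b, hb⟩
    refine ⟨(p k₀).1, (p k₀).2, ?_⟩
    rw [EXHJ_comp ht l (p k₀)]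
    have a1 : t a = T.x := congrArg Prod.fst ha
    have b1 : t b = T.y := congrArg Prod.fst hb
    have a2 : a = (p k₀).1 T.x := (h0 a).symm.trans (congrFun (congrArg Prod.snd ha) k₀)
    have b2 : b = (p k₀).1 T.y := (h0 b).symm.trans (congrFun (congrArg Prod.snd hb) k₀)
    refine funext fun c => Prod.ext rfl (funext fun k => ?_)
    have a3 : (l.idxFun k).elim a (fun σ => σ.1 (t a)) = (p k).1 T.x :=
      congrFun (congrArg Prod.snd ha) k
    have b3 : (l.idxFun k).elim b (fun σ => σ.1 (t b)) = (p k).1 T.y :=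
      congrFun (congrArg Prod.snd hb) k
    rw [a1] at a3
    rw [b1] at b3
    refine congrFun (EXHJ_uniq hQ (l (p k₀) k) (p k) ?_ ?_) c
    · rw [← a3, Combinatorics.Line.coe_apply]
      cases l.idxFun k with
      | none => exact a2
      | some σ => rfl
    · rw [← b3, Combinatorics.Line.coe_apply]
      cases l.idxFun k with
      | none => exact b2
      | some σ => rfl

end

theorem rb_one {A ty : Type} [Finite A] (T : Tpl A ty) (κ : Type) [Finite κ] : RB T κ 1 := by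
  intro α Q t hQ ht
  have := hQ.fin
  obtain ⟨ι, _, hι⟩ := Combinatorics.Line.exists_mono_in_high_dimension (Q.Sec α) κ
  refine ⟨⟨EXHJ_pow T α Q ι, EXHJ_good hQ, Combinatorics.Line (Q.Sec α) ι,
    Finite.of_injective (fun l => l.idxFun) fun _ _ h => Combinatorics.Line.ext h,
    EXHJ_emb α Q ι t, EXHJ_strong hQ ht⟩, Prod.fst, ⟨fun a b c h => h.1, ?_⟩, fun _ _ => rfl,
    fun c => ?_, fun X h1 h2 => by omega⟩
  · rintro β τ ⟨rfl, p, rfl⟩
    exact ⟨rfl, rfl⟩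
  · obtain ⟨l, k, hl⟩ := hι fun p => c (EXHJ_sec α Q ι p)
    refine ⟨l, fun _ => k, fun β σ hσ => ?_⟩
    obtain rfl := ht.sec_ty hσ
    exact (congrArg c (EXHJ_comp ht l ⟨σ, hσ⟩)).trans (hl ⟨σ, hσ⟩)

end Pool.Agent.P.MP_48d4bc_co.EX
end

-- part Pool.Agent.P.MP_48d4bc_co.EXAmal
section

set_option autoImplicit false

/-! Amalgams over closed parts, and disjoint unions. -/

namespace Pool.Agent.P.MP_48d4bc_co.EX

open Set Function

variable {A ty : Type} {T : Tpl A ty} {P : Str A ty} {U : Set P.W}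

theorem part_good (hP : Good T P) (hU : Closed T P U) : Good T (P.part U) := by
  refine ⟨have := hP.fin; inferInstance, fun a b c c' h h' => Subtype.ext (hP.fn _ _ _ _ h h'),
    fun α σ hσ => ?_⟩
  have hs := hP.str α _ hσ
  refine ⟨⟨fun a b c h => hs.hom.rel a b c h, fun β ρ hρ => hs.hom.sec β ρ hρ⟩, hs.inj.of_comp,
    fun a b z h => ?_, fun β τ hτ ⟨a, ha⟩ ⟨b, hb⟩ => ?_⟩
  · obtain ⟨c, h1, h2⟩ := hs.refl a b z.1 h
    exact ⟨c, h1, Subtype.ext h2⟩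
  · obtain ⟨ρ, h1, h2⟩ := hs.back β (Subtype.val ∘ τ) hτ ⟨a, congrArg Subtype.val ha⟩
      ⟨b, congrArg Subtype.val hb⟩
    exact ⟨ρ, h1, funext fun x => Subtype.ext (congrFun h2 x)⟩

theorem φ_strong (hU : Closed T P U) (S : Sy T (P.part U)) (c : S.ι) :
    Strong T P (amal S) (φ S c) := by
  refine ⟨⟨fun a b d h => ⟨c, a, b, d, h, rfl, rfl, rfl⟩, fun α σ h => ⟨c, σ, h, rfl⟩⟩,
    φ_inj S c, ?_, ?_⟩
  · rintro a b _ ⟨c', a', b', d', h, e1, e2, rfl⟩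
    by_cases hc : c = c'
    · subst hc
      rw [φ_inj S c e1, φ_inj S c e2]
      exact ⟨d', h, rfl⟩
    · obtain ⟨ha, ha', k1⟩ := (φ_eq S e1).resolve_left fun k => hc k.1
      obtain ⟨hb, hb', k2⟩ := (φ_eq S e2).resolve_left fun k => hc k.1
      have hd' := hU.rel a' b' d' h ha' hb'
      have hR := (S.str c').hom.rel ⟨a', ha'⟩ ⟨b', hb'⟩ ⟨d', hd'⟩ h
      rw [← k1, ← k2] at hR
      obtain ⟨d, k3, k4⟩ := (S.str c).refl _ _ _ hR
      exact ⟨d.1, k3, by rw [φ_inl S c' hd', φ_inl S c d.2, k4]⟩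
  · rintro α _ ⟨c', σ, hσ, rfl⟩ ⟨a, e1⟩ ⟨b, e2⟩
    by_cases hc : c = c'
    · subst hc
      exact ⟨σ, hσ, rfl⟩
    · obtain ⟨ha, ha', k1⟩ := (φ_eq S e1).resolve_left fun k => hc k.1
      obtain ⟨hb, hb', k2⟩ := (φ_eq S e2).resolve_left fun k => hc k.1
      have hall := hU.sec α σ hσ ha' hb'
      have h1 := (S.str c').hom.sec α (fun x => ⟨σ x, hall x⟩) hσ
      obtain ⟨ρ, k3, k4⟩ := (S.str c).back α _ h1 ⟨_, k1⟩ ⟨_, k2⟩
      refine ⟨Subtype.val ∘ ρ, k3, funext fun x => ?_⟩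
      exact (φ_inl S c' (hall x)).trans
        ((congrArg Sum.inl (congrFun k4 x)).trans (φ_inl S c (ρ x).2).symm)

theorem amal_good (hP : Good T P) (hU : Closed T P U) (S : Sy T (P.part U)) :
    Good T (amal S) := by
  refine ⟨?_, ?_, ?_⟩
  · have := S.good.fin
    have := S.finι
    have := hP.fin
    infer_instance
  · rintro _ _ _ z' ⟨c, a, b, d, h, rfl, rfl, rfl⟩ h'
    obtain ⟨d', k, rfl⟩ := (φ_strong hU S c).refl a b z' h'
    rw [hP.fn a b d d' h k]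
  · rintro α _ ⟨c, σ, hσ, rfl⟩
    exact (φ_strong hU S c).comp (hP.str α σ hσ)

theorem sum_strong {J : Type} (M : J → Str A ty) (β : J) :
    Strong T (M β) (Str.sum M) (Str.inc M β) := by
  refine ⟨⟨fun a b c h => ⟨β, a, b, c, h, rfl, rfl, rfl⟩, fun α σ h => ⟨β, σ, h, rfl⟩⟩,
    sigma_mk_injective (β := fun β => (M β).W), ?_, ?_⟩
  · rintro a b _ ⟨β', a', b', c', h, e1, e2, rfl⟩
    cases e1
    cases e2
    exact ⟨c', h, rfl⟩
  · rintro α _ ⟨β', σ, hσ, rfl⟩ ⟨a, e1⟩ -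
    obtain rfl : β = β' := congrArg Sigma.fst e1
    exact ⟨σ, hσ, rfl⟩

theorem sum_good {J : Type} [Finite J] (M : J → Str A ty) (h : ∀ β, Good T (M β)) :
    Good T (Str.sum M) := by
  refine ⟨?_, ?_, ?_⟩
  · have := fun β => (h β).fin
    infer_instance
  · rintro _ _ _ z' ⟨β, a, b, d, k, rfl, rfl, rfl⟩ h'
    obtain ⟨d', k', rfl⟩ := (sum_strong (T := T) M β).refl a b z' h'
    rw [(h β).fn a b d d' k k']
    rfl
  · rintro α _ ⟨β, σ, hσ, rfl⟩
    exact (sum_strong M β).comp ((h β).str α σ hσ)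

theorem pic_zero {Q B : Str A ty} {ι₀ : Type} [Finite ι₀] (hQ : Good T Q) (j : ι₀ → Q.W → B.W)
    (hj : ∀ m, Hom Q B (j m)) (κ : Type) [Nonempty κ] (g : ℕ) : Nonempty (Pic T j κ g ∅) := by
  refine ⟨⟨⟨Str.sum fun _ : ι₀ => Q, sum_good _ fun _ => hQ, ι₀, inferInstance,
    Str.inc fun _ : ι₀ => Q, sum_strong _⟩, fun u => j u.1 u.2, ⟨?_, ?_⟩, id, fun _ _ => rfl,
    fun X h1 _ => ?_, ?_, fun c => ⟨fun _ => Classical.arbitrary κ, fun m =>
      ⟨m, rfl, fun _ _ _ h => h.elim⟩⟩⟩⟩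
  · rintro _ _ _ ⟨m, a, b, c, h, rfl, rfl, rfl⟩
    exact (hj m).rel a b c h
  · rintro α _ ⟨m, σ, h, rfl⟩
    exact (hj m).sec α σ h
  · obtain ⟨i, hi, i', hi', hne⟩ := Finset.one_lt_card.1 h1
    refine ⟨(· = i), ⟨i, hi, rfl⟩, ⟨i', hi', hne.symm⟩, ?_⟩
    rintro _ ⟨⟨k, -, rfl, α, σ, -, rfl⟩, k', -, hk, α', σ', -, e⟩
    refine absurd ?_ hk
    rcases Sym2.eq_iff.1 e with h | h
    · exact (congrArg Sigma.fst h.1).symm
    · exact (congrArg Sigma.fst h.1).symm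
  · rintro u v w ⟨α, _, ⟨m, σ, -, rfl⟩, h1⟩ ⟨α', _, ⟨m', σ', -, rfl⟩, h2⟩ -
    have k1 : u.1 = m ∧ v.1 = m := by
      rcases h1 with ⟨rfl, rfl⟩ | ⟨rfl, rfl⟩ <;> exact ⟨rfl, rfl⟩
    have k2 : u.1 = m' ∧ w.1 = m' := by
      rcases h2 with ⟨rfl, rfl⟩ | ⟨rfl, rfl⟩ <;> exact ⟨rfl, rfl⟩
    exact ⟨u.1, ⟨u.2, rfl⟩, ⟨v.2, Sigma.ext (k1.1.trans k1.2.symm) HEq.rfl⟩,
      ⟨w.2, Sigma.ext (k2.1.trans k2.2.symm) HEq.rfl⟩⟩

end Pool.Agent.P.MP_48d4bc_co.EX
end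

-- part Pool.Agent.P.MP_48d4bc_co.EXPic
section

set_option autoImplicit false

/-! One step of the partite construction. -/

namespace Pool.Agent.P.MP_48d4bc_co.EX

open Set Function

variable {A ty : Type} {T : Tpl A ty} {Q B : Str A ty} {ι₀ : Type} {j : ι₀ → Q.W → B.W} {κ : Type}
  {g : ℕ}

section Step

variable {P : Sy T Q} {U : Set P.M.W} (hU : Closed T P.M U) (S : Sy T (P.M.part U))

/-- the system on the amalgam -/
@[reducible] noncomputable def EXPic_sys : Sy T Q where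
  M := amal S
  good := amal_good P.good hU S
  ι := S.ι × P.ι
  finι := by
    have := S.finι
    have := P.finι
    infer_instance
  emb z := φ S z.1 ∘ P.emb z.2
  str z := (φ_strong hU S z.1).comp (P.str z.2)

theorem EXPic_meet {z z' : S.ι × P.ι} (h : z.1 ≠ z'.1) {e : Sym2 (amal S).W}
    (h1 : e ∈ (EXPic_sys hU S).E z) (h2 : e ∈ (EXPic_sys hU S).E z') :
    ∃ β, ∃ σ ∈ Q.Sec β, ∃ hs : ∀ a, P.emb z.2 (σ a) ∈ U,
      e = s(Sum.inl (S.emb z.1 ⟨_, hs T.x⟩), Sum.inl (S.emb z.1 ⟨_, hs T.y⟩)) := by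
  obtain ⟨β, σ, hσ, rfl⟩ := h1
  obtain ⟨β', σ', -, e⟩ := h2
  have k : ∀ {u v}, φ S z.1 (P.emb z.2 u) = φ S z'.1 (P.emb z'.2 v) → P.emb z.2 u ∈ U :=
    fun e => (φ_eq S e).elim (fun e => absurd e.1 h) fun ⟨e, _⟩ => e
  have ha := (Sym2.eq_iff.1 e).elim (fun e => k e.1) fun e => k e.1
  have hb := (Sym2.eq_iff.1 e).elim (fun e => k e.2) fun e => k e.2
  have hs := hU.sec β _ ((P.str z.2).hom.sec β σ hσ) ha hb
  exact ⟨β, σ, hσ, hs, by rw [← φ_inl S _ ha, ← φ_inl S _ hb]; rfl⟩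

theorem EXPic_sparse (hP : Sparse P.E (g + 1)) (hS : Sparse S.E g)
    (hu : ∀ i β β', ∀ σ ∈ Q.Sec β, ∀ σ' ∈ Q.Sec β', (∀ a, P.emb i (σ a) ∈ U) →
      (∀ a, P.emb i (σ' a) ∈ U) → σ = σ') : Sparse (EXPic_sys hU S).E (g + 1) := by
  classical
  intro X h1 h2
  change Finset (S.ι × P.ι) at X
  by_cases ha : ∀ z ∈ X, ∀ z' ∈ X, z.1 = z'.1
  · have hc : (X.image Prod.snd).card = X.card :=
      Finset.card_image_of_injOn fun z hz z' hz' e => Prod.ext (ha z hz z' hz') e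
    obtain ⟨p, ⟨i, hi, p1⟩, ⟨i', hi', p2⟩, hp⟩ := hP (X.image Prod.snd) (hc ▸ h1) (hc ▸ h2)
    obtain ⟨z, hz, rfl⟩ := Finset.mem_image.1 hi
    obtain ⟨z', hz', rfl⟩ := Finset.mem_image.1 hi'
    refine ⟨fun w => p w.2, ⟨z, hz, p1⟩, ⟨z', hz', p2⟩,
      (hp.image (Sym2.map (φ S z.1))).anti ?_⟩
    rintro e ⟨⟨w, hw, q, β, σ, hσ, rfl⟩, w', hw', q', β', σ', hσ', e⟩
    refine ⟨s(P.emb w.2 (σ T.x), P.emb w.2 (σ T.y)),
      ⟨⟨w.2, Finset.mem_image_of_mem _ hw, q, β, σ, hσ, rfl⟩,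
        w'.2, Finset.mem_image_of_mem _ hw', q', β', σ', hσ', ?_⟩, ?_⟩
    · apply Sym2.map.injective (φ_inj S w.1)
      rw [Sym2.map_mk, Sym2.map_mk]
      refine e.trans ?_
      rw [ha w hw w' hw']
      rfl
    · rw [ha z hz w hw]
      rfl
  push Not at ha
  obtain ⟨z, hz, z', hz', hne⟩ := ha
  by_cases hb : (X.image Prod.fst).card ≤ g
  · obtain ⟨p, ⟨i, hi, p1⟩, ⟨i', hi', p2⟩, hp⟩ := hS (X.image Prod.fst) (Finset.one_lt_card.2
      ⟨_, Finset.mem_image_of_mem _ hz, _, Finset.mem_image_of_mem _ hz', hne⟩) hb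
    obtain ⟨u, hu, rfl⟩ := Finset.mem_image.1 hi
    obtain ⟨u', hu', rfl⟩ := Finset.mem_image.1 hi'
    refine ⟨fun w => p w.1, ⟨u, hu, p1⟩, ⟨u', hu', p2⟩, (hp.image (Sym2.map Sum.inl)).anti ?_⟩
    rintro e ⟨⟨w, hw, q, he⟩, w', hw', q', he'⟩
    have hw1 : w.1 ≠ w'.1 := fun e => q' (show p w'.1 from e ▸ q)
    obtain ⟨β, σ, hσ, hs, e1⟩ := EXPic_meet hU S hw1 he he'
    obtain ⟨β', σ', hσ', hs', e2⟩ := EXPic_meet hU S hw1.symm he' he
    refine ⟨_, ⟨⟨w.1, Finset.mem_image_of_mem _ hw, q, β, fun a => ⟨_, hs a⟩,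
      (P.str w.2).hom.sec β σ hσ, rfl⟩, w'.1, Finset.mem_image_of_mem _ hw', q', β',
      fun a => ⟨_, hs' a⟩, (P.str w'.2).hom.sec β' σ' hσ', ?_⟩, e1.symm⟩
    exact Sym2.map.injective Sum.inl_injective (e1.symm.trans e2)
  have hi : InjOn Prod.fst (X : Set (S.ι × P.ι)) :=
    Finset.injOn_of_card_image_eq (le_antisymm Finset.card_image_le (h2.trans (not_le.1 hb)))
  refine ⟨(· = z), ⟨z, hz, rfl⟩, ⟨z', hz', fun e => hne (e ▸ rfl)⟩, ?_⟩
  rintro e ⟨⟨w, hw, rfl, he⟩, w', hw', q', he'⟩ f ⟨⟨v, -, rfl, hf⟩, v', hv', r', hf'⟩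
  obtain ⟨β, σ, hσ, hs, e1⟩ := EXPic_meet hU S (fun e => q' (hi hw hw' e).symm) he he'
  obtain ⟨β', σ', hσ', hs', e2⟩ := EXPic_meet hU S (fun e => r' (hi hw hv' e).symm) hf hf'
  obtain rfl := hu _ β β' σ hσ σ' hσ' hs hs'
  exact e1.trans e2.symm

theorem EXPic_adj {u v : (amal S).W} (h : (amal S).Adj T u v) :
    ∃ c a b, P.M.Adj T a b ∧ u = φ S c a ∧ v = φ S c b := by
  obtain ⟨β, _, ⟨c, σ, hσ, rfl⟩, ⟨rfl, rfl⟩ | ⟨rfl, rfl⟩⟩ := h
  · exact ⟨c, _, _, ⟨β, σ, hσ, Or.inl ⟨rfl, rfl⟩⟩, rfl, rfl⟩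
  · exact ⟨c, _, _, ⟨β, σ, hσ, Or.inr ⟨rfl, rfl⟩⟩, rfl, rfl⟩

include hU in
theorem EXPic_back (c : S.ι) {a b : P.M.W} (h : (amal S).Adj T (φ S c a) (φ S c b)) :
    P.M.Adj T a b := by
  obtain ⟨β, τ, hτ, ⟨h1, h2⟩ | ⟨h1, h2⟩⟩ := h
  · obtain ⟨σ, hσ, rfl⟩ := (φ_strong hU S c).back β τ hτ ⟨_, h1.symm⟩ ⟨_, h2.symm⟩
    exact ⟨β, σ, hσ, Or.inl ⟨φ_inj S c h1, φ_inj S c h2⟩⟩
  · obtain ⟨σ, hσ, rfl⟩ := (φ_strong hU S c).back β τ hτ ⟨_, h1.symm⟩ ⟨_, h2.symm⟩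
    exact ⟨β, σ, hσ, Or.inr ⟨φ_inj S c h1, φ_inj S c h2⟩⟩

end Step

theorem pic_step {D : Set (A → B.W)} (P : Pic T j κ (g + 1) D) (hj : ∀ m, Hom Q B (j m))
    (hi : ∀ m, Injective (j m)) (hR : RB T κ g) {α : ty} {σ₀ : A → B.W}
    (h₀ : Strong T (T.str α) B σ₀) : Nonempty (Pic T j κ (g + 1) (insert σ₀ D)) := by
  classical
  let U : Set P.M.W := {w | P.π w ∈ range σ₀}
  have hsec : ∀ β, ∀ σ ∈ P.M.Sec β, σ T.x ∈ U → σ T.y ∈ U → β = α ∧ P.π ∘ σ = σ₀ :=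
    fun β σ hσ h1 h2 => h₀.uniq (P.hom.sec β σ hσ) h1 h2
  have hU : Closed T P.M U := by
    refine ⟨fun a b c h ⟨a', ha⟩ ⟨b', hb⟩ => ?_, fun β σ hσ h1 h2 a =>
      ⟨a, (congrFun (hsec β σ hσ h1 h2).2 a).symm⟩⟩
    have h1 := P.hom.rel a b c h
    rw [← ha, ← hb] at h1
    obtain ⟨c', -, e⟩ := h₀.refl a' b' _ h1
    exact ⟨c', e.symm⟩
  choose t ht using fun w : U => (w.2 : ∃ a, σ₀ a = P.π w.1)
  have hom_t : Hom (P.M.part U) (T.str α) t := by
    refine ⟨fun a b c h => ?_, fun β σ hσ => ?_⟩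
    · have h1 := P.hom.rel _ _ _ h
      rw [← ht a, ← ht b, ← ht c] at h1
      obtain ⟨c', h2, e⟩ := h₀.refl _ _ _ h1
      rw [h₀.inj e]
      exact h2
    · obtain ⟨h1, h2⟩ := hsec β _ hσ (σ T.x).2 (σ T.y).2
      exact ⟨h1, funext fun a => h₀.inj ((ht (σ a)).trans (congrFun h2 a))⟩
  obtain ⟨S, t', -, h2, h3, h4⟩ := hR α _ t (part_good P.good hU) hom_t
  let π : (amal S).W → B.W := Sum.elim (fun v => σ₀ (t' v)) fun z => P.π z.2
  have hπ : ∀ c w, π (φ S c w) = P.π w := fun c w => by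
    unfold φ
    split_ifs with h
    · exact (congrArg σ₀ (h2 c ⟨w, h⟩)).trans (ht _)
    · rfl
  have hom : Hom (amal S) B π := by
    refine ⟨?_, ?_⟩
    · rintro _ _ _ ⟨c, a, b, d, h, rfl, rfl, rfl⟩
      rw [hπ, hπ, hπ]
      exact P.hom.rel a b d h
    · rintro β _ ⟨c, σ, hσ, rfl⟩
      have e : π ∘ φ S c ∘ σ = P.π ∘ σ := funext fun a => hπ c _
      rw [e]
      exact P.hom.sec β σ hσ
  clear_value π
  have two : ∀ u v, (amal S).Adj T u v → π u ∈ range σ₀ → π v ∈ range σ₀ →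
      (π u = σ₀ T.x ∧ π v = σ₀ T.y) ∨ (π u = σ₀ T.y ∧ π v = σ₀ T.x) := by
    rintro _ _ ⟨β, τ, hτ, ⟨rfl, rfl⟩ | ⟨rfl, rfl⟩⟩ hu hv
    · have e := (h₀.uniq (hom.sec β τ hτ) hu hv).2
      exact Or.inl ⟨congrFun e _, congrFun e _⟩
    · have e := (h₀.uniq (hom.sec β τ hτ) hv hu).2
      exact Or.inr ⟨congrFun e _, congrFun e _⟩
  have tri : ∀ u v w, (amal S).Adj T u v → (amal S).Adj T u w → (amal S).Adj T v w →
      π u ∉ range σ₀ → ∃ i, u ∈ range ((EXPic_sys hU S).emb i) ∧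
        v ∈ range ((EXPic_sys hU S).emb i) ∧ w ∈ range ((EXPic_sys hU S).emb i) := by
    intro u v w a1 a2 a3 hu
    obtain ⟨c, a, b, h, rfl, rfl⟩ := EXPic_adj S a1
    obtain ⟨c', a', d, h', e, rfl⟩ := EXPic_adj S a2
    rw [hπ] at hu
    obtain ⟨rfl, rfl⟩ := (φ_eq S e).resolve_right fun ⟨ha, _⟩ => hu ha
    obtain ⟨i, ⟨_, rfl⟩, ⟨_, rfl⟩, _, rfl⟩ := P.tri a b d h h' (EXPic_back hU S c a3)
    exact ⟨(c, i), ⟨_, rfl⟩, ⟨_, rfl⟩, _, rfl⟩
  refine ⟨⟨EXPic_sys hU S, π, hom, fun z => P.below z.2, fun z a => (hπ _ _).trans (P.proj _ _),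
    EXPic_sparse hU S P.sparse h4 fun i β β' σ hσ σ' hσ' k k' => ?_, fun u v w a b c => ?_,
    fun c => ?_⟩⟩
  · have e := (hsec β _ ((P.str i).hom.sec β σ hσ) (k _) (k _)).2
    have e' := (hsec β' _ ((P.str i).hom.sec β' σ' hσ') (k' _) (k' _)).2
    refine funext fun a => hi (P.below i) ?_
    rw [← P.proj, ← P.proj]
    exact (congrFun e a).trans (congrFun e' a).symm
  · by_cases hu : π u ∈ range σ₀
    · by_cases hv : π v ∈ range σ₀
      · have hw : π w ∉ range σ₀ := fun hw => by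
          have hne : σ₀ T.x ≠ σ₀ T.y := h₀.inj.ne T.ne
          rcases two u v a hu hv with ⟨e1, e2⟩ | ⟨e1, e2⟩ <;>
            rcases two u w b hu hw with ⟨e3, e4⟩ | ⟨e3, e4⟩ <;>
            rcases two v w c hv hw with ⟨e5, e6⟩ | ⟨e5, e6⟩ <;>
            first
              | exact hne (e1.symm.trans e3)
              | exact hne (e3.symm.trans e1)
              | exact hne (e2.symm.trans e5)
              | exact hne (e5.symm.trans e2)
              | exact hne (e4.symm.trans e6)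
              | exact hne (e6.symm.trans e4)
        obtain ⟨i, p, q, r⟩ := tri w u v b.symm c.symm a hw
        exact ⟨i, q, r, p⟩
      · obtain ⟨i, p, q, r⟩ := tri v u w a.symm c b hv
        exact ⟨i, q, p, r⟩
    · exact tri u v w a b c hu
  · obtain ⟨i, χ₀, hk⟩ := h3 fun ρ => c (Sum.inl ∘ ρ)
    obtain ⟨χ, hχ⟩ := P.ram fun ρ => c (φ S i ∘ ρ)
    refine ⟨Function.update χ σ₀ (χ₀ α), fun m => ?_⟩
    obtain ⟨l, rfl, hl⟩ := hχ m
    refine ⟨(i, l), rfl, fun β σ hσ hD => ?_⟩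
    by_cases he : j (P.below l) ∘ σ = σ₀
    · rw [he, Function.update_self]
      have hs : ∀ a, P.emb l (σ a) ∈ U := fun a =>
        ⟨a, ((P.proj l (σ a)).trans (congrFun he a)).symm⟩
      have h5 : (fun a => (⟨_, hs a⟩ : U)) ∈ (P.M.part U).Sec β := (P.str l).hom.sec β σ hσ
      rw [← hom_t.sec_ty h5, ← hk β _ h5]
      exact congrArg c (funext fun a => φ_inl S i (hs a))
    · rw [Function.update_of_ne he]
      exact hl β σ hσ (hD.resolve_left he)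

end Pool.Agent.P.MP_48d4bc_co.EX
end

-- part Pool.Agent.P.MP_48d4bc_co.EXSys
section

set_option autoImplicit false

/-! Sparse systems over a base with the Ramsey property. -/

namespace Pool.Agent.P.MP_48d4bc_co.EX

open Set Function

variable {A ty : Type} [Finite A] {T : Tpl A ty} {κ : Type} [Finite κ] [Nonempty κ]

theorem exists_sys {Q B : Str A ty} {ι₀ : Type} [Finite ι₀] [Finite B.W] {g : ℕ} (hQ : Good T Q)
    (j : ι₀ → Q.W → B.W) (hj : ∀ m, Hom Q B (j m)) (hi : ∀ m, Injective (j m))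
    (Rel : ty → Set (A → Q.W)) (hRel : ∀ α, Rel α ⊆ Q.Sec α)
    (hs : ∀ m α, ∀ σ ∈ Rel α, Strong T (T.str α) B (j m ∘ σ)) (hR : RB T κ g)
    (hB : ∀ c : (A → B.W) → κ, ∃ (m : ι₀) (χ : ty → κ), ∀ α, ∀ σ ∈ Rel α, c (j m ∘ σ) = χ α) :
    ∃ (S : Sy T Q) (π : S.M.W → B.W), Hom S.M B π ∧ (∀ i, ∃ m, ∀ a, π (S.emb i a) = j m a) ∧
      S.Ram Rel κ ∧ Sparse S.E (g + 1) ∧ S.Tri := by
  have h : ∀ D : Set (A → B.W), (∀ σ₀ ∈ D, ∃ α, Strong T (T.str α) B σ₀) →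
      Nonempty (Pic T j κ (g + 1) D) := fun D => by
    induction D, D.toFinite using Set.Finite.induction_on with
    | empty => exact fun _ => pic_zero hQ j hj κ (g + 1)
    | @insert e D _ _ ih =>
      intro hD
      obtain ⟨P⟩ := ih fun σ₀ h => hD σ₀ (mem_insert_of_mem _ h)
      obtain ⟨α, h₀⟩ := hD e (mem_insert _ _)
      exact pic_step P hj hi hR h₀
  obtain ⟨P⟩ := h {σ₀ | ∃ α, Strong T (T.str α) B σ₀} fun _ h => h
  refine ⟨P.toSy, P.π, P.hom, fun i => ⟨_, P.proj i⟩, fun c => ?_, P.sparse, P.tri⟩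
  obtain ⟨χ, hχ⟩ := P.ram c
  obtain ⟨m, k, hk⟩ := hB χ
  obtain ⟨i, -, hi'⟩ := hχ m
  exact ⟨i, k, fun α σ hσ => (hi' α σ (hRel α hσ) ⟨α, hs m α σ hσ⟩).trans (hk α σ hσ)⟩

theorem rb (T : Tpl A ty) (κ : Type) [Finite κ] [Nonempty κ] (g : ℕ) : RB T κ (g + 1) := by
  induction g with
  | zero => exact rb_one T κ
  | succ g ih =>
    intro α Q t hQ ht
    obtain ⟨S, t₀, h1, h2, h3, -⟩ := rb_one T κ α Q t hQ ht
    have := S.good.fin
    have := S.finι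
    obtain ⟨S', π, h4, h5, h6, h7, -⟩ := exists_sys hQ S.emb (fun m => (S.str m).hom)
      (fun m => (S.str m).inj) Q.Sec (fun _ => Subset.rfl)
      (fun m β σ hσ => (S.str m).comp (hQ.str β σ hσ)) ih h3
    refine ⟨S', t₀ ∘ π, h1.comp h4, fun i a => ?_, h6, h7⟩
    obtain ⟨m, hm⟩ := h5 i
    exact (congrArg t₀ (hm a)).trans (h2 m a)

/-- a Ramsey system can be made sparse -/
theorem sparsify {B : Str A ty} (hB : Good T B) (S₀ : Sy T B) (h₀ : S₀.Ram B.Sec κ) (g : ℕ) :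
    ∃ S : Sy T B, S.Ram B.Sec κ ∧ Sparse S.E g ∧ S.Tri := by
  have := S₀.good.fin
  have := S₀.finι
  obtain ⟨S, π, -, -, h6, h7, h8⟩ := exists_sys hB S₀.emb (fun m => (S₀.str m).hom)
    (fun m => (S₀.str m).inj) B.Sec (fun _ => Subset.rfl)
    (fun m β σ hσ => (S₀.str m).comp (hB.str β σ hσ)) (rb T κ g) h₀
  exact ⟨S, h6, fun X h1 h2 => h7 X h1 (by omega), h8⟩

end Pool.Agent.P.MP_48d4bc_co.EX
end

-- part Pool.Agent.P.MP_48d4bc_co.EXNaive
section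

set_option autoImplicit false

/-! The naive amalgam along the sections of one type over one map. -/

namespace Pool.Agent.P.MP_48d4bc_co.EX

open Set Function

theorem naive {A ty : Type} [Finite A] {T : Tpl A ty} (P : Str A ty) (hP : Good T P) {Z : Type}
    (π : P.W → Z) (α : ty) (γ : A → Z) (hγ : Injective γ) (κ : Type) [Finite κ] :
    ∃ (C : Str A ty) (_ : Finite C.W) (ι : Type) (_ : Finite ι) (j : ι → P.W → C.W) (π' : C.W → Z),
      (∀ l, Hom P C (j l)) ∧ (∀ l, Injective (j l)) ∧ (∀ l w, π' (j l w) = π w) ∧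
      (∀ β, ∀ τ ∈ C.Sec β, ∃ l, ∃ σ ∈ P.Sec β, τ = j l ∘ σ) ∧
      (∀ l, ∀ σ ∈ P.Sec α, π ∘ σ = γ → Strong T (T.str α) C (j l ∘ σ)) ∧
      ∀ c : (A → C.W) → κ, ∃ l k, ∀ σ ∈ P.Sec α, π ∘ σ = γ → c (j l ∘ σ) = k := by
  classical
  have := hP.fin
  let Ω := {σ : A → P.W // σ ∈ P.Sec α ∧ π ∘ σ = γ}
  obtain ⟨ι, _, hι⟩ := Combinatorics.Line.exists_mono_in_high_dimension Ω κ
  let L := Combinatorics.Line Ω ι
  have hL : Finite L := Finite.of_injective (fun l : L => l.idxFun) fun _ _ h =>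
    Combinatorics.Line.ext h
  have hΩ : ∀ (s : Ω) a, π (s.1 a) = γ a := fun s a => congrFun s.2.2 a
  have hS : ∀ s : Ω, Strong T (T.str α) P s.1 := fun s => hP.str α _ s.2.1
  obtain ⟨j, hj, hj'⟩ : ∃ j : L → P.W → (ι → P.W) ⊕ L × P.W,
      (∀ l w a, π w = γ a → j l w = Sum.inl fun k => (l.idxFun k).elim w fun s => s.1 a) ∧
      ∀ l w, (¬∃ a, π w = γ a) → j l w = Sum.inr (l, w) := by
    refine ⟨fun l w => if h : ∃ a, π w = γ a then
      Sum.inl fun k => (l.idxFun k).elim w fun s => s.1 h.choose else Sum.inr (l, w),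
      fun l w a h => ?_, fun l w h => dif_neg h⟩
    have h' : ∃ a, π w = γ a := ⟨a, h⟩
    beta_reduce
    rw [dif_pos h', hγ (h'.choose_spec.symm.trans h)]
  let π' : (ι → P.W) ⊕ L × P.W → Z := Sum.elim
    (fun f => if h : Nonempty ι then π (f h.some) else γ T.x) fun q => π q.2
  have hπ : ∀ l w, π' (j l w) = π w := fun l w => by
    by_cases h : ∃ a, π w = γ a
    · obtain ⟨a, h⟩ := h
      have hn : Nonempty ι := ⟨l.proper.choose⟩
      rw [hj l w a h]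
      simp only [π', Sum.elim_inl, dif_pos hn]
      rcases l.idxFun hn.some with _ | s
      · rfl
      · exact (hΩ s a).trans h.symm
    · rw [hj' l w h]; rfl
  clear_value π'
  have hinj : ∀ l, Injective (j l) := fun l u v e => by
    have e' : π u = π v := (hπ l u).symm.trans ((congrArg π' e).trans (hπ l v))
    by_cases h : ∃ a, π u = γ a
    · obtain ⟨a, h⟩ := h
      obtain ⟨k, hk⟩ := l.proper
      rw [hj l u a h, hj l v a (e'.symm.trans h)] at e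
      simpa [hk] using congrFun (Sum.inl.inj e) k
    · rw [hj' l u h, hj' l v (e' ▸ h)] at e
      exact (Prod.mk.inj (Sum.inr.inj e)).2
  have hw : ∀ (l : L) (s : Ω), j l ∘ s.1 = fun a => Sum.inl fun k => (l s k).1 a := fun l s => by
    funext a
    rw [comp_apply, hj l _ a (hΩ s a)]
    congr 1
    funext k
    change _ = ((l.idxFun k).getD s).1 a
    rcases l.idxFun k with _ | t <;> rfl
  have K : ∀ (l l' : L) (s : Ω) a u, j l (s.1 a) = j l' u →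
      π u = γ a ∧ ∀ k, (l s k).1 a = (l'.idxFun k).elim u fun t => t.1 a := fun l l' s a u e => by
    have h1 : π u = γ a :=
      (hπ l' u).symm.trans ((congrArg π' e).symm.trans ((hπ l _).trans (hΩ s a)))
    refine ⟨h1, fun k => ?_⟩
    rw [hj l' u a h1, ← comp_apply (f := j l), hw] at e
    exact congrFun (Sum.inl.inj e) k
  refine ⟨⟨(ι → P.W) ⊕ L × P.W,
    fun u v z => ∃ l a b d, P.R a b d ∧ u = j l a ∧ v = j l b ∧ z = j l d,
    fun β => {τ | ∃ l, ∃ σ ∈ P.Sec β, τ = j l ∘ σ}⟩, inferInstance, L, hL, j, π',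
    fun l => ⟨fun a b d h => ⟨l, a, b, d, h, rfl, rfl, rfl⟩, fun β σ h => ⟨l, σ, h, rfl⟩⟩,
    hinj, hπ, fun β τ h => h, fun l σ h1 h2 => ?_, fun c => ?_⟩
  · obtain ⟨s, rfl⟩ : ∃ s : Ω, s.1 = σ := ⟨⟨σ, h1, h2⟩, rfl⟩
    refine ⟨⟨fun a b d h => ⟨l, _, _, _, (hS s).hom.rel a b d h, rfl, rfl, rfl⟩, ?_⟩,
      (hinj l).comp (hS s).inj, ?_, ?_⟩
    · rintro β ρ ⟨rfl, rfl⟩
      exact ⟨l, s.1, h1, rfl⟩
    · rintro a b z ⟨l', u, v, w, h, ha, hb, rfl⟩
      have ka := (K l l' s a u ha).2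
      have kb := (K l l' s b v hb).2
      have mv : ∀ k, l'.idxFun k = none → ∃ d, T.R α a b d ∧ w = (l s k).1 d := fun k hk => by
        have e1 := ka k
        have e2 := kb k
        rw [hk] at e1 e2
        exact (hS (l s k)).refl a b w (by rw [e1, e2]; exact h)
      obtain ⟨k₀, hk₀⟩ := l'.proper
      obtain ⟨d, hd, hwd⟩ := mv k₀ hk₀
      refine ⟨d, hd, ?_⟩
      rw [hw, hj l' w d (by rw [hwd]; exact hΩ _ d)]
      beta_reduce
      congr 1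
      funext k
      have e1 := ka k
      have e2 := kb k
      rcases hk : l'.idxFun k with _ | t
      · obtain ⟨d', hd', e⟩ := mv k hk
        rw [T.fn α a b d d' hd hd']
        exact e
      · rw [hk] at e1 e2
        refine hP.fn _ _ _ _ ((hS t).hom.rel a b d hd) ?_
        have := (hS (l s k)).hom.rel a b d hd
        rw [e1, e2] at this
        exact this
    · rintro β τ ⟨l', ρ, hρ, rfl⟩ ⟨a, ha⟩ ⟨b, hb⟩
      obtain ⟨pa, ka⟩ := K l l' s a _ ha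
      obtain ⟨pb, kb⟩ := K l l' s b _ hb
      have mv : ∀ k, l'.idxFun k = none → β = α ∧ ρ = (l s k).1 := fun k hk => by
        have e1 := ka k
        have e2 := kb k
        rw [hk] at e1 e2
        exact (hS (l s k)).uniq hρ ⟨a, e1⟩ ⟨b, e2⟩
      obtain ⟨k₀, hk₀⟩ := l'.proper
      obtain ⟨rfl, e₀⟩ := mv k₀ hk₀
      have hρ' : ∀ d, π (ρ d) = γ d := fun d => by rw [e₀]; exact hΩ _ d
      obtain rfl : T.x = a := hγ ((hρ' _).symm.trans pa)
      obtain rfl : T.y = b := hγ ((hρ' _).symm.trans pb)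
      refine ⟨id, ⟨rfl, rfl⟩, ?_⟩
      rw [hw]
      funext d
      rw [comp_apply, hj l' _ d (hρ' d)]
      refine congrArg Sum.inl (funext fun k => ?_)
      have e1 := ka k
      have e2 := kb k
      rcases hk : l'.idxFun k with _ | t
      · exact congrFun (mv k hk).2 d
      · rw [hk] at e1 e2
        exact congrFun ((hS (l s k)).uniq t.2.1 ⟨_, e1⟩ ⟨_, e2⟩).2 d
  · obtain ⟨l, k, hl⟩ := hι fun p => c fun a => Sum.inl fun k => (p k).1 a
    exact ⟨l, k, fun σ h1 h2 => (congrArg c (hw l ⟨σ, h1, h2⟩)).trans (hl _)⟩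

end Pool.Agent.P.MP_48d4bc_co.EX
end

-- part Pool.Agent.P.MP_48d4bc_co.EXTop
section

set_option autoImplicit false

/-! Ramsey systems for ordered good structures. -/

namespace Pool.Agent.P.MP_48d4bc_co.EX

open Set Function

variable {A ty : Type} [Finite A] [Finite ty] {T : Tpl A ty}

/-- outer pictures -/
def EXTopP (T : Tpl A ty) (B : Str A ty) (Z κ : Type) (D : Set (ty × (A → Z))) : Prop :=
  ∃ (S : Sy T B) (π : S.M.W → Z) (below : S.ι → B.W → Z),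
    (∀ i a, π (S.emb i a) = below i a) ∧
    ∀ c : (A → S.M.W) → κ, ∃ χ : ty × (A → Z) → κ, ∀ μ : B.W → Z, ∃ i, below i = μ ∧
      ∀ α, ∀ σ ∈ B.Sec α, (α, μ ∘ σ) ∈ D → c (S.emb i ∘ σ) = χ (α, μ ∘ σ)

omit [Finite A] [Finite ty] in
theorem EXTop_zero {B : Str A ty} (hB : Good T B) (Z κ : Type) [Finite Z] [Nonempty κ] :
    EXTopP T B Z κ ∅ := by
  have := hB.fin
  refine ⟨⟨Str.sum fun _ : B.W → Z => B, sum_good _ fun _ => hB, B.W → Z, inferInstance,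
    Str.inc fun _ : B.W → Z => B, sum_strong fun _ : B.W → Z => B⟩, fun w => w.1 w.2, id,
    fun _ _ => rfl, fun _ => ⟨fun _ => Classical.arbitrary κ, fun μ => ⟨μ, rfl, ?_⟩⟩⟩
  intro _ _ _ h
  exact h.elim

omit [Finite ty] in
theorem EXTop_step {B : Str A ty} {Z κ : Type} [Finite κ] [Nonempty κ] {D : Set (ty × (A → Z))}
    (h : EXTopP T B Z κ D) (p : ty × (A → Z)) (hp : Injective p.2) :
    EXTopP T B Z κ (insert p D) := by
  classical
  obtain ⟨α, γ⟩ := p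
  obtain ⟨S, π, below, hpr, hram⟩ := h
  obtain ⟨C, hC, ι, hι, j, π', h1, h2, h3, -, h5, h6⟩ := naive S.M S.good π α γ hp κ
  obtain ⟨S', πS, -, g2, g3, -⟩ := exists_sys (T := T) (κ := κ) (g := 0 + 1) S.good j h1 h2
    (fun β => {σ | σ ∈ S.M.Sec β ∧ β = α ∧ π ∘ σ = γ}) (fun _ _ h => h.1)
    (by
      rintro m β σ ⟨a1, rfl, a3⟩
      exact h5 m σ a1 a3) (rb T κ 0)
    (fun c => by
      obtain ⟨l, k, hk⟩ := h6 c
      refine ⟨l, fun _ => k, ?_⟩
      rintro β σ ⟨a1, rfl, a3⟩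
      exact hk σ a1 a3)
  have := S.finι
  have := S'.finι
  refine ⟨⟨S'.M, S'.good, S'.ι × S.ι, inferInstance, fun z => S'.emb z.1 ∘ S.emb z.2,
    fun z => (S'.str z.1).comp (S.str z.2)⟩, π' ∘ πS, fun z => below z.2, fun z a => ?_,
    fun c => ?_⟩
  · obtain ⟨m, hm⟩ := g2 z.1
    show π' (πS (S'.emb z.1 (S.emb z.2 a))) = below z.2 a
    rw [hm, h3, hpr]
  · obtain ⟨c₀, χ₀, hc⟩ := g3 c
    obtain ⟨χ, hχ⟩ := hram fun σ => c (S'.emb c₀ ∘ σ)
    refine ⟨update χ (α, γ) (χ₀ α), fun μ => ?_⟩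
    obtain ⟨i, hi, hi'⟩ := hχ μ
    refine ⟨(c₀, i), hi, fun β σ hσ hD => ?_⟩
    by_cases he : (β, μ ∘ σ) = (α, γ)
    · rw [he, update_self]
      obtain ⟨rfl, he'⟩ := Prod.mk.inj he
      refine hc β (S.emb i ∘ σ) ⟨(S.str i).hom.sec β σ hσ, rfl, ?_⟩
      rw [← he', ← hi]
      exact funext fun a => hpr i (σ a)
    · rw [update_of_ne he]
      exact hi' β σ hσ ((mem_insert_iff.1 hD).resolve_left he)

theorem EXTop_all {B : Str A ty} (hB : Good T B) (Z κ : Type) [Finite Z] [Finite κ] [Nonempty κ] :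
    EXTopP T B Z κ {p | Injective p.2} := by
  refine Set.Finite.induction_on_subset (motive := fun D _ => EXTopP T B Z κ D) _
    (Set.toFinite _) (EXTop_zero hB Z κ) ?_
  intro p D hp _ _ ih
  exact EXTop_step ih p hp

theorem top [LinearOrder A] {B : Str A ty} (hB : Good T B) {K : Type} [LinearOrder K]
    (ρ : B.W → K) (hρ : Injective ρ) (hm : ∀ α, ∀ σ ∈ B.Sec α, StrictMono (ρ ∘ σ)) (κ : Type)
    [Finite κ] [Nonempty κ] : ∃ S : Sy T B, S.Ram B.Sec κ := by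
  classical
  have := hB.fin
  have := Fintype.ofFinite A
  have := Fintype.ofFinite B.W
  obtain ⟨N, hN⟩ := Lib.Ramsey.ramsey (ty → κ) (Fintype.card A) (Fintype.card B.W)
  obtain ⟨S, π, below, -, hram⟩ := EXTop_all hB (Fin N) κ
  refine ⟨S, fun c => ?_⟩
  obtain ⟨χ, hχ⟩ := hram c
  let e := monoEquivOfFin A rfl
  obtain ⟨Y, -, hY, col, hcol⟩ := hN (Fin N) Finset.univ (by simp)
    fun γ α => χ (α, γ ∘ e.symm)
  obtain ⟨μ, h1, h2⟩ : ∃ μ : B.W → Fin N, (∀ a b, ρ a < ρ b → μ a < μ b) ∧ ∀ a, μ a ∈ Y := by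
    let _ : LinearOrder B.W := LinearOrder.lift' ρ hρ
    refine ⟨fun a => Y.orderEmbOfFin hY ((monoEquivOfFin B.W rfl).symm a), fun a b h => ?_,
      fun a => Y.orderEmbOfFin_mem hY _⟩
    exact (Y.orderEmbOfFin hY).strictMono ((monoEquivOfFin B.W rfl).symm.strictMono h)
  obtain ⟨i, -, hi⟩ := hχ μ
  refine ⟨i, col, fun α σ hσ => ?_⟩
  have h3 : StrictMono (μ ∘ σ) := fun a b h => h1 _ _ (hm α σ hσ h)
  rw [hi α σ hσ h3.injective, ← hcol (μ ∘ σ ∘ e) (h3.comp e.strictMono) fun _ => h2 _]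
  have h4 : (μ ∘ σ ∘ e) ∘ e.symm = μ ∘ σ := funext fun a => by simp
  rw [h4]

end Pool.Agent.P.MP_48d4bc_co.EX
end

-- part Pool.Agent.P.MP_48d4bc_co.EXFam
section

set_option autoImplicit false

/-! A host for a family of ordered good structures. -/

namespace Pool.Agent.P.MP_48d4bc_co.EX

open Set Function

variable {A ty : Type} {T : Tpl A ty}

/-- an edge between two points of a strong copy comes from a section of the copy -/
theorem EXFam_edge {Q N : Str A ty} {f : Q.W → N.W} (hf : Strong T Q N f) {u v : N.W}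
    (h : N.Adj T u v) (hu : u ∈ range f) (hv : v ∈ range f) :
    ∃ α, ∃ σ ∈ Q.Sec α, (f (σ T.x) = u ∧ f (σ T.y) = v) ∨ (f (σ T.x) = v ∧ f (σ T.y) = u) := by
  obtain ⟨α, τ, hτ, ⟨rfl, rfl⟩ | ⟨rfl, rfl⟩⟩ := h
  · obtain ⟨σ, h1, rfl⟩ := hf.back α τ hτ hu hv
    exact ⟨α, σ, h1, Or.inl ⟨rfl, rfl⟩⟩
  · obtain ⟨σ, h1, rfl⟩ := hf.back α τ hτ hv hu
    exact ⟨α, σ, h1, Or.inr ⟨rfl, rfl⟩⟩

/-- a copy of the gadget in a sparse system lies in one member -/
theorem copy_in_member {Q : Str A ty} (S : Sy T Q)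
    (h2 : Sparse S.E (Fintype.card (Finset (Fin 9)))) (h3 : S.Tri) (ψ : Gam.Copy S.good.graph) :
    ∃ i, ∀ a, ψ a ∈ range (S.emb i) := by
  classical
  have hF := gam_linked
  have h : ∀ t, Gam.IsNClique 3 t → ∃ i, ∀ v ∈ t, ψ v ∈ range (S.emb i) := fun t ht => by
    obtain ⟨x, y, z, a, b, c, rfl⟩ := SimpleGraph.is3Clique_iff.1 ht
    obtain ⟨i, p, q, r⟩ := h3 _ _ _ (ψ.toHom.map_adj a) (ψ.toHom.map_adj b) (ψ.toHom.map_adj c)
    refine ⟨i, fun v hv => ?_⟩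
    simp only [Finset.mem_insert, Finset.mem_singleton] at hv
    rcases hv with rfl | rfl | rfl
    exacts [p, q, r]
  obtain ⟨t₀, ht₀, -⟩ := hF.1 0
  have : Nonempty S.ι := (h t₀ ht₀).nonempty
  choose! i hi using h
  have hE : ∀ t, Gam.IsNClique 3 t → ∀ e ∈ Gam.edgeSet, (∀ v ∈ e, v ∈ t) →
      Sym2.map ψ e ∈ S.E (i t) := fun t ht e he h => by
    induction e using Sym2.ind with
    | _ x y =>
    obtain ⟨α, σ, hσ, k⟩ := EXFam_edge (S.str (i t)) (ψ.toHom.map_adj he)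
      (hi t ht x (h x (Sym2.mem_mk_left _ _))) (hi t ht y (h y (Sym2.mem_mk_right _ _)))
    refine ⟨α, σ, hσ, ?_⟩
    rcases k with ⟨k1, k2⟩ | ⟨k1, k2⟩
    · rw [k1, k2]
      rfl
    · rw [k1, k2, Sym2.eq_swap]
      rfl
  let X := (Finset.univ.filter (Gam.IsNClique 3)).image i
  have hX : ∀ t, Gam.IsNClique 3 t → i t ∈ X := fun t ht =>
    Finset.mem_image_of_mem _ (Finset.mem_filter.2 ⟨Finset.mem_univ _, ht⟩)
  by_cases hc : 2 ≤ X.card
  · obtain ⟨p, ⟨a, ha, p1⟩, ⟨b, hb, p2⟩, hp⟩ := h2 X hc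
      (Finset.card_image_le.trans (Finset.card_le_univ _))
    obtain ⟨t, ht, rfl⟩ := Finset.mem_image.1 ha
    obtain ⟨t', ht', rfl⟩ := Finset.mem_image.1 hb
    obtain ⟨e, he, e', he', hne⟩ := hF.2 (fun t => p (i t))
      ⟨t, (Finset.mem_filter.1 ht).2, p1⟩ ⟨t', (Finset.mem_filter.1 ht').2, p2⟩
    have k : ∀ e ∈ {e | e ∈ Gam.edgeSet ∧ (∃ t, Gam.IsNClique 3 t ∧ p (i t) ∧ ∀ v ∈ e, v ∈ t) ∧
        ∃ t, Gam.IsNClique 3 t ∧ ¬ p (i t) ∧ ∀ v ∈ e, v ∈ t}, Sym2.map ψ e ∈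
        {e | (∃ i ∈ X, p i ∧ e ∈ S.E i) ∧ ∃ i ∈ X, ¬ p i ∧ e ∈ S.E i} :=
      fun e ⟨h0, ⟨t, h1, h2, h3⟩, t', h4, h5, h6⟩ =>
        ⟨⟨_, hX t h1, h2, hE t h1 e h0 h3⟩, _, hX t' h4, h5, hE t' h4 e h0 h6⟩
    exact absurd (Sym2.map.injective ψ.injective (hp (k e he) (k e' he'))) hne
  refine ⟨i t₀, fun v => ?_⟩
  obtain ⟨t, ht, hv⟩ := hF.1 v
  rw [Finset.card_le_one.1 (by omega : X.card ≤ 1) _ (hX t₀ ht₀) _ (hX t ht)]
  exact hi t ht v hv

/-- a map constant along the edges of the gadget is constant -/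
theorem EXFam_conn {J : Type} (r : Fin 9 → J) (h : ∀ a b, Gam.Adj a b → r a = r b) (a : Fin 9) :
    r a = r 3 := by
  have k : ∀ a : Fin 9, a ≠ 1 → a ≠ 3 → r a = r 3 := fun a h1 h2 =>
    h a 3 (gam_adj.2 (by revert a; decide))
  by_cases h1 : a = 1
  · rw [h1, h 1 6 (gam_adj.2 (by decide))]
    exact k 6 (by decide) (by decide)
  by_cases h2 : a = 3
  · rw [h2]
  exact k a h1 h2

theorem host_fam [Finite A] [Finite ty] [LinearOrder A] {J : Type} [Finite J] (M : J → Str A ty)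
    (hM : ∀ β, Good T (M β)) {K : Type} [LinearOrder K] (ρ : ∀ β, (M β).W → K)
    (hρ : ∀ β, Injective (ρ β)) (hm : ∀ β α, ∀ σ ∈ (M β).Sec α, StrictMono (ρ β ∘ σ)) (κ : Type)
    [Finite κ] [Nonempty κ] : ∃ (S : Str A ty) (hS : Good T S),
      (∀ c : (A → S.W) → κ, ∃ χ : ty → κ, ∀ β, ∃ f : (M β).W → S.W, Strong T (M β) S f ∧
        ∀ α, ∀ σ ∈ (M β).Sec α, c (f ∘ σ) = χ α) ∧
      ∀ ψ : Gam.Copy hS.graph, ∃ β, ∃ f : (M β).W → S.W, Strong T (M β) S f ∧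
        ∀ a, ψ a ∈ range f := by
  obtain ⟨n, ⟨e⟩⟩ := Finite.exists_equiv_fin J
  have hB : Good T (Str.sum M) := sum_good M hM
  let r : (Str.sum M).W → K ×ₗ Fin n := fun u => toLex (ρ u.1 u.2, e u.1)
  have hr : Injective r := by
    rintro ⟨β, a⟩ ⟨β', a'⟩ h
    obtain ⟨h1, h2⟩ := Prod.mk.inj (toLex.injective h)
    obtain rfl : β = β' := e.injective h2
    obtain rfl : a = a' := hρ β h1
    rfl
  have hr' : ∀ α, ∀ σ ∈ (Str.sum M).Sec α, StrictMono (r ∘ σ) := by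
    rintro α _ ⟨β, σ, hσ, rfl⟩ a b h
    exact Prod.Lex.toLex_lt_toLex.2 (Or.inl (hm β α σ hσ h))
  obtain ⟨S₀, h₀⟩ := top hB r hr hr' κ
  obtain ⟨S, h1, h2, h3⟩ := sparsify hB S₀ h₀ (Fintype.card (Finset (Fin 9)))
  refine ⟨S.M, S.good, fun c => ?_, fun ψ => ?_⟩
  · obtain ⟨i, χ, h⟩ := h1 c
    exact ⟨χ, fun β => ⟨S.emb i ∘ Str.inc M β, (S.str i).comp (sum_strong M β),
      fun α σ hσ => h α _ ⟨β, σ, hσ, rfl⟩⟩⟩
  · obtain ⟨i, h⟩ := copy_in_member S h2 h3 ψ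
    choose s hs using h
    have k : ∀ a, (s a).1 = (s 3).1 := EXFam_conn (fun a => (s a).1) fun a b hab => by
      obtain ⟨α, _, ⟨β, σ, -, rfl⟩, k⟩ :=
        EXFam_edge (S.str i) (ψ.toHom.map_adj hab) ⟨_, hs a⟩ ⟨_, hs b⟩
      rcases k with ⟨k1, k2⟩ | ⟨k1, k2⟩
      · rw [(S.str i).inj ((hs a).trans k1.symm), (S.str i).inj ((hs b).trans k2.symm)]
      · rw [(S.str i).inj ((hs a).trans k2.symm), (S.str i).inj ((hs b).trans k1.symm)]
    refine ⟨(s 3).1, S.emb i ∘ Str.inc M _, (S.str i).comp (sum_strong M _), fun a => ?_⟩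
    rw [← hs a, ← k a]
    exact ⟨(s a).2, rfl⟩

end Pool.Agent.P.MP_48d4bc_co.EX
end

-- part Pool.Agent.P.MP_48d4bc_co.EXCopy
section

set_option autoImplicit false

/-! Copies of the gadget in the graph of a system are the named gadgets. -/

namespace Pool.Agent.P.MP_48d4bc_co.EX

open Set Function Pool.Agent.Lib.PrimrecProp

/-- the vertices of the gadget with a given name -/
def EXCopyG (S : Sig) (d : ℕ × Bool × Ft × ℕ) (a : ℕ) : Vx :=
  S.gad d.1 d.2.1 d.2.2.1 (th d.2.2.2 a)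

/-- an edge of the gadget with a given name -/
def EXCopyE (S : Sig) (d : ℕ × Bool × Ft × ℕ) (u v : Vx) : Prop :=
  d.1 < S.glue.length ∧ d.2.2.1 ∈ S.facts ∧
    ∃ a b, ((a, b) ∈ gamE ∨ (b, a) ∈ gamE) ∧ u = EXCopyG S d a ∧ v = EXCopyG S d b

variable {S : Sig} {d d' : ℕ × Bool × Ft × ℕ} {u v w : Vx}

theorem EXCopy_symm (h : EXCopyE S d u v) : EXCopyE S d v u := by
  obtain ⟨h1, h2, a, b, h3, h4, h5⟩ := h
  exact ⟨h1, h2, b, a, h3.symm, h5, h4⟩

theorem EXCopy_lt {a b : ℕ} (h : (a, b) ∈ gamE ∨ (b, a) ∈ gamE) :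
    a < 9 ∧ b < 9 ∧ (3 ≤ a ∨ 3 ≤ b) := by
  rcases h with h | h <;> have := gamE_lt h <;> simp only at this <;> omega

theorem EXCopy_root {a : ℕ} (h : a ≤ 2) : (EXCopyG S d a).2.2.2 = 0 := by
  rw [EXCopyG, th_root _ h]
  interval_cases a <;> rfl

theorem EXCopy_int {a : ℕ} (h : 3 ≤ a) :
    EXCopyG S d a = (d.1, d.2.1, d.2.2.1, 6 * d.2.2.2 + a) := by
  rw [EXCopyG, th_int _ h, Sig.gad_int _ _ _ (by omega)]

theorem EXCopy_id {a a' : ℕ} (h : a < 9) (h' : a' < 9) (e : EXCopyG S d a = EXCopyG S d' a')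
    (hn : (EXCopyG S d a).2.2.2 ≠ 0) : d = d' ∧ a = a' := by
  have h1 : 3 ≤ a := by
    by_contra h1
    exact hn (EXCopy_root (by omega))
  have h2 : 3 ≤ a' := by
    by_contra h2
    exact hn (e ▸ EXCopy_root (by omega))
  rw [EXCopy_int h1, EXCopy_int h2] at e
  obtain ⟨i, s, φ, m⟩ := d
  obtain ⟨i', s', φ', m'⟩ := d'
  simp only [Prod.mk.injEq] at e ⊢
  obtain ⟨e1, e2, e3, e4⟩ := e
  exact ⟨⟨e1, e2, e3, by omega⟩, by omega⟩

theorem EXCopy_inner (h : EXCopyE S d u v) : u.2.2.2 ≠ 0 ∨ v.2.2.2 ≠ 0 := by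
  obtain ⟨-, -, a, b, h3, rfl, rfl⟩ := h
  rcases (EXCopy_lt h3).2.2 with h4 | h4
  · left
    rw [EXCopy_int h4]
    show 6 * d.2.2.2 + a ≠ 0
    omega
  · right
    rw [EXCopy_int h4]
    show 6 * d.2.2.2 + b ≠ 0
    omega

theorem EXCopy_eq (h : EXCopyE S d u v) (h' : EXCopyE S d' u w) (hn : u.2.2.2 ≠ 0) : d = d' := by
  obtain ⟨-, -, a, b, h3, rfl, -⟩ := h
  obtain ⟨-, -, a', b', h4, e, -⟩ := h'
  exact (EXCopy_id (EXCopy_lt h3).1 (EXCopy_lt h4).1 e hn).1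

theorem EXCopy_uniq (h : EXCopyE S d u v) (h' : EXCopyE S d' u v) : d = d' :=
  (EXCopy_inner h).elim (EXCopy_eq h h') (EXCopy_eq (EXCopy_symm h) (EXCopy_symm h'))

theorem EXCopy_ad (h : S.Ad u v) :
    (∃ i s a b, (a = nx ∧ b = ny ∨ a = ny ∧ b = nx) ∧ u = S.vtx i s a ∧ v = S.vtx i s b) ∨
      ∃ d, EXCopyE S d u v := by
  rcases h with h | h <;> obtain ⟨i, hi, s, e | ⟨φ, hφ, m, -, z, hz, e⟩⟩ := Sig.mem_edges.1 h <;>
    obtain ⟨e1, e2⟩ := Prod.mk.inj e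
  · exact Or.inl ⟨i, s, nx, ny, Or.inl ⟨rfl, rfl⟩, e1, e2⟩
  · exact Or.inr ⟨(i, s, φ, m), hi, hφ, z.1, z.2, Or.inl hz, e1, e2⟩
  · exact Or.inl ⟨i, s, ny, nx, Or.inr ⟨rfl, rfl⟩, e2, e1⟩
  · exact Or.inr ⟨(i, s, φ, m), hi, hφ, z.2, z.1, Or.inr hz, e2, e1⟩

theorem EXCopy_ne (h : S.WF) (ha : S.Ad u v) : u ≠ v :=
  ha.elim (fun e => h.edge_ne e) fun e => (h.edge_ne e).symm

theorem EXCopy_xy (h : S.WF) {i i' : ℕ} {s s' : Bool} {a b : Nm} (ha : a = nx ∨ a = ny)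
    (e : S.vtx i s a = S.vtx i' s' b) : i = i' ∧ s = s' ∧ a = b := by
  obtain ⟨e1, e2 | ⟨-, -, e2⟩ | ⟨-, -, e2⟩⟩ := h.vtx_eq.1 e
  · exact ⟨e1, e2⟩
  · obtain ⟨-, -, h1, h2, -, -⟩ := h.mem i _ e2
    exact (ha.elim h1 h2).elim
  · obtain ⟨-, -, -, -, h1, h2⟩ := h.mem i _ e2
    exact (ha.elim h1 h2).elim

theorem EXCopy_low (h : S.WF) {i : ℕ} {s : Bool} {a : Nm} (ha : a = nx ∨ a = ny)
    (he : EXCopyE S d (S.vtx i s a) w) :
    ∃ j c, j ≤ 1 ∧ (j, c) ∈ gamE ∧ S.vtx i s a = EXCopyG S d j ∧ w = EXCopyG S d c := by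
  obtain ⟨-, hφ, j, c, h3, e1, e2⟩ := he
  have h4 : j ≤ 2 := by
    by_contra h4
    have h5 := Sig.vtx_last (S := S) i s a
    rw [e1, EXCopy_int (by omega)] at h5
    have h6 : 6 * d.2.2.2 + j = 0 := h5
    omega
  have h5 : j ≠ 2 := fun e => by
    rw [e, EXCopyG, th_root _ le_rfl, Sig.gad_two] at e1
    have h6 := (EXCopy_xy h ha e1).2.2
    obtain ⟨-, -, -, -, -, -, h7, h8⟩ := h.facts hφ
    exact ha.elim (fun e => h7 (h6 ▸ e)) fun e => h8 (h6 ▸ e)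
  refine ⟨j, c, by omega, h3.resolve_right fun h6 => ?_, e1, e2⟩
  have := gamE_lt h6
  simp only at this
  omega

/-- the edges of a triangle are edges of gadgets -/
theorem EXCopy_gad (h : S.WF) (h1 : S.Ad u v) (h2 : S.Ad u w) (h3 : S.Ad v w) :
    ∃ d, EXCopyE S d u v := by
  refine (EXCopy_ad h1).resolve_left ?_
  rintro ⟨i, s, a, b, hab, rfl, rfl⟩
  have ha : a = nx ∨ a = ny := hab.imp And.left And.left
  have hb : b = nx ∨ b = ny := (hab.imp And.right And.right).symm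
  have hxy : nx ≠ ny := by decide
  rcases EXCopy_ad h2 with ⟨i', s', a', b', hab', e, rfl⟩ | ⟨d, hd⟩
  · obtain ⟨rfl, rfl, rfl⟩ := EXCopy_xy h ha e
    refine EXCopy_ne h h3 (congrArg _ ?_)
    rcases hab with ⟨e1, e2⟩ | ⟨e1, e2⟩ <;> rcases hab' with ⟨e3, e4⟩ | ⟨e3, e4⟩
    · exact e2.trans e4.symm
    · exact absurd (e1.symm.trans e3) hxy
    · exact absurd (e3.symm.trans e1) hxy
    · exact e2.trans e4.symm
  rcases EXCopy_ad h3 with ⟨i', s', a', b', hab', e, rfl⟩ | ⟨d', hd'⟩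
  · obtain ⟨rfl, rfl, rfl⟩ := EXCopy_xy h hb e
    refine EXCopy_ne h h2 (congrArg _ ?_)
    rcases hab with ⟨e1, e2⟩ | ⟨e1, e2⟩ <;> rcases hab' with ⟨e3, e4⟩ | ⟨e3, e4⟩
    · exact absurd (e3.symm.trans e2) hxy
    · exact e1.trans e4.symm
    · exact e1.trans e4.symm
    · exact absurd (e2.symm.trans e3) hxy
  have hw : w.2.2.2 ≠ 0 := (EXCopy_inner hd).resolve_left fun e => e rfl
  obtain ⟨j, c, j1, j2, j3, j4⟩ := EXCopy_low h ha hd
  obtain ⟨j', c', k1, k2, k3, k4⟩ := EXCopy_low h hb hd'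
  obtain ⟨rfl, rfl⟩ := EXCopy_id (gamE_lt j2).2.2 (gamE_lt k2).2.2 (j4.symm.trans k4) (j4 ▸ hw)
  have hj : j ≠ j' := fun e => EXCopy_ne h h1 (by rw [j3, k3, e])
  refine gam_no_common c ?_
  rcases (by omega : j = 0 ∧ j' = 1 ∨ j = 1 ∧ j' = 0) with ⟨rfl, rfl⟩ | ⟨rfl, rfl⟩
  · exact ⟨j2, k2⟩
  · exact ⟨k2, j2⟩

theorem EXCopy_tri (h : S.WF) (h1 : S.Ad u v) (h2 : S.Ad u w) (h3 : S.Ad v w) :
    ∃ d, EXCopyE S d u v ∧ EXCopyE S d u w ∧ EXCopyE S d v w := by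
  obtain ⟨d1, e1⟩ := EXCopy_gad h h1 h2 h3
  obtain ⟨d2, e2⟩ := EXCopy_gad h h2 h1 h3.symm
  obtain ⟨d3, e3⟩ := EXCopy_gad h h3 h1.symm h2.symm
  have hu : u.2.2.2 ≠ 0 → d1 = d2 := EXCopy_eq e1 e2
  have hv : v.2.2.2 ≠ 0 → d1 = d3 := EXCopy_eq (EXCopy_symm e1) e3
  have hw : w.2.2.2 ≠ 0 → d2 = d3 := EXCopy_eq (EXCopy_symm e2) (EXCopy_symm e3)
  have key : d1 = d2 ∧ d1 = d3 := by
    by_cases a : u.2.2.2 = 0
    · have b := hv ((EXCopy_inner e1).resolve_left fun e => e a)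
      have c := hw ((EXCopy_inner e2).resolve_left fun e => e a)
      exact ⟨b.trans c.symm, b⟩
    · rcases EXCopy_inner e3 with b | b
      · exact ⟨hu a, hv b⟩
      · exact ⟨hu a, (hu a).trans (hw b)⟩
  exact ⟨d1, e1, key.1 ▸ e2, key.2 ▸ e3⟩

theorem Sig.WF.copy {S : Sig} (h : S.WF) (ψ : Fin 9 → Vx) (hi : Injective ψ)
    (ha : ∀ a b, Gam.Adj a b → S.Ad (ψ a) (ψ b)) : ∃ i < S.glue.length, ∃ s, ∃ φ ∈ S.facts,
      ψ 0 = S.vtx i s φ.1 ∧ ψ 1 = S.vtx i s φ.2.1 ∧ ψ 2 = S.vtx i s φ.2.2 := by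
  have ht : ∀ t, Gam.IsNClique 3 t →
      ∃ d, ∀ a ∈ t, ∀ b ∈ t, Gam.Adj a b → EXCopyE S d (ψ a) (ψ b) := fun t ht => by
    obtain ⟨x, y, z, h1, h2, h3, rfl⟩ := SimpleGraph.is3Clique_iff.1 ht
    obtain ⟨d, e1, e2, e3⟩ := EXCopy_tri h (ha _ _ h1) (ha _ _ h2) (ha _ _ h3)
    refine ⟨d, fun a ha b hb hab => ?_⟩
    simp only [Finset.mem_insert, Finset.mem_singleton] at ha hb
    rcases ha with rfl | rfl | rfl <;> rcases hb with rfl | rfl | rfl <;>
      first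
        | exact absurd rfl hab.ne
        | assumption
        | exact EXCopy_symm ‹_›
  obtain ⟨t0, ht0, -⟩ := gam_linked.1 0
  obtain ⟨d, hd⟩ := ht t0 ht0
  have hall : ∀ t, Gam.IsNClique 3 t →
      ∀ a ∈ t, ∀ b ∈ t, Gam.Adj a b → EXCopyE S d (ψ a) (ψ b) := fun t h1 => by
    by_contra hn
    obtain ⟨e, he, ⟨t1, -, p1, m1⟩, t2, c2, p2, m2⟩ := (gam_linked.2
      (fun t => ∀ a ∈ t, ∀ b ∈ t, Gam.Adj a b → EXCopyE S d (ψ a) (ψ b)) ⟨t0, ht0, hd⟩
      ⟨t, h1, hn⟩).nonempty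
    induction e using Sym2.ind with
    | _ a b =>
      obtain ⟨d2, hd2⟩ := ht t2 c2
      have e1 := p1 a (m1 a (by simp)) b (m1 b (by simp)) he
      have e2 := hd2 a (m2 a (by simp)) b (m2 b (by simp)) he
      exact p2 (EXCopy_uniq e2 e1 ▸ hd2)
  have hedge : ∀ a b, Gam.Adj a b → EXCopyE S d (ψ a) (ψ b) := fun a b hab => by
    obtain ⟨c, h1, h2⟩ := gam_edge_tri hab
    exact hall {a, b, c} (SimpleGraph.is3Clique_triple_iff.2 ⟨hab, h1, h2⟩) a (by simp) b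
      (by simp) hab
  have hnb : ∀ a : Fin 9, ∃ b, Gam.Adj a b := fun a => by
    obtain ⟨z, hz, e | e⟩ := gam_nbr a.2
    · exact ⟨⟨z.2, (gamE_lt hz).2.2⟩, gam_adj.2 (Or.inl (e ▸ hz))⟩
    · exact ⟨⟨z.1, (gamE_lt hz).1.trans (gamE_lt hz).2.2⟩, gam_adj.2 (Or.inr (e ▸ hz))⟩
  have hβ : ∀ a : Fin 9, ∃ b : Fin 9, ψ a = EXCopyG S d b := fun a => by
    obtain ⟨b, hb⟩ := hnb a
    obtain ⟨-, -, j, c, h3, e, -⟩ := hedge a b hb
    exact ⟨⟨j, (EXCopy_lt h3).1⟩, e⟩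
  choose β hβ using hβ
  obtain ⟨b0, hb0⟩ := hnb 0
  obtain ⟨hd1, hd2, -⟩ := hedge 0 b0 hb0
  have hG : ∀ {j j' : ℕ}, j < 9 → j' < 9 → EXCopyG S d j = EXCopyG S d j' → j = j' :=
    fun h1 h2 e => (th_inj h1 h2 (h.gad_inj hd2 e)).1
  obtain ⟨r0, r1, r2⟩ := gam_rigid β (fun a b e => hi (by rw [hβ, hβ, e])) fun a b hab => by
    obtain ⟨-, -, j, c, h3, e1, e2⟩ := hedge a b hab
    rw [gam_adj, hG (β a).2 (EXCopy_lt h3).1 ((hβ a).symm.trans e1),
      hG (β b).2 (EXCopy_lt h3).2.1 ((hβ b).symm.trans e2)]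
    exact h3
  refine ⟨d.1, hd1, d.2.1, d.2.2.1, hd2, ?_, ?_, ?_⟩
  · rw [hβ, r0]
    exact congrArg (S.gad _ _ _) (th_root _ (by decide))
  · rw [hβ, r1]
    exact congrArg (S.gad _ _ _) (th_root _ (by decide))
  · rw [hβ, r2]
    exact congrArg (S.gad _ _ _) (th_root _ (by decide))

end Pool.Agent.P.MP_48d4bc_co.EX
end

-- part Pool.Agent.P.MP_48d4bc_co.EXHost
section

set_option autoImplicit false

/-! Property (1) from finite ordered typed models. -/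

namespace Pool.Agent.P.MP_48d4bc_co.EX

open Set Function Pool.Agent.Lib.PrimrecProp

universe u

theorem EXHost_nbr (a : Fin 9) : ∃ b, Gam.Adj a b := by
  obtain ⟨w, hw, h⟩ := gam_nbr a.2
  have hl := gamE_lt hw
  rcases h with h | h
  · exact ⟨⟨w.2, hl.2.2⟩, gam_adj.2 (Or.inl (by rw [← h]; exact hw))⟩
  · exact ⟨⟨w.1, by omega⟩, gam_adj.2 (Or.inr (by rw [← h]; exact hw))⟩

theorem EXHost_root {S : Sig} {N : ℕ} (M : S.GModel N) (h : S.WF)
    {Q : Str M.A (Fin N × Fin N)} (hQ : Good M.T Q) (β : Tr N) {f : (M.B β h.pos).W → Q.W}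
    (hf : Strong M.T (M.B β h.pos) Q f) (ψ : Gam.Copy hQ.graph) (hr : ∀ a, ψ a ∈ range f) :
    Q.R (ψ 0) (ψ 1) (ψ 2) := by
  have key : ∀ a b, Gam.Adj a b → ∃ e ∈ S.edges,
      (ψ a = f (M.up β h.pos e.1) ∧ ψ b = f (M.up β h.pos e.2)) ∨
        (ψ b = f (M.up β h.pos e.1) ∧ ψ a = f (M.up β h.pos e.2)) := by
    intro a b hab
    obtain ⟨α, σ, hσ, hh⟩ : Q.Adj M.T (ψ a) (ψ b) := ψ.toHom.map_adj hab
    have hx : σ M.T.x ∈ range f := by
      rcases hh with hh | hh <;> rw [hh.1] <;> exact hr _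
    have hy : σ M.T.y ∈ range f := by
      rcases hh with hh | hh <;> rw [hh.2] <;> exact hr _
    obtain ⟨τ, hτ, rfl⟩ := hf.back α σ hσ hx hy
    obtain ⟨e, he, e1, e2⟩ := M.edge_of_sec β h hτ
    refine ⟨e, he, hh.imp (fun k => ?_) fun k => ?_⟩
    · exact ⟨k.1.symm.trans (congrArg f e1), k.2.symm.trans (congrArg f e2)⟩
    · exact ⟨k.1.symm.trans (congrArg f e1), k.2.symm.trans (congrArg f e2)⟩
  have ex : ∀ a, ∃ v ∈ S.Valid, ψ a = f (M.up β h.pos v) := by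
    intro a
    obtain ⟨b, hb⟩ := EXHost_nbr a
    obtain ⟨e, he, k | k⟩ := key a b hb
    · exact ⟨e.1, ⟨e, he, Or.inl rfl⟩, k.1⟩
    · exact ⟨e.2, ⟨e, he, Or.inr rfl⟩, k.2⟩
  choose g hg hg' using ex
  have un : ∀ a, ∀ v ∈ S.Valid, ψ a = f (M.up β h.pos v) → g a = v := fun a v hv e =>
    M.up_inj β h (hg a) hv (hf.inj ((hg' a).symm.trans e))
  have gi : Injective g := fun a b e => ψ.injective (by
    change ψ a = ψ b
    rw [hg' a, hg' b, e])
  obtain ⟨i, hi, s, φ, hφ, e0, e1, e2⟩ := h.copy g gi (by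
    intro a b hab
    obtain ⟨e, he, k | k⟩ := key a b hab
    · left
      rw [un a e.1 ⟨e, he, Or.inl rfl⟩ k.1, un b e.2 ⟨e, he, Or.inr rfl⟩ k.2]
      exact he
    · right
      rw [un b e.1 ⟨e, he, Or.inl rfl⟩ k.1, un a e.2 ⟨e, he, Or.inr rfl⟩ k.2]
      exact he)
  rw [hg' 0, hg' 1, hg' 2, e0, e1, e2]
  exact hf.hom.rel _ _ _ (M.rel_of_fact β h hi s hφ)

theorem Sig.WF.p1 {S : Sig} (h : S.WF) (hM : ∀ N, Nonempty (S.GModel N)) : Sig.P1.{u} S := by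
  intro κ _ _
  obtain ⟨N, hN⟩ := Pool.Agent.Lib.Ramsey.ramsey κ 2 3
  obtain ⟨M⟩ := hM N
  let _ : LinearOrder M.A := LinearOrder.lift' M.r M.rinj
  have := M.fin
  choose ρ hρ hm using fun β : Tr N => M.order β h
  obtain ⟨Q, hQ, ram, cop⟩ := host_fam (T := M.T) (fun β : Tr N => M.B β h.pos)
    (fun β => M.good β h) ρ hρ (fun β α σ hσ a b hab => hm β α σ hσ a b hab) κ
  refine ⟨ULift.{u} Q.W, hQ.graph.comap ULift.down, gg_free.2 fun ψ ψ' h0 h1 => ?_, fun c => ?_⟩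
  · let d : (hQ.graph.comap (ULift.down : ULift.{u} Q.W → Q.W)).Copy hQ.graph :=
      ⟨⟨ULift.down, fun k => k⟩, ULift.down_injective⟩
    have r : ∀ θ : Gam.Copy (hQ.graph.comap (ULift.down : ULift.{u} Q.W → Q.W)),
        Q.R (θ 0).down (θ 1).down (θ 2).down := by
      intro θ
      obtain ⟨β, f, hf, hr⟩ := cop (d.comp θ)
      exact EXHost_root M h hQ β hf (d.comp θ) hr
    have r1 := r ψ
    rw [h0, h1] at r1
    exact ⟨2, 2, le_rfl, le_rfl, ULift.down_injective (hQ.fn _ _ _ _ r1 (r ψ'))⟩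
  · obtain ⟨χ, hχ⟩ := ram fun σ => c s(ULift.up (σ M.T.x), ULift.up (σ M.T.y))
    obtain ⟨B, -, hB, col, hcol⟩ := hN (Fin N) Finset.univ (by simp) fun t => χ (t 0, t 1)
    let e := B.orderEmbOfFin hB
    let β : Tr N := ⟨(e 0, e 1, e 2), e.strictMono (by decide), e.strictMono (by decide)⟩
    have hc : ∀ s, χ (β.ty s) = col := by
      intro s
      cases s
      · exact hcol (e ∘ Fin.castSucc) (e.strictMono.comp Fin.strictMono_castSucc)
          fun j => B.orderEmbOfFin_mem hB _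
      · exact hcol (e ∘ Fin.succ) (e.strictMono.comp Fin.strictMono_succ)
          fun j => B.orderEmbOfFin_mem hB _
    obtain ⟨f, hf, hs⟩ := hχ β
    refine ⟨fun v => ULift.up (f (M.up β h.pos v)), col, fun v hv w hw k => ?_, fun a ha => ?_⟩
    · exact M.up_inj β h hv hw (hf.inj (ULift.up_injective k))
    · obtain ⟨s, σ, hσ, e1, e2⟩ := M.sec_of_edge β h ha
      refine ⟨⟨β.ty s, f ∘ σ, hf.hom.sec _ _ hσ, Or.inl ⟨congrArg f e1, congrArg f e2⟩⟩, ?_⟩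
      beta_reduce
      rw [← hc s, ← hs _ σ hσ, ← e1, ← e2]
      rfl

end Pool.Agent.P.MP_48d4bc_co.EX
end

-- part Pool.Agent.P.MP_48d4bc_co.EXTm
section

set_option autoImplicit false

/-! Terms over an edge. -/

namespace Pool.Agent.P.MP_48d4bc_co.EX

open Set Function Pool.Agent.Lib.PrimrecProp

universe u

/-- terms in two variables -/
inductive Tm : Type
  | x : Tm
  | y : Tm
  | f : Tm → Tm → Tm

/-- evaluation under an operation that is not everywhere defined -/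
def Tm.ev {W : Type u} (f : W → W → Option W) (u v : W) : Tm → Option W
  | .x => some u
  | .y => some v
  | .f t s => (t.ev f u v).bind fun a => (s.ev f u v).bind fun b => f a b

/-- two terms over two edges have the same defined value -/
def Same {W : Type u} (f : W → W → Option W) (e e' : W × W) (t t' : Tm) : Prop :=
  ∃ w, t.ev f e.1 e.2 = some w ∧ t'.ev f e'.1 e'.2 = some w

/-- the chain terms -/
def chainTm : ℕ → Tm
  | 0 => .f .y (.f .y .x)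
  | n + 1 => .f (chainTm n) .y

/-- the term of a name -/
def Sig.tm (S : Sig) (a : Nm) : Tm :=
  if a = nx then .x else if a = ny then .y else if a = m1 then .f .x .y else
    if a = m2 then .f .y .x else chainTm ((m3 :: S.rest).idxOf a)

/-- the glue edge of a copy under a map -/
def Sig.ge (S : Sig) {W : Type u} (φ : Vx → W) (i : ℕ) (s : Bool) : W × W :=
  (φ (S.vtx i s nx), φ (S.vtx i s ny))

/-- a copy of the system that is good for the terms of a finite set -/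
structure Stage (S : Sig) (𝒯 : Set Tm) : Type (u + 1) where
  /-- points -/
  W : Type u
  /-- the operation -/
  f : W → W → Option W
  /-- the copy -/
  φ : Vx → W
  inj : InjOn φ S.Valid
  fact : ∀ i < S.glue.length, ∀ s, ∀ p ∈ S.facts,
    f (φ (S.vtx i s p.1)) (φ (S.vtx i s p.2.1)) = some (φ (S.vtx i s p.2.2))
  tm : ∀ i < S.glue.length, ∀ s, ∀ a ∈ S.names,
    (S.tm a).ev f (S.ge φ i s).1 (S.ge φ i s).2 = some (φ (S.vtx i s a))
  same : ∀ i < S.glue.length, ∀ s, ∀ i' < S.glue.length, ∀ s', ∀ t ∈ 𝒯, ∀ t' ∈ 𝒯,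
    Same f (S.ge φ i s) (S.ge φ i s) t t' → Same f (S.ge φ i' s') (S.ge φ i' s') t t'

end Pool.Agent.P.MP_48d4bc_co.EX
end

-- part Pool.Agent.P.MP_48d4bc_co.PG0
section

set_option autoImplicit false

/-! The system of a deterministic grid with marked symbols. -/

namespace Pool.Agent.P.MP_48d4bc_co.EX.PI

open Set Function Pool.Agent.Lib.PrimrecProp

/-- grid data: number of symbols minus one, rule table, boundary and mark table, two seeds -/
abbrev Dat := ℕ × List (List ℕ) × List (ℕ × ℕ × Bool) × ℕ × ℕ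

/-- the number of symbols -/
def sz (D : Dat) : ℕ := D.1 + 1

/-- the rule -/
def dl (D : Dat) (x y : ℕ) : ℕ := (D.2.1.getD x []).getD y 0 % sz D

/-- the rule on the first row -/
def b1 (D : Dat) (x : ℕ) : ℕ := (D.2.2.1.getD x (0, 0, false)).1 % sz D

/-- the rule on the first column -/
def b2 (D : Dat) (x : ℕ) : ℕ := (D.2.2.1.getD x (0, 0, false)).2.1 % sz D

/-- marked symbols -/
def mk (D : Dat) (x : ℕ) : Bool := (D.2.2.1.getD x (0, 0, false)).2.2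

/-- the seeds -/
def seed (D : Dat) (e : ℕ) : ℕ := cond (eqb e 0) D.2.2.2.1 D.2.2.2.2 % sz D

/-- the grid -/
def X (D : Dat) (e : ℕ) : ℕ → ℕ → ℕ
  | 0, 0 => seed D e
  | i + 1, 0 => b1 D (X D e i 0)
  | 0, j + 1 => b2 D (X D e 0 j)
  | i + 1, j + 1 => dl D (X D e i (j + 1)) (X D e (i + 1) j)

theorem X_realize : True := by have := @X.eq_def; trivial

theorem X_00 (D : Dat) (e : ℕ) : X D e 0 0 = seed D e := by rw [X]

theorem X_s0 (D : Dat) (e i : ℕ) : X D e (i + 1) 0 = b1 D (X D e i 0) := by rw [X]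

theorem X_0s (D : Dat) (e j : ℕ) : X D e 0 (j + 1) = b2 D (X D e 0 j) := by rw [X]

theorem X_ss (D : Dat) (e i j : ℕ) :
    X D e (i + 1) (j + 1) = dl D (X D e i (j + 1)) (X D e (i + 1) j) := by rw [X]

theorem dl_lt (D : Dat) (x y : ℕ) : dl D x y < sz D := Nat.mod_lt _ (Nat.succ_pos _)

theorem b1_lt (D : Dat) (x : ℕ) : b1 D x < sz D := Nat.mod_lt _ (Nat.succ_pos _)

theorem b2_lt (D : Dat) (x : ℕ) : b2 D x < sz D := Nat.mod_lt _ (Nat.succ_pos _)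

theorem X_lt (D : Dat) (e i j : ℕ) : X D e i j < sz D := by
  rcases i with _ | i <;> rcases j with _ | j
  · rw [X_00]; exact Nat.mod_lt _ (Nat.succ_pos _)
  · rw [X_0s]; exact b2_lt _ _
  · rw [X_s0]; exact b1_lt _ _
  · rw [X_ss]; exact dl_lt _ _ _

/-- the marks of the second grid are those of the first, one step later -/
def Shift (D : Dat) : Prop := ∀ j, mk D (X D 1 (j + 1) (j + 1)) = mk D (X D 0 j j)

/-- infinitely many marks on the diagonal -/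
def Inf (D : Dat) : Prop := ∀ t, ∃ j, t ≤ j ∧ mk D (X D 0 j j) = true

/-- an element of a register: zone, world, kind, index -/
def rg (a e kd k : ℕ) : Nm := (1 + 48 * a + 16 * e + kd, k, 0, 0)

/-- a cell with a symbol -/
def cl (a e i j x : ℕ) : Nm := (16 + 48 * a + 16 * e, i, j, x)

/-- a cell with its true symbol -/
def tc (D : Dat) (a e i j : ℕ) : Nm := cl a e i j (X D e i j)

/-- registers -/
def Reg (a e kd : ℕ) : Prop := a < 4 ∧ (e < 2 ∧ kd < 14 ∨ e = 2 ∧ kd < 2)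

/-- data of a local isomorphism -/
abbrev Th := ℕ × ℕ × ℕ × ℕ × ℕ × ℕ

/-- facts with height, producing map and flag -/
inductive FF (D : Dat) : Nm → Nm → Nm → ℕ → Th → ℕ → Prop
  | cr (a e kd k η : ℕ) : Reg a e kd → η < 2 → FF D (rg a e kd k) (rg ((a + 1) % 4) η 0 k)
      (rg a e kd (k + 1)) (4 * k + η) (0, a, kd, e, 0, 0) 0
  | pl (a e k : ℕ) : a < 4 → e < 2 →
      FF D (rg a e 2 k) (rg a e 0 k) (rg a e 2 (k + 1)) (4 * k + 3) (1, a, 2, 0, e, e) 0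
  | pz (a e kd k : ℕ) : a < 4 → e < 2 → kd = 1 ∨ kd = 3 ∨ kd = 4 → FF D (rg a e kd k)
      (rg a e 2 (k + 1)) (rg a e kd (k + 1)) (4 * k + 4) (1, a, kd, 2, e, e) 0
  | ps (a e s p k : ℕ) : a < 4 →
      e = 0 ∧ s = 2 ∧ p = 1 ∨ e = 1 ∧ s = 0 ∧ p = 2 ∨ e = 2 ∧ s = 2 ∧ p = 0 →
      FF D (rg a e 0 k) (rg a e 1 k) (rg a e 0 (k + 1)) (4 * k + 3) (1, a, 0, 1, s, e) p
  | ar (a e i j x : ℕ) : a < 4 → e < 2 → x < sz D → j ≤ i →
      FF D (cl a e i j x) (rg a e 5 i) (cl a e (i + 1) j x) (4 * i) (2, a, e, 0, 1, min j 1) 0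
  | au (a e i j x : ℕ) : a < 4 → e < 2 → x < sz D → i ≤ j →
      FF D (cl a e i j x) (rg a e 6 j) (cl a e i (j + 1) x) (4 * j) (2, a, e, 0, min i 1, 1) 0
  | ad (a e i x : ℕ) : a < 4 → e < 2 → x < sz D →
      FF D (cl a e i i x) (rg a e 7 i) (cl a e (i + 1) (i + 1) x) (4 * i) (2, a, e, 0, 1, 1) 0
  | ru (a e i j x y v w : ℕ) : a < 4 → e < 2 → x < sz D → y < sz D →
      j = 0 ∧ v = 1 ∧ w = 0 ∨ j ≠ 0 ∧ i = 0 ∧ v = 0 ∧ w = 1 ∨ j ≠ 0 ∧ i ≠ 0 ∧ v = 1 ∧ w = 1 →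
      FF D (cl a e i (j + 1) x) (cl a e (i + 1) j y) (cl a e (i + 1) (j + 1) (dl D x y))
        (4 * max i j + 4) (2, a, e, 0, v, w) 0
  | r1 (a e i x : ℕ) : a < 4 → e < 2 → x < sz D → FF D (cl a e i 0 x) (rg a e 12 (i + 1))
      (cl a e (i + 1) 0 (b1 D x)) (4 * i + 4) (2, a, e, 0, 1, 0) 0
  | r2 (a e j x : ℕ) : a < 4 → e < 2 → x < sz D → FF D (cl a e 0 j x) (rg a e 13 (j + 1))
      (cl a e 0 (j + 1) (b2 D x)) (4 * j + 4) (2, a, e, 0, 0, 1) 0
  | ga (a e i x : ℕ) : a < 4 → e < 2 → x < sz D → mk D x = false →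
      FF D (rg a e 3 i) (cl a e i i x) (rg a e 0 i) (4 * i) (2, a, e, 0, 1, 1) 0
  | er (a e i j : ℕ) : a < 4 → e < 2 → j ≤ 1 → j ≤ i → FF D (tc D a e i j) (rg a e (8 + j) i)
      (tc D a e (i + 1) j) (4 * i + 5) (2, a, e, 1, 1, 0) 0
  | eu (a e i j : ℕ) : a < 4 → e < 2 → i ≤ 1 → i ≤ j → FF D (tc D a e i j) (rg a e (10 + i) j)
      (tc D a e i (j + 1)) (4 * j + 5) (2, a, e, 1, 0, 1) 0
  | qd (a e i : ℕ) : a < 4 → e < 2 → FF D (tc D a e i i) (rg a e 4 i)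
      (tc D a e (i + 1) (i + 1)) (4 * i + 6) (2, a, e, 1, 1, 1) 0

/-- shapes of the local isomorphisms -/
def Sh (θ : Th) : Prop :=
  θ.1 = 0 ∧ Reg θ.2.1 θ.2.2.2.1 θ.2.2.1 ∧ θ.2.2.2.2.1 = 0 ∧ θ.2.2.2.2.2 = 0 ∨
  θ.1 = 1 ∧ θ.2.1 < 4 ∧ (θ.2.2.2.2.1 = θ.2.2.2.2.2 ∧ θ.2.2.2.2.1 < 2 ∧
      (θ.2.2.1 = 2 ∧ θ.2.2.2.1 = 0 ∨ (θ.2.2.1 = 1 ∨ θ.2.2.1 = 3 ∨ θ.2.2.1 = 4) ∧ θ.2.2.2.1 = 2) ∨
    θ.2.2.1 = 0 ∧ θ.2.2.2.1 = 1 ∧ (θ.2.2.2.2.1 = 2 ∧ θ.2.2.2.2.2 = 0 ∨
      θ.2.2.2.2.1 = 0 ∧ θ.2.2.2.2.2 = 1 ∨ θ.2.2.2.2.1 = 2 ∧ θ.2.2.2.2.2 = 2)) ∨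
  θ.1 = 2 ∧ θ.2.1 < 4 ∧ θ.2.2.1 < 2 ∧ θ.2.2.2.1 < 2 ∧ (θ.2.2.2.2.1 = 1 ∧ θ.2.2.2.2.2 = 0 ∨
    θ.2.2.2.2.1 = 0 ∧ θ.2.2.2.2.2 = 1 ∨ θ.2.2.2.2.1 = 1 ∧ θ.2.2.2.2.2 = 1)

/-- the zone of the gate -/
def Cls (θ : Th) (a : ℕ) : Prop :=
  θ.1 = 0 ∧ a = (θ.2.1 + 2) % 4 ∨ θ.1 ≠ 0 ∧ a = (θ.2.1 + 1) % 4

/-- the registers moved by a grid map -/
def GK (g v w kd kd' : ℕ) : Prop :=
  g = 0 ∧ v = 1 ∧ w = 1 ∧ kd' = kd ∧ (kd = 0 ∨ kd = 3 ∨ kd = 5 ∨ kd = 6 ∨ kd = 7) ∨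
  g = 1 ∧ v = 1 ∧ w = 1 ∧ (kd = 4 ∧ kd' = 4 ∨ kd = 8 ∧ kd' = 9 ∨ kd = 10 ∧ kd' = 11) ∨
  v = 1 ∧ w = 0 ∧ kd' = kd ∧ (kd = 12 ∨ g = 0 ∧ kd = 5 ∨ g = 1 ∧ (kd = 8 ∨ kd = 9)) ∨
  v = 0 ∧ w = 1 ∧ kd' = kd ∧ (kd = 13 ∨ g = 0 ∧ kd = 6 ∨ g = 1 ∧ (kd = 10 ∨ kd = 11))

/-- the action on registers, with the offsets of horizon and need -/
def RM (θ : Th) (a e kd e' kd' b d : ℕ) : Prop :=
  Cls θ a ∧ e = 0 ∧ e' = 1 ∧ kd' = kd ∧
    (kd = 0 ∧ b = 2 ∧ d = 7 ∨ 1 ≤ kd ∧ kd ≤ 4 ∧ b = 1 ∧ d = 5) ∨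
  θ.1 = 0 ∧ a = θ.2.1 ∧ kd = θ.2.2.1 ∧ e = θ.2.2.2.1 ∧ e' = e ∧ kd' = kd ∧ b = 0 ∧ d = 1 ∨
  θ.1 = 0 ∧ a = (θ.2.1 + 1) % 4 ∧ kd = 0 ∧ e < 2 ∧ e' = e ∧ kd' = 0 ∧ b = 1 ∧ d = 3 ∨
  θ.1 = 1 ∧ a = θ.2.1 ∧ e = θ.2.2.2.2.1 ∧ e' = θ.2.2.2.2.2 ∧ kd' = kd ∧ d = 3 ∧
    (kd = θ.2.2.1 ∧ b = 0 ∨ kd = θ.2.2.2.1 ∧ b = 1) ∨
  θ.1 = 2 ∧ a = θ.2.1 ∧ e = θ.2.2.1 ∧ e' = e ∧ b = 1 ∧ d = 3 ∧
    GK θ.2.2.2.1 θ.2.2.2.2.1 θ.2.2.2.2.2 kd kd'

/-- the cells moved by a grid map -/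
def Dm (v w i j : ℕ) : Prop :=
  v = 1 ∧ w = 1 ∨ v = 1 ∧ w = 0 ∧ (j = 0 ∨ j = 1 ∧ 1 ≤ i) ∨ v = 0 ∧ w = 1 ∧ (i = 0 ∨ i = 1 ∧ 1 ≤ j)

/-- the graph of a local isomorphism, with horizon index and need -/
inductive MF (D : Dat) : Th → Nm → Nm → ℕ → ℕ → Prop
  | re (θ : Th) (a e kd e' kd' b d k : ℕ) : Reg a e kd → RM θ a e kd e' kd' b d →
      MF D θ (rg a e kd k) (rg a e' kd' (k + 1)) (k + b) (4 * k + d)
  | gc (θ : Th) (a i : ℕ) : Cls θ a →
      MF D θ (tc D a 0 i i) (tc D a 1 (i + 1) (i + 1)) i (4 * i + 7)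
  | sc (a e v w i j x : ℕ) : a < 4 → e < 2 → x < sz D → Dm v w i j → MF D (2, a, e, 0, v, w)
      (cl a e i j x) (cl a e (i + v) (j + w) x) (max i j) (4 * max i j + 1)
  | ec (a e v w i j : ℕ) : a < 4 → e < 2 → Dm v w i j → MF D (2, a, e, 1, v, w)
      (tc D a e i j) (tc D a e (i + v) (j + w)) (max i j) (4 * max i j + 4 + v + w)

/-- the condition on a flagged fact in a type -/
def Ty (p h gx gy : ℕ) : Prop := (p = 1 → h + 5 ≤ 4 * gy) ∧ (p = 2 → h + 1 ≤ 4 * gx)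

/-- the operation of a type -/
def Fn (D : Dat) (gx gy : ℕ) (a b c : Nm) : Prop := ∃ h θ p, FF D a b c h θ p ∧ Ty p h gx gy

/-- a local isomorphism with horizon `T` -/
def Mp (D : Dat) (T : ℕ) (θ : Th) (a a' : Nm) : Prop := ∃ m d, MF D θ a a' m d ∧ m ≤ T + 1

/-- valid elements -/
def Vd (D : Dat) (u : Nm) : Prop := (∃ a e kd k, Reg a e kd ∧ u = rg a e kd k) ∨
  ∃ a e i j x, a < 4 ∧ e < 2 ∧ x < sz D ∧ u = cl a e i j x

/-- small elements -/
def Sm (u : Nm) : Prop := u.1 % 16 = 0 ∧ u.2.1 ≤ 2 ∧ u.2.2.1 ≤ 2 ∨ u.1 % 16 ≠ 0 ∧ u.2.1 ≤ 1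

/-- the lexicographic order -/
def Lt (a b : Nm) : Prop :=
  a.1 < b.1 ∨ a.1 = b.1 ∧ (a.2.1 < b.2.1 ∨ a.2.1 = b.2.1 ∧
    (a.2.2.1 < b.2.2.1 ∨ a.2.2.1 = b.2.2.1 ∧ a.2.2.2 < b.2.2.2))

/-- the inputs of the defining fact -/
def par (u : Nm) : Nm × Nm :=
  if u.1 % 16 ≠ 0 then
    ((u.1, u.2.1 - 1, 0, 0), (1 + 48 * (((u.1 - 1) / 48 + 1) % 4), u.2.1 - 1, 0, 0))
  else if u.2.2.1 < u.2.1 then
    ((u.1, u.2.1 - 1, u.2.2.1, u.2.2.2), (u.1 - 10, u.2.1 - 1, 0, 0))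
  else if u.2.1 < u.2.2.1 then
    ((u.1, u.2.1, u.2.2.1 - 1, u.2.2.2), (u.1 - 9, u.2.2.1 - 1, 0, 0))
  else ((u.1, u.2.1 - 1, u.2.1 - 1, u.2.2.2), (u.1 - 8, u.2.1 - 1, 0, 0))

/-- defining facts -/
def Df (a b c : Nm) : Prop := ¬ Sm c ∧ par c = (a, b)

open Classical in
/-- the small elements of registers -/
noncomputable def regN : List Nm := ((pairs (List.range 200) (List.range 2)).map
  fun z => ((z.1, z.2, 0, 0) : Nm)).filter fun u => decide (∃ a e kd k, Reg a e kd ∧ u = rg a e kd k)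

/-- further names -/
noncomputable def restOf (D : Dat) : List Nm := regN ++ pairs [16, 32, 64, 80, 112, 128, 160, 176]
  (pairs (List.range 3) (pairs (List.range 3) (List.range (sz D))))

/-- the first row of the grid, up to index two -/
def R2 (f : ℕ → ℕ) (s i : ℕ) : ℕ := cond (eqb i 0) s (cond (eqb i 1) (f s) (f (f s)))

/-- the grid on the small cells -/
def X2 (D : Dat) (e i j : ℕ) : ℕ :=
  cond (eqb j 0) (R2 (b1 D) (seed D e) i) (cond (eqb i 0) (R2 (b2 D) (seed D e) j)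
    (cond (eqb j 1)
      (cond (eqb i 1) (dl D (b2 D (seed D e)) (b1 D (seed D e)))
        (dl D (dl D (b2 D (seed D e)) (b1 D (seed D e))) (b1 D (b1 D (seed D e)))))
      (cond (eqb i 1) (dl D (b2 D (b2 D (seed D e))) (dl D (b2 D (seed D e)) (b1 D (seed D e))))
        (dl D (dl D (b2 D (b2 D (seed D e))) (dl D (b2 D (seed D e)) (b1 D (seed D e))))
          (dl D (dl D (b2 D (seed D e)) (b1 D (seed D e))) (b1 D (b1 D (seed D e))))))))

/-- a small cell with its true symbol -/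
def t2 (D : Dat) (a e i j : ℕ) : Nm := cl a e i j (X2 D e i j)

open Classical in
/-- the facts between small elements of registers -/
noncomputable def regF : List Ft := (pairs regN (pairs regN regN)).filter fun φ =>
  decide (∃ h θ p, FF (0, [], [], 0, 0) φ.1 φ.2.1 φ.2.2 h θ p)

/-- candidate facts with a cell -/
def cnd (D : Dat) (a e i j x y : ℕ) : List Ft :=
  cond (leb j i) [(cl a e i j x, rg a e 5 i, cl a e (i + 1) j x)] [] ++
  cond (leb i j) [(cl a e i j x, rg a e 6 j, cl a e i (j + 1) x)] [] ++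
  [(cl a e i i x, rg a e 7 i, cl a e (i + 1) (i + 1) x),
    (cl a e i (j + 1) x, cl a e (i + 1) j y, cl a e (i + 1) (j + 1) (dl D x y)),
    (cl a e i 0 x, rg a e 12 (i + 1), cl a e (i + 1) 0 (b1 D x)),
    (cl a e 0 i x, rg a e 13 (i + 1), cl a e 0 (i + 1) (b2 D x)),
    (t2 D a e i i, rg a e 4 i, t2 D a e (i + 1) (i + 1))] ++
  cond (mk D x) [] [(rg a e 3 i, cl a e i i x, rg a e 0 i)] ++
  cond (leb j i) [(t2 D a e i j, rg a e (8 + j) i, t2 D a e (i + 1) j),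
    (t2 D a e j i, rg a e (10 + j) i, t2 D a e j (i + 1))] []

/-- further facts -/
noncomputable def extraOf (D : Dat) : List Ft := regF ++
  (pairs (pairs (pairs (List.range 4) (List.range 2)) (pairs (List.range 2) (List.range 2)))
    (pairs (List.range (sz D)) (List.range (sz D)))).flatMap fun z =>
      (cnd D z.1.1.1 z.1.1.2 z.1.2.1 z.1.2.2 z.2.1 z.2.2).filter fun φ =>
        memb φ.1 (restOf D) && memb φ.2.1 (restOf D) && memb φ.2.2 (restOf D)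

open Classical in
/-- all local isomorphisms -/
noncomputable def ths : List Th := (pairs (List.range 3) (pairs (List.range 4)
  (pairs (List.range 14) (pairs (List.range 3) (pairs (List.range 3) (List.range 3)))))).filter
    fun θ => decide (Sh θ)

open Classical in
/-- the constant part of a glue list: pairs of register elements, the zone of the gate, the small
cells that are moved -/
noncomputable def con (θ : Th) : List (Nm × Nm) × ℕ × List (ℕ × ℕ) :=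
  ((pairs regN regN).filter fun p => decide (∃ m d, MF (0, [], [], 0, 0) θ p.1 p.2 m d),
    (θ.2.1 + if θ.1 = 0 then 2 else 1) % 4,
    (pairs (List.range 3) (List.range 3)).filter fun z =>
      decide (θ.1 = 2 ∧ Dm θ.2.2.2.2.1 θ.2.2.2.2.2 z.1 z.2 ∧ z.1 + θ.2.2.2.2.1 ≤ 2 ∧
        z.2 + θ.2.2.2.2.2 ≤ 2))

/-- a glue list from its constant part -/
def glueOf (D : Dat) (θ : Th) (c : List (Nm × Nm) × ℕ × List (ℕ × ℕ)) : List (Nm × Nm) :=
  c.1 ++ [(t2 D c.2.1 0 0 0, t2 D c.2.1 1 1 1), (t2 D c.2.1 0 1 1, t2 D c.2.1 1 2 2)] ++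
  c.2.2.flatMap fun z => cond (eqb θ.2.2.2.1 0)
    ((List.range (sz D)).map fun x => (cl θ.2.1 θ.2.2.1 z.1 z.2 x,
      cl θ.2.1 θ.2.2.1 (z.1 + θ.2.2.2.2.1) (z.2 + θ.2.2.2.2.2) x))
    [(t2 D θ.2.1 θ.2.2.1 z.1 z.2,
      t2 D θ.2.1 θ.2.2.1 (z.1 + θ.2.2.2.2.1) (z.2 + θ.2.2.2.2.2))]

/-- the system of a grid -/
noncomputable def sig (D : Dat) : Sig :=
  ⟨restOf D, extraOf D, (ths.map fun θ => (θ, con θ)).map fun z => glueOf D z.1 z.2⟩

section

universe u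

variable {W : Type u}

/-- a fact holds under a valuation -/
def Hd (f : W → W → Option W) (V : Nm → Option W) (a b c : Nm) : Prop :=
  ∃ x y z, V a = some x ∧ V b = some y ∧ V c = some z ∧ f x y = some z

/-- two elements have the same defined value -/
def Lk (V V' : Nm → Option W) (a a' : Nm) : Prop := ∃ x, V a = some x ∧ V' a' = some x

/-- all required facts of height below `h` hold; flagged facts are required below `H` -/
def Gd (D : Dat) (H : ℕ) (f : W → W → Option W) (V : Nm → Option W) (h : ℕ) : Prop :=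
  ∀ a b c h' θ p, FF D a b c h' θ p → (p ≠ 0 → h' < H) → h' < h → Hd f V a b c

end

end Pool.Agent.P.MP_48d4bc_co.EX.PI
end

-- part Pool.Agent.P.MP_48d4bc_co.PG1
section

set_option autoImplicit false

/-! Inversion lemmas and validity. -/

namespace Pool.Agent.P.MP_48d4bc_co.EX.PI

open Set Function Pool.Agent.Lib.PrimrecProp

variable {D : Dat} {θ : Th} {a e kd k i j x m d : ℕ} {u : Nm}

theorem rg_inj {a' e' kd' k' : ℕ} : rg a e kd k = rg a' e' kd' k' ↔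
    48 * a + 16 * e + kd = 48 * a' + 16 * e' + kd' ∧ k = k' := by
  simp only [rg, Prod.mk.injEq, and_true]
  omega

theorem cl_inj {a' e' i' j' x' : ℕ} : cl a e i j x = cl a' e' i' j' x' ↔
    3 * a + e = 3 * a' + e' ∧ i = i' ∧ j = j' ∧ x = x' := by
  simp only [cl, Prod.mk.injEq]
  omega

theorem rg_ne_cl {a' e' : ℕ} (h : kd < 15) : rg a e kd k ≠ cl a' e' i j x := by
  simp only [rg, cl, ne_eq, Prod.mk.injEq]
  omega

theorem sm_rg (h : kd < 15) : Sm (rg a e kd k) ↔ k ≤ 1 := by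
  simp only [Sm, rg]
  omega

theorem sm_cl : Sm (cl a e i j x) ↔ i ≤ 2 ∧ j ≤ 2 := by
  simp only [Sm, cl]
  omega

theorem Cls.lt (h : Cls θ a) : a < 4 := by
  unfold Cls at h
  omega

/-- the target of a register is a register -/
theorem RM.reg {e' kd' b d' : ℕ} (hθ : Sh θ) (hr : Reg a e kd) (h : RM θ a e kd e' kd' b d') :
    Reg a e' kd' ∧ b ≤ 2 := by
  obtain ⟨t, a0, p1, p2, p3, p4⟩ := θ
  simp only [Sh, Reg, RM, Cls, GK] at *
  rcases h with h | h | h | h | h <;> omega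

theorem PG1_kd (hr : Reg a e kd) : kd < 15 := by
  unfold Reg at hr
  omega

theorem PG1_rg {a' e' kd' k' : ℕ} (hr : Reg a e kd) (hr' : Reg a' e' kd')
    (h : rg a e kd k = rg a' e' kd' k') : a = a' ∧ e = e' ∧ kd = kd' ∧ k = k' := by
  rw [rg_inj] at h
  unfold Reg at hr hr'
  omega

theorem PG1_cl {a' e' i' j' x' : ℕ} (he : e < 2) (he' : e' < 2)
    (h : cl a e i j x = cl a' e' i' j' x') : a = a' ∧ e = e' ∧ i = i' ∧ j = j' ∧ x = x' := by
  rw [cl_inj] at h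
  omega

theorem PG1_vr (hr : Reg a e kd) : Vd D (rg a e kd k) := Or.inl ⟨_, _, _, _, hr, rfl⟩

theorem PG1_vc (ha : a < 4) (he : e < 2) (hx : x < sz D) : Vd D (cl a e i j x) :=
  Or.inr ⟨_, _, _, _, _, ha, he, hx, rfl⟩

theorem PG1_vt (ha : a < 4) (he : e < 2) : Vd D (tc D a e i j) := PG1_vc ha he (X_lt _ _ _ _)

theorem MF.inv_rg (h : MF D θ (rg a e kd k) u m d) (hr : Reg a e kd) :
    ∃ e' kd' b d', RM θ a e kd e' kd' b d' ∧ u = rg a e' kd' (k + 1) ∧ m = k + b ∧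
      d = 4 * k + d' := by
  generalize hu : rg a e kd k = w at h
  cases h with
  | re _ a1 e1 kd1 e' kd' b d' k1 h1 h2 =>
    obtain ⟨rfl, rfl, rfl, rfl⟩ := PG1_rg hr h1 hu
    exact ⟨e', kd', b, d', h2, rfl, rfl, rfl⟩
  | gc => exact (rg_ne_cl (PG1_kd hr) hu).elim
  | sc => exact (rg_ne_cl (PG1_kd hr) hu).elim
  | ec => exact (rg_ne_cl (PG1_kd hr) hu).elim

theorem MF.inv_cl (h : MF D θ (cl a e i j x) u m d) (he : e < 2) :
    (Cls θ a ∧ e = 0 ∧ j = i ∧ x = X D 0 i i ∧ u = tc D a 1 (i + 1) (i + 1) ∧ m = i) ∨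
    (∃ v w, θ = (2, a, e, 0, v, w) ∧ Dm v w i j ∧ u = cl a e (i + v) (j + w) x ∧ m = max i j) ∨
    ∃ v w, θ = (2, a, e, 1, v, w) ∧ Dm v w i j ∧ x = X D e i j ∧
      u = tc D a e (i + v) (j + w) ∧ m = max i j := by
  generalize hu : cl a e i j x = w at h
  cases h with
  | re _ a1 e1 kd1 e' kd' b d' k1 h1 h2 => exact (rg_ne_cl (PG1_kd h1) hu.symm).elim
  | gc _ a1 i1 h1 =>
    obtain ⟨rfl, rfl, rfl, rfl, rfl⟩ := PG1_cl he (by omega) hu
    exact Or.inl ⟨h1, rfl, rfl, rfl, rfl, rfl⟩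
  | sc a1 e1 v w i1 j1 x1 h1 h2 h3 h4 =>
    obtain ⟨rfl, rfl, rfl, rfl, rfl⟩ := PG1_cl he h2 hu
    exact Or.inr (Or.inl ⟨v, w, rfl, h4, rfl, rfl⟩)
  | ec a1 e1 v w i1 j1 h1 h2 h4 =>
    obtain ⟨rfl, rfl, rfl, rfl, rfl⟩ := PG1_cl he h2 hu
    exact Or.inr (Or.inr ⟨v, w, rfl, h4, rfl, rfl, rfl⟩)

theorem MF.inv_rg' (hθ : Sh θ) (h : MF D θ u (rg a e kd k) m d) (hr : Reg a e kd) :
    ∃ e₀ kd₀ b d' k₀, Reg a e₀ kd₀ ∧ RM θ a e₀ kd₀ e kd b d' ∧ u = rg a e₀ kd₀ k₀ ∧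
      k = k₀ + 1 ∧ m = k₀ + b := by
  generalize hu : rg a e kd k = w at h
  cases h with
  | re _ a1 e1 kd1 e' kd' b d' k1 h1 h2 =>
    obtain ⟨rfl, rfl, rfl, rfl⟩ := PG1_rg hr (h2.reg hθ h1).1 hu
    exact ⟨e1, kd1, b, d', k1, h1, h2, rfl, rfl, rfl⟩
  | gc => exact (rg_ne_cl (PG1_kd hr) hu).elim
  | sc => exact (rg_ne_cl (PG1_kd hr) hu).elim
  | ec => exact (rg_ne_cl (PG1_kd hr) hu).elim

theorem MF.inv_cl' (hθ : Sh θ) (h : MF D θ u (cl a e i j x) m d) (he : e < 2) :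
    (Cls θ a ∧ e = 1 ∧ ∃ i₀, i = i₀ + 1 ∧ j = i₀ + 1 ∧ x = X D 1 (i₀ + 1) (i₀ + 1) ∧
      u = tc D a 0 i₀ i₀ ∧ m = i₀) ∨
    (∃ v w i₀ j₀, θ = (2, a, e, 0, v, w) ∧ Dm v w i₀ j₀ ∧ i = i₀ + v ∧ j = j₀ + w ∧
      u = cl a e i₀ j₀ x ∧ m = max i₀ j₀) ∨
    ∃ v w i₀ j₀, θ = (2, a, e, 1, v, w) ∧ Dm v w i₀ j₀ ∧ i = i₀ + v ∧ j = j₀ + w ∧
      x = X D e (i₀ + v) (j₀ + w) ∧ u = tc D a e i₀ j₀ ∧ m = max i₀ j₀ := by
  generalize hu : cl a e i j x = w at h
  cases h with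
  | re _ a1 e1 kd1 e' kd' b d' k1 h1 h2 =>
    exact (rg_ne_cl (PG1_kd (h2.reg hθ h1).1) hu.symm).elim
  | gc _ a1 i1 h1 =>
    obtain ⟨rfl, rfl, rfl, rfl, rfl⟩ := PG1_cl he (by omega) hu
    exact Or.inl ⟨h1, rfl, _, rfl, rfl, rfl, rfl, rfl⟩
  | sc a1 e1 v w i1 j1 x1 h1 h2 h3 h4 =>
    obtain ⟨rfl, rfl, rfl, rfl, rfl⟩ := PG1_cl he h2 hu
    exact Or.inr (Or.inl ⟨v, w, i1, j1, rfl, h4, rfl, rfl, rfl, rfl⟩)
  | ec a1 e1 v w i1 j1 h1 h2 h4 =>
    obtain ⟨rfl, rfl, rfl, rfl, rfl⟩ := PG1_cl he h2 hu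
    exact Or.inr (Or.inr ⟨v, w, i1, j1, rfl, h4, rfl, rfl, rfl, rfl, rfl⟩)

theorem Vd.kind (h : Vd D u) : 1 ≤ u.1 ∧ u.1 < 200 ∧ u.2.2.2 < sz D := by
  rcases h with ⟨a, e, kd, k, h, rfl⟩ | ⟨a, e, i, j, x, h1, h2, h3, rfl⟩
  · simp only [Reg, rg, sz] at *
    omega
  · simp only [cl]
    omega

theorem FF.vd {u v w : Nm} {h p : ℕ} (H : FF D u v w h θ p) : Vd D u ∧ Vd D v ∧ Vd D w := by
  cases H <;> refine ⟨?_, ?_, ?_⟩ <;>
    first
    | exact PG1_vr (by simp only [Reg] at *; omega)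
    | exact PG1_vt (by assumption) (by assumption)
    | exact PG1_vc (by assumption) (by assumption) (by assumption)
    | exact PG1_vc (by assumption) (by assumption) (dl_lt _ _ _)
    | exact PG1_vc (by assumption) (by assumption) (b1_lt _ _)
    | exact PG1_vc (by assumption) (by assumption) (b2_lt _ _)

theorem FF.sh {u v w : Nm} {h p : ℕ} (H : FF D u v w h θ p) : Sh θ := by
  cases H <;> dsimp only [Sh, Reg] at * <;> omega

theorem FF.ne {u v w : Nm} {h p : ℕ} (H : FF D u v w h θ p) : u ≠ v ∧ u ≠ w ∧ v ≠ w := by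
  cases H <;> simp only [Reg, rg, tc, cl, ne_eq, Prod.mk.injEq] at * <;> omega

theorem FF.ty {u v w : Nm} {h p gx gy : ℕ} (H : FF D u v w h θ p) (h1 : Sm u) (h2 : Sm v)
    (h3 : Sm w) (hx : 2 ≤ gx) (hy : 2 ≤ gy) : Ty p h gx gy := by
  cases H with
  | ps a e s p k h4 h5 =>
    rw [sm_rg (by omega)] at h3
    unfold Ty
    omega
  | _ => exact ⟨fun h => absurd h (by omega), fun h => absurd h (by omega)⟩

theorem MF.vd {u' : Nm} (hθ : Sh θ) (h : MF D θ u u' m d) : Vd D u ∧ Vd D u' := by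
  cases h with
  | re _ a e kd e' kd' b d k h1 h2 => exact ⟨PG1_vr h1, PG1_vr (h2.reg hθ h1).1⟩
  | gc _ a i h1 => exact ⟨PG1_vt h1.lt (by omega), PG1_vt h1.lt (by omega)⟩
  | sc a e v w i j x h1 h2 h3 h4 => exact ⟨PG1_vc h1 h2 h3, PG1_vc h1 h2 h3⟩
  | ec a e v w i j h1 h2 h4 => exact ⟨PG1_vt h1 h2, PG1_vt h1 h2⟩

theorem MF.box {u' : Nm} (hθ : Sh θ) (h : MF D θ u u' m d) :
    u.2.1 ≤ m ∧ u.2.2.1 ≤ m ∧ u'.2.1 ≤ m + 1 ∧ u'.2.2.1 ≤ m + 1 := by
  cases h <;> simp only [rg, tc, cl, Dm] at * <;> omega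

theorem MF.small {u' : Nm} (hθ : Sh θ) (h : MF D θ u u' m d) (h1 : Sm u) (h2 : Sm u') :
    m ≤ 3 := by
  cases h with
  | re _ a e kd e' kd' b d k h3 h4 =>
    rw [sm_rg (PG1_kd h3)] at h1
    have := (h4.reg hθ h3).2
    omega
  | gc _ a i h3 =>
    rw [tc, sm_cl] at h1
    omega
  | sc a e v w i j x h3 h4 h5 h6 =>
    rw [sm_cl] at h1
    omega
  | ec a e v w i j h3 h4 h6 =>
    rw [tc, sm_cl] at h1
    omega

end Pool.Agent.P.MP_48d4bc_co.EX.PI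
end

-- part Pool.Agent.P.MP_48d4bc_co.PG2
section

set_option autoImplicit false

/-! The operation is functional and the maps are increasing. -/

namespace Pool.Agent.P.MP_48d4bc_co.EX.PI

open Set Function Pool.Agent.Lib.PrimrecProp

variable {D : Dat} {θ : Th}

theorem lt_total (a b : Nm) : Lt a b ∨ a = b ∨ Lt b a := by
  simp only [Lt, Prod.ext_iff]
  omega

/-- the value of the operation -/
def PG2_val (D : Dat) (a b : Nm) : Nm :=
  if a.1 % 16 ≠ 0 then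
    if b.1 % 16 = 0 then (a.1 - 3, a.2.1, 0, 0) else (a.1, a.2.1 + 1, 0, 0)
  else if b.1 % 16 = 0 then (a.1, b.2.1, a.2.2.1, dl D a.2.2.2 b.2.2.2)
  else if b.1 % 16 = 6 then (a.1, a.2.1 + 1, a.2.2.1, a.2.2.2)
  else if b.1 % 16 = 7 then (a.1, a.2.1, a.2.2.1 + 1, a.2.2.2)
  else if b.1 % 16 = 8 then (a.1, a.2.1 + 1, a.2.1 + 1, a.2.2.2)
  else if b.1 % 16 = 13 then (a.1, a.2.1 + 1, 0, b1 D a.2.2.2)
  else if b.1 % 16 = 14 then (a.1, 0, a.2.2.1 + 1, b2 D a.2.2.2)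
  else if b.1 % 16 = 5 then
    (a.1, a.2.1 + 1, a.2.1 + 1, X D ((a.1 / 16 - 1) % 3) (a.2.1 + 1) (a.2.1 + 1))
  else if b.1 % 16 ≤ 10 then
    (a.1, a.2.1 + 1, a.2.2.1, X D ((a.1 / 16 - 1) % 3) (a.2.1 + 1) a.2.2.1)
  else (a.1, a.2.1, a.2.2.1 + 1, X D ((a.1 / 16 - 1) % 3) a.2.1 (a.2.2.1 + 1))

theorem PG2_world {a e : ℕ} (he : e < 2) : ((16 + 48 * a + 16 * e) / 16 - 1) % 3 = e := by omega

theorem PG2_eq {a b c : Nm} {h p : ℕ} (H : FF D a b c h θ p) : c = PG2_val D a b := by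
  cases H <;> simp only [PG2_val, rg, cl, tc, Reg] at *
  · rw [if_pos (by omega), if_neg (by omega)]
  · rw [if_pos (by omega), if_neg (by omega)]
  · rw [if_pos (by omega), if_neg (by omega)]
  · rw [if_pos (by omega), if_neg (by omega)]
  · rw [if_neg (by omega), if_neg (by omega), if_pos (by omega)]
  · rw [if_neg (by omega), if_neg (by omega), if_neg (by omega), if_pos (by omega)]
  · rw [if_neg (by omega), if_neg (by omega), if_neg (by omega), if_neg (by omega),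
      if_pos (by omega)]
  · rw [if_neg (by omega), if_pos (by omega)]
  · rw [if_neg (by omega), if_neg (by omega), if_neg (by omega), if_neg (by omega),
      if_neg (by omega), if_pos (by omega)]
  · rw [if_neg (by omega), if_neg (by omega), if_neg (by omega), if_neg (by omega),
      if_neg (by omega), if_neg (by omega), if_pos (by omega)]
  · rw [if_pos (by omega), if_pos (by omega)]
    simp only [Prod.mk.injEq, and_true]
    omega
  · rw [if_neg (by omega), if_neg (by omega), if_neg (by omega), if_neg (by omega),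
      if_neg (by omega), if_neg (by omega), if_neg (by omega), if_neg (by omega),
      if_pos (by omega), PG2_world (by assumption)]
  · rw [if_neg (by omega), if_neg (by omega), if_neg (by omega), if_neg (by omega),
      if_neg (by omega), if_neg (by omega), if_neg (by omega), if_neg (by omega),
      if_neg (by omega), PG2_world (by assumption)]
  · rw [if_neg (by omega), if_neg (by omega), if_neg (by omega), if_neg (by omega),
      if_neg (by omega), if_neg (by omega), if_neg (by omega), if_pos (by omega),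
      PG2_world (by assumption)]

theorem FF.fn {a b c c' : Nm} {h h' p p' : ℕ} {θ' : Th} (H : FF D a b c h θ p)
    (H' : FF D a b c' h' θ' p') : c = c' := (PG2_eq H).trans (PG2_eq H').symm

/-- the action on first components -/
def PG2_K1 (θ : Th) (s s' : ℕ) : Prop := s' / 48 = s / 48 ∧
  (Cls θ (s / 48) ∧ s' = s + 16 ∨ ¬ Cls θ (s / 48) ∧ (θ.1 = 0 ∧ s' = s ∨
    θ.1 = 1 ∧ s' + 16 * θ.2.2.2.2.1 = s + 16 * θ.2.2.2.2.2 ∨
    θ.1 = 2 ∧ (¬ (θ.2.2.2.1 = 1 ∧ θ.2.2.2.2.1 = 1 ∧ θ.2.2.2.2.2 = 1) ∧ s' = s ∨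
      θ.2.2.2.1 = 1 ∧ θ.2.2.2.2.1 = 1 ∧ θ.2.2.2.2.2 = 1 ∧
        ((s % 16 = 0 ∨ s % 16 = 5) ∧ s' = s ∨ (s % 16 = 9 ∨ s % 16 = 11) ∧ s' = s + 1))))

/-- the action on the indices -/
def PG2_K2 (θ : Th) (u u' : Nm) : Prop :=
  u.1 % 16 ≠ 0 ∧ u'.2.1 = u.2.1 + 1 ∧ u.2.2.1 = 0 ∧ u'.2.2.1 = 0 ∨
  u.1 % 16 = 0 ∧ (Cls θ (u.1 / 48) ∧ u'.2.1 = u.2.1 + 1 ∧ u'.2.2.1 = u.2.2.1 + 1 ∨
    ¬ Cls θ (u.1 / 48) ∧ u'.2.1 = u.2.1 + θ.2.2.2.2.1 ∧ u'.2.2.1 = u.2.2.1 + θ.2.2.2.2.2)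

/-- true cells are moved -/
def PG2_T (θ : Th) (s : ℕ) : Prop := s % 16 = 0 ∧ (Cls θ (s / 48) ∨ θ.2.2.2.1 = 1)

/-- the true symbol -/
def PG2_X (D : Dat) (u : Nm) : ℕ := X D ((u.1 / 16 - 1) % 3) u.2.1 u.2.2.1

theorem PG2_rm {a e kd e' kd' b d : ℕ} (hθ : Sh θ) (hr : Reg a e kd)
    (h : RM θ a e kd e' kd' b d) :
    PG2_K1 θ (1 + 48 * a + 16 * e + kd) (1 + 48 * a + 16 * e' + kd') := by
  have h1 := (RM.reg hθ hr h).1
  have h2 : (1 + 48 * a + 16 * e + kd) / 48 = a := by unfold Reg at hr; omega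
  have h3 : (1 + 48 * a + 16 * e' + kd') / 48 = a := by unfold Reg at h1; omega
  have h4 : (1 + 48 * a + 16 * e + kd) % 16 = 1 + kd := by unfold Reg at hr; omega
  have h5 : θ.2.1 < 4 := by simp only [Sh, Reg] at hθ; omega
  rw [PG2_K1, h2, h3, h4]
  refine ⟨rfl, ?_⟩
  clear h1 h2 h3 h4 hr hθ
  rcases h with h | h | h | h | h
  · exact Or.inl ⟨h.1, by omega⟩
  · exact Or.inr ⟨by unfold Cls; omega, Or.inl ⟨h.1, by omega⟩⟩
  · exact Or.inr ⟨by unfold Cls; omega, Or.inl ⟨h.1, by omega⟩⟩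
  · exact Or.inr ⟨by unfold Cls; omega, Or.inr (Or.inl ⟨h.1, by omega⟩)⟩
  · obtain ⟨h1, h2, -, rfl, -, -, h⟩ := h
    refine Or.inr ⟨by unfold Cls; omega, Or.inr (Or.inr ⟨h1, ?_⟩)⟩
    rcases h with h | ⟨g1, g2, g3, h⟩ | h | h
    · exact Or.inl ⟨by omega, by omega⟩
    · exact Or.inr ⟨g1, g2, g3, by omega⟩
    · exact Or.inl ⟨by omega, by omega⟩
    · exact Or.inl ⟨by omega, by omega⟩

theorem PG2_key {u u' : Nm} {m d : ℕ} (hθ : Sh θ) (h : MF D θ u u' m d) :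
    PG2_K1 θ u.1 u'.1 ∧ PG2_K2 θ u u' ∧
      (PG2_T θ u.1 ∧ u.2.2.2 = PG2_X D u ∧ u'.2.2.2 = PG2_X D u' ∨
        ¬ PG2_T θ u.1 ∧ u'.2.2.2 = u.2.2.2 ∧ (u.1 % 16 ≠ 0 → u.2.2.2 = 0)) := by
  cases h with
  | re θ a e kd e' kd' b d k hr h =>
    have h4 : (1 + 48 * a + 16 * e + kd) % 16 ≠ 0 := by unfold Reg at hr; omega
    exact ⟨PG2_rm hθ hr h, Or.inl ⟨h4, rfl, rfl, rfl⟩, Or.inr ⟨fun h => h4 h.1, rfl, fun _ => rfl⟩⟩
  | gc θ a i h =>
    have h2 : (16 + 48 * a + 16 * 0) / 48 = a := by omega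
    have h4 : (16 + 48 * a + 16 * 0) % 16 = 0 := by omega
    simp only [PG2_K1, PG2_K2, PG2_T, PG2_X, tc, cl, h2, h4, h,
      PG2_world (a := a) zero_lt_two, PG2_world (a := a) one_lt_two]
    simp only [true_and, and_true, true_or, or_true, not_true, false_and, or_false]
    omega
  | sc a e v w i j x ha he hx h =>
    have h2 : (16 + 48 * a + 16 * e) / 48 = a := by omega
    have h4 : (16 + 48 * a + 16 * e) % 16 = 0 := by omega
    have h5 : ¬ Cls (2, a, e, 0, v, w) a := by simp only [Cls]; omega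
    simp [PG2_K1, PG2_K2, PG2_T, cl, h2, h4, h5]
  | ec a e v w i j ha he h =>
    have h2 : (16 + 48 * a + 16 * e) / 48 = a := by omega
    have h4 : (16 + 48 * a + 16 * e) % 16 = 0 := by omega
    have h5 : ¬ Cls (2, a, e, 1, v, w) a := by simp only [Cls]; omega
    simp only [PG2_K1, PG2_K2, PG2_T, PG2_X, tc, cl, h2, h4, h5, PG2_world (a := a) he]
    simp only [true_and, and_true, true_or, or_true, not_true, false_and, or_false, false_or,
      not_false_iff]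
    omega

theorem PG2_lt {s s' r r' : ℕ} (h : PG2_K1 θ s s') (h' : PG2_K1 θ r r') :
    (s < r → s' < r') ∧ (s = r → s' = r') := by
  unfold PG2_K1 at h h'
  by_cases hz : s / 48 = r / 48
  · rw [hz] at h
    by_cases hc : Cls θ (r / 48)
    · simp only [hc, true_and, not_true, false_and, or_false] at h h'
      omega
    · simp only [hc, false_and, false_or, not_false_iff, true_and] at h h'
      omega
  · have h1 := h.1
    have h2 := h'.1
    clear h h'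
    omega

theorem PG2_idx {a a' b b' : Nm} (h : PG2_K2 θ a a') (h' : PG2_K2 θ b b') (he : a.1 = b.1) :
    (a.2.1 < b.2.1 → a'.2.1 < b'.2.1) ∧ (a.2.1 = b.2.1 → a'.2.1 = b'.2.1) ∧
    (a.2.2.1 < b.2.2.1 → a'.2.2.1 < b'.2.2.1) ∧ (a.2.2.1 = b.2.2.1 → a'.2.2.1 = b'.2.2.1) := by
  unfold PG2_K2 at h h'
  rw [he] at h
  by_cases hc : Cls θ (b.1 / 48)
  · simp only [hc, true_and, not_true, false_and, or_false] at h h'
    omega
  · simp only [hc, false_and, false_or, not_false_iff, true_and] at h h'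
    omega

theorem PG2_Xc {a b : Nm} (h1 : a.1 = b.1) (h2 : a.2.1 = b.2.1) (h3 : a.2.2.1 = b.2.2.1) :
    PG2_X D a = PG2_X D b := by rw [PG2_X, PG2_X, h1, h2, h3]

theorem MF.fn {a u u' : Nm} {m d m' d' : ℕ} (hθ : Sh θ) (h : MF D θ a u m d)
    (h' : MF D θ a u' m' d') : u = u' := by
  obtain ⟨a1, a2, a3⟩ := PG2_key hθ h
  obtain ⟨b1, b2, b3⟩ := PG2_key hθ h'
  have e1 := (PG2_lt a1 b1).2 rfl
  obtain ⟨-, e2, -, e3⟩ := PG2_idx a2 b2 rfl
  refine Prod.ext e1 (Prod.ext (e2 rfl) (Prod.ext (e3 rfl) ?_))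
  rcases a3 with a3 | a3 <;> rcases b3 with b3 | b3
  · rw [a3.2.2, b3.2.2, PG2_Xc e1 (e2 rfl) (e3 rfl)]
  · exact absurd a3.1 b3.1
  · exact absurd b3.1 a3.1
  · rw [a3.2.1, b3.2.1]

theorem MF.mono {a a' b b' : Nm} {m d m' d' : ℕ} (hθ : Sh θ) (h : MF D θ a a' m d)
    (h' : MF D θ b b' m' d') (hl : Lt a b) : Lt a' b' := by
  obtain ⟨a1, a2, a3⟩ := PG2_key hθ h
  obtain ⟨b1, b2, b3⟩ := PG2_key hθ h'
  obtain ⟨l1, e1⟩ := PG2_lt a1 b1
  rcases hl with hl | ⟨c1, hl⟩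
  · exact Or.inl (l1 hl)
  obtain ⟨l2, e2, l3, e3⟩ := PG2_idx a2 b2 c1
  refine Or.inr ⟨e1 c1, ?_⟩
  rcases hl with hl | ⟨c2, hl⟩
  · exact Or.inl (l2 hl)
  refine Or.inr ⟨e2 c2, ?_⟩
  rcases hl with hl | ⟨c3, hl⟩
  · exact Or.inl (l3 hl)
  refine Or.inr ⟨e3 c3, ?_⟩
  rw [c1] at a3
  rcases a3 with a3 | a3 <;> rcases b3 with b3 | b3
  · rw [a3.2.1, b3.2.1, PG2_Xc c1 c2 c3] at hl
    exact absurd hl (lt_irrefl _)
  · exact absurd a3.1 b3.1
  · exact absurd b3.1 a3.1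
  · rw [a3.2.1, b3.2.1]
    exact hl

theorem PG2_irr (a : Nm) : ¬ Lt a a := by
  simp only [Lt]
  omega

theorem MF.bij {a a' b b' : Nm} {m d m' d' : ℕ} (hθ : Sh θ) (h : MF D θ a a' m d)
    (h' : MF D θ b b' m' d') : a = b ↔ a' = b' := by
  refine ⟨fun e => MF.fn hθ h (e ▸ h'), fun e => ?_⟩
  subst e
  rcases lt_total a b with hl | hl | hl
  · exact absurd (MF.mono hθ h h' hl) (PG2_irr _)
  · exact hl
  · exact absurd (MF.mono hθ h' h hl) (PG2_irr _)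

end Pool.Agent.P.MP_48d4bc_co.EX.PI
end

-- part Pool.Agent.P.MP_48d4bc_co.PG3
section

set_option autoImplicit false

/-! Names and further facts of the system of a grid. -/

namespace Pool.Agent.P.MP_48d4bc_co.EX.PI

open Set Function Pool.Agent.Lib.PrimrecProp

variable {D : Dat}

theorem X2_eq {e i j : ℕ} (hi : i ≤ 2) (hj : j ≤ 2) : X2 D e i j = X D e i j := by
  have h00 := X_00 D e
  have h10 : X D e 1 0 = b1 D (X D e 0 0) := X_s0 D e 0
  have h20 : X D e 2 0 = b1 D (X D e 1 0) := X_s0 D e 1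
  have h01 : X D e 0 1 = b2 D (X D e 0 0) := X_0s D e 0
  have h02 : X D e 0 2 = b2 D (X D e 0 1) := X_0s D e 1
  have h11 : X D e 1 1 = dl D (X D e 0 1) (X D e 1 0) := X_ss D e 0 0
  have h21 : X D e 2 1 = dl D (X D e 1 1) (X D e 2 0) := X_ss D e 1 0
  have h12 : X D e 1 2 = dl D (X D e 0 2) (X D e 1 1) := X_ss D e 0 1
  have h22 : X D e 2 2 = dl D (X D e 1 2) (X D e 2 1) := X_ss D e 1 1
  interval_cases i <;> interval_cases j <;>
    simp only [h22, h12, h21, h11, h02, h01, h20, h10, h00] <;> rfl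

theorem mem_regN {u : Nm} : u ∈ regN ↔ ∃ a e kd k, Reg a e kd ∧ k ≤ 1 ∧ u = rg a e kd k := by
  simp only [regN, List.mem_filter, List.mem_map, mem_pairs, List.mem_range, decide_eq_true_eq]
  constructor
  · rintro ⟨⟨z, ⟨-, h2⟩, rfl⟩, a, e, kd, k, hr, he⟩
    refine ⟨a, e, kd, k, hr, ?_, he⟩
    simp only [rg, Prod.mk.injEq] at he
    omega
  · rintro ⟨a, e, kd, k, hr, hk, rfl⟩
    refine ⟨⟨(1 + 48 * a + 16 * e + kd, k), ⟨?_, Nat.lt_succ_of_le hk⟩, rfl⟩, a, e, kd, k, hr, rfl⟩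
    unfold Reg at hr
    omega

theorem PG3_lt {a e kd : ℕ} (h : Reg a e kd) : kd < 15 := by
  unfold Reg at h
  omega

theorem PG3_cells {u : Nm} : u ∈ pairs [16, 32, 64, 80, 112, 128, 160, 176]
    (pairs (List.range 3) (pairs (List.range 3) (List.range (sz D)))) ↔
      ∃ a e i j x, a < 4 ∧ e < 2 ∧ x < sz D ∧ i ≤ 2 ∧ j ≤ 2 ∧ u = cl a e i j x := by
  obtain ⟨c, i, j, x⟩ := u
  simp only [mem_pairs, List.mem_range, List.mem_cons, List.not_mem_nil, or_false, cl,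
    Prod.mk.injEq]
  constructor
  · rintro ⟨h1, h2, h3, h4⟩
    exact ⟨(c - 16) / 48, (c - 16) % 48 / 16, i, j, x, by omega, by omega, h4, by omega, by omega,
      by omega, rfl, rfl, rfl⟩
  · rintro ⟨a, e, i', j', x', h1, h2, h3, h4, h5, h6, rfl, rfl, rfl⟩
    exact ⟨by omega, by omega, by omega, h3⟩

theorem mem_rest {u : Nm} : u ∈ restOf D ↔ Vd D u ∧ Sm u := by
  rw [restOf, List.mem_append, mem_regN, PG3_cells]
  constructor
  · rintro (⟨a, e, kd, k, hr, hk, rfl⟩ | ⟨a, e, i, j, x, h1, h2, h3, h4, h5, rfl⟩)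
    · exact ⟨Or.inl ⟨a, e, kd, k, hr, rfl⟩, (sm_rg (PG3_lt hr)).2 hk⟩
    · exact ⟨Or.inr ⟨a, e, i, j, x, h1, h2, h3, rfl⟩, sm_cl.2 ⟨h4, h5⟩⟩
  · rintro ⟨⟨a, e, kd, k, hr, rfl⟩ | ⟨a, e, i, j, x, h1, h2, h3, rfl⟩, hs⟩
    · exact Or.inl ⟨a, e, kd, k, hr, (sm_rg (PG3_lt hr)).1 hs, rfl⟩
    · exact Or.inr ⟨a, e, i, j, x, h1, h2, h3, (sm_cl.1 hs).1, (sm_cl.1 hs).2, rfl⟩

theorem PG3_pairs_nodup {β γ : Type} {l : List β} {m : List γ} (hl : l.Nodup) (hm : m.Nodup) :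
    (pairs l m).Nodup := hl.product hm

theorem PG3_cl_not {a e i j x : ℕ} : cl a e i j x ∉ regN := by
  intro h
  obtain ⟨a', e', kd, k, hr, -, h'⟩ := mem_regN.1 h
  exact rg_ne_cl (PG3_lt hr) h'.symm

theorem names_nodup : (namesOf (restOf D)).Nodup := by
  have h1 : (restOf D).Nodup := by
    refine List.Nodup.append (List.Nodup.filter _ ?_) (PG3_pairs_nodup (by decide)
      (PG3_pairs_nodup List.nodup_range (PG3_pairs_nodup List.nodup_range List.nodup_range))) ?_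
    · refine (PG3_pairs_nodup List.nodup_range List.nodup_range).map ?_
      rintro ⟨a, b⟩ ⟨a', b'⟩ h
      simp only [Prod.mk.injEq] at h ⊢
      exact ⟨h.1, h.2.1⟩
    · intro u h1 h2
      obtain ⟨a, e, i, j, x, -, -, -, -, -, rfl⟩ := PG3_cells.1 h2
      exact PG3_cl_not h1
  have h2 : ∀ j, ((0, 0, 0, j) : Nm) ∉ restOf D := fun j h =>
    absurd (mem_rest.1 h).1.kind.1 (Nat.not_succ_le_zero 0)
  simp [namesOf, nx, ny, m1, m2, m3, h1, h2]

theorem PG3_tr {D' : Dat} {u v w : Nm} {h p : ℕ} {θ : Th} (H : FF D' u v w h θ p)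
    (h1 : u ∈ regN) (h2 : v ∈ regN) : FF D u v w h θ p := by
  cases H with
  | cr a e kd k η a1 a2 => exact .cr a e kd k η a1 a2
  | pl a e k a1 a2 => exact .pl a e k a1 a2
  | pz a e kd k a1 a2 a3 => exact .pz a e kd k a1 a2 a3
  | ps a e s p k a1 a2 => exact .ps a e s p k a1 a2
  | ga => exact absurd h2 PG3_cl_not
  | _ => exact absurd h1 PG3_cl_not

theorem PG3_regF {φ : Ft} : φ ∈ regF ↔ (φ.1 ∈ regN ∧ φ.2.1 ∈ regN ∧ φ.2.2 ∈ regN) ∧
    ∃ h θ p, FF D φ.1 φ.2.1 φ.2.2 h θ p := by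
  simp only [regF, List.mem_filter, mem_pairs, decide_eq_true_eq]
  refine and_congr_right fun h => ⟨?_, ?_⟩ <;> rintro ⟨n, θ, p, H⟩ <;>
    exact ⟨n, θ, p, PG3_tr H h.1 h.2.1⟩

theorem PG3_cond {β : Type} {b : Bool} {l l' : List β} {x : β} :
    x ∈ cond b l l' ↔ b = true ∧ x ∈ l ∨ b = false ∧ x ∈ l' := by
  cases b <;> simp

theorem PG3_t2 {a e i j : ℕ} (hi : i ≤ 2) (hj : j ≤ 2) : t2 D a e i j = tc D a e i j := by
  rw [t2, tc, X2_eq hi hj]

theorem PG3_cnd {a e i j x y : ℕ} (hi : i < 2) (hj : j < 2) {φ : Ft} :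
    φ ∈ cnd D a e i j x y ↔
      j ≤ i ∧ φ = (cl a e i j x, rg a e 5 i, cl a e (i + 1) j x) ∨
      i ≤ j ∧ φ = (cl a e i j x, rg a e 6 j, cl a e i (j + 1) x) ∨
      φ = (cl a e i i x, rg a e 7 i, cl a e (i + 1) (i + 1) x) ∨
      φ = (cl a e i (j + 1) x, cl a e (i + 1) j y, cl a e (i + 1) (j + 1) (dl D x y)) ∨
      φ = (cl a e i 0 x, rg a e 12 (i + 1), cl a e (i + 1) 0 (b1 D x)) ∨
      φ = (cl a e 0 i x, rg a e 13 (i + 1), cl a e 0 (i + 1) (b2 D x)) ∨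
      φ = (tc D a e i i, rg a e 4 i, tc D a e (i + 1) (i + 1)) ∨
      mk D x = false ∧ φ = (rg a e 3 i, cl a e i i x, rg a e 0 i) ∨
      j ≤ i ∧ φ = (tc D a e i j, rg a e (8 + j) i, tc D a e (i + 1) j) ∨
      j ≤ i ∧ φ = (tc D a e j i, rg a e (10 + j) i, tc D a e j (i + 1)) := by
  rw [cnd, PG3_t2 hi.le hi.le, PG3_t2 hi hi, PG3_t2 hi.le hj.le, PG3_t2 hi hj.le,
    PG3_t2 hj.le hi.le, PG3_t2 hj.le hi]
  simp only [List.mem_append, PG3_cond, leb_iff, List.mem_cons, List.not_mem_nil, or_false,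
    and_false, false_or, or_assoc, and_or_left]

theorem PG3_rg {a e kd k : ℕ} (hr : Reg a e kd) (h : Sm (rg a e kd k)) : rg a e kd k ∈ regN :=
  mem_regN.2 ⟨a, e, kd, k, hr, (sm_rg (PG3_lt hr)).1 h, rfl⟩

theorem PG3_extra {φ : Ft} : φ ∈ extraOf D ↔ φ ∈ regF ∨
    (φ.1 ∈ restOf D ∧ φ.2.1 ∈ restOf D ∧ φ.2.2 ∈ restOf D) ∧ ∃ a e i j x y, a < 4 ∧ e < 2 ∧
      i < 2 ∧ j < 2 ∧ x < sz D ∧ y < sz D ∧ φ ∈ cnd D a e i j x y := by
  simp only [extraOf, List.mem_append, List.mem_flatMap, List.mem_filter, mem_pairs,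
    List.mem_range, Bool.and_eq_true, memb_iff]
  refine or_congr_right ⟨?_, ?_⟩
  · rintro ⟨z, ⟨⟨⟨a1, a2⟩, a3, a4⟩, a5, a6⟩, a7, ⟨a8, a9⟩, a10⟩
    exact ⟨⟨a8, a9, a10⟩, _, _, _, _, _, _, a1, a2, a3, a4, a5, a6, a7⟩
  · rintro ⟨⟨a8, a9, a10⟩, a, e, i, j, x, y, a1, a2, a3, a4, a5, a6, a7⟩
    exact ⟨(((a, e), i, j), x, y), ⟨⟨⟨a1, a2⟩, a3, a4⟩, a5, a6⟩, a7, ⟨a8, a9⟩, a10⟩

theorem PG3_ff {a e i j x y : ℕ} (ha : a < 4) (he : e < 2) (hi : i < 2) (hj : j < 2)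
    (hx : x < sz D) (hy : y < sz D) {φ : Ft} (h : φ ∈ cnd D a e i j x y) :
    ∃ h θ p, FF D φ.1 φ.2.1 φ.2.2 h θ p := by
  rcases (PG3_cnd hi hj).1 h with ⟨h1, rfl⟩ | ⟨h1, rfl⟩ | rfl | rfl | rfl | rfl | rfl | ⟨h1, rfl⟩ |
    ⟨h1, rfl⟩ | ⟨h1, rfl⟩
  · exact ⟨_, _, _, .ar a e i j x ha he hx h1⟩
  · exact ⟨_, _, _, .au a e i j x ha he hx h1⟩
  · exact ⟨_, _, _, .ad a e i x ha he hx⟩
  · exact ⟨_, _, _, .ru a e i j x y (if j ≠ 0 ∧ i = 0 then 0 else 1) (if j = 0 then 0 else 1) ha he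
      hx hy (by split_ifs <;> omega)⟩
  · exact ⟨_, _, _, .r1 a e i x ha he hx⟩
  · exact ⟨_, _, _, .r2 a e i x ha he hx⟩
  · exact ⟨_, _, _, .qd a e i ha he⟩
  · exact ⟨_, _, _, .ga a e i x ha he hx h1⟩
  · exact ⟨_, _, _, .er a e i j ha he (by omega) h1⟩
  · exact ⟨_, _, _, .eu a e j i ha he (by omega) h1⟩

theorem PG3_back {u v w : Nm} {h p : ℕ} {θ : Th} (H : FF D u v w h θ p) (h1 : Sm u) (h2 : Sm v)
    (h3 : Sm w) : (u ∈ regN ∧ v ∈ regN ∧ w ∈ regN) ∨ ∃ a e i j x y, a < 4 ∧ e < 2 ∧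
      i < 2 ∧ j < 2 ∧ x < sz D ∧ y < sz D ∧ (u, v, w) ∈ cnd D a e i j x y := by
  have h0 : 0 < sz D := Nat.succ_pos _
  cases H with
  | cr a e kd k η a1 a2 =>
    exact Or.inl ⟨PG3_rg a1 h1, PG3_rg (by unfold Reg; omega) h2, PG3_rg a1 h3⟩
  | pl a e k a1 a2 =>
    exact Or.inl ⟨PG3_rg (by unfold Reg; omega) h1, PG3_rg (by unfold Reg; omega) h2,
      PG3_rg (by unfold Reg; omega) h3⟩
  | pz a e kd k a1 a2 a3 =>
    exact Or.inl ⟨PG3_rg (by unfold Reg; omega) h1, PG3_rg (by unfold Reg; omega) h2,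
      PG3_rg (by unfold Reg; omega) h3⟩
  | ps a e s p k a1 a2 =>
    exact Or.inl ⟨PG3_rg (by unfold Reg; omega) h1, PG3_rg (by unfold Reg; omega) h2,
      PG3_rg (by unfold Reg; omega) h3⟩
  | ar a e i j x a1 a2 a3 a4 =>
    have hi : i < 2 := (sm_cl.1 h3).1
    have hj : j < 2 := by omega
    exact Or.inr ⟨a, e, i, j, x, 0, a1, a2, hi, hj, a3, h0, (PG3_cnd hi hj).2 (.inl ⟨a4, rfl⟩)⟩
  | au a e i j x a1 a2 a3 a4 =>
    have hj : j < 2 := (sm_cl.1 h3).2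
    have hi : i < 2 := by omega
    exact Or.inr ⟨a, e, i, j, x, 0, a1, a2, hi, hj, a3, h0,
      (PG3_cnd hi hj).2 (.inr (.inl ⟨a4, rfl⟩))⟩
  | ad a e i x a1 a2 a3 =>
    have hi : i < 2 := (sm_cl.1 h3).1
    exact Or.inr ⟨a, e, i, 0, x, 0, a1, a2, hi, two_pos, a3, h0,
      (PG3_cnd hi two_pos).2 (.inr (.inr (.inl rfl)))⟩
  | ru a e i j x y v w a1 a2 a3 a4 a5 =>
    have hi : i < 2 := (sm_cl.1 h3).1
    have hj : j < 2 := (sm_cl.1 h3).2
    exact Or.inr ⟨a, e, i, j, x, y, a1, a2, hi, hj, a3, a4,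
      (PG3_cnd hi hj).2 (.inr (.inr (.inr (.inl rfl))))⟩
  | r1 a e i x a1 a2 a3 =>
    have hi : i < 2 := (sm_cl.1 h3).1
    exact Or.inr ⟨a, e, i, 0, x, 0, a1, a2, hi, two_pos, a3, h0,
      (PG3_cnd hi two_pos).2 (.inr (.inr (.inr (.inr (.inl rfl)))))⟩
  | r2 a e i x a1 a2 a3 =>
    have hi : i < 2 := (sm_cl.1 h3).2
    exact Or.inr ⟨a, e, i, 0, x, 0, a1, a2, hi, two_pos, a3, h0,
      (PG3_cnd hi two_pos).2 (.inr (.inr (.inr (.inr (.inr (.inl rfl))))))⟩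
  | qd a e i a1 a2 =>
    have hi : i < 2 := (sm_cl.1 h3).1
    exact Or.inr ⟨a, e, i, 0, 0, 0, a1, a2, hi, two_pos, h0, h0,
      (PG3_cnd hi two_pos).2 (.inr (.inr (.inr (.inr (.inr (.inr (.inl rfl)))))))⟩
  | ga a e i x a1 a2 a3 a4 =>
    have hi : i < 2 := Nat.lt_succ_of_le ((sm_rg (by omega)).1 h1)
    exact Or.inr ⟨a, e, i, 0, x, 0, a1, a2, hi, two_pos, a3, h0,
      (PG3_cnd hi two_pos).2 (.inr (.inr (.inr (.inr (.inr (.inr (.inr (.inl ⟨a4, rfl⟩))))))))⟩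
  | er a e i j a1 a2 a3 a4 =>
    have hi : i < 2 := (sm_cl.1 h3).1
    have hj : j < 2 := by omega
    exact Or.inr ⟨a, e, i, j, 0, 0, a1, a2, hi, hj, h0, h0, (PG3_cnd hi hj).2
      (.inr (.inr (.inr (.inr (.inr (.inr (.inr (.inr (.inl ⟨a4, rfl⟩)))))))))⟩
  | eu a e i j a1 a2 a3 a4 =>
    have hj : j < 2 := (sm_cl.1 h3).2
    have hi : i < 2 := by omega
    exact Or.inr ⟨a, e, j, i, 0, 0, a1, a2, hj, hi, h0, h0, (PG3_cnd hj hi).2
      (.inr (.inr (.inr (.inr (.inr (.inr (.inr (.inr (.inr ⟨a4, rfl⟩)))))))))⟩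

theorem mem_extra {φ : Ft} : φ ∈ extraOf D ↔
    Sm φ.1 ∧ Sm φ.2.1 ∧ Sm φ.2.2 ∧ ∃ h θ p, FF D φ.1 φ.2.1 φ.2.2 h θ p := by
  have hs : ∀ u ∈ regN, Sm u := fun u hu =>
    ((mem_rest (D := D)).1 (List.mem_append_left _ hu)).2
  rw [PG3_extra, PG3_regF (D := D)]
  constructor
  · rintro (⟨⟨h1, h2, h3⟩, H⟩ | ⟨⟨h1, h2, h3⟩, a, e, i, j, x, y, a1, a2, a3, a4, a5, a6, a7⟩)
    · exact ⟨hs _ h1, hs _ h2, hs _ h3, H⟩
    · exact ⟨(mem_rest.1 h1).2, (mem_rest.1 h2).2, (mem_rest.1 h3).2, PG3_ff a1 a2 a3 a4 a5 a6 a7⟩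
  · rintro ⟨h1, h2, h3, n, θ, p, H⟩
    rcases PG3_back H h1 h2 h3 with h | h
    · exact Or.inl ⟨h, n, θ, p, H⟩
    · exact Or.inr ⟨⟨mem_rest.2 ⟨H.vd.1, h1⟩, mem_rest.2 ⟨H.vd.2.1, h2⟩,
        mem_rest.2 ⟨H.vd.2.2, h3⟩⟩, h⟩

end Pool.Agent.P.MP_48d4bc_co.EX.PI
end

-- part Pool.Agent.P.MP_48d4bc_co.PG4
section

set_option autoImplicit false

/-! Glue lists of the system of a grid. -/

namespace Pool.Agent.P.MP_48d4bc_co.EX.PI

open Set Function Pool.Agent.Lib.PrimrecProp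

variable {D : Dat}

theorem mem_ths {θ : Th} : θ ∈ ths ↔ Sh θ := by
  obtain ⟨t, a, b, c, v, w⟩ := θ
  simp only [ths, List.mem_filter, mem_pairs, List.mem_range, decide_eq_true_eq]
  refine ⟨fun h => h.2, fun h => ⟨?_, h⟩⟩
  simp only [Sh, Reg] at h
  omega

theorem glue_length : (sig D).glue.length = ths.length := by
  simp only [sig, List.length_map]

theorem PG4_t2 {a e i j : ℕ} (hi : i ≤ 2) (hj : j ≤ 2) : t2 D a e i j = tc D a e i j := by
  rw [t2, tc, X2_eq hi hj]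

theorem PG4_cls {θ : Th} {a : ℕ} : Cls θ a ↔ a = (θ.2.1 + if θ.1 = 0 then 2 else 1) % 4 := by
  unfold Cls
  split_ifs with h <;> simp [h]

theorem PG4_kd {a e kd : ℕ} (h : Reg a e kd) : kd < 15 := by
  unfold Reg at h
  omega

theorem PG4_sm_tc {a e i j : ℕ} : Sm (tc D a e i j) ↔ i ≤ 2 ∧ j ≤ 2 := sm_cl

theorem PG4_glue {θ : Th} (hθ : Sh θ) {u u' : Nm} :
    (u, u') ∈ glueOf D θ (con θ) ↔ Sm u ∧ Sm u' ∧ ∃ m d, MF D θ u u' m d := by
  simp only [glueOf, con, List.mem_append, List.mem_filter, mem_pairs, decide_eq_true_eq,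
    List.mem_cons, List.not_mem_nil, or_false, List.mem_flatMap, List.mem_range, Prod.mk.injEq]
  constructor
  · rintro ((⟨⟨h1, h2⟩, m, d, h⟩ | ⟨rfl, rfl⟩ | ⟨rfl, rfl⟩) |
      ⟨⟨i, j⟩, ⟨⟨hi, hj⟩, ht, hd, hv, hw⟩, h⟩)
    · obtain ⟨a, e, kd, k, hr, hk, rfl⟩ := mem_regN.1 h1
      obtain ⟨a', e', kd', k', hr', hk', h3⟩ := mem_regN.1 h2
      have h4 : Sm u' := h3 ▸ (sm_rg (PG4_kd hr')).2 hk'
      obtain ⟨e1, kd1, b, d1, h5, rfl, -, -⟩ := h.inv_rg hr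
      exact ⟨(sm_rg (PG4_kd hr)).2 hk, h4, _, _, MF.re θ a e kd e1 kd1 b d1 k hr h5⟩
    · rw [PG4_t2 (by omega) (by omega), PG4_t2 (by omega) (by omega)]
      exact ⟨PG4_sm_tc.2 (by omega), PG4_sm_tc.2 (by omega), _, _, MF.gc θ _ 0 (PG4_cls.2 rfl)⟩
    · rw [PG4_t2 (by omega) (by omega), PG4_t2 (by omega) (by omega)]
      exact ⟨PG4_sm_tc.2 (by omega), PG4_sm_tc.2 (by omega), _, _, MF.gc θ _ 1 (PG4_cls.2 rfl)⟩
    · obtain ⟨t, a, e, g, v, w⟩ := θ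
      simp only at ht hd hv hw h hi hj
      subst ht
      have h5 : a < 4 ∧ e < 2 ∧ (g = 0 ∨ g = 1) := by
        simp only [Sh] at hθ
        omega
      obtain ⟨ha, he, rfl | rfl⟩ := h5
      · obtain ⟨x, hx, h6⟩ := List.mem_map.1 (show (u, u') ∈ List.map _ _ from h)
        obtain ⟨rfl, rfl⟩ := Prod.mk.inj h6
        exact ⟨sm_cl.2 (by omega), sm_cl.2 (by omega), _, _,
          MF.sc a e v w i j x ha he (List.mem_range.1 hx) hd⟩
      · obtain ⟨rfl, rfl⟩ := Prod.mk.inj (List.mem_singleton.1 (show (u, u') ∈ [_] from h))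
        rw [PG4_t2 (by omega) (by omega), PG4_t2 hv hw]
        exact ⟨PG4_sm_tc.2 (by omega), PG4_sm_tc.2 (by omega), _, _, MF.ec a e v w i j ha he hd⟩
  · rintro ⟨h1, h2, m, d, h⟩
    cases h with
    | re _ a e kd e' kd' b d k hr h3 =>
      have hr' := (h3.reg hθ hr).1
      exact Or.inl (Or.inl ⟨⟨mem_regN.2 ⟨_, _, _, _, hr, (sm_rg (PG4_kd hr)).1 h1, rfl⟩,
        mem_regN.2 ⟨_, _, _, _, hr', (sm_rg (PG4_kd hr')).1 h2, rfl⟩⟩, _, _,
        MF.re θ a e kd e' kd' b d k hr h3⟩)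
    | gc _ a i h3 =>
      have h4 := PG4_sm_tc.1 h2
      rw [← PG4_cls.1 h3]
      refine Or.inl (Or.inr ?_)
      rw [PG4_t2 (by omega) (by omega), PG4_t2 (by omega) (by omega), PG4_t2 (by omega) (by omega),
        PG4_t2 (by omega) (by omega)]
      obtain rfl | rfl : m = 0 ∨ m = 1 := by omega
      exacts [Or.inl ⟨rfl, rfl⟩, Or.inr ⟨rfl, rfl⟩]
    | sc a e v w i j x ha he hx hd =>
      have h3 := sm_cl.1 h1
      have h4 := sm_cl.1 h2
      refine Or.inr ⟨(i, j), ⟨⟨?_, ?_⟩, rfl, hd, h4.1, h4.2⟩, ?_⟩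
      · exact Nat.lt_succ_of_le h3.1
      · exact Nat.lt_succ_of_le h3.2
      · exact List.mem_map.2 ⟨x, List.mem_range.2 hx, rfl⟩
    | ec a e v w i j ha he hd =>
      have h3 := PG4_sm_tc.1 h1
      have h4 := PG4_sm_tc.1 h2
      refine Or.inr ⟨(i, j), ⟨⟨?_, ?_⟩, rfl, hd, h4.1, h4.2⟩, ?_⟩
      · exact Nat.lt_succ_of_le h3.1
      · exact Nat.lt_succ_of_le h3.2
      · rw [← PG4_t2 h3.1 h3.2, ← PG4_t2 h4.1 h4.2]
        exact List.mem_singleton.2 rfl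

theorem mem_gl {i : ℕ} {p : Nm × Nm} : p ∈ (sig D).gl i ↔ ∃ h : i < ths.length,
    Sm p.1 ∧ Sm p.2 ∧ ∃ m d, MF D ths[i] p.1 p.2 m d := by
  unfold Sig.gl
  by_cases h : i < ths.length
  · rw [List.getD_eq_getElem _ _ (glue_length.symm ▸ h)]
    simp only [sig, List.getElem_map, h, exists_true_left]
    exact PG4_glue (mem_ths.1 (List.getElem_mem h))
  · rw [List.getD_eq_default _ _ (glue_length.symm ▸ not_lt.1 h)]
    simp [h]

theorem mem_names {u : Nm} (h1 : Vd D u) (h2 : Sm u) : u ∈ (sig D).names :=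
  List.mem_cons_of_mem _ (List.mem_cons_of_mem _ (List.mem_cons_of_mem _ (List.mem_cons_of_mem _
    (List.mem_cons_of_mem _ (mem_rest.2 ⟨h1, h2⟩)))))

theorem PG4_ne {u : Nm} (h : Vd D u) : u ≠ nx ∧ u ≠ ny := by
  have h1 := h.kind.1
  constructor <;> rintro rfl <;> exact absurd h1 (by decide)

theorem sig_wf : (sig D).WF := by
  refine ⟨names_nodup, ?_, fun φ hφ => ?_, fun i p hp => ?_, fun i p hp p' hp' => ?_⟩
  · rw [glue_length]
    refine List.length_pos_of_mem (a := (0, 0, 0, 0, 0, 0)) (mem_ths.2 ?_)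
    simp [Sh, Reg]
  · obtain ⟨h1, h2, h3, h, θ, p, H⟩ := mem_extra.1 hφ
    obtain ⟨v1, v2, v3⟩ := H.vd
    obtain ⟨n1, n2, n3⟩ := H.ne
    exact ⟨mem_names v1 h1, mem_names v2 h2, mem_names v3 h3, n1, n2, n3, PG4_ne v3⟩
  · obtain ⟨h, h1, h2, m, d, H⟩ := mem_gl.1 hp
    obtain ⟨v1, v2⟩ := H.vd (mem_ths.1 (List.getElem_mem h))
    exact ⟨mem_names v1 h1, mem_names v2 h2, (PG4_ne v1).1, (PG4_ne v1).2, PG4_ne v2⟩
  · obtain ⟨h, -, -, m, d, H⟩ := mem_gl.1 hp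
    obtain ⟨_, -, -, m', d', H'⟩ := mem_gl.1 hp'
    exact H.bij (mem_ths.1 (List.getElem_mem h)) H'

end Pool.Agent.P.MP_48d4bc_co.EX.PI
end

-- part Pool.Agent.P.MP_48d4bc_co.PG5
section

set_option autoImplicit false

/-! Forward closure. -/

namespace Pool.Agent.P.MP_48d4bc_co.EX.PI

open Set Function Pool.Agent.Lib.PrimrecProp

variable {D : Dat} {θ : Th}

section

variable {T gy a e kd k i j x : ℕ} {u u' : Nm}

theorem PG5_rg (h : Mp D T θ (rg a e kd k) u) (hr : Reg a e kd) :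
    ∃ e' kd' b d, RM θ a e kd e' kd' b d ∧ u = rg a e' kd' (k + 1) ∧ k + b ≤ T + 1 := by
  obtain ⟨m, d, h, hm⟩ := h
  obtain ⟨e', kd', b, d', h1, h2, h3, -⟩ := h.inv_rg hr
  exact ⟨e', kd', b, d', h1, h2, h3 ▸ hm⟩

theorem PG5_cl (h : Mp D T θ (cl a e i j x) u) (he : e < 2) :
    (Cls θ a ∧ e = 0 ∧ j = i ∧ x = X D 0 i i ∧ u = tc D a 1 (i + 1) (i + 1) ∧ i ≤ T + 1) ∨
    (∃ v w, θ = (2, a, e, 0, v, w) ∧ Dm v w i j ∧ u = cl a e (i + v) (j + w) x ∧
      max i j ≤ T + 1) ∨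
    ∃ v w, θ = (2, a, e, 1, v, w) ∧ Dm v w i j ∧ x = X D e i j ∧
      u = tc D a e (i + v) (j + w) ∧ max i j ≤ T + 1 := by
  obtain ⟨m, d, h, hm⟩ := h
  rcases h.inv_cl he with ⟨h1, h2, h3, h4, h5, rfl⟩ | ⟨v, w, h1, h2, h3, rfl⟩ |
    ⟨v, w, h1, h2, h3, h4, rfl⟩
  · exact Or.inl ⟨h1, h2, h3, h4, h5, hm⟩
  · exact Or.inr (Or.inl ⟨v, w, h1, h2, h3, hm⟩)
  · exact Or.inr (Or.inr ⟨v, w, h1, h2, h3, h4, hm⟩)

theorem PG5_f0 {c : Nm} {h : ℕ} {θ' : Th} (H : FF D u u' c h θ' 0) : Fn D T gy u u' c :=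
  ⟨h, θ', 0, H, fun h => absurd h (by omega), fun h => absurd h (by omega)⟩

/-- a cell and a register of kind at least five are moved by a grid map -/
theorem PG5_cr (hθ : Sh θ) (ha : a < 4) (he : e < 2) (h5 : 5 ≤ kd) (h14 : kd < 14)
    (h1 : Mp D T θ (cl a e i j x) u) (h2 : Mp D T θ (rg a e kd k) u') :
    ∃ g v w kd', θ = (2, a, e, g, v, w) ∧ Dm v w i j ∧ GK g v w kd kd' ∧
      u' = rg a e kd' (k + 1) ∧ k ≤ T ∧ (g = 0 ∧ u = cl a e (i + v) (j + w) x ∨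
        g = 1 ∧ x = X D e i j ∧ u = tc D a e (i + v) (j + w)) := by
  obtain ⟨e', kd', b, d, r, rfl, hb⟩ := PG5_rg h2 ⟨ha, Or.inl ⟨he, h14⟩⟩
  rcases PG5_cl h1 he with ⟨c1, -⟩ | ⟨v, w, rfl, c2, c3, -⟩ | ⟨v, w, rfl, c2, c3, c4, -⟩
  · exfalso
    obtain ⟨t, a0, p1, p2, p3, p4⟩ := θ
    simp only [Sh, Reg, RM, Cls] at hθ r c1
    omega
  · simp only [RM, Cls] at r
    obtain ⟨rfl, rfl, r'⟩ : e' = e ∧ b = 1 ∧ GK 0 v w kd kd' := by
      rcases r with r | r | r | r | r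
      iterate 4 (exfalso; omega)
      exact ⟨r.2.2.2.1, r.2.2.2.2.1, r.2.2.2.2.2.2⟩
    exact ⟨0, v, w, kd', rfl, c2, r', rfl, by omega, Or.inl ⟨rfl, c3⟩⟩
  · simp only [RM, Cls] at r
    obtain ⟨rfl, rfl, r'⟩ : e' = e ∧ b = 1 ∧ GK 1 v w kd kd' := by
      rcases r with r | r | r | r | r
      iterate 4 (exfalso; omega)
      exact ⟨r.2.2.2.1, r.2.2.2.2.1, r.2.2.2.2.2.2⟩
    exact ⟨1, v, w, kd', rfl, c2, r', rfl, by omega, Or.inr ⟨rfl, c3, c4⟩⟩

theorem PG5_ru (ha : a < 4) (he : e < 2) {y : ℕ} (hx : x < sz D) (hy : y < sz D) :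
    Fn D T gy (cl a e i (j + 1) x) (cl a e (i + 1) j y) (cl a e (i + 1) (j + 1) (dl D x y)) := by
  by_cases h1 : j = 0
  · exact PG5_f0 (FF.ru a e i j x y 1 0 ha he hx hy (by omega))
  by_cases h2 : i = 0
  · exact PG5_f0 (FF.ru a e i j x y 0 1 ha he hx hy (by omega))
  · exact PG5_f0 (FF.ru a e i j x y 1 1 ha he hx hy (by omega))

end

theorem Mp.fwd (hs : Shift D) (hθ : Sh θ) {T gx gy : ℕ} (hT : mk D (X D 0 T T) = true)
    (hy : T + 3 ≤ gy) {a a' b b' c : Nm} (ha : Mp D T θ a a') (hb : Mp D T θ b b')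
    (h : Fn D gx T a b c) : ∃ c', Fn D T gy a' b' c' ∧ Mp D T θ c c' := by
  obtain ⟨h, θ₀, p, H, hty⟩ := h
  cases H with
  | cr a e kd k η hr hη =>
    obtain ⟨e1, k1, b1, d1, r1, rfl, m1⟩ := PG5_rg ha hr
    obtain ⟨e2, k2, b2, d2, r2, rfl, m2⟩ := PG5_rg hb ⟨by omega, by omega⟩
    obtain ⟨rfl, h1, h2⟩ : k2 = 0 ∧ e2 < 2 ∧ k + 1 + b1 ≤ T + 1 := by
      obtain ⟨t, a0, p1, p2, p3, p4⟩ := θ
      simp only [Sh, Reg, RM, Cls, GK] at hθ hr r1 r2
      omega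
    exact ⟨_, PG5_f0 (FF.cr a e1 k1 (k + 1) e2 (r1.reg hθ hr).1 h1), _, _,
      MF.re θ a e kd e1 k1 b1 d1 (k + 1) hr r1, h2⟩
  | pl a e k h4 he =>
    have hr : Reg a e 2 := ⟨h4, by omega⟩
    obtain ⟨e1, k1, b1, d1, r1, rfl, m1⟩ := PG5_rg ha hr
    obtain ⟨e2, k2, b2, d2, r2, rfl, m2⟩ := PG5_rg hb ⟨h4, by omega⟩
    obtain ⟨rfl, rfl, rfl, h1, h2⟩ : k1 = 2 ∧ k2 = 0 ∧ e2 = e1 ∧ e1 < 2 ∧
        k + 1 + b1 ≤ T + 1 := by
      obtain ⟨t, a0, p1, p2, p3, p4⟩ := θ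
      simp only [Sh, Reg, RM, Cls, GK] at hθ r1 r2
      omega
    exact ⟨_, PG5_f0 (FF.pl a e2 (k + 1) h4 h1), _, _, MF.re θ a e 2 e2 2 b1 d1 (k + 1) hr r1, h2⟩
  | pz a e kd k h4 he hk =>
    have hr : Reg a e kd := ⟨h4, by omega⟩
    obtain ⟨e1, k1, b1, d1, r1, rfl, m1⟩ := PG5_rg ha hr
    obtain ⟨e2, k2, b2, d2, r2, rfl, m2⟩ := PG5_rg hb ⟨h4, by omega⟩
    obtain ⟨rfl, rfl, rfl, h1, h2⟩ : k1 = kd ∧ k2 = 2 ∧ e2 = e1 ∧ e1 < 2 ∧
        k + 1 + b1 ≤ T + 1 := by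
      obtain ⟨t, a0, p1, p2, p3, p4⟩ := θ
      simp only [Sh, Reg, RM, Cls, GK] at hθ r1 r2
      omega
    exact ⟨_, PG5_f0 (FF.pz a e2 k1 (k + 1) h4 h1 hk), _, _,
      MF.re θ a e k1 e2 k1 b1 d1 (k + 1) hr r1, h2⟩
  | ps a e s p k h4 he =>
    have hr : Reg a e 0 := ⟨h4, by omega⟩
    obtain ⟨e1, k1, b1, d1, r1, rfl, m1⟩ := PG5_rg ha hr
    obtain ⟨e2, k2, b2, d2, r2, rfl, m2⟩ := PG5_rg hb ⟨h4, by omega⟩
    obtain ⟨rfl, rfl, rfl, h1, h2⟩ : k1 = 0 ∧ k2 = 1 ∧ e2 = e1 ∧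
        (e1 = 0 ∧ k ≤ T ∨ e1 = 1 ∧ k + 2 ≤ T ∨ e1 = 2) ∧ k + 1 + b1 ≤ T + 1 := by
      obtain ⟨t, a0, p1, p2, p3, p4⟩ := θ
      simp only [Sh, Reg, RM, Cls, GK, Ty] at hθ r1 r2 hty
      omega
    refine ⟨rg a e2 0 (k + 1 + 1), ?_, _, _, MF.re θ a e 0 e2 0 b1 d1 (k + 1) hr r1, h2⟩
    rcases h1 with h1 | h1 | h1
    · exact ⟨_, _, _, FF.ps a e2 2 1 (k + 1) h4 (by omega), by omega, by omega⟩
    · exact ⟨_, _, _, FF.ps a e2 0 2 (k + 1) h4 (by omega), by omega, by omega⟩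
    · exact ⟨_, _, _, FF.ps a e2 2 0 (k + 1) h4 (by omega), by omega, by omega⟩
  | ar a e i j x h4 he hx hij =>
    obtain ⟨g, v, w, k2, rfl, c1, c2, rfl, c3, c4⟩ :=
      PG5_cr hθ h4 he (by omega) (by omega) ha hb
    simp only [Dm, GK] at c1 c2
    obtain ⟨rfl, rfl, rfl, h1⟩ : g = 0 ∧ v = 1 ∧ k2 = 5 ∧ w ≤ 1 := by omega
    obtain rfl := (c4.resolve_right (by omega)).2
    exact ⟨_, PG5_f0 (FF.ar a e (i + 1) (j + w) x h4 he hx (by omega)), _, _,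
      MF.sc a e 1 w (i + 1) j x h4 he hx (by unfold Dm; omega), by omega⟩
  | au a e i j x h4 he hx hij =>
    obtain ⟨g, v, w, k2, rfl, c1, c2, rfl, c3, c4⟩ :=
      PG5_cr hθ h4 he (by omega) (by omega) ha hb
    simp only [Dm, GK] at c1 c2
    obtain ⟨rfl, rfl, rfl, h1⟩ : g = 0 ∧ w = 1 ∧ k2 = 6 ∧ v ≤ 1 := by omega
    obtain rfl := (c4.resolve_right (by omega)).2
    exact ⟨_, PG5_f0 (FF.au a e (i + v) (j + 1) x h4 he hx (by omega)), _, _,
      MF.sc a e v 1 i (j + 1) x h4 he hx (by unfold Dm; omega), by omega⟩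
  | ad a e i x h4 he hx =>
    obtain ⟨g, v, w, k2, rfl, c1, c2, rfl, c3, c4⟩ :=
      PG5_cr hθ h4 he (by omega) (by omega) ha hb
    simp only [Dm, GK] at c1 c2
    obtain ⟨rfl, rfl, rfl, rfl⟩ : g = 0 ∧ w = 1 ∧ k2 = 7 ∧ v = 1 := by omega
    obtain rfl := (c4.resolve_right (by omega)).2
    exact ⟨_, PG5_f0 (FF.ad a e (i + 1) x h4 he hx), _, _,
      MF.sc a e 1 1 (i + 1) (i + 1) x h4 he hx (by unfold Dm; omega), by omega⟩
  | ru a e i j x y v₀ w₀ h4 he hx hy' h0 =>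
    rcases PG5_cl ha he with ⟨c1, -, c2, -⟩ | ⟨v, w, rfl, c2, rfl, c4⟩ |
      ⟨v, w, rfl, c2, rfl, rfl, c4⟩ <;>
    rcases PG5_cl hb he with ⟨e1, -, e2, -⟩ | ⟨v', w', e1, e2, rfl, e4⟩ |
      ⟨v', w', e1, e2, rfl, rfl, e4⟩
    · omega
    · subst e1; simp only [Cls] at c1; omega
    · subst e1; simp only [Cls] at c1; omega
    · simp only [Cls] at e1; omega
    · simp only [Prod.mk.injEq, true_and] at e1
      obtain ⟨rfl, rfl⟩ := e1
      refine ⟨_, ?_, _, _, MF.sc a e v w (i + 1) (j + 1) _ h4 he (dl_lt _ _ _)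
        (by simp only [Dm] at c2 e2 ⊢; omega), by omega⟩
      simp only [Nat.add_right_comm _ 1]
      exact PG5_ru h4 he hx hy'
    · simp at e1
    · simp only [Cls] at e1; omega
    · simp at e1
    · simp only [Prod.mk.injEq, true_and] at e1
      obtain ⟨rfl, rfl⟩ := e1
      rw [← X_ss]
      refine ⟨_, ?_, _, _, MF.ec a e v w (i + 1) (j + 1) h4 he
        (by simp only [Dm] at c2 e2 ⊢; omega), by omega⟩
      simp only [tc, Nat.add_right_comm _ 1, X_ss]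
      exact PG5_ru h4 he (X_lt _ _ _ _) (X_lt _ _ _ _)
  | r1 a e i x h4 he hx =>
    obtain ⟨g, v, w, k2, rfl, c1, c2, rfl, c3, c4⟩ :=
      PG5_cr hθ h4 he (by omega) (by omega) ha hb
    simp only [Dm, GK] at c1 c2
    obtain ⟨rfl, rfl, rfl⟩ : v = 1 ∧ w = 0 ∧ k2 = 12 := by omega
    rcases c4 with ⟨rfl, rfl⟩ | ⟨rfl, rfl, rfl⟩
    · exact ⟨_, PG5_f0 (FF.r1 a e (i + 1) x h4 he hx), _, _,
        MF.sc a e 1 0 (i + 1) 0 _ h4 he (b1_lt _ _) (by unfold Dm; omega), by omega⟩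
    · rw [← X_s0]
      refine ⟨_, ?_, _, _, MF.ec a e 1 0 (i + 1) 0 h4 he (by unfold Dm; omega), by omega⟩
      have := FF.r1 a e (i + 1) _ h4 he (X_lt D e (i + 1) 0)
      rw [← X_s0] at this
      exact PG5_f0 this
  | r2 a e j x h4 he hx =>
    obtain ⟨g, v, w, k2, rfl, c1, c2, rfl, c3, c4⟩ :=
      PG5_cr hθ h4 he (by omega) (by omega) ha hb
    simp only [Dm, GK] at c1 c2
    obtain ⟨rfl, rfl, rfl⟩ : v = 0 ∧ w = 1 ∧ k2 = 13 := by omega
    rcases c4 with ⟨rfl, rfl⟩ | ⟨rfl, rfl, rfl⟩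
    · exact ⟨_, PG5_f0 (FF.r2 a e (j + 1) x h4 he hx), _, _,
        MF.sc a e 0 1 0 (j + 1) _ h4 he (b2_lt _ _) (by unfold Dm; omega), by omega⟩
    · rw [← X_0s]
      refine ⟨_, ?_, _, _, MF.ec a e 0 1 0 (j + 1) h4 he (by unfold Dm; omega), by omega⟩
      have := FF.r2 a e (j + 1) _ h4 he (X_lt D e 0 (j + 1))
      rw [← X_0s] at this
      exact PG5_f0 this
  | ga a e i x h4 he hx hm =>
    obtain ⟨e1, k1, b1, d1, r1, rfl, m1⟩ := PG5_rg ha ⟨h4, by omega⟩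
    rcases PG5_cl hb he with ⟨c1, rfl, -, rfl, rfl, -⟩ | ⟨v, w, rfl, c2, rfl, c4⟩ |
      ⟨v, w, rfl, -⟩
    · obtain ⟨rfl, rfl, rfl⟩ : e1 = 1 ∧ k1 = 3 ∧ b1 = 1 := by
        obtain ⟨t, a0, p1, p2, p3, p4⟩ := θ
        simp only [Sh, Reg, RM, Cls, GK] at hθ r1 c1
        omega
      have h1 : i ≠ T := by
        rintro rfl
        rw [hT] at hm
        exact Bool.noConfusion hm
      exact ⟨_, PG5_f0 (FF.ga a 1 (i + 1) _ h4 one_lt_two (X_lt _ _ _ _) ((hs i).trans hm)), _, _,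
        MF.re θ a 0 0 1 0 2 7 i ⟨h4, by omega⟩ (Or.inl ⟨c1, rfl, rfl, rfl, by omega⟩), by omega⟩
    · simp only [RM, Cls, GK] at r1
      obtain ⟨rfl, rfl, rfl, rfl, rfl⟩ : e1 = e ∧ k1 = 3 ∧ b1 = 1 ∧ v = 1 ∧ w = 1 := by omega
      exact ⟨_, PG5_f0 (FF.ga a e1 (i + 1) x h4 he hx hm), _, _,
        MF.re _ a e1 0 e1 0 1 3 i ⟨h4, by omega⟩ (by simp [RM, GK]), m1⟩
    · simp only [RM, Cls, GK] at r1
      omega
  | er a e i j h4 he hj hij =>
    obtain ⟨g, v, w, k2, rfl, c1, c2, rfl, c3, c4⟩ :=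
      PG5_cr hθ h4 he (by omega) (by omega) ha hb
    simp only [Dm, GK] at c1 c2
    obtain ⟨rfl, rfl, rfl, h1⟩ : g = 1 ∧ v = 1 ∧ k2 = 8 + (j + w) ∧ j + w ≤ 1 := by omega
    obtain rfl := (c4.resolve_left (by omega)).2.2
    exact ⟨_, PG5_f0 (FF.er a e (i + 1) (j + w) h4 he h1 (by omega)), _, _,
      MF.ec a e 1 w (i + 1) j h4 he (by unfold Dm; omega), by omega⟩
  | eu a e i j h4 he hi hij =>
    obtain ⟨g, v, w, k2, rfl, c1, c2, rfl, c3, c4⟩ :=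
      PG5_cr hθ h4 he (by omega) (by omega) ha hb
    simp only [Dm, GK] at c1 c2
    obtain ⟨rfl, rfl, rfl, h1⟩ : g = 1 ∧ w = 1 ∧ k2 = 10 + (i + v) ∧ i + v ≤ 1 := by omega
    obtain rfl := (c4.resolve_left (by omega)).2.2
    exact ⟨_, PG5_f0 (FF.eu a e (i + v) (j + 1) h4 he h1 (by omega)), _, _,
      MF.ec a e v 1 i (j + 1) h4 he (by unfold Dm; omega), by omega⟩
  | qd a e i h4 he =>
    obtain ⟨e1, k1, b1, d1, r1, rfl, m1⟩ := PG5_rg hb ⟨h4, by omega⟩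
    rcases PG5_cl ha he with ⟨c1, rfl, -, -, rfl, -⟩ | ⟨v, w, rfl, -⟩ |
      ⟨v, w, rfl, c2, -, rfl, c4⟩
    · obtain ⟨rfl, rfl, rfl⟩ : e1 = 1 ∧ k1 = 4 ∧ b1 = 1 := by
        obtain ⟨t, a0, p1, p2, p3, p4⟩ := θ
        simp only [Sh, Reg, RM, Cls, GK] at hθ r1 c1
        omega
      exact ⟨_, PG5_f0 (FF.qd a 1 (i + 1) h4 one_lt_two), _, _, MF.gc θ a (i + 1) c1, m1⟩
    · simp only [RM, Cls, GK] at r1
      omega
    · simp only [RM, Cls, GK] at r1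
      obtain ⟨rfl, rfl, rfl, rfl, rfl⟩ : e1 = e ∧ k1 = 4 ∧ b1 = 1 ∧ v = 1 ∧ w = 1 := by omega
      exact ⟨_, PG5_f0 (FF.qd a e1 (i + 1) h4 he), _, _,
        MF.ec a e1 1 1 (i + 1) (i + 1) h4 he (by unfold Dm; omega), by omega⟩

end Pool.Agent.P.MP_48d4bc_co.EX.PI
end

-- part Pool.Agent.P.MP_48d4bc_co.PG6
section

set_option autoImplicit false

/-! Backward closure. -/

namespace Pool.Agent.P.MP_48d4bc_co.EX.PI

open Set Function Pool.Agent.Lib.PrimrecProp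

variable {D : Dat} {θ : Th}

theorem PG6_fn {gx gy : ℕ} {a b c : Nm} {h : ℕ} {θ' : Th} (H : FF D a b c h θ' 0) :
    ∃ c, Fn D gx gy a b c :=
  ⟨c, h, θ', 0, H, by simp [Ty]⟩

theorem PG6_cr {a e kd η e₀ k₀ e₁ k₁ b d b' d' : ℕ} (hθ : Sh θ) (hη : η < 2)
    (h0 : RM θ a e₀ k₀ e kd b d) (h1 : RM θ ((a + 1) % 4) e₁ k₁ η 0 b' d') :
    k₁ = 0 ∧ e₁ < 2 := by
  obtain ⟨t, a0, p1, p2, p3, p4⟩ := θ
  simp only [Sh, Reg, RM, Cls, GK] at hθ h0 h1
  rcases h1 with h1 | h1 | h1 | h1 | h1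
  · omega
  · omega
  · omega
  · rcases h0 with h0 | h0 | h0 | h0 | h0 <;> omega
  · omega

theorem PG6_pl {a e e₀ k₀ e₁ k₁ b d b' d' : ℕ} (hθ : Sh θ) (he : e < 2)
    (h0 : RM θ a e₀ k₀ e 2 b d) (h1 : RM θ a e₁ k₁ e 0 b' d') :
    k₀ = 2 ∧ k₁ = 0 ∧ e₁ = e₀ ∧ e₀ < 2 := by
  obtain ⟨t, a0, p1, p2, p3, p4⟩ := θ
  simp only [Sh, Reg, RM, Cls, GK] at hθ h0 h1
  rcases h0 with h0 | h0 | h0 | h0 | h0 <;> rcases h1 with h1 | h1 | h1 | h1 | h1 <;> omega

theorem PG6_pz {a e kd e₀ k₀ e₁ k₁ b d b' d' : ℕ} (hθ : Sh θ) (he : e < 2)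
    (h0 : RM θ a e₀ k₀ e kd b d) (h1 : RM θ a e₁ k₁ e 2 b' d') :
    k₀ = kd ∧ k₁ = 2 ∧ e₁ = e₀ ∧ e₀ < 2 := by
  obtain ⟨t, a0, p1, p2, p3, p4⟩ := θ
  simp only [Sh, Reg, RM, Cls, GK] at hθ h0 h1
  rcases h1 with h1 | h1 | h1 | h1 | h1 <;> rcases h0 with h0 | h0 | h0 | h0 | h0 <;> omega

theorem PG6_ps {a e e₀ k₀ e₁ k₁ b d b' d' : ℕ} (hθ : Sh θ)
    (h0 : RM θ a e₀ k₀ e 0 b d) (h1 : RM θ a e₁ k₁ e 1 b' d') :
    k₀ = 0 ∧ k₁ = 1 ∧ e₁ = e₀ ∧ (e₀ = 0 ∧ e = 1 ∨ e₀ = 2) := by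
  obtain ⟨t, a0, p1, p2, p3, p4⟩ := θ
  simp only [Sh, Reg, RM, Cls, GK] at hθ h0 h1
  rcases h1 with h1 | h1 | h1 | h1 | h1 <;> rcases h0 with h0 | h0 | h0 | h0 | h0 <;> omega

/-- registers of the zone of the gate -/
theorem PG6_gate {a e₀ k₀ e kd b d : ℕ} (hθ : Sh θ) (hc : Cls θ a)
    (h0 : RM θ a e₀ k₀ e kd b d) : e₀ = 0 ∧ k₀ = kd ∧ kd ≤ 4 := by
  obtain ⟨t, a0, p1, p2, p3, p4⟩ := θ
  simp only [Sh, Reg, RM, Cls, GK] at hθ h0 hc
  rcases h0 with h0 | h0 | h0 | h0 | h0 <;> omega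

/-- registers of the zone of a grid map -/
theorem PG6_grid {a e g v w e₀ k₀ e' kd b d : ℕ}
    (h0 : RM (2, a, e, g, v, w) a e₀ k₀ e' kd b d) : e₀ = e ∧ GK g v w k₀ kd := by
  simp only [RM, Cls] at h0
  rcases h0 with h0 | h0 | h0 | h0 | h0
  · omega
  · omega
  · omega
  · omega
  · exact ⟨h0.2.2.1, h0.2.2.2.2.2.2⟩

theorem PG6_ncls {a e g v w : ℕ} (hc : Cls (2, a, e, g, v, w) a) : False := by
  simp only [Cls] at hc
  omega

theorem PG6_ru {gx gy a e i j x y : ℕ} (ha : a < 4) (he : e < 2) (hx : x < sz D)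
    (hy : y < sz D) : ∃ c, Fn D gx gy (cl a e i (j + 1) x) (cl a e (i + 1) j y) c := by
  by_cases hj : j = 0
  · exact PG6_fn (FF.ru a e i j x y 1 0 ha he hx hy (by omega))
  · by_cases hi : i = 0
    · exact PG6_fn (FF.ru a e i j x y 0 1 ha he hx hy (by omega))
    · exact PG6_fn (FF.ru a e i j x y 1 1 ha he hx hy (by omega))

theorem Mp.bwd (hs : Shift D) (hθ : Sh θ) {T gx gy : ℕ} {a a' b b' c' : Nm}
    (ha : Mp D T θ a a') (hb : Mp D T θ b b') (h : Fn D T gy a' b' c') :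
    ∃ c, Fn D gx T a b c := by
  obtain ⟨m, d, ha, -⟩ := ha
  obtain ⟨m', d', hb, -⟩ := hb
  obtain ⟨h, θ', p, H, hT⟩ := h
  cases H with
  | cr z e kd k η hr hη =>
    have hz : z < 4 := hr.1
    obtain ⟨e₀, k₀, b₀, d₀, n₀, hr₀, h₀, rfl, hk₀, -⟩ := ha.inv_rg' hθ hr
    obtain ⟨e₁, k₁, b₁, d₁, n₁, hr₁, h₁, rfl, hk₁, -⟩ :=
      hb.inv_rg' hθ (by simp only [Reg]; omega)
    obtain rfl : n₀ = n₁ := by omega
    obtain ⟨rfl, he₁⟩ := PG6_cr hθ hη h₀ h₁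
    exact PG6_fn (FF.cr z e₀ k₀ n₀ e₁ hr₀ he₁)
  | pl z e k hz he =>
    obtain ⟨e₀, k₀, b₀, d₀, n₀, hr₀, h₀, rfl, hk₀, -⟩ :=
      ha.inv_rg' hθ (by simp only [Reg]; omega)
    obtain ⟨e₁, k₁, b₁, d₁, n₁, hr₁, h₁, rfl, hk₁, -⟩ :=
      hb.inv_rg' hθ (by simp only [Reg]; omega)
    obtain rfl : n₀ = n₁ := by omega
    obtain ⟨rfl, rfl, rfl, he₀⟩ := PG6_pl hθ he h₀ h₁
    exact PG6_fn (FF.pl z e₁ n₀ hz he₀)
  | pz z e kd k hz he hk =>
    obtain ⟨e₀, k₀, b₀, d₀, n₀, hr₀, h₀, rfl, hk₀, -⟩ :=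
      ha.inv_rg' hθ (by simp only [Reg]; omega)
    obtain ⟨e₁, k₁, b₁, d₁, n₁, hr₁, h₁, rfl, hk₁, -⟩ :=
      hb.inv_rg' hθ (by simp only [Reg]; omega)
    obtain rfl : n₁ = n₀ + 1 := by omega
    obtain ⟨rfl, rfl, rfl, he₀⟩ := PG6_pz hθ he h₀ h₁
    exact PG6_fn (FF.pz z e₁ k₀ n₀ hz he₀ hk)
  | ps z e s p k hz hp =>
    obtain ⟨e₀, k₀, b₀, d₀, n₀, hr₀, h₀, rfl, hk₀, -⟩ :=
      ha.inv_rg' hθ (by simp only [Reg]; omega)
    obtain ⟨e₁, k₁, b₁, d₁, n₁, hr₁, h₁, rfl, hk₁, -⟩ :=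
      hb.inv_rg' hθ (by simp only [Reg]; omega)
    obtain rfl : n₀ = n₁ := by omega
    obtain ⟨rfl, rfl, rfl, he₀⟩ := PG6_ps hθ h₀ h₁
    rcases he₀ with ⟨rfl, rfl⟩ | rfl
    · refine ⟨_, _, _, 1, FF.ps z 0 2 1 n₀ hz (by omega), ?_⟩
      simp only [Ty] at hT ⊢
      omega
    · exact PG6_fn (FF.ps z 2 2 0 n₀ hz (by omega))
  | ar z e i j x hz he hx hj =>
    obtain ⟨e₁, k₁, b₁, d₁, n₁, hr₁, h₁, rfl, hk₁, -⟩ :=
      hb.inv_rg' hθ (by simp only [Reg]; omega)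
    rcases ha.inv_cl' hθ he with ⟨hc, -⟩ | ⟨v, w, i₀, j₀, rfl, hd, hi, hj', rfl, -⟩ |
      ⟨v, w, i₀, j₀, rfl, -⟩
    · have := PG6_gate hθ hc h₁
      omega
    · obtain ⟨rfl, hg⟩ := PG6_grid h₁
      simp only [GK, Dm] at hg hd
      obtain rfl : k₁ = 5 := by omega
      obtain rfl : n₁ = i₀ := by omega
      exact PG6_fn (FF.ar z e₁ n₁ j₀ x hz he hx (by omega))
    · obtain ⟨-, hg⟩ := PG6_grid h₁
      simp only [GK] at hg
      omega
  | au z e i j x hz he hx hj =>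
    obtain ⟨e₁, k₁, b₁, d₁, n₁, hr₁, h₁, rfl, hk₁, -⟩ :=
      hb.inv_rg' hθ (by simp only [Reg]; omega)
    rcases ha.inv_cl' hθ he with ⟨hc, -⟩ | ⟨v, w, i₀, j₀, rfl, hd, hi, hj', rfl, -⟩ |
      ⟨v, w, i₀, j₀, rfl, -⟩
    · have := PG6_gate hθ hc h₁
      omega
    · obtain ⟨rfl, hg⟩ := PG6_grid h₁
      simp only [GK, Dm] at hg hd
      obtain rfl : k₁ = 6 := by omega
      obtain rfl : n₁ = j₀ := by omega
      exact PG6_fn (FF.au z e₁ i₀ n₁ x hz he hx (by omega))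
    · obtain ⟨-, hg⟩ := PG6_grid h₁
      simp only [GK] at hg
      omega
  | ad z e i x hz he hx =>
    obtain ⟨e₁, k₁, b₁, d₁, n₁, hr₁, h₁, rfl, hk₁, -⟩ :=
      hb.inv_rg' hθ (by simp only [Reg]; omega)
    rcases ha.inv_cl' hθ he with ⟨hc, -⟩ | ⟨v, w, i₀, j₀, rfl, hd, hi, hj', rfl, -⟩ |
      ⟨v, w, i₀, j₀, rfl, -⟩
    · have := PG6_gate hθ hc h₁
      omega
    · obtain ⟨rfl, hg⟩ := PG6_grid h₁
      simp only [GK, Dm] at hg hd
      obtain rfl : k₁ = 7 := by omega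
      obtain rfl : n₁ = i₀ := by omega
      obtain rfl : n₁ = j₀ := by omega
      exact PG6_fn (FF.ad z e₁ n₁ x hz he hx)
    · obtain ⟨-, hg⟩ := PG6_grid h₁
      simp only [GK] at hg
      omega
  | ru z e i j x y v₀ w₀ hz he hx hy hv =>
    rcases ha.inv_cl' hθ he with ⟨hc, -, i₀, hi, hj, -⟩ |
      ⟨v, w, i₀, j₀, rfl, -, hi, hj, rfl, -⟩ | ⟨v, w, i₀, j₀, rfl, -, hi, hj, -, rfl, -⟩
    · rcases hb.inv_cl' hθ he with ⟨-, -, i₁, hi', hj', -⟩ | ⟨v, w, i₁, j₁, rfl, -⟩ |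
        ⟨v, w, i₁, j₁, rfl, -⟩
      · omega
      · exact (PG6_ncls hc).elim
      · exact (PG6_ncls hc).elim
    · rcases hb.inv_cl' hθ he with ⟨hc, -⟩ | ⟨v', w', i₁, j₁, hq, -, hi', hj', rfl, -⟩ |
        ⟨v', w', i₁, j₁, hq, -⟩
      · exact (PG6_ncls hc).elim
      · simp only [Prod.mk.injEq, true_and] at hq
        obtain rfl : j₀ = j₁ + 1 := by omega
        obtain rfl : i₁ = i₀ + 1 := by omega
        exact PG6_ru hz he hx hy
      · simp only [Prod.mk.injEq] at hq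
        omega
    · rcases hb.inv_cl' hθ he with ⟨hc, -⟩ | ⟨v', w', i₁, j₁, hq, -⟩ |
        ⟨v', w', i₁, j₁, hq, -, hi', hj', -, rfl, -⟩
      · exact (PG6_ncls hc).elim
      · simp only [Prod.mk.injEq] at hq
        omega
      · simp only [Prod.mk.injEq, true_and] at hq
        obtain rfl : j₀ = j₁ + 1 := by omega
        obtain rfl : i₁ = i₀ + 1 := by omega
        exact PG6_ru hz he (X_lt _ _ _ _) (X_lt _ _ _ _)
  | r1 z e i x hz he hx =>
    obtain ⟨e₁, k₁, b₁, d₁, n₁, hr₁, h₁, rfl, hk₁, -⟩ :=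
      hb.inv_rg' hθ (by simp only [Reg]; omega)
    rcases ha.inv_cl' hθ he with ⟨hc, -⟩ | ⟨v, w, i₀, j₀, rfl, -, hi, hj', rfl, -⟩ |
      ⟨v, w, i₀, j₀, rfl, -, hi, hj', -, rfl, -⟩
    · have := PG6_gate hθ hc h₁
      omega
    · obtain ⟨rfl, hg⟩ := PG6_grid h₁
      simp only [GK] at hg
      obtain rfl : k₁ = 12 := by omega
      obtain rfl : n₁ = i₀ + 1 := by omega
      obtain rfl : j₀ = 0 := by omega
      exact PG6_fn (FF.r1 z e₁ i₀ x hz he hx)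
    · obtain ⟨rfl, hg⟩ := PG6_grid h₁
      simp only [GK] at hg
      obtain rfl : k₁ = 12 := by omega
      obtain rfl : n₁ = i₀ + 1 := by omega
      obtain rfl : j₀ = 0 := by omega
      exact PG6_fn (FF.r1 z e₁ i₀ _ hz he (X_lt _ _ _ _))
  | r2 z e j x hz he hx =>
    obtain ⟨e₁, k₁, b₁, d₁, n₁, hr₁, h₁, rfl, hk₁, -⟩ :=
      hb.inv_rg' hθ (by simp only [Reg]; omega)
    rcases ha.inv_cl' hθ he with ⟨hc, -⟩ | ⟨v, w, i₀, j₀, rfl, -, hi, hj', rfl, -⟩ |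
      ⟨v, w, i₀, j₀, rfl, -, hi, hj', -, rfl, -⟩
    · have := PG6_gate hθ hc h₁
      omega
    · obtain ⟨rfl, hg⟩ := PG6_grid h₁
      simp only [GK] at hg
      obtain rfl : k₁ = 13 := by omega
      obtain rfl : n₁ = j₀ + 1 := by omega
      obtain rfl : i₀ = 0 := by omega
      exact PG6_fn (FF.r2 z e₁ j₀ x hz he hx)
    · obtain ⟨rfl, hg⟩ := PG6_grid h₁
      simp only [GK] at hg
      obtain rfl : k₁ = 13 := by omega
      obtain rfl : n₁ = j₀ + 1 := by omega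
      obtain rfl : i₀ = 0 := by omega
      exact PG6_fn (FF.r2 z e₁ j₀ _ hz he (X_lt _ _ _ _))
  | ga z e i x hz he hx hm =>
    obtain ⟨e₁, k₁, b₁, d₁, n₁, hr₁, h₁, rfl, hk₁, -⟩ :=
      ha.inv_rg' hθ (by simp only [Reg]; omega)
    rcases hb.inv_cl' hθ he with ⟨hc, -, i₀, hi, -, rfl, rfl, -⟩ |
      ⟨v, w, i₀, j₀, rfl, -, hi, hj', rfl, -⟩ | ⟨v, w, i₀, j₀, rfl, -⟩
    · obtain ⟨rfl, rfl, -⟩ := PG6_gate hθ hc h₁
      obtain rfl : n₁ = i₀ := by omega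
      rw [hs] at hm
      exact PG6_fn (FF.ga z 0 n₁ _ hz (by omega) (X_lt _ _ _ _) hm)
    · obtain ⟨rfl, hg⟩ := PG6_grid h₁
      simp only [GK] at hg
      obtain rfl : k₁ = 3 := by omega
      obtain rfl : n₁ = i₀ := by omega
      obtain rfl : n₁ = j₀ := by omega
      exact PG6_fn (FF.ga z e₁ n₁ x hz he hx hm)
    · obtain ⟨-, hg⟩ := PG6_grid h₁
      simp only [GK] at hg
      omega
  | er z e i j hz he hj hji =>
    obtain ⟨e₁, k₁, b₁, d₁, n₁, hr₁, h₁, rfl, hk₁, -⟩ :=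
      hb.inv_rg' hθ (by simp only [Reg]; omega)
    rcases MF.inv_cl' (x := X D e i j) hθ ha he with ⟨hc, -⟩ | ⟨v, w, i₀, j₀, rfl, -⟩ |
      ⟨v, w, i₀, j₀, rfl, hd, hi, hj', -, rfl, -⟩
    · have := PG6_gate hθ hc h₁
      omega
    · obtain ⟨-, hg⟩ := PG6_grid h₁
      simp only [GK] at hg
      omega
    · obtain ⟨rfl, hg⟩ := PG6_grid h₁
      simp only [GK, Dm] at hg hd
      obtain rfl : k₁ = 8 + j₀ := by omega
      obtain rfl : n₁ = i₀ := by omega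
      exact PG6_fn (FF.er z e₁ n₁ j₀ hz he (by omega) (by omega))
  | eu z e i j hz he hj hji =>
    obtain ⟨e₁, k₁, b₁, d₁, n₁, hr₁, h₁, rfl, hk₁, -⟩ :=
      hb.inv_rg' hθ (by simp only [Reg]; omega)
    rcases MF.inv_cl' (x := X D e i j) hθ ha he with ⟨hc, -⟩ | ⟨v, w, i₀, j₀, rfl, -⟩ |
      ⟨v, w, i₀, j₀, rfl, hd, hi, hj', -, rfl, -⟩
    · have := PG6_gate hθ hc h₁
      omega
    · obtain ⟨-, hg⟩ := PG6_grid h₁
      simp only [GK] at hg
      omega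
    · obtain ⟨rfl, hg⟩ := PG6_grid h₁
      simp only [GK, Dm] at hg hd
      obtain rfl : k₁ = 10 + i₀ := by omega
      obtain rfl : n₁ = j₀ := by omega
      exact PG6_fn (FF.eu z e₁ i₀ n₁ hz he (by omega) (by omega))
  | qd z e i hz he =>
    obtain ⟨e₁, k₁, b₁, d₁, n₁, hr₁, h₁, rfl, hk₁, -⟩ :=
      hb.inv_rg' hθ (by simp only [Reg]; omega)
    rcases MF.inv_cl' (x := X D e i i) hθ ha he with ⟨hc, -, i₀, hi, -, -, rfl, -⟩ |
      ⟨v, w, i₀, j₀, rfl, -⟩ | ⟨v, w, i₀, j₀, rfl, hd, hi, hj', -, rfl, -⟩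
    · obtain ⟨rfl, rfl, -⟩ := PG6_gate hθ hc h₁
      obtain rfl : n₁ = i₀ := by omega
      exact PG6_fn (FF.qd z 0 n₁ hz (by omega))
    · obtain ⟨-, hg⟩ := PG6_grid h₁
      simp only [GK] at hg
      omega
    · obtain ⟨rfl, hg⟩ := PG6_grid h₁
      simp only [GK] at hg
      obtain rfl : k₁ = 4 := by omega
      obtain rfl : n₁ = i₀ := by omega
      obtain rfl : n₁ = j₀ := by omega
      exact PG6_fn (FF.qd z e₁ n₁ hz he)

end Pool.Agent.P.MP_48d4bc_co.EX.PI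
end

-- part Pool.Agent.P.MP_48d4bc_co.PG7
section

set_option autoImplicit false

/-! Typed models for a grid with infinitely many marks. -/

namespace Pool.Agent.P.MP_48d4bc_co.EX.PI

open Set Function Pool.Agent.Lib.PrimrecProp

variable {D : Dat}

theorem PG7_base {L : List Nm} {a b c : Nm} (h : (a, b, c) ∈ baseOf L) :
    (a = nx ∧ b = ny ∧ c = m1) ∨ (a = ny ∧ b = nx ∧ c = m2) ∨ (a = nx ∧ b = m1 ∧ c = m2) ∨
      (a = ny ∧ b = m2 ∧ c = m3) ∨
      ∃ i < L.length, a = (m3 :: L).getD i nx ∧ b = ny ∧ c = L.getD i nx := by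
  simp only [baseOf, List.mem_cons, List.mem_map, List.mem_range, Prod.mk.injEq] at h
  rcases h with h | h | h | h | ⟨i, hi, h1, h2, h3⟩
  · exact Or.inl h
  · exact Or.inr (Or.inl h)
  · exact Or.inr (Or.inr (Or.inl h))
  · exact Or.inr (Or.inr (Or.inr (Or.inl h)))
  · exact Or.inr (Or.inr (Or.inr (Or.inr ⟨i, hi, h1.symm, h2.symm, h3.symm⟩)))

theorem PG7_mem {L : List Nm} {i : ℕ} (hi : i < L.length) : (m3 :: L).getD i nx ∈ m3 :: L := by
  rw [List.getD_eq_getElem _ _ (by simp only [List.length_cons]; omega)]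
  exact List.getElem_mem _

theorem PG7_nodup : nx ∉ m3 :: restOf D ∧ ny ∉ m3 :: restOf D ∧ (m3 :: restOf D).Nodup := by
  have h := names_nodup (D := D)
  unfold namesOf at h
  obtain ⟨h1, h⟩ := List.nodup_cons.1 h
  obtain ⟨h2, h⟩ := List.nodup_cons.1 h
  refine ⟨fun h' => h1 ?_, fun h' => h2 ?_, (List.nodup_cons.1 (List.nodup_cons.1 h).2).2⟩
  · exact List.mem_cons_of_mem _ (List.mem_cons_of_mem _ (List.mem_cons_of_mem _ h'))
  · exact List.mem_cons_of_mem _ (List.mem_cons_of_mem _ h')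

theorem PG7_base_kind {a b c : Nm} (h : (a, b, c) ∈ baseOf (restOf D)) : b.1 = 0 := by
  rcases PG7_base h with h | h | h | h | ⟨i, -, h⟩ <;> rw [h.2.1] <;> rfl

theorem PG7_base_fn {a b c c' : Nm} (h : (a, b, c) ∈ baseOf (restOf D))
    (h' : (a, b, c') ∈ baseOf (restOf D)) : c = c' := by
  obtain ⟨n1, -, n3⟩ := PG7_nodup (D := D)
  rcases PG7_base h with ⟨h1, h2, h3⟩ | ⟨h1, h2, h3⟩ | ⟨h1, h2, h3⟩ | ⟨h1, h2, h3⟩ |
      ⟨i, hi, h1, h2, h3⟩ <;>
    rcases PG7_base h' with ⟨k1, k2, k3⟩ | ⟨k1, k2, k3⟩ | ⟨k1, k2, k3⟩ | ⟨k1, k2, k3⟩ |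
      ⟨j, hj, k1, k2, k3⟩ <;>
    first
    | exact h3.trans k3.symm
    | exact absurd (h2.symm.trans k2) (by decide)
    | skip
  · exact absurd (h1.symm.trans k1 ▸ PG7_mem hj) n1
  · exact absurd (k1.symm.trans h1 ▸ PG7_mem hi) n1
  · have e := h1.symm.trans k1
    rw [List.getD_eq_getElem _ _ (by simp only [List.length_cons]; omega),
      List.getD_eq_getElem _ _ (by simp only [List.length_cons]; omega)] at e
    rw [h3, k3, (List.Nodup.getElem_inj_iff n3).1 e]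

theorem PG7_base_irr {a c : Nm} (h : (a, a, c) ∈ baseOf (restOf D)) : False := by
  obtain ⟨-, n2, -⟩ := PG7_nodup (D := D)
  rcases PG7_base h with ⟨h1, h2, -⟩ | ⟨h1, h2, -⟩ | ⟨h1, h2, -⟩ | ⟨h1, h2, -⟩ |
    ⟨i, hi, h1, h2, -⟩
  · exact absurd (h1.symm.trans h2) (by decide)
  · exact absurd (h1.symm.trans h2) (by decide)
  · exact absurd (h1.symm.trans h2) (by decide)
  · exact absurd (h1.symm.trans h2) (by decide)
  · exact n2 (h2.symm.trans h1 ▸ PG7_mem hi)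

theorem PG7_bd {x y n B : ℕ} (hx : x ≤ n) (hy : y < B) : x * B + y < (n + 1) * B := by
  have := Nat.mul_le_mul_right B hx
  rw [Nat.add_mul]
  omega

theorem PG7_lex {x y x' y' B : ℕ} (hy : y < B) (hy' : y' < B) :
    x * B + y < x' * B + y' ↔ x < x' ∨ x = x' ∧ y < y' := by
  rcases lt_trichotomy x x' with h | rfl | h
  · have h1 := PG7_bd (le_refl x) hy
    have h2 := Nat.mul_le_mul_right B (Nat.succ_le_of_lt h)
    exact iff_of_true (lt_of_lt_of_le (h1.trans_le h2) (Nat.le_add_right _ _)) (Or.inl h)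
  · omega
  · have h1 := PG7_bd (le_refl x') hy'
    have h2 := Nat.mul_le_mul_right B (Nat.succ_le_of_lt h)
    refine iff_of_false (not_lt.2 ((h1.trans_le h2).le.trans (Nat.le_add_right _ _))) ?_
    omega

theorem PG7_getD_mem (l : List Nm) (i : ℕ) : l.getD i nx = nx ∨ l.getD i nx ∈ l := by
  by_cases h : i < l.length
  · right
    rw [List.getD_eq_getElem _ _ h]
    exact List.getElem_mem h
  · left
    exact List.getD_eq_default _ _ (by omega)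

theorem PG7_base_mem {rest : List Nm} {φ : Ft} (h : φ ∈ baseOf rest) :
    φ.1 ∈ namesOf rest ∧ φ.2.1 ∈ namesOf rest ∧ φ.2.2 ∈ namesOf rest := by
  unfold baseOf at h
  simp only [List.mem_cons, List.mem_map] at h
  rcases h with rfl | rfl | rfl | rfl | ⟨i, -, rfl⟩
  · simp [namesOf]
  · simp [namesOf]
  · simp [namesOf]
  · simp [namesOf]
  · refine ⟨?_, by simp [namesOf], ?_⟩
    · rcases PG7_getD_mem (m3 :: rest) i with h | h
      · show (m3 :: rest).getD i nx ∈ namesOf rest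
        rw [h]; simp [namesOf]
      · show (m3 :: rest).getD i nx ∈ namesOf rest
        unfold namesOf
        exact List.mem_cons_of_mem _ (List.mem_cons_of_mem _ (List.mem_cons_of_mem _
          (List.mem_cons_of_mem _ h)))
    · rcases PG7_getD_mem rest i with h | h
      · show rest.getD i nx ∈ namesOf rest
        rw [h]; simp [namesOf]
      · show rest.getD i nx ∈ namesOf rest
        unfold namesOf
        exact List.mem_cons_of_mem _ (List.mem_cons_of_mem _ (List.mem_cons_of_mem _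
          (List.mem_cons_of_mem _ (List.mem_cons_of_mem _ h))))

/-- the box -/
def PG7_Box (B : ℕ) (a : Nm) : Prop := a.1 ≤ B ∧ a.2.1 ≤ B ∧ a.2.2.1 ≤ B ∧ a.2.2.2 ≤ B

theorem PG7_rank (B : ℕ) : ∃ r : Nm → ℕ, ∀ a b, PG7_Box B a → PG7_Box B b →
    (r a < r b ↔ Lt a b) := by
  refine ⟨fun a => a.1 * ((B + 1) * ((B + 1) * (B + 1))) +
    (a.2.1 * ((B + 1) * (B + 1)) + (a.2.2.1 * (B + 1) + a.2.2.2)), fun a b ha hb => ?_⟩
  have a3 := Nat.lt_succ_of_le ha.2.2.2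
  have b3 := Nat.lt_succ_of_le hb.2.2.2
  have a2 := PG7_bd ha.2.2.1 a3
  have b2 := PG7_bd hb.2.2.1 b3
  exact (PG7_lex (PG7_bd ha.2.1 a2) (PG7_bd hb.2.1 b2)).trans (or_congr_right
    (and_congr_right' ((PG7_lex a2 b2).trans (or_congr_right
      (and_congr_right' (PG7_lex a3 b3))))))

theorem PG7_finite (B : ℕ) : Finite {a : Nm // PG7_Box B a} :=
  (Set.finite_Iic ((B, B, B, B) : Nm)).to_subtype

theorem PG7_name {a : Nm} (h : a ∈ (sig D).names) :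
    (a.1 = 0 ∧ a.2.1 = 0 ∧ a.2.2.1 = 0 ∧ a.2.2.2 ≤ 4) ∨ (Vd D a ∧ Sm a) := by
  have h' : a ∈ nx :: ny :: m1 :: m2 :: m3 :: restOf D := h
  simp only [List.mem_cons] at h'
  rcases h' with rfl | rfl | rfl | rfl | rfl | h'
  · exact Or.inl (by decide)
  · exact Or.inl (by decide)
  · exact Or.inl (by decide)
  · exact Or.inl (by decide)
  · exact Or.inl (by decide)
  · exact Or.inr (mem_rest.1 h')

theorem PG7_name_box {a : Nm} (h : a ∈ (sig D).names) (g : ℕ) : PG7_Box (g + 200 + sz D) a := by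
  rcases PG7_name h with h | ⟨h1, h2⟩
  · unfold PG7_Box
    omega
  · have h3 := h1.kind
    rcases h1 with ⟨a, e, kd, k, -, rfl⟩ | ⟨a, e, i, j, x, -, -, -, rfl⟩
    · simp only [PG7_Box, Sm, rg] at *
      omega
    · have h4 := sm_cl.1 h2
      simp only [PG7_Box, cl] at *
      omega

theorem PG7_mp {θ : Th} (hθ : Sh θ) {T g : ℕ} (hg : T ≤ g) {a a' : Nm} (h : Mp D T θ a a') :
    1 ≤ a.1 ∧ 1 ≤ a'.1 ∧ PG7_Box (g + 200 + sz D) a ∧ PG7_Box (g + 200 + sz D) a' := by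
  obtain ⟨m, d, h, hm⟩ := h
  have h1 := (h.vd hθ).1.kind
  have h2 := (h.vd hθ).2.kind
  have h3 := h.box hθ
  unfold PG7_Box
  omega

theorem PG7_times (hi : Inf D) : ∃ G : ℕ → ℕ, (∀ z, mk D (X D 0 (G z) (G z)) = true) ∧
    (∀ z, 2 ≤ G z) ∧ ∀ z y, z < y → G z + 3 ≤ G y := by
  choose f hf hm using hi
  refine ⟨fun z => Nat.rec (f 2) (fun _ g => f (g + 3)) z, fun z => ?_, fun z => ?_,
    fun z y h => ?_⟩
  · cases z <;> exact hm _
  · cases z
    · exact hf 2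
    · exact le_trans (Nat.le_add_left 2 _) (Nat.le_of_succ_le_succ (Nat.le_succ_of_le (hf _)))
  · induction h with
    | refl => exact hf _
    | step _ ih => exact ih.trans ((Nat.le_add_right _ 3).trans (hf _))

theorem gmodel {D : Dat} (hs : Shift D) (hi : Inf D) (N : ℕ) : Nonempty ((sig D).GModel N) := by
  classical
  obtain ⟨G, hG, hG2, hG3⟩ := PG7_times hi
  have hGN : ∀ z, z < N → G z ≤ G N := fun z hz => (Nat.le_add_right _ 3).trans (hG3 z N hz)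
  obtain ⟨r, hr⟩ := PG7_rank (G N + 200 + sz D)
  have hnx : nx ∈ (sig D).names := by simp [Sig.names, namesOf]
  have hny : ny ∈ (sig D).names := by simp [Sig.names, namesOf]
  have hbox : ∀ a ∈ (sig D).names, PG7_Box (G N + 200 + sz D) a :=
    fun a ha => PG7_name_box ha _
  let ν : Nm → {a : Nm // PG7_Box (G N + 200 + sz D) a} := fun a =>
    if h : PG7_Box (G N + 200 + sz D) a then ⟨a, h⟩ else ⟨nx, hbox nx hnx⟩
  have hν : ∀ a ∈ (sig D).names, (ν a).1 = a := by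
    intro a ha
    simp only [ν, dif_pos (hbox a ha)]
  have hS : ∀ {i : ℕ} (h : i < ths.length), Sh ths[i] :=
    fun h => mem_ths.1 (List.getElem_mem h)
  have hk : ∀ {x y : ℕ} {a b c : Nm}, Fn D x y a b c → b.1 ≠ 0 := by
    rintro x y a b c ⟨h, θ, p, H, -⟩
    have := H.vd.2.1.kind
    omega
  have hfn : ∀ {x y x' y' : ℕ} {a b c c' : Nm}, Fn D x y a b c → Fn D x' y' a b c' → c = c' := by
    rintro x y x' y' a b c c' ⟨h, θ, p, H, -⟩ ⟨h', θ', p', H', -⟩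
    exact H.fn H'
  refine ⟨{
    A := {a : Nm // PG7_Box (G N + 200 + sz D) a}
    R := fun x y a b c => (a.1, b.1, c.1) ∈ baseOf (restOf D) ∨ Fn D (G x) (G y) a.1 b.1 c.1
    ν := ν
    Θ := fun i z a a' => ∃ h : i < ths.length, Mp D (G z) ths[i] a.1 a'.1
    r := fun a => r a.1
    fin := PG7_finite _
    rinj := ?_, fn := ?_, irr := ?_, inj := ?_, fact := ?_, glue := ?_, bij := ?_, fwd := ?_,
    bwd := ?_, lo := ?_, mono := ?_, off := ?_, only := ?_ }⟩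
  · intro a b hab
    rcases lt_total a.1 b.1 with h | h | h
    · exact absurd ((hr _ _ a.2 b.2).2 h) (by simp only at hab; omega)
    · exact Subtype.ext h
    · exact absurd ((hr _ _ b.2 a.2).2 h) (by simp only at hab; omega)
  · rintro x y a b c c' (h | h) (h' | h')
    · exact Subtype.ext (PG7_base_fn h h')
    · exact absurd (PG7_base_kind h) (hk h')
    · exact absurd (PG7_base_kind h') (hk h)
    · exact Subtype.ext (hfn h h')
  · rintro x y a c (h | ⟨h, θ, p, H, -⟩)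
    · exact PG7_base_irr h
    · exact H.ne.1 rfl
  · intro a ha b hb h
    rw [← hν a ha, ← hν b hb, h]
  · intro x y _ _ φ hφ
    show ((ν φ.1).1, (ν φ.2.1).1, (ν φ.2.2).1) ∈ _ ∨ Fn D _ _ (ν φ.1).1 (ν φ.2.1).1 (ν φ.2.2).1
    rcases List.mem_append.1 hφ with hφ | hφ
    · obtain ⟨h1, h2, h3⟩ := PG7_base_mem hφ
      rw [hν _ h1, hν _ h2, hν _ h3]
      exact Or.inl hφ
    · obtain ⟨h1, h2, h3, -⟩ := sig_wf.ext φ hφ
      obtain ⟨s1, s2, s3, h, θ, p, H⟩ := mem_extra.1 hφ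
      rw [hν _ h1, hν _ h2, hν _ h3]
      exact Or.inr ⟨h, θ, p, H, H.ty s1 s2 s3 (hG2 x) (hG2 y)⟩
  · intro i _ z _ p hp
    obtain ⟨h1, h2, -⟩ := sig_wf.mem i p hp
    obtain ⟨h, s1, s2, m, d, H⟩ := mem_gl.1 hp
    refine ⟨h, ?_⟩
    rw [hν _ h1, hν _ h2]
    exact ⟨m, d, H, (H.small (hS h) s1 s2).trans (Nat.succ_le_succ (hG2 z))⟩
  · rintro i _ z _ a a' b b' ⟨h, m, d, ha, -⟩ ⟨_, m', d', hb, -⟩
    rw [Subtype.ext_iff, Subtype.ext_iff]
    exact ha.bij (hS h) hb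
  · rintro i _ w z y _ hzy hy a a' b b' c ⟨h, ha⟩ ⟨_, hb⟩ (hR | hR)
    · have h1 := PG7_base_kind hR
      have h2 := (PG7_mp (hS h) le_rfl hb).1
      omega
    · obtain ⟨c', h1, h2⟩ := Mp.fwd (gy := G y) hs (hS h) (hG z) (hG3 z y hzy) ha hb hR
      exact ⟨⟨c', (PG7_mp (hS h) (hGN z (hzy.trans hy)) h2).2.2.2⟩, Or.inr h1, h, h2⟩
  · rintro i _ w z y _ hzy hy a a' b b' c' ⟨h, ha⟩ ⟨_, hb⟩ (hR | hR)
    · have h1 := PG7_base_kind hR
      have h2 := (PG7_mp (hS h) le_rfl hb).2.1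
      omega
    · obtain ⟨c, hc⟩ := Mp.bwd (gx := G w) hs (hS h) ha hb hR
      obtain ⟨c'', h1, h2⟩ := Mp.fwd (gy := G y) hs (hS h) (hG z) (hG3 z y hzy) ha hb hc
      have e : c'' = c'.1 := hfn h1 hR
      subst e
      exact ⟨⟨c, (PG7_mp (hS h) (hGN z (hzy.trans hy)) h2).2.2.1⟩, Or.inr hc, h, h2⟩
  · refine ⟨?_, ?_⟩
    · refine (hr _ _ (ν nx).2 (ν ny).2).2 ?_
      rw [hν _ hnx, hν _ hny]
      simp [Lt, nx, ny]
    · intro a ha
      show r (ν ny).1 ≤ r a.1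
      rcases lt_total (ν ny).1 a.1 with h | h | h
      · exact ((hr _ _ (ν ny).2 a.2).2 h).le
      · rw [h]
      · exfalso
        apply ha
        apply Subtype.ext
        rw [hν _ hnx]
        rw [hν _ hny] at h
        obtain ⟨⟨a1, a2, a3, a4⟩, _⟩ := a
        simp only [Lt, ny] at h
        simp only [nx, Prod.mk.injEq]
        omega
  · rintro i _ z _ a a' b b' ⟨h, m, d, ha, -⟩ ⟨_, m', d', hb, -⟩ hl
    exact (hr _ _ a'.2 b'.2).2 (ha.mono (hS h) hb ((hr _ _ a.2 b.2).1 hl))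
  · rintro i _ z _ a a' ⟨h, ha⟩
    obtain ⟨k1, k2, -⟩ := PG7_mp (hS h) le_rfl ha
    refine ⟨?_, ?_, ?_, ?_⟩
    · intro e
      rw [e, hν _ hnx] at k1
      exact absurd k1 (by decide)
    · intro e
      rw [e, hν _ hny] at k1
      exact absurd k1 (by decide)
    · intro e
      rw [e, hν _ hnx] at k2
      exact absurd k2 (by decide)
    · intro e
      rw [e, hν _ hny] at k2
      exact absurd k2 (by decide)
  · rintro i _ z _ a ha b hb ⟨h, hm⟩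
    rw [hν _ ha, hν _ hb] at hm
    obtain ⟨k1, k2, -⟩ := PG7_mp (hS h) le_rfl hm
    obtain ⟨m, d, H, -⟩ := hm
    exact mem_gl.2 ⟨h, ((PG7_name ha).resolve_left (by omega)).2,
      ((PG7_name hb).resolve_left (by omega)).2, m, d, H⟩

end Pool.Agent.P.MP_48d4bc_co.EX.PI
end

-- part Pool.Agent.P.MP_48d4bc_co.PG8
section

set_option autoImplicit false

/-! The graph of a grid is primitive recursive. -/

namespace Pool.Agent.P.MP_48d4bc_co.EX.PI

open Set Function Pool.Agent.Lib.PrimrecProp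

section

variable {α : Type} [Primcodable α] {D : α → Dat}

@[fun_prop] theorem PG8_mod {f g : α → ℕ} (hf : Primrec f) (hg : Primrec g) :
    Primrec fun a => f a % g a := Primrec.nat_mod.comp hf hg

@[fun_prop] theorem PG8_sz (hD : Primrec D) : Primrec fun a => sz (D a) := by
  unfold sz
  fun_prop

@[fun_prop] theorem PG8_dl {x y : α → ℕ} (hD : Primrec D) (hx : Primrec x) (hy : Primrec y) :
    Primrec fun a => dl (D a) (x a) (y a) := by
  unfold dl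
  fun_prop

@[fun_prop] theorem PG8_b1 {x : α → ℕ} (hD : Primrec D) (hx : Primrec x) :
    Primrec fun a => b1 (D a) (x a) := by
  unfold b1
  fun_prop

@[fun_prop] theorem PG8_b2 {x : α → ℕ} (hD : Primrec D) (hx : Primrec x) :
    Primrec fun a => b2 (D a) (x a) := by
  unfold b2
  fun_prop

@[fun_prop] theorem PG8_mk {x : α → ℕ} (hD : Primrec D) (hx : Primrec x) :
    Primrec fun a => mk (D a) (x a) := by
  unfold mk
  fun_prop

@[fun_prop] theorem PG8_seed {x : α → ℕ} (hD : Primrec D) (hx : Primrec x) :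
    Primrec fun a => seed (D a) (x a) := by
  unfold seed
  fun_prop

@[fun_prop] theorem PG8_rg {z e k i : α → ℕ} (hz : Primrec z) (he : Primrec e) (hk : Primrec k)
    (hi : Primrec i) : Primrec fun a => rg (z a) (e a) (k a) (i a) := by
  unfold rg
  fun_prop

@[fun_prop] theorem PG8_cl {z e i j x : α → ℕ} (hz : Primrec z) (he : Primrec e) (hi : Primrec i)
    (hj : Primrec j) (hx : Primrec x) : Primrec fun a => cl (z a) (e a) (i a) (j a) (x a) := by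
  unfold cl
  fun_prop

@[fun_prop] theorem PG8_X2 {e i j : α → ℕ} (hD : Primrec D) (he : Primrec e) (hi : Primrec i)
    (hj : Primrec j) : Primrec fun a => X2 (D a) (e a) (i a) (j a) := by
  unfold X2 R2
  fun_prop

@[fun_prop] theorem PG8_t2 {z e i j : α → ℕ} (hD : Primrec D) (hz : Primrec z) (he : Primrec e)
    (hi : Primrec i) (hj : Primrec j) : Primrec fun a => t2 (D a) (z a) (e a) (i a) (j a) := by
  unfold t2
  fun_prop

@[fun_prop] theorem PG8_restOf (hD : Primrec D) : Primrec fun a => restOf (D a) := by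
  unfold restOf
  exact p_append (p_const _) (p_pairs (p_const _) (p_pairs (p_const _) (p_pairs (p_const _)
    (p_range (PG8_sz hD)))))

@[fun_prop] theorem PG8_ft {x y z : α → Nm} (hx : Primrec x) (hy : Primrec y) (hz : Primrec z) :
    Primrec fun a => ((x a, y a, z a) : Ft) := p_pair hx (p_pair hy hz)

theorem PG8_cnd {z e i j x y : α → ℕ} (hD : Primrec D) (hz : Primrec z)
    (he : Primrec e) (hi : Primrec i) (hj : Primrec j) (hx : Primrec x) (hy : Primrec y) :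
    Primrec fun a => cnd (D a) (z a) (e a) (i a) (j a) (x a) (y a) := by
  unfold cnd
  refine p_append (p_append (p_append (p_append
    (p_cond (p_leb hj hi) (p_cons (PG8_ft ?_ ?_ ?_) (p_const _)) (p_const _))
    (p_cond (p_leb hi hj) (p_cons (PG8_ft ?_ ?_ ?_) (p_const _)) (p_const _)))
    (p_cons (PG8_ft ?_ ?_ ?_) (p_cons (PG8_ft ?_ ?_ ?_) (p_cons (PG8_ft ?_ ?_ ?_)
      (p_cons (PG8_ft ?_ ?_ ?_) (p_cons (PG8_ft ?_ ?_ ?_) (p_const _)))))))
    (p_cond (PG8_mk hD hx) (p_const _) (p_cons (PG8_ft ?_ ?_ ?_) (p_const _))))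
    (p_cond (p_leb hj hi) (p_cons (PG8_ft ?_ ?_ ?_) (p_cons (PG8_ft ?_ ?_ ?_) (p_const _)))
      (p_const _)) <;> fun_prop

theorem PG8_extraOf (hD : Primrec D) : Primrec fun a => extraOf (D a) := by
  unfold extraOf
  refine p_append (p_const _) (p_flatMap (p_pairs (p_const _)
    (p_pairs (p_range (PG8_sz hD)) (p_range (PG8_sz hD)))) (p_filter ?_ ?_))
  · exact PG8_cnd (hD.comp Primrec.fst) (by fun_prop) (by fun_prop) (by fun_prop) (by fun_prop)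
      (by fun_prop) (by fun_prop)
  · have h := PG8_restOf (hD.comp (Primrec.fst.comp (Primrec.fst (α := α ×
      ((ℕ × ℕ) × ℕ × ℕ) × ℕ × ℕ) (β := Ft))))
    exact p_and (p_and (p_memb (by fun_prop) h) (p_memb (by fun_prop) h)) (p_memb (by fun_prop) h)

theorem PG8_glueOf {θ : α → Th} {c : α → List (Nm × Nm) × ℕ × List (ℕ × ℕ)} (hD : Primrec D)
    (hθ : Primrec θ) (hc : Primrec c) : Primrec fun a => glueOf (D a) (θ a) (c a) := by
  unfold glueOf
  refine p_append (p_append (p_fst hc) (p_cons (p_pair ?_ ?_) (p_cons (p_pair ?_ ?_) (p_const _))))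
    (p_flatMap (p_snd (p_snd hc)) (p_cond ?_ (p_map ?_ (p_pair ?_ ?_))
      (p_cons (p_pair ?_ ?_) (p_const _)))) <;> fun_prop

@[fun_prop] theorem PG8_baseOf {l : α → List Nm} (hl : Primrec l) :
    Primrec fun a => baseOf (l a) := by
  unfold baseOf
  fun_prop

@[fun_prop] theorem PG8_back {g : α → List (Nm × Nm)} {x : α → Nm} (hg : Primrec g)
    (hx : Primrec x) : Primrec fun a => back (g a) (x a) := by
  unfold back
  fun_prop

@[fun_prop] theorem PG8_nv {i : α → ℕ} {r : α → Bool × Nm} (hi : Primrec i) (hr : Primrec r) :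
    Primrec fun a => nv (i a) (r a) := by
  unfold nv
  fun_prop

theorem PG8_glue (hD : Primrec D) : Primrec fun a => (sig (D a)).glue :=
  p_map (g := fun a (z : Th × _) => glueOf (D a) z.1 z.2) (p_const (ths.map fun θ => (θ, con θ)))
    (PG8_glueOf (hD.comp Primrec.fst) (p_fst (p_snd p_id)) (p_snd (p_snd p_id)))

theorem PG8_facts (hD : Primrec D) : Primrec fun a => (sig (D a)).facts :=
  p_append (PG8_baseOf (PG8_restOf hD)) (PG8_extraOf hD)

theorem PG8_vtx {i : α → ℕ} {s : α → Bool} {x : α → Nm}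
    (hD : Primrec D) (hi : Primrec i) (hs : Primrec s) (hx : Primrec x) :
    Primrec fun a => (sig (D a)).vtx (i a) (s a) (x a) := by
  unfold Sig.vtx Sig.gl
  exact PG8_nv hi (p_cond hs (PG8_back (p_getD _ (PG8_glue hD) hi) hx) (p_pair (p_const _) hx))

theorem PG8_gad {i j : α → ℕ} {s : α → Bool} {x : α → Ft}
    (hD : Primrec D) (hi : Primrec i) (hs : Primrec s) (hx : Primrec x) (hj : Primrec j) :
    Primrec fun a => (sig (D a)).gad (i a) (s a) (x a) (j a) := by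
  have h1 := PG8_vtx hD hi hs (x := fun a => (x a).1) (by fun_prop)
  have h2 := PG8_vtx hD hi hs (x := fun a => (x a).2.1) (by fun_prop)
  have h3 := PG8_vtx hD hi hs (x := fun a => (x a).2.2) (by fun_prop)
  unfold Sig.gad
  exact p_cond (by fun_prop) h1 (p_cond (by fun_prop) h2 (p_cond (by fun_prop) h3 (by fun_prop)))

end

theorem PG8_edges : Primrec fun D : Dat => (sig D).edges := by
  unfold Sig.edges
  refine p_flatMap (p_pairs (p_range (p_length (PG8_glue p_id))) (p_const _)) ?_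
  refine p_cons (p_pair ?_ ?_) (p_map (p_pairs (PG8_facts (p_fst p_id)) (p_const _)) (p_pair ?_ ?_))
  · exact PG8_vtx (p_fst p_id) (by fun_prop) (by fun_prop) (p_const _)
  · exact PG8_vtx (p_fst p_id) (by fun_prop) (by fun_prop) (p_const _)
  · exact PG8_gad (p_fst (p_fst p_id)) (by fun_prop) (by fun_prop) (by fun_prop) (by fun_prop)
  · exact PG8_gad (p_fst (p_fst p_id)) (by fun_prop) (by fun_prop) (by fun_prop) (by fun_prop)

theorem PG8_cd : Primrec fun D : Dat => (sig D).code := by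
  unfold Sig.code
  exact p_map PG8_edges (p_pair (Primrec.encode.comp (p_fst (p_snd p_id)))
    (Primrec.encode.comp (p_snd (p_snd p_id))))

theorem prim_code : Primrec fun D : Dat => ((sig D).size, (sig D).code) := by
  refine p_pair ?_ PG8_cd
  unfold Sig.size
  exact p_foldr PG8_cd (p_const _) (by fun_prop)

end Pool.Agent.P.MP_48d4bc_co.EX.PI
end

-- part Pool.Agent.P.MP_48d4bc_co.EXKer
section

set_option autoImplicit false

/-! The operation of a graph without the forbidden subgraph. -/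

namespace Pool.Agent.P.MP_48d4bc_co.EX

open Set Function Pool.Agent.Lib.PrimrecProp

universe u

theorem EXKer_uniq {W : Type u} {H : SimpleGraph W} (h : GG.Free H)
    (ψ ψ' : Fin 8 → Gam.Copy H) (u v w w' : W)
    (h1 : ∀ m, ψ m 0 = u ∧ ψ m 1 = v ∧ ψ m 2 = w)
    (h2 : ∀ (m m' : Fin 8) (a b : Fin 9), 3 ≤ a.1 → 3 ≤ b.1 → ψ m a = ψ m' b → m = m')
    (h1' : ∀ m, ψ' m 0 = u ∧ ψ' m 1 = v ∧ ψ' m 2 = w')
    (h2' : ∀ (m m' : Fin 8) (a b : Fin 9), 3 ≤ a.1 → 3 ≤ b.1 → ψ' m a = ψ' m' b → m = m') :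
    w = w' := by
  classical
  by_contra hne
  have hm : ∃ m : Fin 8, ∀ a : Fin 9, 3 ≤ a.1 → ψ m a ≠ w' := by
    by_contra hc
    push Not at hc
    obtain ⟨a, ha, e⟩ := hc 0
    obtain ⟨b, hb, e'⟩ := hc 1
    have := h2 0 1 a b ha hb (e.trans e'.symm)
    exact absurd this (by decide)
  obtain ⟨m, hm⟩ := hm
  have key : ∀ m' : Fin 8, ∃ a b : Fin 9, 2 ≤ a.1 ∧ 3 ≤ b.1 ∧ ψ m a = ψ' m' b := by
    intro m'
    obtain ⟨a, b, ha, hb, e⟩ := gg_free.1 h (ψ m) (ψ' m')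
      ((h1 m).1.trans (h1' m').1.symm) ((h1 m).2.1.trans (h1' m').2.1.symm)
    refine ⟨a, b, ha, ?_, e⟩
    by_contra hb3
    have hb2 : b = 2 := Fin.ext (by simp; omega)
    rw [hb2, (h1' m').2.2] at e
    by_cases ha3 : 3 ≤ a.1
    · exact hm a ha3 e
    · have ha2 : a = 2 := Fin.ext (by simp; omega)
      rw [ha2, (h1 m).2.2] at e
      exact hne e
  choose a b ha hb e using key
  have hinj : Injective (fun m' : Fin 8 => (⟨(a m').1 - 2, by have := (a m').2; omega⟩ : Fin 7)) := by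
    intro x y hxy
    have hxy' : (a x).1 - 2 = (a y).1 - 2 := congrArg Fin.val hxy
    have hax := ha x
    have hay := ha y
    have : a x = a y := Fin.ext (by omega)
    exact h2' x y (b x) (b y) (hb x) (hb y) ((e x).symm.trans (this ▸ e y))
  have := Fintype.card_le_of_injective _ hinj
  simp at this

theorem exists_op {W : Type u} {H : SimpleGraph W} (h : GG.Free H) :
    ∃ f : W → W → Option W, ∀ (ψ : Fin 8 → Gam.Copy H) (u v w : W),
      (∀ m, ψ m 0 = u ∧ ψ m 1 = v ∧ ψ m 2 = w) →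
      (∀ (m m' : Fin 8) (a b : Fin 9), 3 ≤ a.1 → 3 ≤ b.1 → ψ m a = ψ m' b → m = m') →
      f u v = some w := by
  classical
  let P : W → W → W → Prop := fun u v w => ∃ ψ : Fin 8 → Gam.Copy H,
    (∀ m, ψ m 0 = u ∧ ψ m 1 = v ∧ ψ m 2 = w) ∧
    (∀ (m m' : Fin 8) (a b : Fin 9), 3 ≤ a.1 → 3 ≤ b.1 → ψ m a = ψ m' b → m = m')
  refine ⟨fun u v => if hw : ∃ w, P u v w then some hw.choose else none, ?_⟩
  intro ψ u v w h1 h2
  have hw : ∃ w, P u v w := ⟨w, ψ, h1, h2⟩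
  obtain ⟨ψ', h1', h2'⟩ := hw.choose_spec
  simp only [dif_pos hw]
  rw [EXKer_uniq h ψ ψ' u v w _ h1 h2 h1' h2']

end Pool.Agent.P.MP_48d4bc_co.EX
end

-- part Pool.Agent.P.MP_48d4bc_co.EXUn1
section

set_option autoImplicit false

/-! Every copy satisfies the facts. -/

namespace Pool.Agent.P.MP_48d4bc_co.EX

open Set Function Pool.Agent.Lib.PrimrecProp

universe u

theorem EXUn1_th_lt {m : Fin 8} {a : Fin 9} : th m.1 a.1 < 51 := by
  have h1 := m.2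
  have h2 := a.2
  rcases Nat.lt_or_ge a.1 3 with h | h
  · rw [th_root _ (by omega)]; omega
  · rw [th_int _ h]; omega

theorem EXUn1_fact {S : Sig} (h : S.WF) {W : Type u} {H : SimpleGraph W} {f : W → W → Option W}
    (hf : ∀ (ψ : Fin 8 → Gam.Copy H) (u v w : W),
      (∀ m, ψ m 0 = u ∧ ψ m 1 = v ∧ ψ m 2 = w) →
      (∀ (m m' : Fin 8) (a b : Fin 9), 3 ≤ a.1 → 3 ≤ b.1 → ψ m a = ψ m' b → m = m') →
      f u v = some w) {φ : Vx → W} (hi : InjOn φ S.Valid)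
    (he : ∀ e ∈ S.edges, H.Adj (φ e.1) (φ e.2)) {i : ℕ} (hl : i < S.glue.length) (s : Bool)
    {p : Ft} (hp : p ∈ S.facts) :
    f (φ (S.vtx i s p.1)) (φ (S.vtx i s p.2.1)) = some (φ (S.vtx i s p.2.2)) := by
  have inj : ∀ (m m' : Fin 8) (a b : Fin 9), φ (S.gad i s p (th m.1 a.1)) =
      φ (S.gad i s p (th m'.1 b.1)) → a.1 = b.1 ∧ (a.1 ≤ 2 ∨ m.1 = m'.1) := fun m m' a b e =>
    th_inj a.2 b.2 (h.gad_inj hp (hi (Sig.gad_valid hl s hp EXUn1_th_lt)
      (Sig.gad_valid hl s hp EXUn1_th_lt) e))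
  have adj : ∀ (m : Fin 8) (a b : Fin 9), (a.1, b.1) ∈ gamE →
      H.Adj (φ (S.gad i s p (th m.1 a.1))) (φ (S.gad i s p (th m.1 b.1))) := fun m a b e =>
    he _ (Sig.mem_edges.2 ⟨i, hl, s, Or.inr ⟨p, hp, m.1, m.2, _, e, rfl⟩⟩)
  refine hf (fun m => ⟨⟨fun a => φ (S.gad i s p (th m.1 a.1)), fun {a b} e => ?_⟩,
    fun a b e => Fin.ext (inj m m a b e).1⟩) _ _ _ (fun m => ⟨rfl, rfl, rfl⟩)
    fun m m' a b ha _ e => ?_
  · rcases gam_adj.1 e with e | e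
    · exact adj m a b e
    · exact (adj m b a e).symm
  · exact Fin.ext ((inj m m' a b e).2.resolve_left (by omega))

theorem EXUn1_chain {S : Sig} {W : Type u} {f : W → W → Option W} {g : Nm → W}
    (hf : ∀ p ∈ S.facts, f (g p.1) (g p.2.1) = some (g p.2.2)) (n : ℕ)
    (hn : n < (m3 :: S.rest).length) :
    (chainTm n).ev f (g nx) (g ny) = some (g ((m3 :: S.rest).getD n nx)) := by
  induction n with
  | zero =>
    have h1 := hf (ny, nx, m2) (by simp [Sig.facts, baseOf])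
    have h2 := hf (ny, m2, m3) (by simp [Sig.facts, baseOf])
    dsimp only at h1 h2
    simp [chainTm, Tm.ev, h1, h2]
  | succ n ih =>
    have hn' : n < S.rest.length := by simpa using hn
    have h1 := hf ((m3 :: S.rest).getD n nx, ny, S.rest.getD n nx) (by
      unfold Sig.facts baseOf
      exact List.mem_append_left _ (List.mem_cons_of_mem _ (List.mem_cons_of_mem _
        (List.mem_cons_of_mem _ (List.mem_cons_of_mem _
          (List.mem_map.2 ⟨n, List.mem_range.2 hn', rfl⟩))))))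
    dsimp only at h1
    rw [chainTm, Tm.ev, ih (by omega), Tm.ev, Option.bind_some, Option.bind_some, h1,
      List.getD_cons_succ]

theorem EXUn1_tm {S : Sig} {W : Type u} {f : W → W → Option W} {g : Nm → W}
    (hf : ∀ p ∈ S.facts, f (g p.1) (g p.2.1) = some (g p.2.2)) {a : Nm} (ha : a ∈ S.names) :
    (S.tm a).ev f (g nx) (g ny) = some (g a) := by
  unfold Sig.tm
  split_ifs with h1 h2 h3 h4
  · rw [h1]; rfl
  · rw [h2]; rfl
  · have e := hf (nx, ny, m1) (by simp [Sig.facts, baseOf])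
    dsimp only at e
    rw [h3]
    simp [Tm.ev, e]
  · have e := hf (ny, nx, m2) (by simp [Sig.facts, baseOf])
    dsimp only at e
    rw [h4]
    simp [Tm.ev, e]
  · have hm : a ∈ m3 :: S.rest := by
      unfold Sig.names namesOf at ha
      exact (List.mem_cons.1 ((List.mem_cons.1 ((List.mem_cons.1 ((List.mem_cons.1
        ha).resolve_left h1)).resolve_left h2)).resolve_left h3)).resolve_left h4
    have hl := List.idxOf_lt_length_iff.2 hm
    rw [EXUn1_chain hf _ hl, List.getD_eq_getElem _ _ hl, List.getElem_idxOf]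

/-- in a graph without the forbidden subgraph all copies satisfy all facts -/
theorem Sig.WF.facts_hold {S : Sig} (h : S.WF) {W : Type u} {H : SimpleGraph W}
    (hH : GG.Free H) : ∃ f : W → W → Option W, ∀ φ : Vx → W, InjOn φ S.Valid →
      (∀ e ∈ S.edges, H.Adj (φ e.1) (φ e.2)) → ∀ i < S.glue.length, ∀ s,
        (∀ p ∈ S.facts,
          f (φ (S.vtx i s p.1)) (φ (S.vtx i s p.2.1)) = some (φ (S.vtx i s p.2.2))) ∧
        ∀ a ∈ S.names,
          (S.tm a).ev f (S.ge φ i s).1 (S.ge φ i s).2 = some (φ (S.vtx i s a)) := by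
  obtain ⟨f, hf⟩ := exists_op hH
  refine ⟨f, fun φ hi he i hl s => ?_⟩
  have h1 : ∀ p ∈ S.facts,
      f (φ (S.vtx i s p.1)) (φ (S.vtx i s p.2.1)) = some (φ (S.vtx i s p.2.2)) :=
    fun p hp => EXUn1_fact h hf hi he hl s hp
  exact ⟨h1, fun a ha => EXUn1_tm (g := fun a => φ (S.vtx i s a)) h1 ha⟩

end Pool.Agent.P.MP_48d4bc_co.EX
end

-- part Pool.Agent.P.MP_48d4bc_co.EXUn2
section

set_option autoImplicit false

/-! Stages from property (1), and the limit model. -/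

namespace Pool.Agent.P.MP_48d4bc_co.EX

open Set Function Pool.Agent.Lib.PrimrecProp

universe u

/-- the equations between terms of a set that hold over an ordered pair -/
def EXUn2_ty {W : Type u} (f : W → W → Option W) (T : Set Tm) (u v : W) : Set (T × T) :=
  {p | Same f (u, v) (u, v) p.1.1 p.2.1}

theorem EXUn2_marks (S : Sig) : (nx, ny, m1) ∈ S.facts ∧ (ny, nx, m2) ∈ S.facts ∧
    (nx, m1, m2) ∈ S.facts ∧ (ny, m2, m3) ∈ S.facts := by
  simp [Sig.facts, baseOf]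

theorem Sig.WF.stage {S : Sig} (h : S.WF) (h1 : Sig.P1.{u} S) (𝒯 : Set Tm) (hT : 𝒯.Finite) :
    Nonempty (Stage.{u} S 𝒯) := by
  let tA : Tm := .f .x (.f .x .y)
  let tB : Tm := .f .y .x
  let T : Set Tm := insert tA (insert tB 𝒯)
  have hfin : Finite T := ((hT.insert tB).insert tA).to_subtype
  have hne : Nonempty (Sym2 (Set (T × T))) := ⟨s(∅, ∅)⟩
  obtain ⟨W, H, hH, hc⟩ := h1 (Sym2 (Set (T × T)))
  obtain ⟨f, hf⟩ := h.facts_hold hH
  obtain ⟨φ, k, hinj, he⟩ := hc (Sym2.lift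
    ⟨fun u v => s(EXUn2_ty f T u v, EXUn2_ty f T v u), fun _ _ => Sym2.eq_swap⟩)
  have hφ := hf φ hinj fun e h => (he e h).1
  obtain ⟨a1, a2, a3, a4⟩ := EXUn2_marks S
  have hk : ∀ i < S.glue.length, ∀ s,
      s(EXUn2_ty f T (φ (S.vtx i s nx)) (φ (S.vtx i s ny)),
        EXUn2_ty f T (φ (S.vtx i s ny)) (φ (S.vtx i s nx))) = k := fun i hi s =>
    (he _ (Sig.mem_edges.2 ⟨i, hi, s, Or.inl rfl⟩)).2
  refine ⟨⟨W, f, φ, hinj, fun i hi s => (hφ i hi s).1, fun i hi s => (hφ i hi s).2, ?_⟩⟩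
  intro i hi s i' hi' s' t ht t' ht' hs
  rcases Sym2.eq_iff.1 ((hk i hi s).trans (hk i' hi' s').symm) with ⟨e, -⟩ | ⟨e, -⟩
  · have h2 : ((⟨t, Or.inr (Or.inr ht)⟩, ⟨t', Or.inr (Or.inr ht')⟩) : T × T) ∈
        EXUn2_ty f T (φ (S.vtx i s nx)) (φ (S.vtx i s ny)) := hs
    rw [e] at h2
    exact h2
  · exfalso
    have h2 : ((⟨tA, Or.inl rfl⟩, ⟨tB, Or.inr (Or.inl rfl)⟩) : T × T) ∈
        EXUn2_ty f T (φ (S.vtx i s nx)) (φ (S.vtx i s ny)) := by
      have b1 := (hφ i hi s).1 _ a1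
      have b2 := (hφ i hi s).1 _ a2
      have b3 := (hφ i hi s).1 _ a3
      refine ⟨φ (S.vtx i s m2), ?_, ?_⟩
      · simp only [tA, Tm.ev, Option.bind_some] at b1 b3 ⊢
        rw [b1, Option.bind_some, b3]
      · simp only [tB, Tm.ev, Option.bind_some] at b2 ⊢
        exact b2
    rw [e] at h2
    obtain ⟨w, w1, w2⟩ := h2
    have b1 := (hφ i' hi' s').1 _ a1
    have b2 := (hφ i' hi' s').1 _ a2
    have b4 := (hφ i' hi' s').1 _ a4
    simp only [tA, tB, Tm.ev, Option.bind_some] at w1 w2 b1 b2 b4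
    rw [b2, Option.bind_some, b4] at w1
    rw [b1, ← w1, Option.some_inj] at w2
    have h3 := hinj (Sig.vtx_valid hi' s' (by simp [Sig.names, namesOf]))
      (Sig.vtx_valid hi' s' (by simp [Sig.names, namesOf])) w2
    rcases (h.vtx_eq.1 h3).2 with ⟨-, h4⟩ | ⟨h4, h5, -⟩ | ⟨h4, h5, -⟩
    · simp [m1, m3] at h4
    · rw [h4] at h5
      exact Bool.noConfusion h5
    · rw [h4] at h5
      exact Bool.noConfusion h5

end Pool.Agent.P.MP_48d4bc_co.EX
end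

-- part Pool.Agent.P.MP_48d4bc_co.PR1
section

set_option autoImplicit false

/-! Colourings of ordered pairs are constant on the glue edges; three colours for a map. -/

namespace Pool.Agent.P.MP_48d4bc_co.EX.PI

open Set Function Pool.Agent.Lib.PrimrecProp

universe u

theorem mono_edges {S : Sig} (h : S.WF) (h1 : Sig.P1.{u} S) (κ : Type) [Finite κ] [Nonempty κ] :
    ∃ (W : Type u) (f : W → W → Option W), ∀ χ : W → W → κ, ∃ φ : Vx → W, InjOn φ S.Valid ∧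
      (∀ i < S.glue.length, ∀ s, (∀ p ∈ S.facts,
        f (φ (S.vtx i s p.1)) (φ (S.vtx i s p.2.1)) = some (φ (S.vtx i s p.2.2))) ∧
        ∀ a ∈ S.names, (S.tm a).ev f (S.ge φ i s).1 (S.ge φ i s).2 = some (φ (S.vtx i s a))) ∧
      ∀ i < S.glue.length, ∀ s, ∀ i' < S.glue.length, ∀ s',
        χ (S.ge φ i s).1 (S.ge φ i s).2 = χ (S.ge φ i' s').1 (S.ge φ i' s').2 := by
  let tA : Tm := .f .x (.f .x .y)
  let tB : Tm := .f .y .x
  have hne : Nonempty (Sym2 (κ × Prop)) :=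
    ⟨s((Classical.arbitrary κ, True), (Classical.arbitrary κ, True))⟩
  obtain ⟨W, H, hH, hc⟩ := h1 (Sym2 (κ × Prop))
  obtain ⟨f, hf⟩ := h.facts_hold hH
  refine ⟨W, f, fun χ => ?_⟩
  let χ' : W → W → κ × Prop := fun u v => (χ u v, Same f (u, v) (u, v) tA tB)
  obtain ⟨φ, k, hinj, he⟩ := hc (Sym2.lift
    ⟨fun u v => s(χ' u v, χ' v u), fun _ _ => Sym2.eq_swap⟩)
  have hφ := hf φ hinj fun e h => (he e h).1
  obtain ⟨a1, a2, a3, a4⟩ := EXUn2_marks S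
  have hk : ∀ i < S.glue.length, ∀ s,
      s(χ' (φ (S.vtx i s nx)) (φ (S.vtx i s ny)), χ' (φ (S.vtx i s ny)) (φ (S.vtx i s nx))) = k :=
    fun i hi s => (he _ (Sig.mem_edges.2 ⟨i, hi, s, Or.inl rfl⟩)).2
  refine ⟨φ, hinj, hφ, fun i hi s i' hi' s' => ?_⟩
  rcases Sym2.eq_iff.1 ((hk i hi s).trans (hk i' hi' s').symm) with ⟨e, -⟩ | ⟨e, -⟩
  · exact congrArg Prod.fst e
  · exfalso
    have h2 : (χ' (φ (S.vtx i s nx)) (φ (S.vtx i s ny))).2 := by
      have b1 := (hφ i hi s).1 _ a1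
      have b2 := (hφ i hi s).1 _ a2
      have b3 := (hφ i hi s).1 _ a3
      refine ⟨φ (S.vtx i s m2), ?_, ?_⟩
      · simp only [tA, Tm.ev, Option.bind_some] at b1 b3 ⊢
        rw [b1, Option.bind_some, b3]
      · simp only [tB, Tm.ev, Option.bind_some] at b2 ⊢
        exact b2
    rw [e] at h2
    obtain ⟨w, w1, w2⟩ := h2
    have b1 := (hφ i' hi' s').1 _ a1
    have b2 := (hφ i' hi' s').1 _ a2
    have b4 := (hφ i' hi' s').1 _ a4
    simp only [tA, tB, Tm.ev, Option.bind_some] at w1 w2 b1 b2 b4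
    rw [b2, Option.bind_some, b4] at w1
    rw [b1, ← w1, Option.some_inj] at w2
    have h3 := hinj (Sig.vtx_valid hi' s' (by simp [Sig.names, namesOf]))
      (Sig.vtx_valid hi' s' (by simp [Sig.names, namesOf])) w2
    rcases (h.vtx_eq.1 h3).2 with ⟨-, h4⟩ | ⟨h4, h5, -⟩ | ⟨h4, h5, -⟩
    · simp [m1, m3] at h4
    · rw [h4] at h5
      exact Bool.noConfusion h5
    · rw [h4] at h5
      exact Bool.noConfusion h5

theorem PR1_fin {Y : Type u} (g : Y → Y) (s : Finset Y) :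
    ∃ c : Y → Fin 3, ∀ y ∈ s, g y ≠ y → c (g y) ≠ c y := by
  classical
  induction s using Finset.strongInduction with
  | H s ih =>
    rcases s.eq_empty_or_nonempty with rfl | hs
    · exact ⟨fun _ => 0, by simp⟩
    obtain ⟨z, hz, hc⟩ := Finset.exists_card_fiber_lt_of_card_lt_mul (s := s) (t := s) (f := g)
      (n := 2) (by have := hs.card_pos; omega)
    have hne : Nonempty Y := ⟨z⟩
    obtain ⟨w, hw⟩ := Finset.card_le_one_iff_subset_singleton.1 (Nat.lt_succ_iff.1 hc)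
    obtain ⟨c, hc'⟩ := ih (s.erase z) (Finset.erase_ssubset hz)
    obtain ⟨k, k1, k2⟩ : ∃ k : Fin 3, k ≠ c (g z) ∧ k ≠ c w := by
      generalize c (g z) = a
      generalize c w = b
      revert a b
      decide
    refine ⟨update c z k, fun y hy hg => ?_⟩
    by_cases h1 : y = z
    · subst h1
      rw [update_of_ne hg, update_self]
      exact k1.symm
    · rw [update_of_ne h1]
      by_cases h2 : g y = z
      · have h3 : y = w := Finset.mem_singleton.1 (hw (Finset.mem_filter.2 ⟨hy, h2⟩))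
        rw [h2, update_self, h3]
        exact k2
      · rw [update_of_ne h2]
        exact hc' y (Finset.mem_erase.2 ⟨h1, hy⟩) hg

theorem three_col {Y : Type u} (g : Y → Y) :
    ∃ c : Y → Fin 3, ∀ y, g y ≠ y → c (g y) ≠ c y := by
  classical
  choose c hc using PR1_fin g
  obtain ⟨χ, hχ⟩ := Finset.rado_selection (β := fun _ => Fin 3) c
  refine ⟨χ, fun y hy => ?_⟩
  obtain ⟨t, ht, h⟩ := hχ {y, g y}
  rw [h y (by simp), h (g y) (by simp)]
  exact hc t y (ht (by simp)) hy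

end Pool.Agent.P.MP_48d4bc_co.EX.PI
end

-- part Pool.Agent.P.MP_48d4bc_co.PR2
section

set_option autoImplicit false

/-! Links along a glued pair. -/

namespace Pool.Agent.P.MP_48d4bc_co.EX.PI

open Set Function Pool.Agent.Lib.PrimrecProp

universe u

variable {D : Dat} {θ : Th} {W : Type u} {f : W → W → Option W} {V V' : Nm → Option W}

/-- the hypotheses on a glued pair -/
structure PR2_C (D : Dat) (θ : Th) (f : W → W → Option W) (V V' : Nm → Option W) (t h : ℕ) :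
    Prop where
  hs : Shift D
  hm : ∀ j, mk D (X D 0 j j) = true → j ≤ t
  hθ : Sh θ
  hn : ∀ a a' m d, MF D θ a a' m d → Sm a → Sm a' → Lk V V' a a'
  g : Gd D (4 * t + 8) f V h
  g' : Gd D (4 * t + 8) f V' (h + 4)

variable {t h : ℕ}

theorem PR2_C.step (C : PR2_C D θ f V V' t h) {a b c a' b' c' : Nm} {h₁ h₂ p₁ p₂ : ℕ}
    {θ₁ θ₂ : Th} (F : FF D a b c h₁ θ₁ p₁) (F' : FF D a' b' c' h₂ θ₂ p₂)
    (r : (p₁ ≠ 0 → h₁ < 4 * t + 8) ∧ (p₂ ≠ 0 → h₂ < 4 * t + 8) ∧ h₁ < h ∧ h₂ < h + 4)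
    (ha : Lk V V' a a') (hb : Lk V V' b b') : Lk V V' c c' := by
  obtain ⟨x, y, z, e1, e2, e3, e4⟩ := C.g _ _ _ _ _ _ F r.1 r.2.2.1
  obtain ⟨x', y', z', k1, k2, k3, k4⟩ := C.g' _ _ _ _ _ _ F' r.2.1 r.2.2.2
  obtain ⟨p, p1, p2⟩ := ha
  obtain ⟨q, q1, q2⟩ := hb
  obtain rfl : x = p := Option.some.inj (e1.symm.trans p1)
  obtain rfl : x' = x := Option.some.inj (k1.symm.trans p2)
  obtain rfl : y = q := Option.some.inj (e2.symm.trans q1)
  obtain rfl : y' = y := Option.some.inj (k2.symm.trans q2)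
  exact ⟨z, e3, k3.trans (k4.symm.trans e4)⟩

theorem PR2_C.reg0 (C : PR2_C D θ f V V' t h) {a e kd e' kd' b d : ℕ} (hr : Reg a e kd)
    (H : RM θ a e kd e' kd' b d) : Lk V V' (rg a e kd 0) (rg a e' kd' (0 + 1)) := by
  have h2 := (H.reg C.hθ hr).1
  unfold Reg at hr h2
  exact C.hn _ _ _ _ (MF.re θ a e kd e' kd' b d 0 hr H) ((sm_rg (by omega)).2 (by omega))
    ((sm_rg (by omega)).2 (by omega))

theorem PR2_C.gate (C : PR2_C D θ f V V' t h) {c : ℕ} (hc : Cls θ c) (k : ℕ) :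
    (4 * k + 5 ≤ h + 4 → ∀ kd, 1 ≤ kd → kd ≤ 4 → Lk V V' (rg c 0 kd k) (rg c 1 kd (k + 1))) ∧
    (4 * k + 7 ≤ h + 4 → Lk V V' (tc D c 0 k k) (tc D c 1 (k + 1) (k + 1)) ∧
      Lk V V' (rg c 0 0 k) (rg c 1 0 (k + 1))) := by
  have h4 := hc.lt
  induction k with
  | zero =>
    refine ⟨fun _ kd h1 h2 => C.reg0 (b := 1) (d := 5) ⟨h4, by omega⟩
      (Or.inl ⟨hc, rfl, rfl, rfl, by omega⟩), fun _ => ⟨?_, C.reg0 (b := 2) (d := 7)
        ⟨h4, by omega⟩ (Or.inl ⟨hc, rfl, rfl, rfl, by omega⟩)⟩⟩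
    exact C.hn _ _ _ _ (MF.gc θ c 0 hc) (sm_cl.2 (by omega)) (sm_cl.2 (by omega))
  | succ k ih =>
    have A : 4 * (k + 1) + 5 ≤ h + 4 → ∀ kd, 1 ≤ kd → kd ≤ 4 →
        Lk V V' (rg c 0 kd (k + 1)) (rg c 1 kd (k + 1 + 1)) := by
      intro hk kd h1 h2
      have L := C.step (FF.pl c 0 k h4 (by omega)) (FF.pl c 1 (k + 1) h4 (by omega)) (by omega)
        (ih.1 (by omega) 2 (by omega) (by omega)) (ih.2 (by omega)).2
      by_cases h3 : kd = 2
      · rw [h3]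
        exact L
      · exact C.step (FF.pz c 0 kd k h4 (by omega) (by omega))
          (FF.pz c 1 kd (k + 1) h4 (by omega) (by omega)) (by omega)
          (ih.1 (by omega) kd h1 h2) L
    refine ⟨A, fun hk => ?_⟩
    have T := C.step (FF.qd c 0 k h4 (by omega)) (FF.qd c 1 (k + 1) h4 (by omega)) (by omega)
      (ih.2 (by omega)).1 (ih.1 (by omega) 4 (by omega) (by omega))
    refine ⟨T, ?_⟩
    cases hx : PI.mk D (X D 0 (k + 1) (k + 1))
    · exact C.step (FF.ga c 0 (k + 1) _ h4 (by omega) (X_lt _ _ _ _) hx)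
        (FF.ga c 1 (k + 1 + 1) _ h4 (by omega) (X_lt _ _ _ _) ((C.hs (k + 1)).trans hx))
        (by omega) (A (by omega) 3 (by omega) (by omega)) T
    · have := C.hm _ hx
      exact C.step (FF.ps c 0 2 1 k h4 (by omega)) (FF.ps c 1 0 2 (k + 1) h4 (by omega))
        (by omega) (ih.2 (by omega)).2 (ih.1 (by omega) 1 (by omega) (by omega))

theorem PR2_C.one (C : PR2_C D θ f V V' t h) {a e kd e' kd' b d : ℕ} (hr : Reg a e kd)
    (H : RM θ a e kd e' kd' b d) (hc : Cls θ ((a + 1) % 4)) (k : ℕ) (hk : 4 * k + 3 ≤ h + 4) :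
    Lk V V' (rg a e kd k) (rg a e' kd' (k + 1)) := by
  induction k with
  | zero => exact C.reg0 hr H
  | succ k ih =>
    exact C.step (FF.cr a e kd k 0 hr (by omega))
      (FF.cr a e' kd' (k + 1) 1 (H.reg C.hθ hr).1 (by omega)) (by omega) (ih (by omega))
      ((C.gate hc k).2 (by omega)).2

theorem PR2_C.reg (C : PR2_C D θ f V V' t h) {a e kd e' kd' b d : ℕ} (hr : Reg a e kd)
    (H : RM θ a e kd e' kd' b d) (k : ℕ) (hk : 4 * k + d ≤ h + 4) :
    Lk V V' (rg a e kd k) (rg a e' kd' (k + 1)) := by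
  rcases id H with ⟨hc, rfl, rfl, rfl, h1 | h1⟩ | h1 | h1 | h1 | h1
  · obtain ⟨rfl, -, rfl⟩ := h1
    exact ((C.gate hc k).2 hk).2
  · exact (C.gate hc k).1 (by omega) _ h1.1 h1.2.1
  · obtain rfl : e' = e := h1.2.2.2.2.1
    obtain rfl : kd' = kd := h1.2.2.2.2.2.1
    have h4 : a < 4 := hr.1
    induction k with
    | zero => exact C.reg0 hr H
    | succ k ih =>
      exact C.step (FF.cr a e' kd' k 0 hr (by omega)) (FF.cr a e' kd' (k + 1) 0 hr (by omega))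
        (by omega) (ih (by omega)) (C.one (b := 1) (d := 3) ⟨by omega, by omega⟩
          (Or.inr (Or.inr (Or.inl (by omega)))) (Or.inl (by omega)) k (by omega))
  · exact C.one hr H (Or.inl (by omega)) k (by omega)
  · exact C.one hr H (Or.inr (by omega)) k (by omega)
  · exact C.one hr H (Or.inr (by omega)) k (by omega)

theorem PR2_C.gk {a e g v w : ℕ} (C : PR2_C D (2, a, e, g, v, w) f V V' t h) (ha : a < 4)
    (he : e < 2) {kd kd' : ℕ} (H : GK g v w kd kd') (k : ℕ) (hk : 4 * k + 3 ≤ h + 4) :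
    Lk V V' (rg a e kd k) (rg a e kd' (k + 1)) :=
  C.reg (b := 1) (d := 3) ⟨ha, Or.inl ⟨he, by unfold GK at H; omega⟩⟩
    (Or.inr (Or.inr (Or.inr (Or.inr ⟨rfl, rfl, rfl, rfl, rfl, rfl, H⟩)))) k hk

theorem PR2_C.sc {a e v w x : ℕ} (C : PR2_C D (2, a, e, 0, v, w) f V V' t h) (ha : a < 4)
    (he : e < 2) (hx : x < sz D) (n : ℕ) : ∀ i j, i + j = n → Dm v w i j →
      4 * max i j + 1 ≤ h + 4 → Lk V V' (cl a e i j x) (cl a e (i + v) (j + w) x) := by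
  induction n using Nat.strong_induction_on with
  | _ n ih =>
  intro i j hn hd hk
  by_cases hs : i + v ≤ 2 ∧ j + w ≤ 2
  · exact C.hn _ _ _ _ (MF.sc a e v w i j x ha he hx hd) (sm_cl.2 (by omega)) (sm_cl.2 hs)
  unfold Dm at hd
  rcases lt_trichotomy j i with h1 | rfl | h1
  · obtain ⟨i, rfl⟩ : ∃ i', i = i' + 1 := ⟨i - 1, by omega⟩
    obtain rfl : v = 1 := by omega
    exact C.step (FF.ar a e i j x ha he hx (by omega))
      (FF.ar a e (i + 1) (j + w) x ha he hx (by omega)) (by omega)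
      (ih _ (by omega) i j rfl (by unfold Dm; omega) (by omega))
      (C.gk ha he (by unfold GK; omega) i (by omega))
  · obtain ⟨j, rfl⟩ : ∃ j', j = j' + 1 := ⟨j - 1, by omega⟩
    obtain rfl : v = 1 := by omega
    obtain rfl : w = 1 := by omega
    exact C.step (FF.ad a e j x ha he hx) (FF.ad a e (j + 1) x ha he hx) (by omega)
      (ih _ (by omega) j j rfl (by unfold Dm; omega) (by omega))
      (C.gk ha he (by unfold GK; omega) j (by omega))
  · obtain ⟨j, rfl⟩ : ∃ j', j = j' + 1 := ⟨j - 1, by omega⟩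
    obtain rfl : w = 1 := by omega
    exact C.step (FF.au a e i j x ha he hx (by omega))
      (FF.au a e (i + v) (j + 1) x ha he hx (by omega)) (by omega)
      (ih _ (by omega) i j rfl (by unfold Dm; omega) (by omega))
      (C.gk ha he (by unfold GK; omega) j (by omega))

theorem PR2_ru {a e : ℕ} (ha : a < 4) (he : e < 2) (i j : ℕ) : ∃ θ₀, FF D (tc D a e i (j + 1))
    (tc D a e (i + 1) j) (tc D a e (i + 1) (j + 1)) (4 * max i j + 4) θ₀ 0 := by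
  obtain ⟨v, w, h⟩ : ∃ v w : ℕ, j = 0 ∧ v = 1 ∧ w = 0 ∨ j ≠ 0 ∧ i = 0 ∧ v = 0 ∧ w = 1 ∨
      j ≠ 0 ∧ i ≠ 0 ∧ v = 1 ∧ w = 1 := by
    by_cases h1 : j = 0
    · exact ⟨1, 0, by omega⟩
    by_cases h2 : i = 0
    · exact ⟨0, 1, by omega⟩
    · exact ⟨1, 1, by omega⟩
  unfold tc
  rw [X_ss]
  exact ⟨_, FF.ru a e i j _ _ v w ha he (X_lt _ _ _ _) (X_lt _ _ _ _) h⟩

theorem PR2_r1 {a e : ℕ} (ha : a < 4) (he : e < 2) (i : ℕ) : FF D (tc D a e i 0)
    (rg a e 12 (i + 1)) (tc D a e (i + 1) 0) (4 * i + 4) (2, a, e, 0, 1, 0) 0 := by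
  unfold tc
  rw [X_s0]
  exact FF.r1 a e i _ ha he (X_lt _ _ _ _)

theorem PR2_r2 {a e : ℕ} (ha : a < 4) (he : e < 2) (j : ℕ) : FF D (tc D a e 0 j)
    (rg a e 13 (j + 1)) (tc D a e 0 (j + 1)) (4 * j + 4) (2, a, e, 0, 0, 1) 0 := by
  unfold tc
  rw [X_0s]
  exact FF.r2 a e j _ ha he (X_lt _ _ _ _)

theorem PR2_C.ec {a e v w : ℕ} (C : PR2_C D (2, a, e, 1, v, w) f V V' t h) (ha : a < 4)
    (he : e < 2) (n : ℕ) : ∀ i j, i + j = n → Dm v w i j →
      4 * max i j + 4 + v + w ≤ h + 4 → Lk V V' (tc D a e i j) (tc D a e (i + v) (j + w)) := by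
  induction n using Nat.strong_induction_on with
  | _ n ih =>
  intro i j hn hd hk
  by_cases hs : i + v ≤ 2 ∧ j + w ≤ 2
  · exact C.hn _ _ _ _ (MF.ec a e v w i j ha he hd) (sm_cl.2 (by omega)) (sm_cl.2 hs)
  unfold Dm at hd
  rcases i with _ | i <;> rcases j with _ | j
  · omega
  · obtain rfl : w = 1 := by omega
    rcases (by omega : v = 0 ∨ v = 1) with rfl | rfl
    · exact C.step (PR2_r2 ha he j) (PR2_r2 ha he (j + 1)) (by omega)
        (ih _ (by omega) 0 j rfl (by unfold Dm; omega) (by omega))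
        (C.gk ha he (by unfold GK; omega) (j + 1) (by omega))
    · exact C.step (FF.eu a e 0 j ha he (by omega) (by omega))
        (FF.eu a e 1 (j + 1) ha he (by omega) (by omega)) (by omega)
        (ih _ (by omega) 0 j rfl (by unfold Dm; omega) (by omega))
        (C.gk ha he (by unfold GK; omega) j (by omega))
  · obtain rfl : v = 1 := by omega
    rcases (by omega : w = 0 ∨ w = 1) with rfl | rfl
    · exact C.step (PR2_r1 ha he i) (PR2_r1 ha he (i + 1)) (by omega)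
        (ih _ (by omega) i 0 rfl (by unfold Dm; omega) (by omega))
        (C.gk ha he (by unfold GK; omega) (i + 1) (by omega))
    · exact C.step (FF.er a e i 0 ha he (by omega) (by omega))
        (FF.er a e (i + 1) 1 ha he (by omega) (by omega)) (by omega)
        (ih _ (by omega) i 0 rfl (by unfold Dm; omega) (by omega))
        (C.gk ha he (by unfold GK; omega) i (by omega))
  · obtain ⟨θ₁, F⟩ := PR2_ru (D := D) ha he i j
    obtain ⟨θ₂, F'⟩ := PR2_ru (D := D) ha he (i + v) (j + w)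
    have A := ih _ (by omega) i (j + 1) rfl (by unfold Dm; omega) (by omega)
    have B := ih _ (by omega) (i + 1) j rfl (by unfold Dm; omega) (by omega)
    rw [Nat.add_right_comm j] at A ⊢
    rw [Nat.add_right_comm i] at B ⊢
    exact C.step F F' (by omega) A B

theorem links (hs : Shift D) {t : ℕ} (hm : ∀ j, mk D (X D 0 j j) = true → j ≤ t) (hθ : Sh θ)
    (hn : ∀ a a' m d, MF D θ a a' m d → Sm a → Sm a' → Lk V V' a a') {h : ℕ}
    (g : Gd D (4 * t + 8) f V h) (g' : Gd D (4 * t + 8) f V' (h + 4)) {a a' : Nm} {m d : ℕ}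
    (H : MF D θ a a' m d) (hd : d ≤ h + 4) : Lk V V' a a' := by
  have C : PR2_C D θ f V V' t h := ⟨hs, hm, hθ, hn, g, g'⟩
  cases H with
  | re _ a e kd e' kd' b d k hr H => exact C.reg hr H k hd
  | gc _ a i hc => exact ((C.gate hc _).2 hd).1
  | sc a e v w i j x ha he hx H => exact C.sc ha he hx _ i j rfl H hd
  | ec a e v w i j ha he H => exact C.ec ha he _ i j rfl H hd

end Pool.Agent.P.MP_48d4bc_co.EX.PI
end

-- part Pool.Agent.P.MP_48d4bc_co.PR3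
section

set_option autoImplicit false

/-! Preimages of facts. -/

namespace Pool.Agent.P.MP_48d4bc_co.EX.PI

open Set Function Pool.Agent.Lib.PrimrecProp

variable {D : Dat} {θ : Th}

theorem PR3_re {a e kd e' kd' k k' h : ℕ} (b d : ℕ) (hr : Reg a e kd)
    (hm : RM θ a e kd e' kd' b d) (hk : k' = k + 1) (hd : 4 * k + d ≤ h) :
    ∃ m d, MF D θ (rg a e kd k) (rg a e' kd' k') m d ∧ d ≤ h := by
  subst hk
  exact ⟨_, _, MF.re θ a e kd e' kd' b d k hr hm, hd⟩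

theorem PR3_sc {a e v w i j i' j' x h : ℕ} (ha : a < 4) (he : e < 2) (hx : x < sz D)
    (hm : Dm v w i j ∧ i' = i + v ∧ j' = j + w ∧ 4 * max i j + 1 ≤ h) :
    ∃ m d, MF D (2, a, e, 0, v, w) (cl a e i j x) (cl a e i' j' x) m d ∧ d ≤ h := by
  obtain ⟨h1, rfl, rfl, h2⟩ := hm
  exact ⟨_, _, MF.sc a e v w i j x ha he hx h1, h2⟩

theorem PR3_ec {a e v w i j i' j' h : ℕ} (ha : a < 4) (he : e < 2)
    (hm : Dm v w i j ∧ i' = i + v ∧ j' = j + w ∧ 4 * max i j + 4 + v + w ≤ h) :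
    ∃ m d, MF D (2, a, e, 1, v, w) (tc D a e i j) (tc D a e i' j') m d ∧ d ≤ h := by
  obtain ⟨h1, rfl, rfl, h2⟩ := hm
  exact ⟨_, _, MF.ec a e v w i j ha he h1, h2⟩

theorem PR3_g {a e g v w kd k k' h : ℕ} (ha : a < 4) (he : e < 2)
    (hm : kd < 14 ∧ GK g v w kd kd ∧ k' = k + 1 ∧ 4 * k + 3 ≤ h) :
    ∃ m d, MF D (2, a, e, g, v, w) (rg a e kd k) (rg a e kd k') m d ∧ d ≤ h :=
  PR3_re 1 3 ⟨ha, Or.inl ⟨he, hm.1⟩⟩
    (Or.inr (Or.inr (Or.inr (Or.inr ⟨rfl, rfl, rfl, rfl, rfl, rfl, hm.2.1⟩)))) hm.2.2.1 hm.2.2.2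

theorem PR3_p {a s e p q kd k k' h : ℕ} (hr : Reg a s kd) (hq : kd = p ∨ kd = q)
    (hm : k' = k + 1 ∧ 4 * k + 3 ≤ h) :
    ∃ m d, MF D (1, a, p, q, s, e) (rg a s kd k) (rg a e kd k') m d ∧ d ≤ h := by
  rcases hq with hq | hq
  · exact PR3_re 0 3 hr (Or.inr (Or.inr (Or.inr (Or.inl
      ⟨rfl, rfl, rfl, rfl, rfl, rfl, Or.inl ⟨hq, rfl⟩⟩)))) hm.1 hm.2
  · exact PR3_re 1 3 hr (Or.inr (Or.inr (Or.inr (Or.inl
      ⟨rfl, rfl, rfl, rfl, rfl, rfl, Or.inr ⟨hq, rfl⟩⟩)))) hm.1 hm.2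

theorem PR3_dcr {a e kd k : ℕ} (hr : Reg a e kd) (hk : 1 ≤ k) :
    Df (rg a e kd k) (rg ((a + 1) % 4) 0 0 k) (rg a e kd (k + 1)) := by
  unfold Reg at hr
  refine ⟨fun h => ?_, ?_⟩
  · have := (sm_rg (by omega)).1 h
    omega
  · unfold par rg
    rw [if_pos (by dsimp only; omega)]
    simp only [Prod.mk.injEq, and_true, true_and]
    omega

theorem PR3_dar {a e i j x : ℕ} (hj : j ≤ i) (hi : 2 ≤ i) :
    Df (cl a e i j x) (rg a e 5 i) (cl a e (i + 1) j x) := by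
  refine ⟨fun h => ?_, ?_⟩
  · have := sm_cl.1 h
    omega
  · unfold par rg cl
    rw [if_neg (by dsimp only; omega), if_pos (by dsimp only; omega)]
    simp only [Prod.mk.injEq, and_true, true_and]
    omega

theorem PR3_dau {a e i j x : ℕ} (hj : i ≤ j) (hi : 2 ≤ j) :
    Df (cl a e i j x) (rg a e 6 j) (cl a e i (j + 1) x) := by
  refine ⟨fun h => ?_, ?_⟩
  · have := sm_cl.1 h
    omega
  · unfold par rg cl
    rw [if_neg (by dsimp only; omega), if_neg (by dsimp only; omega),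
      if_pos (by dsimp only; omega)]
    simp only [Prod.mk.injEq, and_true, true_and]
    omega

theorem PR3_dad {a e i x : ℕ} (hi : 2 ≤ i) :
    Df (cl a e i i x) (rg a e 7 i) (cl a e (i + 1) (i + 1) x) := by
  refine ⟨fun h => ?_, ?_⟩
  · have := sm_cl.1 h
    omega
  · unfold par rg cl
    rw [if_neg (by dsimp only; omega), if_neg (by dsimp only; omega),
      if_neg (by dsimp only; omega)]
    simp only [Prod.mk.injEq, and_true, true_and]
    omega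

theorem PR3_sr {a e kd k : ℕ} (h : kd < 15 ∧ k ≤ 1) : Sm (rg a e kd k) := (sm_rg h.1).2 h.2

theorem PR3_st {a e i j : ℕ} (h : i ≤ 2 ∧ j ≤ 2) : Sm (tc D a e i j) := sm_cl.2 h

theorem FF.pre {a' b' c' : Nm} {h' p' : ℕ} (H : FF D a' b' c' h' θ p') :
    (Sm a' ∧ Sm b' ∧ Sm c') ∨ ∃ a b c h θ₀ p, FF D a b c h θ₀ p ∧ h + 4 = h' ∧
      (p ≠ 0 → p' ≠ 0) ∧ (∃ m d, MF D θ a a' m d ∧ d ≤ h') ∧ (∃ m d, MF D θ b b' m d ∧ d ≤ h') ∧
      (Df a' b' c' ∨ ∃ m d, MF D θ c c' m d ∧ d ≤ h') := by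
  cases H with
  | cr a e kd k η hr hη =>
    have hr' := hr
    unfold Reg at hr'
    rcases k with _ | k
    · exact Or.inl ⟨PR3_sr (by omega), PR3_sr (by omega), PR3_sr (by omega)⟩
    have h1 : RM (0, a, kd, e, 0, 0) a e kd e kd 0 1 :=
      Or.inr (Or.inl ⟨rfl, rfl, rfl, rfl, rfl, rfl, rfl, rfl⟩)
    refine Or.inr ⟨_, _, _, _, _, _, FF.cr a e kd k η hr hη, by omega, id,
      PR3_re 0 1 hr h1 rfl (by omega),
      PR3_re 1 3 ⟨by omega, Or.inl ⟨hη, by omega⟩⟩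
        (Or.inr (Or.inr (Or.inl ⟨rfl, rfl, rfl, hη, rfl, rfl, rfl, rfl⟩))) rfl (by omega), ?_⟩
    rcases η with _ | η
    · exact Or.inl (PR3_dcr hr (by omega))
    · exact Or.inr (PR3_re 0 1 hr h1 rfl (by omega))
  | pl a e k ha he =>
    rcases k with _ | k
    · exact Or.inl ⟨PR3_sr (by omega), PR3_sr (by omega), PR3_sr (by omega)⟩
    exact Or.inr ⟨_, _, _, _, _, _, FF.pl a e k ha he, by omega, id,
      PR3_p ⟨ha, by omega⟩ (by omega) (by omega), PR3_p ⟨ha, by omega⟩ (by omega) (by omega),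
      Or.inr (PR3_p ⟨ha, by omega⟩ (by omega) (by omega))⟩
  | pz a e kd k ha he hk =>
    rcases k with _ | k
    · exact Or.inl ⟨PR3_sr (by omega), PR3_sr (by omega), PR3_sr (by omega)⟩
    exact Or.inr ⟨_, _, _, _, _, _, FF.pz a e kd k ha he hk, by omega, id,
      PR3_p ⟨ha, by omega⟩ (by omega) (by omega), PR3_p ⟨ha, by omega⟩ (by omega) (by omega),
      Or.inr (PR3_p ⟨ha, by omega⟩ (by omega) (by omega))⟩
  | ps a e s p k ha hs =>
    rcases k with _ | k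
    · exact Or.inl ⟨PR3_sr (by omega), PR3_sr (by omega), PR3_sr (by omega)⟩
    exact Or.inr ⟨_, _, _, _, _, _, FF.ps a s 2 (1 - s / 2) k ha (by omega), by omega, by omega,
      PR3_p ⟨ha, by omega⟩ (by omega) (by omega), PR3_p ⟨ha, by omega⟩ (by omega) (by omega),
      Or.inr (PR3_p ⟨ha, by omega⟩ (by omega) (by omega))⟩
  | ar a e i j x ha he hx hj =>
    by_cases hi : i ≤ 1
    · exact Or.inl ⟨sm_cl.2 (by omega), PR3_sr (by omega), sm_cl.2 (by omega)⟩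
    exact Or.inr ⟨_, _, _, _, _, _, FF.ar a e (i - 1) (j - min j 1) x ha he hx (by omega),
      by omega, id, PR3_sc ha he hx (by unfold Dm; omega), PR3_g ha he (by unfold GK; omega),
      Or.inl (PR3_dar hj (by omega))⟩
  | au a e i j x ha he hx hj =>
    by_cases hi : j ≤ 1
    · exact Or.inl ⟨sm_cl.2 (by omega), PR3_sr (by omega), sm_cl.2 (by omega)⟩
    exact Or.inr ⟨_, _, _, _, _, _, FF.au a e (i - min i 1) (j - 1) x ha he hx (by omega),
      by omega, id, PR3_sc ha he hx (by unfold Dm; omega), PR3_g ha he (by unfold GK; omega),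
      Or.inl (PR3_dau hj (by omega))⟩
  | ad a e i x ha he hx =>
    by_cases hi : i ≤ 1
    · exact Or.inl ⟨sm_cl.2 (by omega), PR3_sr (by omega), sm_cl.2 (by omega)⟩
    exact Or.inr ⟨_, _, _, _, _, _, FF.ad a e (i - 1) x ha he hx,
      by omega, id, PR3_sc ha he hx (by unfold Dm; omega), PR3_g ha he (by unfold GK; omega),
      Or.inl (PR3_dad (by omega))⟩
  | ru a e i j x y v w ha he hx hy hv =>
    by_cases hi : i ≤ 1 ∧ j ≤ 1
    · exact Or.inl ⟨sm_cl.2 (by omega), sm_cl.2 (by omega), sm_cl.2 (by omega)⟩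
    obtain ⟨v₀, w₀, h0⟩ : ∃ v₀ w₀ : ℕ, j - w = 0 ∧ v₀ = 1 ∧ w₀ = 0 ∨
        j - w ≠ 0 ∧ i - v = 0 ∧ v₀ = 0 ∧ w₀ = 1 ∨ j - w ≠ 0 ∧ i - v ≠ 0 ∧ v₀ = 1 ∧ w₀ = 1 := by
      by_cases h1 : j - w = 0
      · exact ⟨1, 0, by omega⟩
      by_cases h2 : i - v = 0
      · exact ⟨0, 1, by omega⟩
      · exact ⟨1, 1, by omega⟩
    exact Or.inr ⟨_, _, _, _, _, _, FF.ru a e (i - v) (j - w) x y v₀ w₀ ha he hx hy h0,
      by omega, id, PR3_sc ha he hx (by unfold Dm; omega), PR3_sc ha he hy (by unfold Dm; omega),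
      Or.inr (PR3_sc ha he (dl_lt D x y) (by unfold Dm; omega))⟩
  | r1 a e i x ha he hx =>
    rcases i with _ | i
    · exact Or.inl ⟨sm_cl.2 (by omega), PR3_sr (by omega), sm_cl.2 (by omega)⟩
    exact Or.inr ⟨_, _, _, _, _, _, FF.r1 a e i x ha he hx,
      by omega, id, PR3_sc ha he hx (by unfold Dm; omega), PR3_g ha he (by unfold GK; omega),
      Or.inr (PR3_sc ha he (b1_lt D x) (by unfold Dm; omega))⟩
  | r2 a e j x ha he hx =>
    rcases j with _ | j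
    · exact Or.inl ⟨sm_cl.2 (by omega), PR3_sr (by omega), sm_cl.2 (by omega)⟩
    exact Or.inr ⟨_, _, _, _, _, _, FF.r2 a e j x ha he hx,
      by omega, id, PR3_sc ha he hx (by unfold Dm; omega), PR3_g ha he (by unfold GK; omega),
      Or.inr (PR3_sc ha he (b2_lt D x) (by unfold Dm; omega))⟩
  | ga a e i x ha he hx hm =>
    rcases i with _ | i
    · exact Or.inl ⟨PR3_sr (by omega), sm_cl.2 (by omega), PR3_sr (by omega)⟩
    exact Or.inr ⟨_, _, _, _, _, _, FF.ga a e i x ha he hx hm,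
      by omega, id, PR3_g ha he (by unfold GK; omega), PR3_sc ha he hx (by unfold Dm; omega),
      Or.inr (PR3_g ha he (by unfold GK; omega))⟩
  | er a e i j ha he h1 hj =>
    by_cases hi : i ≤ 1
    · exact Or.inl ⟨PR3_st (by omega), PR3_sr (by omega), PR3_st (by omega)⟩
    exact Or.inr ⟨_, _, _, _, _, _, FF.er a e (i - 1) j ha he h1 (by omega),
      by omega, id, PR3_ec ha he (by unfold Dm; omega), PR3_g ha he (by unfold GK; omega),
      Or.inr (PR3_ec ha he (by unfold Dm; omega))⟩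
  | eu a e i j ha he h1 hj =>
    by_cases hi : j ≤ 1
    · exact Or.inl ⟨PR3_st (by omega), PR3_sr (by omega), PR3_st (by omega)⟩
    exact Or.inr ⟨_, _, _, _, _, _, FF.eu a e i (j - 1) ha he h1 (by omega),
      by omega, id, PR3_ec ha he (by unfold Dm; omega), PR3_g ha he (by unfold GK; omega),
      Or.inr (PR3_ec ha he (by unfold Dm; omega))⟩
  | qd a e i ha he =>
    rcases i with _ | i
    · exact Or.inl ⟨PR3_st (by omega), PR3_sr (by omega), PR3_st (by omega)⟩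
    exact Or.inr ⟨_, _, _, _, _, _, FF.qd a e i ha he,
      by omega, id, PR3_ec ha he (by unfold Dm; omega), PR3_g ha he (by unfold GK; omega),
      Or.inr (PR3_ec ha he (by unfold Dm; omega))⟩

end Pool.Agent.P.MP_48d4bc_co.EX.PI
end

-- part Pool.Agent.P.MP_48d4bc_co.PR4
section

set_option autoImplicit false

/-! Images of facts. -/

namespace Pool.Agent.P.MP_48d4bc_co.EX.PI

open Set Function Pool.Agent.Lib.PrimrecProp

variable {D : Dat} {θ : Th}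

theorem PR4_re {a e kd k H : ℕ} (b d : ℕ) (hr : Reg a e kd) (h : RM θ a e kd e kd b d)
    (hd : 4 * k + d ≤ H) : ∃ m d, MF D θ (rg a e kd k) (rg a e kd (k + 1)) m d ∧ d ≤ H :=
  ⟨_, _, MF.re θ a e kd e kd b d k hr h, hd⟩

theorem PR4_sc {a e v w i j x i' j' H : ℕ} (ha : a < 4) (he : e < 2) (hx : x < sz D)
    (h : Dm v w i j) (hi : i' = i + v) (hj : j' = j + w) (hd : 4 * max i j + 1 ≤ H) :
    ∃ m d, MF D (2, a, e, 0, v, w) (cl a e i j x) (cl a e i' j' x) m d ∧ d ≤ H := by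
  subst hi hj
  exact ⟨_, _, MF.sc a e v w i j x ha he hx h, hd⟩

theorem PR4_ec {a e v w i j i' j' H : ℕ} (ha : a < 4) (he : e < 2)
    (h : Dm v w i j) (hi : i' = i + v) (hj : j' = j + w) (hd : 4 * max i j + 4 + v + w ≤ H) :
    ∃ m d, MF D (2, a, e, 1, v, w) (tc D a e i j) (tc D a e i' j') m d ∧ d ≤ H := by
  subst hi hj
  exact ⟨_, _, MF.ec a e v w i j ha he h, hd⟩

theorem PR4_g {a e g v w kd : ℕ} (h : GK g v w kd kd) : RM (2, a, e, g, v, w) a e kd e kd 1 3 :=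
  Or.inr (Or.inr (Or.inr (Or.inr ⟨rfl, rfl, rfl, rfl, rfl, rfl, h⟩)))

theorem PR4_h {a b c : Nm} {h h' p : ℕ} (H : FF D a b c h θ p) (e : h = h') :
    FF D a b c h' θ p := e ▸ H

theorem PR4_dcr {a e kd k : ℕ} (hr : Reg a e kd) (hk : 1 ≤ k) :
    Df (rg a e kd k) (rg ((a + 1) % 4) 0 0 k) (rg a e kd (k + 1)) := by
  unfold Reg at hr
  refine ⟨by rw [sm_rg (by omega)]; omega, ?_⟩
  unfold par rg
  rw [if_pos (by dsimp only; omega)]
  simp only [Prod.mk.injEq, and_true, true_and]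
  omega

theorem PR4_dar {a e i j x : ℕ} (hj : j ≤ i) (hi : 2 ≤ i) :
    Df (cl a e i j x) (rg a e 5 i) (cl a e (i + 1) j x) := by
  refine ⟨by rw [sm_cl]; omega, ?_⟩
  unfold par rg cl
  rw [if_neg (by dsimp only; omega), if_pos (by dsimp only; omega)]
  simp only [Prod.mk.injEq, and_true, true_and]
  omega

theorem PR4_dau {a e i j x : ℕ} (hj : i ≤ j) (hi : 2 ≤ j) :
    Df (cl a e i j x) (rg a e 6 j) (cl a e i (j + 1) x) := by
  refine ⟨by rw [sm_cl]; omega, ?_⟩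
  unfold par rg cl
  rw [if_neg (by dsimp only; omega), if_neg (by dsimp only; omega), if_pos (by dsimp only; omega)]
  simp only [Prod.mk.injEq, and_true, true_and]
  omega

theorem PR4_dad {a e i x : ℕ} (hi : 2 ≤ i) :
    Df (cl a e i i x) (rg a e 7 i) (cl a e (i + 1) (i + 1) x) := by
  refine ⟨by rw [sm_cl]; omega, ?_⟩
  unfold par rg cl
  rw [if_neg (by dsimp only; omega), if_neg (by dsimp only; omega), if_neg (by dsimp only; omega)]
  simp only [Prod.mk.injEq, and_true, true_and]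
  omega

theorem FF.img {a b c : Nm} {h p : ℕ} (H : FF D a b c h θ p) (hp : p = 0) :
    (Sm a ∧ Sm b ∧ Sm c) ∨ ∃ a' b' c' θ₀, FF D a' b' c' (h + 4) θ₀ 0 ∧
      (∃ m d, MF D θ a a' m d ∧ d ≤ h + 4) ∧ (∃ m d, MF D θ b b' m d ∧ d ≤ h + 4) ∧
      (Df a b c ∨ ∃ m d, MF D θ c c' m d ∧ d ≤ h + 4) := by
  cases H with
  | cr a e kd k η hr hη =>
    have hr' := hr
    unfold Reg at hr'
    by_cases hs : k = 0 ∧ η = 0
    · left
      rw [sm_rg (by omega), sm_rg (by omega), sm_rg (by omega)]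
      omega
    · refine Or.inr ⟨_, _, _, _, PR4_h (FF.cr a e kd (k + 1) η hr hη) (by omega),
        PR4_re 0 1 hr (by simp [RM]) (by omega),
        PR4_re 1 3 (by unfold Reg; omega) (by simp [RM, hη]) (by omega), ?_⟩
      by_cases h0 : η = 0
      · subst h0
        exact Or.inl (PR4_dcr hr (by omega))
      · exact Or.inr (PR4_re 0 1 hr (by simp [RM]) (by omega))
  | pl a e k ha he =>
    exact Or.inr ⟨_, _, _, _, PR4_h (FF.pl a e (k + 1) ha he) (by omega),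
      PR4_re 0 3 (by unfold Reg; omega) (by simp [RM]) (by omega),
      PR4_re 1 3 (by unfold Reg; omega) (by simp [RM]) (by omega),
      Or.inr (PR4_re 0 3 (by unfold Reg; omega) (by simp [RM]) (by omega))⟩
  | pz a e kd k ha he hk =>
    exact Or.inr ⟨_, _, _, _, PR4_h (FF.pz a e kd (k + 1) ha he hk) (by omega),
      PR4_re 0 3 (by unfold Reg; omega) (by simp [RM]) (by omega),
      PR4_re 1 3 (by unfold Reg; omega) (by simp [RM]) (by omega),
      Or.inr (PR4_re 0 3 (by unfold Reg; omega) (by simp [RM]) (by omega))⟩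
  | ps a e s p k ha hc =>
    obtain rfl : e = 2 := by omega
    obtain rfl : s = 2 := by omega
    exact Or.inr ⟨_, _, _, _, PR4_h (FF.ps a 2 2 0 (k + 1) ha (by omega)) (by omega),
      PR4_re 0 3 (by unfold Reg; omega) (by simp [RM]) (by omega),
      PR4_re 1 3 (by unfold Reg; omega) (by simp [RM]) (by omega),
      Or.inr (PR4_re 0 3 (by unfold Reg; omega) (by simp [RM]) (by omega))⟩
  | ar a e i j x ha he hx hj =>
    by_cases hs : i ≤ 1
    · left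
      rw [sm_cl, sm_cl, sm_rg (by omega)]
      omega
    · exact Or.inr ⟨_, _, _, _, PR4_h (FF.ar a e (i + 1) (j + min j 1) x ha he hx (by omega))
        (by omega), PR4_sc ha he hx (by unfold Dm; omega) rfl rfl (by omega),
        PR4_re 1 3 (by unfold Reg; omega) (PR4_g (by unfold GK; omega)) (by omega),
        Or.inl (PR4_dar hj (by omega))⟩
  | au a e i j x ha he hx hj =>
    by_cases hs : j ≤ 1
    · left
      rw [sm_cl, sm_cl, sm_rg (by omega)]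
      omega
    · exact Or.inr ⟨_, _, _, _, PR4_h (FF.au a e (i + min i 1) (j + 1) x ha he hx (by omega))
        (by omega), PR4_sc ha he hx (by unfold Dm; omega) rfl rfl (by omega),
        PR4_re 1 3 (by unfold Reg; omega) (PR4_g (by unfold GK; omega)) (by omega),
        Or.inl (PR4_dau hj (by omega))⟩
  | ad a e i x ha he hx =>
    by_cases hs : i ≤ 1
    · left
      rw [sm_cl, sm_cl, sm_rg (by omega)]
      omega
    · exact Or.inr ⟨_, _, _, _, PR4_h (FF.ad a e (i + 1) x ha he hx) (by omega),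
        PR4_sc ha he hx (by unfold Dm; omega) rfl rfl (by omega),
        PR4_re 1 3 (by unfold Reg; omega) (by simp [RM, GK]) (by omega),
        Or.inl (PR4_dad (by omega))⟩
  | ru a e i j x y v w ha he hx hy hc =>
    by_cases hs : i = 0 ∧ j = 0
    · left
      rw [sm_cl, sm_cl, sm_cl]
      omega
    · exact Or.inr ⟨_, _, _, _,
        PR4_h (FF.ru a e (i + v) (j + w) x y v w ha he hx hy (by omega)) (by omega),
        PR4_sc ha he hx (by unfold Dm; omega) rfl (by omega) (by omega),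
        PR4_sc ha he hy (by unfold Dm; omega) (by omega) rfl (by omega),
        Or.inr (PR4_sc ha he (dl_lt D x y) (by unfold Dm; omega) (by omega) (by omega)
          (by omega))⟩
  | r1 a e i x ha he hx =>
    exact Or.inr ⟨_, _, _, _, PR4_h (FF.r1 a e (i + 1) x ha he hx) (by omega),
      PR4_sc ha he hx (by unfold Dm; omega) rfl rfl (by omega),
      PR4_re 1 3 (by unfold Reg; omega) (by simp [RM, GK]) (by omega),
      Or.inr (PR4_sc ha he (b1_lt D x) (by unfold Dm; omega) rfl rfl (by omega))⟩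
  | r2 a e j x ha he hx =>
    exact Or.inr ⟨_, _, _, _, PR4_h (FF.r2 a e (j + 1) x ha he hx) (by omega),
      PR4_sc ha he hx (by unfold Dm; omega) rfl rfl (by omega),
      PR4_re 1 3 (by unfold Reg; omega) (by simp [RM, GK]) (by omega),
      Or.inr (PR4_sc ha he (b2_lt D x) (by unfold Dm; omega) rfl rfl (by omega))⟩
  | ga a e i x ha he hx hm =>
    exact Or.inr ⟨_, _, _, _, PR4_h (FF.ga a e (i + 1) x ha he hx hm) (by omega),
      PR4_re 1 3 (by unfold Reg; omega) (by simp [RM, GK]) (by omega),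
      PR4_sc ha he hx (by unfold Dm; omega) rfl rfl (by omega),
      Or.inr (PR4_re 1 3 (by unfold Reg; omega) (by simp [RM, GK]) (by omega))⟩
  | er a e i j ha he h1 hj =>
    exact Or.inr ⟨_, _, _, _, PR4_h (FF.er a e (i + 1) j ha he h1 (by omega)) (by omega),
      PR4_ec ha he (by unfold Dm; omega) rfl rfl (by omega),
      PR4_re 1 3 (by unfold Reg; omega) (PR4_g (by unfold GK; omega)) (by omega),
      Or.inr (PR4_ec ha he (by unfold Dm; omega) rfl rfl (by omega))⟩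
  | eu a e i j ha he h1 hj =>
    exact Or.inr ⟨_, _, _, _, PR4_h (FF.eu a e i (j + 1) ha he h1 (by omega)) (by omega),
      PR4_ec ha he (by unfold Dm; omega) rfl rfl (by omega),
      PR4_re 1 3 (by unfold Reg; omega) (PR4_g (by unfold GK; omega)) (by omega),
      Or.inr (PR4_ec ha he (by unfold Dm; omega) rfl rfl (by omega))⟩
  | qd a e i ha he =>
    exact Or.inr ⟨_, _, _, _, PR4_h (FF.qd a e (i + 1) ha he) (by omega),
      PR4_ec ha he (by unfold Dm; omega) rfl rfl (by omega),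
      PR4_re 1 3 (by unfold Reg; omega) (by simp [RM, GK]) (by omega),
      Or.inr (PR4_ec ha he (by unfold Dm; omega) rfl rfl (by omega))⟩

end Pool.Agent.P.MP_48d4bc_co.EX.PI
end

-- part Pool.Agent.P.MP_48d4bc_co.PR5
section

set_option autoImplicit false

/-! A finite colouring of valuations that separates glued pairs. -/

namespace Pool.Agent.P.MP_48d4bc_co.EX.PI

open Set Function Pool.Agent.Lib.PrimrecProp

universe u

/-- valuations: defining equations, small facts, two distinct values -/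
def Vl (D : Dat) {W : Type u} (f : W → W → Option W) (V : Nm → Option W) : Prop :=
  (∀ c, ¬ Sm c → V c = (V (par c).1).bind fun x => (V (par c).2).bind (f x)) ∧
  (∀ a b c h θ p, FF D a b c h θ p → Sm a → Sm b → Sm c → Hd f V a b c) ∧
  V (rg 0 2 0 0) ≠ V (rg 0 2 0 1)

theorem PR5_fin : Finite {θ : Th // Sh θ} := by
  have h : {θ : Th | Sh θ}.Finite := by
    refine (Set.finite_Iic ((14, 14, 14, 14, 14, 14) : Th)).subset ?_
    rintro ⟨t, a, p1, p2, p3, p4⟩ h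
    simp only [Set.mem_ofPred_eq, Sh, Reg] at h
    simp only [Set.mem_Iic, Prod.mk_le_mk]
    omega
  exact h.to_subtype

section

variable {D : Dat} {W : Type u} {f : W → W → Option W} {V V' : Nm → Option W}

/-- a failing required fact of least height -/
def PR5_Low (D : Dat) (H : ℕ) (f : W → W → Option W) (V : Nm → Option W) (θ : Th) (h p : ℕ) :
    Prop :=
  Gd D H f V h ∧ (p ≠ 0 → h < H) ∧ ∃ a b c, FF D a b c h θ p ∧ ¬ Hd f V a b c

theorem PR5_mono {H h h' : ℕ} (g : Gd D H f V h) (hh : h' ≤ h) : Gd D H f V h' :=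
  fun a b c k θ p H1 H2 H3 => g a b c k θ p H1 H2 (lt_of_lt_of_le H3 hh)

theorem PR5_dich (D : Dat) (H : ℕ) (f : W → W → Option W) (V : Nm → Option W) :
    (∀ h, Gd D H f V h) ∨ ∃ θ h p, Sh θ ∧ PR5_Low D H f V θ h p := by
  classical
  by_cases hb : ∃ h, ∃ a b c θ p, FF D a b c h θ p ∧ (p ≠ 0 → h < H) ∧ ¬ Hd f V a b c
  · obtain ⟨a, b, c, θ, p, h1, h2, h3⟩ := Nat.find_spec hb
    refine Or.inr ⟨θ, Nat.find hb, p, h1.sh, ?_, h2, a, b, c, h1, h3⟩
    intro a' b' c' k θ' p' H1 H2 H3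
    by_contra hn
    exact Nat.find_min hb H3 ⟨a', b', c', θ', p', H1, H2, hn⟩
  · refine Or.inl fun h a b c k θ p H1 H2 _ => ?_
    by_contra hn
    exact hb ⟨k, a, b, c, θ, p, H1, H2, hn⟩

theorem PR5_col (D : Dat) (H : ℕ) (f : W → W → Option W) (V : Nm → Option W) :
    ∃ o : Option ({θ : Th // Sh θ} × Bool × Fin 8 × Fin (H + 1)),
      (o = none → ∀ h, Gd D H f V h) ∧ ∀ z, o = some z → ∃ h p, PR5_Low D H f V z.1.1 h p ∧
        z.2.1 = decide (p = 0) ∧ z.2.2.1.1 = h % 8 ∧ z.2.2.2.1 = min h H := by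
  rcases PR5_dich D H f V with h | ⟨θ, h, p, hθ, hl⟩
  · exact ⟨none, fun _ => h, fun z hz => by cases hz⟩
  · refine ⟨some (⟨θ, hθ⟩, decide (p = 0), ⟨h % 8, Nat.mod_lt _ (by omega)⟩,
      ⟨min h H, by omega⟩), fun hz => (by cases hz), fun z hz => ?_⟩
    cases hz
    exact ⟨h, p, hl, rfl, rfl, rfl⟩

theorem PR5_df (hV : Vl D f V) {a b c : Nm} (hd : Df a b c) {x y z : W} (ha : V a = some x)
    (hb : V b = some y) (hf : f x y = some z) : V c = some z := by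
  rw [hV.1 c hd.1, hd.2]
  simp only [ha, hb, Option.bind_some, hf]

theorem PR5_sep (hs : Shift D) {t : ℕ} (hm : ∀ j, mk D (X D 0 j j) = true → j ≤ t) {θ : Th}
    (hθ : Sh θ) (hV : Vl D f V) (hV' : Vl D f V')
    (hn : ∀ a a' m d, MF D θ a a' m d → Sm a → Sm a' → Lk V V' a a') {h p h' p' : ℕ}
    (l : PR5_Low D (4 * t + 8) f V θ h p) (l' : PR5_Low D (4 * t + 8) f V' θ h' p')
    (e1 : p = 0 ↔ p' = 0) (e2 : h % 8 = h' % 8)
    (e3 : min h (4 * t + 8) = min h' (4 * t + 8)) : False := by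
  obtain ⟨g, hp, a, b, c, F, nF⟩ := l
  obtain ⟨g', hp', a', b', c', F', nF'⟩ := l'
  have s1 : h + 4 ≤ h' := by
    rcases F'.pre with ⟨u1, u2, u3⟩ |
      ⟨a1, b1, c1, h1, θ1, p1, F1, eh, ep, ⟨m1, d1, M1, L1⟩, ⟨m2, d2, M2, L2⟩, hc⟩
    · exact absurd (hV'.2.1 _ _ _ _ _ _ F' u1 u2 u3) nF'
    · by_contra hlt
      subst eh
      have g1 : Gd D (4 * t + 8) f V h1 := PR5_mono g (by omega)
      obtain ⟨x, y, z, vx, vy, vz, hf⟩ := g _ _ _ _ _ _ F1
        (fun h0 => by have := hp' (ep h0); omega) (by omega)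
      obtain ⟨x', ax, ax'⟩ := links hs hm hθ hn g1 g' M1 L1
      obtain ⟨y', ay, ay'⟩ := links hs hm hθ hn g1 g' M2 L2
      obtain rfl : x = x' := Option.some.inj (vx.symm.trans ax)
      obtain rfl : y = y' := Option.some.inj (vy.symm.trans ay)
      refine nF' ⟨x, y, z, ax', ay', ?_, hf⟩
      rcases hc with hc | ⟨m3, d3, M3, L3⟩
      · exact PR5_df hV' hc ax' ay' hf
      · obtain ⟨z', az, az'⟩ := links hs hm hθ hn g1 g' M3 L3
        obtain rfl : z = z' := Option.some.inj (vz.symm.trans az)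
        exact az'
  by_cases h0 : p = 0
  · have s2 : h' ≤ h + 4 := by
      rcases F.img h0 with ⟨u1, u2, u3⟩ |
        ⟨a1, b1, c1, θ1, F1, ⟨m1, d1, M1, L1⟩, ⟨m2, d2, M2, L2⟩, hc⟩
      · exact absurd (hV.2.1 _ _ _ _ _ _ F u1 u2 u3) nF
      · by_contra hlt
        have g1 : Gd D (4 * t + 8) f V' (h + 4) := PR5_mono g' s1
        obtain ⟨x, y, z, vx, vy, vz, hf⟩ := g' _ _ _ _ _ _ F1
          (fun h1 => absurd rfl h1) (by omega)
        obtain ⟨x', ax, ax'⟩ := links hs hm hθ hn g g1 M1 L1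
        obtain ⟨y', ay, ay'⟩ := links hs hm hθ hn g g1 M2 L2
        obtain rfl : x = x' := Option.some.inj (vx.symm.trans ax')
        obtain rfl : y = y' := Option.some.inj (vy.symm.trans ay')
        refine nF ⟨x, y, z, ax, ay, ?_, hf⟩
        rcases hc with hc | ⟨m3, d3, M3, L3⟩
        · exact PR5_df hV hc ax ay hf
        · obtain ⟨z', az, az'⟩ := links hs hm hθ hn g g1 M3 L3
          obtain rfl : z = z' := Option.some.inj (vz.symm.trans az')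
          exact az
    omega
  · have s2 := hp h0
    have s3 := hp' fun h1 => h0 (e1.2 h1)
    omega

end

theorem exists_col {D : Dat} (hs : Shift D) (hi : ¬ Inf D) :
    ∃ (κ : Type) (_ : Finite κ) (_ : Nonempty κ), ∀ (W : Type u) (f : W → W → Option W),
      ∃ χ : (Nm → Option W) → κ, ∀ V : Th → Bool → Nm → Option W,
        (∀ θ s, Sh θ → Vl D f (V θ s)) →
        (∀ θ, Sh θ → ∀ a a' m d, MF D θ a a' m d → Sm a → Sm a' →
          Lk (V θ false) (V θ true) a a') →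
        ∃ θ s θ' s', Sh θ ∧ Sh θ' ∧ χ (V θ s) ≠ χ (V θ' s') := by
  obtain ⟨t, ht⟩ := not_forall.1 hi
  have hm : ∀ j, mk D (X D 0 j j) = true → j ≤ t := fun j hj => by
    by_contra hlt
    exact ht ⟨j, by omega, hj⟩
  have := PR5_fin
  refine ⟨Option ({θ : Th // Sh θ} × Bool × Fin 8 × Fin (4 * t + 8 + 1)) × Fin 3, inferInstance,
    inferInstance, fun W f => ?_⟩
  choose o ho using PR5_col D (4 * t + 8) f
  obtain ⟨c3, hc3⟩ := three_col (fun (s : ℕ → Option W) (k : ℕ) => s (k + 1))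
  refine ⟨fun V => (o V, c3 fun k => V (rg 0 2 0 k)), fun V hV hn => ?_⟩
  by_contra hne
  have all : ∀ θ s θ' s', Sh θ → Sh θ' → o (V θ s) = o (V θ' s') ∧
      (c3 fun k => V θ s (rg 0 2 0 k)) = c3 fun k => V θ' s' (rg 0 2 0 k) := by
    intro θ s θ' s' h h'
    by_contra h2
    exact hne ⟨θ, s, θ', s', h, h', fun h3 => h2 (Prod.mk.inj h3)⟩
  have h0 : Sh (0, 0, 0, 2, 0, 0) := by simp [Sh, Reg]
  rcases hz : o (V (0, 0, 0, 2, 0, 0) false) with _ | z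
  · have g := (ho _).1 hz
    have g' := (ho _).1 ((all _ true _ false h0 h0).1.trans hz)
    have e : (fun k => V (0, 0, 0, 2, 0, 0) true (rg 0 2 0 (k + 1))) =
        fun k => V (0, 0, 0, 2, 0, 0) false (rg 0 2 0 k) := by
      funext k
      have M : MF D (0, 0, 0, 2, 0, 0) (rg 0 2 0 k) (rg 0 2 0 (k + 1)) (k + 0) (4 * k + 1) :=
        MF.re _ 0 2 0 2 0 0 1 k (by simp [Reg]) (by simp [RM])
      obtain ⟨x, ax, ax'⟩ := links hs hm h0 (hn _ h0) (g (4 * k)) (g' _) M (by omega)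
      exact ax'.trans ax.symm
    have h1 := hc3 (fun k => V (0, 0, 0, 2, 0, 0) true (rg 0 2 0 k)) fun h2 =>
      (hV _ true h0).2.2 (congrFun h2 0).symm
    exact h1 ((congrArg c3 e).trans (all _ false _ true h0 h0).2)
  · obtain ⟨h, p, l, e1, e2, e3⟩ := (ho _).2 z ((all _ false _ false z.1.2 h0).1.trans hz)
    obtain ⟨h', p', l', e1', e2', e3'⟩ := (ho _).2 z ((all _ true _ false z.1.2 h0).1.trans hz)
    exact PR5_sep hs hm z.1.2 (hV _ false z.1.2) (hV _ true z.1.2) (hn _ z.1.2) l l'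
      (decide_eq_decide.1 (e1.symm.trans e1')) (e2.symm.trans e2') (e3.symm.trans e3')

end Pool.Agent.P.MP_48d4bc_co.EX.PI
end

-- part Pool.Agent.P.MP_48d4bc_co.PR6
section

set_option autoImplicit false

/-! Finitely many marks refute property (1). -/

namespace Pool.Agent.P.MP_48d4bc_co.EX.PI

open Set Function Pool.Agent.Lib.PrimrecProp

universe u

theorem PR6_dec {u : Nm} (h : ¬ Sm u) :
    (par u).1.2.1 + (par u).1.2.2.1 < u.2.1 + u.2.2.1 ∧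
      (par u).2.2.1 + (par u).2.2.2.1 < u.2.1 + u.2.2.1 := by
  unfold Sm at h
  unfold par
  split_ifs with h1 h2 h3 <;> dsimp only <;> omega

/-- terms for all elements -/
theorem PR6_terms (S : Sig) : ∃ T : Nm → Tm, (∀ u, Sm u → T u = S.tm u) ∧
    ∀ u, ¬ Sm u → T u = .f (T (par u).1) (T (par u).2) := by
  classical
  have wf : WellFounded fun a b : Nm => a.2.1 + a.2.2.1 < b.2.1 + b.2.2.1 :=
    (measure fun a : Nm => a.2.1 + a.2.2.1).wf
  let F : (u : Nm) → ((v : Nm) → v.2.1 + v.2.2.1 < u.2.1 + u.2.2.1 → Tm) → Tm := fun u r =>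
    if h : Sm u then S.tm u else .f (r (par u).1 (PR6_dec h).1) (r (par u).2 (PR6_dec h).2)
  refine ⟨wf.fix F, fun u hu => ?_, fun u hu => ?_⟩
  · rw [wf.fix_eq]
    exact dif_pos hu
  · rw [wf.fix_eq]
    exact dif_neg hu

theorem PR6_idx {θ : Th} (h : Sh θ) :
    ∃ hi : ths.idxOf θ < ths.length, ths[ths.idxOf θ] = θ := by
  have hi : ths.idxOf θ < ths.length := List.idxOf_lt_length_iff.2 (mem_ths.2 h)
  exact ⟨hi, List.getElem_idxOf hi⟩

theorem inf_of_p1 {D : Dat} (hs : Shift D) (h : Sig.P1.{u} (sig D)) : Inf D := by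
  by_contra hi
  obtain ⟨κ, hfin, hne, hc⟩ := exists_col.{u} hs hi
  obtain ⟨W, f, hW⟩ := mono_edges (sig_wf (D := D)) h κ
  obtain ⟨χ, hχ⟩ := hc W f
  obtain ⟨T, hT1, hT2⟩ := PR6_terms (sig D)
  obtain ⟨φ, hinj, hφ, hmono⟩ := hW fun u v => χ fun a => (T a).ev f u v
  have hlt : ∀ θ, Sh θ → ths.idxOf θ < (sig D).glue.length := fun θ hθ => by
    rw [glue_length]
    exact (PR6_idx hθ).1
  let V : Th → Bool → Nm → Option W := fun θ s a =>
    (T a).ev f ((sig D).ge φ (ths.idxOf θ) s).1 ((sig D).ge φ (ths.idxOf θ) s).2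
  have hV : ∀ θ s a, Sh θ → Vd D a → Sm a →
      V θ s a = some (φ ((sig D).vtx (ths.idxOf θ) s a)) := fun θ s a hθ h1 h2 => by
    show (T a).ev f _ _ = _
    rw [hT1 a h2]
    exact (hφ _ (hlt θ hθ) s).2 a (mem_names h1 h2)
  have fin : ¬ ∃ θ s θ' s', Sh θ ∧ Sh θ' ∧ χ (V θ s) ≠ χ (V θ' s') := by
    rintro ⟨θ, s, θ', s', hθ, hθ', hne⟩
    exact hne (hmono _ (hlt θ hθ) s _ (hlt θ' hθ') s')
  refine fin (hχ V (fun θ s hθ => ⟨fun c hc' => ?_,
    fun a b c h' θ₀ p H ha hb hc' => ?_, ?_⟩) (fun θ hθ a a' m d H ha ha' => ?_))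
  · show (T c).ev f _ _ = _
    rw [hT2 c hc']
    rfl
  · obtain ⟨v1, v2, v3⟩ := H.vd
    refine ⟨_, _, _, hV θ s a hθ v1 ha, hV θ s b hθ v2 hb, hV θ s c hθ v3 hc', ?_⟩
    exact (hφ _ (hlt θ hθ) s).1 (a, b, c)
      (List.mem_append_right _ (mem_extra.2 ⟨ha, hb, hc', h', θ₀, p, H⟩))
  · have r : Reg 0 2 0 := by
      unfold Reg
      omega
    have v0 : Vd D (rg 0 2 0 0) := Or.inl ⟨0, 2, 0, 0, r, rfl⟩
    have v1 : Vd D (rg 0 2 0 1) := Or.inl ⟨0, 2, 0, 1, r, rfl⟩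
    have s0 : Sm (rg 0 2 0 0) := (sm_rg (by omega)).2 (by omega)
    have s1 : Sm (rg 0 2 0 1) := (sm_rg (by omega)).2 (by omega)
    rw [hV θ s _ hθ v0 s0, hV θ s _ hθ v1 s1]
    intro e
    have e1 := hinj (Sig.vtx_valid (hlt θ hθ) s (mem_names v0 s0))
      (Sig.vtx_valid (hlt θ hθ) s (mem_names v1 s1)) (Option.some_inj.1 e)
    have e2 := rg_inj.1 ((sig_wf (D := D)).exvtx_same e1)
    omega
  · obtain ⟨v1, v2⟩ := H.vd hθ
    refine ⟨_, hV θ false a hθ v1 ha, ?_⟩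
    rw [hV θ true a' hθ v2 ha']
    obtain ⟨hi', e⟩ := PR6_idx hθ
    have hg : (a, a') ∈ (sig D).gl (ths.idxOf θ) :=
      mem_gl.2 ⟨hi', ha, ha', m, d, by rw [e]; exact H⟩
    have e1 : (sig D).vtx (ths.idxOf θ) false a = (sig D).vtx (ths.idxOf θ) true a' :=
      (sig_wf (D := D)).vtx_eq.2 ⟨rfl, Or.inr (Or.inl ⟨rfl, rfl, hg⟩)⟩
    rw [e1]

end Pool.Agent.P.MP_48d4bc_co.EX.PI
end

-- part Pool.Agent.P.MP_48d4bc_co.PM1
section

set_option autoImplicit false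

/-! Runs that are restarted whenever they halt; machines with two stacks. -/

namespace Pool.Agent.P.MP_48d4bc_co.EX.PI

open StateTransition Function

/-- the run halts after every restart -/
def Co {A : Type} (f : A → Option A) (ρ : A → A) (a : A) : Prop :=
  ∃ I : Set A, a ∈ I ∧ ∀ x ∈ I, ∃ b ∈ eval f x, ρ b ∈ I

/-- one step or a restart -/
def tot {A : Type} (f : A → Option A) (ρ : A → A) (a : A) : A := (f a).getD (ρ a)

/-- pop, keep, push -/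
def act {G : Type} (o : Option (Option G)) (l : ℕ → G) (p : ℕ) : G :=
  match o with
  | none => l (p + 1)
  | some none => l p
  | some (some g) => if p = 0 then g else l (p - 1)

/-- machines with two stacks -/
structure SM (Q G : Type) where
  /-- next state from the state and the two top symbols -/
  δ : Q → G → G → Q
  /-- action on the first stack -/
  α : Q → Option (Option G)
  /-- action on the second stack -/
  β : Q → Option (Option G)
  /-- marked states -/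
  mark : Q → Bool

/-- one step -/
def SM.step {Q G : Type} (M : SM Q G) (c : Q × (ℕ → G) × (ℕ → G)) : Q × (ℕ → G) × (ℕ → G) :=
  (M.δ c.1 (c.2.1 0) (c.2.2 0), act (M.α c.1) c.2.1, act (M.β c.1) c.2.2)

theorem PM1_none {A : Type} {f : A → Option A} (ρ : A → A) {a : A} (h : f a = none) :
    tot f ρ a = ρ a := by
  rw [tot, h, Option.getD_none]

theorem PM1_some {A : Type} {f : A → Option A} (ρ : A → A) {a b : A} (h : f a = some b) :
    tot f ρ a = b := by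
  rw [tot, h, Option.getD_some]

theorem PM1_reach {A : Type} {f : A → Option A} (ρ : A → A) {a b : A} (h : Reaches f a b) :
    ∃ k, (tot f ρ)^[k] a = b := by
  induction h with
  | refl => exact ⟨0, rfl⟩
  | tail _ e ih =>
    obtain ⟨k, hk⟩ := ih
    exact ⟨k + 1, by rw [iterate_succ_apply', hk, PM1_some ρ e]⟩

theorem PM1_halt {A : Type} {f : A → Option A} (ρ : A → A) (j : ℕ) :
    ∀ a, f ((tot f ρ)^[j] a) = none → ∃ b, b ∈ eval f a := by
  induction j with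
  | zero => exact fun a h => ⟨a, mem_eval.2 ⟨Relation.ReflTransGen.refl, h⟩⟩
  | succ j ih =>
    intro a h
    rcases e : f a with - | y
    · exact ⟨a, mem_eval.2 ⟨Relation.ReflTransGen.refl, e⟩⟩
    · rw [iterate_succ_apply, PM1_some ρ e] at h
      rw [reaches_eval (Relation.ReflTransGen.single (show y ∈ f a from e))]
      exact ih y h

theorem co_tr {A B : Type} {f : A → Option A} {g : B → Option B} {tr : A → B → Prop}
    (H : Respects f g tr) {ρ : A → A} {ρ' : B → B}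
    (hρ : ∀ a b, tr a b → f a = none → tr (ρ a) (ρ' b)) {a : A} {b : B} (h : tr a b) :
    Co g ρ' b ↔ Co f ρ a := by
  constructor
  · rintro ⟨I, hb, hI⟩
    refine ⟨{x | ∃ y ∈ I, tr x y}, ⟨b, hb, h⟩, ?_⟩
    rintro x ⟨y, hy, e⟩
    obtain ⟨y', h1, h2⟩ := hI y hy
    obtain ⟨x', h3, h4⟩ := tr_eval_rev H e h1
    exact ⟨x', h4, _, h2, hρ _ _ h3 (mem_eval.1 h4).2⟩
  · rintro ⟨I, ha, hI⟩
    refine ⟨{y | ∃ x ∈ I, tr x y}, ⟨a, ha, h⟩, ?_⟩
    rintro y ⟨x, hx, e⟩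
    obtain ⟨x', h1, h2⟩ := hI x hx
    obtain ⟨y', h3, h4⟩ := tr_eval H e h1
    exact ⟨y', h4, _, h2, hρ _ _ h3 (mem_eval.1 h1).2⟩

theorem co_iff {A : Type} (f : A → Option A) (ρ : A → A) (a : A) :
    Co f ρ a ↔ ∀ t, ∃ j, t ≤ j ∧ f ((tot f ρ)^[j] a) = none := by
  constructor
  · rintro ⟨I, ha, hI⟩
    have h1 : ∀ j, (tot f ρ)^[j] a ∈ I → ∃ k, f ((tot f ρ)^[k + j] a) = none ∧
        (tot f ρ)^[k + j + 1] a ∈ I := fun j hj => by
      obtain ⟨b, hb, hb'⟩ := hI _ hj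
      obtain ⟨k, hk⟩ := PM1_reach ρ (mem_eval.1 hb).1
      have e := (mem_eval.1 hb).2
      exact ⟨k, by rwa [iterate_add_apply, hk],
        by rwa [iterate_succ_apply', iterate_add_apply, hk, PM1_none ρ e]⟩
    have h2 : ∀ t, ∃ j, t ≤ j ∧ (tot f ρ)^[j] a ∈ I := fun t => by
      induction t with
      | zero => exact ⟨0, le_rfl, ha⟩
      | succ t ih =>
        obtain ⟨j, hj, hj'⟩ := ih
        obtain ⟨k, -, hk⟩ := h1 j hj'
        exact ⟨k + j + 1, by omega, hk⟩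
    intro t
    obtain ⟨j, hj, hj'⟩ := h2 t
    obtain ⟨k, hk, -⟩ := h1 j hj'
    exact ⟨k + j, by omega, hk⟩
  · intro h
    refine ⟨{x | ∀ t, ∃ j, t ≤ j ∧ f ((tot f ρ)^[j] x) = none}, h, fun x hx => ?_⟩
    obtain ⟨j0, -, h0⟩ := hx 0
    obtain ⟨b, hb⟩ := PM1_halt ρ j0 x h0
    obtain ⟨k, hk⟩ := PM1_reach ρ (mem_eval.1 hb).1
    refine ⟨b, hb, fun t => ?_⟩
    obtain ⟨j, hj, hj'⟩ := hx (t + (k + 1))
    obtain ⟨i, rfl⟩ : ∃ i, j = i + (k + 1) := ⟨j - (k + 1), by omega⟩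
    rw [iterate_add_apply, iterate_succ_apply', hk, PM1_none ρ (mem_eval.1 hb).2] at hj'
    exact ⟨i, by omega, hj'⟩

/-- the machine with two stacks that simulates a Turing machine -/
def PM1_sm {G Λ P : Type} [Inhabited G] [Inhabited Λ] (M : Turing.TM0.Machine G Λ) (v : P → Λ)
    (w : Λ → P) (ρ : Λ → Λ) (c₀ : G) : SM (Option (P × G)) G where
  δ s x y := match s with
    | none => some (w default, c₀)
    | some (q, a) => match M (v q) a with
      | none => some (w (ρ (v q)), a)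
      | some (q', .move .left) => some (w q', x)
      | some (q', .move .right) => some (w q', y)
      | some (q', .write b) => some (w q', b)
  α s := match s with
    | none => some none
    | some (q, a) => match M (v q) a with
      | none => some none
      | some (_, .move .left) => none
      | some (_, .move .right) => some (some a)
      | some (_, .write _) => some none
  β s := match s with
    | none => some none
    | some (q, a) => match M (v q) a with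
      | none => some none
      | some (_, .move .left) => some (some a)
      | some (_, .move .right) => none
      | some (_, .write _) => some none
  mark s := match s with
    | none => false
    | some (q, a) => (M (v q) a).isNone

/-- the code of a configuration -/
def PM1_enc {G Λ P : Type} [Inhabited G] (w : Λ → P) (c : Turing.TM0.Cfg G Λ) :
    Option (P × G) × (ℕ → G) × (ℕ → G) :=
  (some (w c.q, c.Tape.head), c.Tape.left.nth, c.Tape.right.nth)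

theorem PM1_keep {G : Type} (l : ℕ → G) : act (some none) l = l := rfl

theorem PM1_pop {G : Type} [Inhabited G] (L : Turing.ListBlank G) : act none L.nth = L.tail.nth :=
  funext fun p => L.nth_succ p

theorem PM1_push {G : Type} [Inhabited G] (L : Turing.ListBlank G) (a : G) :
    act (some (some a)) L.nth = (L.cons a).nth := by
  funext p
  cases p <;> simp [act]

theorem PM1_step {G Λ P : Type} [Inhabited G] [Inhabited Λ] (M : Turing.TM0.Machine G Λ)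
    (v : P → Λ) (w : Λ → P) (ρ : Λ → Λ) (c₀ : G) (c : Turing.TM0.Cfg G Λ) (h : v (w c.q) = c.q) :
    (PM1_sm M v w ρ c₀).step (PM1_enc w c) =
      PM1_enc w (tot (Turing.TM0.step M) (fun c => ⟨ρ c.q, c.Tape⟩) c) := by
  obtain ⟨q, a, L, R⟩ := c
  dsimp only at h
  simp only [SM.step, PM1_sm, PM1_enc, tot, Turing.TM0.step, h]
  rcases M q a with - | ⟨q', (- | -) | b⟩ <;>
    simp [PM1_keep, PM1_pop, PM1_push, Turing.Tape.move, Turing.Tape.write]

theorem exists_sm {G Λ : Type} [Inhabited G] [Inhabited Λ] [Finite G] (M : Turing.TM0.Machine G Λ)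
    (S : Finset Λ) (hS : Turing.TM0.Supports M S) (ρ : Λ → Λ) (hρ : ∀ q ∈ S, ρ q ∈ S) (c₀ : G) :
    ∃ (Q : Type) (_ : Finite Q) (N : SM Q G) (q0 q1 : Q),
      (∀ l r, N.step (q1, l, r) = (q0, l, r)) ∧ ∀ (R : List G) (j : ℕ),
        N.mark (N.step^[j] (q0, fun _ => default, fun p => R.getD p default)).1 = true ↔
          Turing.TM0.step M ((tot (Turing.TM0.step M) fun c => ⟨ρ c.q, c.Tape⟩)^[j]
            (Turing.TM0.init (c₀ :: R))) = none := by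
  classical
  let w : Λ → S := fun q => if h : q ∈ S then ⟨q, h⟩ else ⟨default, hS.1⟩
  have hw : ∀ q ∈ S, (w q).1 = q := fun q hq => by simp only [w, dif_pos hq]
  refine ⟨Option (S × G), inferInstance, PM1_sm M Subtype.val w ρ c₀, some (w default, c₀), none,
    fun l r => rfl, fun R j => ?_⟩
  have e0 : ((some (w default, c₀), fun _ => default, fun p => R.getD p default) :
      Option (S × G) × (ℕ → G) × (ℕ → G)) = PM1_enc w (Turing.TM0.init (c₀ :: R)) := by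
    simp only [PM1_enc, Turing.TM0.init, Turing.Tape.mk₁, Turing.Tape.mk₂, Turing.Tape.mk']
    refine Prod.ext rfl (Prod.ext (funext fun p => ?_) (funext fun p => ?_))
    · simp
    · simp [List.getI]
  have key : ∀ j, (PM1_sm M Subtype.val w ρ c₀).step^[j] (PM1_enc w (Turing.TM0.init (c₀ :: R))) =
      PM1_enc w ((tot (Turing.TM0.step M) fun c => ⟨ρ c.q, c.Tape⟩)^[j]
        (Turing.TM0.init (c₀ :: R))) ∧ ((tot (Turing.TM0.step M) fun c => ⟨ρ c.q, c.Tape⟩)^[j]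
        (Turing.TM0.init (c₀ :: R))).q ∈ S := fun j => by
    induction j with
    | zero => exact ⟨rfl, hS.1⟩
    | succ j ih =>
      rw [iterate_succ_apply', iterate_succ_apply', ih.1]
      refine ⟨PM1_step M _ w ρ c₀ _ (hw _ ih.2), ?_⟩
      have h2 := ih.2
      generalize (tot (Turing.TM0.step M) fun c => ⟨ρ c.q, c.Tape⟩)^[j]
        (Turing.TM0.init (c₀ :: R)) = c at h2 ⊢
      rcases e : Turing.TM0.step M c with - | c'
      · rw [PM1_none _ e]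
        exact hρ _ h2
      · rw [PM1_some _ e]
        exact Turing.TM0.step_supports M hS (show c' ∈ _ from e) h2
  rw [e0, (key j).1]
  have h2 := (key j).2
  generalize (tot (Turing.TM0.step M) fun c => ⟨ρ c.q, c.Tape⟩)^[j]
    (Turing.TM0.init (c₀ :: R)) = c at h2 ⊢
  obtain ⟨q, T⟩ := c
  simp [PM1_sm, PM1_enc, Turing.TM0.step, hw q h2]

end Pool.Agent.P.MP_48d4bc_co.EX.PI
end

-- part Pool.Agent.P.MP_48d4bc_co.PM2
section

set_option autoImplicit false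

/-! A Turing machine with restarts for a universal quantifier over an r.e. predicate. -/

namespace Pool.Agent.P.MP_48d4bc_co.EX.PI

open StateTransition Function Turing

theorem PM2_two (R : ℕ × ℕ → Prop) (c : ToPartrec.Code)
    (hc : ∀ x v, v ∈ c.eval [x] ↔ R x.unpair ∧ v = [Nat.pair x.unpair.1 (x.unpair.2 + 1)])
    (e : ℕ) :
    Co (TM2.step PartrecToTM2.tr)
      (fun a => ⟨some (PartrecToTM2.trNormal c PartrecToTM2.Cont'.halt), none, a.stk⟩)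
      (PartrecToTM2.init c [Nat.pair e 0]) ↔ ∀ n, R (e, n) := by
  have key : ∀ n b, b ∈ eval (TM2.step PartrecToTM2.tr) (PartrecToTM2.init c [Nat.pair e n]) ↔
      R (e, n) ∧ b = PartrecToTM2.halt [Nat.pair e (n + 1)] := by
    intro n b
    rw [PartrecToTM2.tr_eval]
    refine (Part.mem_map_iff PartrecToTM2.halt).trans ?_
    constructor
    · rintro ⟨v, hv, rfl⟩
      obtain ⟨h1, h2⟩ := (hc _ _).1 hv
      rw [Nat.unpair_pair] at h1 h2
      exact ⟨h1, by rw [h2]⟩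
    · rintro ⟨h1, rfl⟩
      refine ⟨_, (hc _ _).2 ⟨?_, rfl⟩, ?_⟩
      · rw [Nat.unpair_pair]; exact h1
      · rw [Nat.unpair_pair]
  constructor
  · rintro ⟨I, h0, hI⟩
    have hn : ∀ n, PartrecToTM2.init c [Nat.pair e n] ∈ I := by
      intro n
      induction n with
      | zero => exact h0
      | succ n ih =>
        obtain ⟨b, hb, hb'⟩ := hI _ ih
        obtain ⟨_, rfl⟩ := (key n b).1 hb
        exact hb'
    intro n
    obtain ⟨b, hb, _⟩ := hI _ (hn n)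
    exact ((key n b).1 hb).1
  · intro h
    refine ⟨{x | ∃ n, x = PartrecToTM2.init c [Nat.pair e n]}, ⟨0, rfl⟩, ?_⟩
    rintro x ⟨n, rfl⟩
    exact ⟨_, (key n _).2 ⟨h n, rfl⟩, n + 1, rfl⟩

theorem PM2_code (R : ℕ × ℕ → Prop) (hR : REPred R) : ∃ c : ToPartrec.Code,
    ∀ x v, v ∈ c.eval [x] ↔ R x.unpair ∧ v = [Nat.pair x.unpair.1 (x.unpair.2 + 1)] := by
  have h1 : Partrec fun x : ℕ => Part.assert (R x.unpair) fun _ => Part.some () :=
    Partrec.comp (f := fun a : ℕ × ℕ => Part.assert (R a) fun _ => Part.some ()) hR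
      Computable.unpair
  have h2 : Primrec fun p : ℕ × Unit => Nat.pair p.1.unpair.1 (p.1.unpair.2 + 1) :=
    Primrec₂.natPair.comp (Primrec.fst.comp (Primrec.unpair.comp Primrec.fst))
      (Primrec.succ.comp (Primrec.snd.comp (Primrec.unpair.comp Primrec.fst)))
  have hU : Partrec fun x : ℕ => (Part.assert (R x.unpair) fun _ => Part.some ()).map
      fun _ => Nat.pair x.unpair.1 (x.unpair.2 + 1) :=
    Partrec.map h1 h2.to_comp.to₂
  obtain ⟨c, hc⟩ := ToPartrec.Code.exists_code (Nat.Partrec'.part_iff₁.2 hU)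
  refine ⟨c, fun x v => ?_⟩
  have e3 := hc ⟨[x], rfl⟩
  simp only at e3
  rw [e3]
  simp only [List.Vector.head, Part.map_eq_map, Part.mem_map_iff, Part.mem_assert_iff]
  constructor
  · rintro ⟨a, ⟨_, ⟨h, _⟩, rfl⟩, rfl⟩
    exact ⟨h, rfl⟩
  · rintro ⟨h, rfl⟩
    exact ⟨_, ⟨(), ⟨h, Part.mem_some _⟩, rfl⟩, rfl⟩

theorem PM2_ten {G Λ σ : Type} [Inhabited G] [Inhabited Λ] [Inhabited σ]
    (M : Λ → TM1.Stmt G Λ σ) (l : List G) :
    Co (TM0.step (TM1to0.tr M)) (fun a => ⟨default, a.Tape⟩) (TM0.init l) ↔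
      Co (TM1.step M) (fun a => ⟨some default, default, a.Tape⟩) (TM1.init l) := by
  refine co_tr (TM1to0.tr_respects M) ?_ rfl
  rintro ⟨l, v, T⟩ b rfl _
  rfl

theorem PM2_tone {K : Type} [DecidableEq K] {G : K → Type} {Λ σ : Type} [Inhabited Λ]
    [Inhabited σ] (M : Λ → TM2.Stmt G Λ σ) (k : K) (L : List (G k)) :
    Co (TM1.step (TM2to1.tr M)) (fun a => ⟨some default, default, a.Tape⟩)
        (TM1.init (TM2to1.trInit k L)) ↔
      Co (TM2.step M) (fun a => ⟨some default, default, a.stk⟩) (TM2.init k L) := by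
  refine co_tr (TM2to1.tr_respects M) ?_ (TM2to1.trCfg_init k L)
  rintro a b h _
  obtain ⟨L, hL⟩ := h
  exact TM2to1.TrCfg.mk (q := some default) (v := default) L hL

theorem tm0_pi (R : ℕ × ℕ → Prop) (hR : REPred R) :
    ∃ (G Λ : Type) (_ : Inhabited G) (_ : Inhabited Λ) (_ : Finite G) (M : TM0.Machine G Λ)
      (S : Finset Λ) (ρ : Λ → Λ) (c₀ : G) (I : ℕ → List G), TM0.Supports M S ∧
      (∀ q ∈ S, ρ q ∈ S) ∧
      (∀ (A : Type) [Primcodable A] (χ : G → A), Primrec fun n => (I n).map χ) ∧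
      ∀ e, Co (TM0.step M) (fun c => ⟨ρ c.q, c.Tape⟩) (TM0.init (c₀ :: I e)) ↔
        ∀ n, R (e, n) := by
  classical
  obtain ⟨c, hc⟩ := PM2_code R hR
  let _ : Inhabited PartrecToTM2.Λ' := ⟨PartrecToTM2.trNormal c PartrecToTM2.Cont'.halt⟩
  let _ : Fintype PartrecToTM2.K' := ⟨{.main, .rev, .aux, .stack}, by intro x; cases x <;> simp⟩
  have s2 := PartrecToTM2.tr_supports c PartrecToTM2.Cont'.halt
  have s1 := TM2to1.tr_supports PartrecToTM2.tr s2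
  have s0 := TM1to0.tr_supports _ s1
  let ψ : PartrecToTM2.Γ' → TM2to1.Γ' PartrecToTM2.K' fun _ => PartrecToTM2.Γ' :=
    fun a => (false, Function.update (fun _ => none) PartrecToTM2.K'.main (some a))
  refine ⟨_, _, inferInstance, inferInstance, inferInstance, _, _, fun _ => default,
    (true, (ψ PartrecToTM2.Γ'.cons).2),
    fun n => (PartrecToTM2.trNat (Nat.pair n 0)).reverse.map ψ, s0, fun _ _ => s0.1, ?_, ?_⟩
  · intro A _ χ
    have hp : Primrec fun n : ℕ => Nat.pair n 0 :=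
      Primrec₂.natPair.comp Primrec.id (Primrec.const 0)
    refine (Primrec.list_reverse.comp
      ((MP_067fd8_lc.primrec_trNat (χ ∘ ψ)).comp hp)).of_eq fun n => ?_
    exact (List.map_reverse.symm).trans (List.map_map.symm)
  · intro e
    have e1 : ((true, (ψ PartrecToTM2.Γ'.cons).2) ::
        (PartrecToTM2.trNat (Nat.pair e 0)).reverse.map ψ)
        = TM2to1.trInit PartrecToTM2.K'.main (PartrecToTM2.trList [Nat.pair e 0]) := by
      have e0 : (PartrecToTM2.trList [Nat.pair e 0]).reverse =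
          PartrecToTM2.Γ'.cons :: (PartrecToTM2.trNat (Nat.pair e 0)).reverse := by
        simp [PartrecToTM2.trList]
      unfold TM2to1.trInit
      rw [e0]
      rfl
    rw [e1]
    have e2 : TM2.init PartrecToTM2.K'.main (PartrecToTM2.trList [Nat.pair e 0])
        = PartrecToTM2.init c [Nat.pair e 0] := by
      unfold TM2.init PartrecToTM2.init
      congr 1
      funext k
      cases k <;> rfl
    refine (PM2_ten _ _).trans ((PM2_tone PartrecToTM2.tr _ _).trans ?_)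
    rw [e2]
    exact PM2_two R c hc e

end Pool.Agent.P.MP_48d4bc_co.EX.PI
end

-- part Pool.Agent.P.MP_48d4bc_co.PM3
section

set_option autoImplicit false

/-! The grid of a machine with two stacks. -/

namespace Pool.Agent.P.MP_48d4bc_co.EX.PI

open Function

/-- a grid over any set of symbols -/
def Gr {S : Type} (d : S → S → S) (u v : S → S) (s : S) : ℕ → ℕ → S
  | 0, 0 => s
  | i + 1, 0 => u (Gr d u v s i 0)
  | 0, j + 1 => v (Gr d u v s 0 j)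
  | i + 1, j + 1 => d (Gr d u v s i (j + 1)) (Gr d u v s (i + 1) j)

theorem Gr_realize : True := by have := @Gr.eq_def; trivial

/-- contents of a cell: on the diagonal or not, state, windows of the two stacks -/
abbrev Ce (Q G : Type) := Option (Bool × Q × (G × G × G) × G × G × G)

variable {Q G : Type}

/-- a window of a stack -/
def win (l : ℕ → G) (p : ℕ) : G × G × G := (l p, l (p - 1), l (p - 2))

/-- the new symbol from the window below; `g` says that the cell is on the diagonal -/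
def nw (o : Option (Option G)) (g : Bool) (w : G × G × G) : G :=
  match o with
  | none => w.1
  | some none => w.2.1
  | some (some a) => cond g a w.2.2

/-- the rule on contents: left neighbour and lower neighbour -/
def cd (M : SM Q G) : Ce Q G → Ce Q G → Ce Q G
  | none, some (false, q, l, r) => some (true, M.δ q l.2.1 r.2.1,
      (nw (M.α q) true l, nw (M.α q) true l, nw (M.α q) true l),
      nw (M.β q) true r, nw (M.β q) true r, nw (M.β q) true r)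
  | some (_, q', l', r'), some (false, q, l, r) => some (false, q',
      (nw (M.α q) false l, l'.1, l'.2.1), nw (M.β q) false r, r'.1, r'.2.1)
  | _, _ => none

/-- the rule on the first row: state and first window are kept, the second window is given -/
def cu (c : Ce Q G) (w : G × G × G) : Ce Q G := c.map fun z => (false, z.2.1, z.2.2.1, w)

/-- the grid of the run from state `q` with input `r`, constant from `L` on -/
def grid (M : SM Q G) (b : G) (r : ℕ → G) (L : ℕ) (q : Q) : ℕ → ℕ → ℕ × Ce Q G :=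
  Gr (fun x y => (0, cd M x.2 y.2)) (fun x => (min (x.1 + 1) (L + 2), cu x.2 (win r (x.1 + 1))))
    (fun _ => (0, none)) (0, some (true, q, (b, b, b), win r 0))

theorem PM3_ss (M : SM Q G) (b : G) (r : ℕ → G) (L : ℕ) (q : Q) (i j : ℕ) :
    grid M b r L q (i + 1) (j + 1) =
      (0, cd M (grid M b r L q i (j + 1)).2 (grid M b r L q (i + 1) j).2) := by
  unfold grid
  rw [Gr]

theorem PM3_0s (M : SM Q G) (b : G) (r : ℕ → G) (L : ℕ) (q : Q) (j : ℕ) :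
    grid M b r L q 0 (j + 1) = (0, none) := by
  unfold grid
  rw [Gr]

theorem PM3_s0 (M : SM Q G) (b : G) (r : ℕ → G) (L : ℕ) (q : Q) (i : ℕ) :
    grid M b r L q (i + 1) 0 = (min ((grid M b r L q i 0).1 + 1) (L + 2),
      cu (grid M b r L q i 0).2 (win r ((grid M b r L q i 0).1 + 1))) := by
  unfold grid
  rw [Gr]

theorem PM3_00 (M : SM Q G) (b : G) (r : ℕ → G) (L : ℕ) (q : Q) :
    grid M b r L q 0 0 = (0, some (true, q, (b, b, b), win r 0)) := by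
  unfold grid
  rw [Gr]

theorem grid_le (M : SM Q G) (b : G) (r : ℕ → G) (L : ℕ) (q : Q) (i j : ℕ) :
    (grid M b r L q i j).1 ≤ L + 2 := by
  rcases i with _ | i <;> rcases j with _ | j
  · rw [PM3_00]
    exact Nat.zero_le _
  · rw [PM3_0s]
    exact Nat.zero_le _
  · rw [PM3_s0]
    exact min_le_right _ _
  · rw [PM3_ss]
    exact Nat.zero_le _

theorem PM3_row (M : SM Q G) (b : G) (r : ℕ → G) (L : ℕ) (hr : ∀ p, L ≤ p → r p = b) (q : Q)
    (i : ℕ) : grid M b r L q i 0 =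
      (min i (L + 2), some (decide (i = 0), q, (b, b, b), win r i)) := by
  induction i with
  | zero => rw [PM3_00]; rfl
  | succ i ih =>
    rw [PM3_s0, ih]
    have h1 : min (min i (L + 2) + 1) (L + 2) = min (i + 1) (L + 2) := by omega
    have h2 : win r (min i (L + 2) + 1) = win r (i + 1) := by
      rcases le_total i (L + 2) with h | h
      · rw [min_eq_left h]
      · rw [min_eq_right h]
        unfold win
        rw [hr (L + 2 + 1) (by omega), hr (L + 2 + 1 - 1) (by omega),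
          hr (L + 2 + 1 - 2) (by omega), hr (i + 1) (by omega), hr (i + 1 - 1) (by omega),
          hr (i + 1 - 2) (by omega)]
    simp only [h1, h2]
    rfl

theorem PM3_nw0 (o : Option (Option G)) (l : ℕ → G) : nw o true (win l 1) = act o l 0 := by
  rcases o with _ | _ | a <;> rfl

theorem PM3_nw1 (o : Option (Option G)) (l : ℕ → G) (p : ℕ) :
    nw o false (win l (p + 2)) = act o l (p + 1) := by
  rcases o with _ | _ | a <;> rfl

theorem PM3_inv (M : SM Q G) (b : G) (r : ℕ → G) (L : ℕ) (hr : ∀ p, L ≤ p → r p = b) (q : Q)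
    (j : ℕ) : (∀ i, i < j → (grid M b r L q i j).2 = none) ∧ ∀ p, (grid M b r L q (j + p) j).2 =
      some (decide (p = 0), (M.step^[j] (q, fun _ => b, r)).1,
        win (M.step^[j] (q, fun _ => b, r)).2.1 p, win (M.step^[j] (q, fun _ => b, r)).2.2 p) := by
  induction j with
  | zero =>
    refine ⟨fun i h => absurd h (Nat.not_lt_zero i), fun p => ?_⟩
    rw [Nat.zero_add, PM3_row M b r L hr]
    rfl
  | succ j ih =>
    obtain ⟨h1, h2⟩ := ih
    have h3 : ∀ i, i < j + 1 → (grid M b r L q i (j + 1)).2 = none := by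
      intro i
      induction i with
      | zero => exact fun _ => by rw [PM3_0s]
      | succ i ih =>
        intro h
        rw [PM3_ss, ih (by omega)]
        rcases Nat.lt_or_ge (i + 1) j with h' | h'
        · rw [h1 _ h']
          rfl
        · obtain rfl : j = i + 1 := by omega
          rw [show (grid M b r L q (i + 1) (i + 1)).2 = _ from h2 0]
          rfl
    refine ⟨h3, fun p => ?_⟩
    rw [iterate_succ_apply']
    generalize M.step^[j] (q, fun _ => b, r) = c at h2 ⊢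
    induction p with
    | zero =>
      rw [Nat.add_zero, PM3_ss, h3 j (Nat.lt_succ_self j), h2 1]
      simp only [cd, Nat.succ_ne_zero, decide_false, PM3_nw0]
      rfl
    | succ p ih =>
      rw [← Nat.add_assoc, PM3_ss, ih, show j + 1 + p + 1 = j + (p + 2) by omega, h2 (p + 2)]
      simp only [cd, Nat.succ_ne_zero, decide_false, PM3_nw1]
      rfl

theorem grid_diag (M : SM Q G) (b : G) (r : ℕ → G) (L : ℕ) (hr : ∀ p, L ≤ p → r p = b) (q : Q)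
    (j : ℕ) : ∃ w, (grid M b r L q j j).2 = some (true, (M.step^[j] (q, fun _ => b, r)).1, w) :=
  ⟨_, (PM3_inv M b r L hr q j).2 0⟩

end Pool.Agent.P.MP_48d4bc_co.EX.PI
end

-- part Pool.Agent.P.MP_48d4bc_co.PM4
section

set_option autoImplicit false

/-! Grid data for a machine with two stacks. -/

namespace Pool.Agent.P.MP_48d4bc_co.EX.PI

open Function Pool.Agent.Lib.PrimrecProp

theorem PM4_X {S : Type} (d : S → S → S) (u v : S → S) (s : S) (D : Dat) (e : ℕ) (code : S → ℕ)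
    (P : S → Prop) (hP : ∀ i j, P (Gr d u v s i j)) (h0 : seed D e = code s)
    (hd : ∀ x y, P x → P y → dl D (code x) (code y) = code (d x y))
    (hu : ∀ x, P x → b1 D (code x) = code (u x)) (hv : ∀ x, P x → b2 D (code x) = code (v x))
    (i j : ℕ) : X D e i j = code (Gr d u v s i j) := by
  induction j generalizing i with
  | zero =>
    induction i with
    | zero => rw [X_00, Gr, h0]
    | succ i ih => rw [X_s0, Gr, ih, hu _ (hP _ _)]
  | succ j ihj =>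
    induction i with
    | zero => rw [X_0s, Gr, ihj, hv _ (hP _ _)]
    | succ i ih => rw [X_ss, Gr, ih, ihj, hd _ _ (hP _ _) (hP _ _)]

section

variable {α : Type} [Primcodable α] {f g : α → ℕ}

@[fun_prop] theorem PM4_mod (hf : Primrec f) (hg : Primrec g) : Primrec fun a => f a % g a :=
  Primrec.nat_mod.comp hf hg

@[fun_prop] theorem PM4_div (hf : Primrec f) (hg : Primrec g) : Primrec fun a => f a / g a :=
  Primrec.nat_div.comp hf hg

@[fun_prop] theorem PM4_min (hf : Primrec f) (hg : Primrec g) : Primrec fun a => min (f a) (g a) :=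
  Primrec.nat_min.comp hf hg

end

theorem PM4_getD {β : Type} (f : ℕ → β) {n x : ℕ} (h : x < n) (d : β) :
    ((List.range n).map f).getD x d = f x := by
  simp [List.getD_eq_getElem?_getD, h]

/-- the tables -/
def PM4_dat {C G : Type} (ls : List C) (c₀ : C) (b : G) (F1 : C × C → ℕ) (F2 : C × G × G × G → ℕ)
    (n₀ : ℕ) (F3 : C → Bool) (F4 F5 : G → ℕ) (R : List G) : Dat :=
  ((R.length + 3) * ls.length - 1,
    (List.range ((R.length + 3) * ls.length)).map fun x =>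
      (List.range ((R.length + 3) * ls.length)).map fun y =>
        F1 (ls.getD (x % ls.length) c₀, ls.getD (y % ls.length) c₀),
    (List.range ((R.length + 3) * ls.length)).map fun x =>
      (min (x / ls.length + 1) (R.length + 2) * ls.length + F2 (ls.getD (x % ls.length) c₀,
        R.getD (x / ls.length + 1) b, R.getD (x / ls.length + 1 - 1) b,
        R.getD (x / ls.length + 1 - 2) b), n₀, F3 (ls.getD (x % ls.length) c₀)),
    F4 (R.getD 0 b), F5 (R.getD 0 b))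

theorem PM4_prim {C G : Type} [Finite C] [Finite G] [Primcodable C] [Primcodable G] (ls : List C)
    (c₀ : C) (b : G) (F1 : C × C → ℕ) (F2 : C × G × G × G → ℕ) (n₀ : ℕ) (F3 : C → Bool)
    (F4 F5 : G → ℕ) : Primrec (PM4_dat ls c₀ b F1 F2 n₀ F3 F4 F5) := by
  have h1 := Primrec.dom_finite F1
  have h2 := Primrec.dom_finite F2
  have h3 := Primrec.dom_finite F3
  have h4 := Primrec.dom_finite F4
  have h5 := Primrec.dom_finite F5
  unfold PM4_dat
  fun_prop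

theorem exists_dat {Q G : Type} [Finite Q] [Finite G] [Inhabited G] (M : SM Q G) (q0 q1 : Q)
    (h1 : ∀ l r, M.step (q1, l, r) = (q0, l, r)) (I : ℕ → List G)
    (hI : ∀ (A : Type) [Primcodable A] (χ : G → A), Primrec fun n => (I n).map χ) :
    ∃ D : ℕ → Dat, Primrec D ∧ ∀ e, Shift (D e) ∧ ∀ j, mk (D e) (X (D e) 0 j j) =
      M.mark (M.step^[j] (q0, fun _ => default, fun p => (I e).getD p default)).1 := by
  classical
  let : Primcodable Q := Primcodable.ofEquiv _ (Finite.equivFin Q)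
  let : Primcodable G := Primcodable.ofEquiv _ (Finite.equivFin G)
  have hI' : Primrec I := (hI G id).of_eq fun n => List.map_id _
  obtain ⟨ls, hls⟩ : ∃ ls : List (Ce Q G), ∀ c, c ∈ ls :=
    letI := Fintype.ofFinite (Ce Q G)
    ⟨Finset.univ.toList, fun c => Finset.mem_toList.2 (Finset.mem_univ c)⟩
  obtain ⟨enc, he1, he2⟩ : ∃ enc : Ce Q G → ℕ, (∀ c, enc c < ls.length) ∧
      ∀ c, ls.getD (enc c) none = c := by
    choose n hn using fun c => List.mem_iff_get.1 (hls c)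
    exact ⟨fun c => n c, fun c => (n c).2, fun c => by
      rw [List.getD_eq_getElem _ _ (n c).2]; exact hn c⟩
  have hm : 0 < ls.length := (Nat.zero_le _).trans_lt (he1 none)
  let b : G := default
  let F4 : Q → G → ℕ := fun q g => enc (some (true, q, (b, b, b), g, g, g))
  let F3 : Ce Q G → Bool := fun c => (c.map fun z => M.mark z.2.1).getD false
  let T := PM4_dat ls none b (fun z => enc (cd M z.1 z.2)) (fun z => enc (cu z.1 z.2)) (enc none)
    F3 (F4 q0) (F4 q1)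
  refine ⟨fun e => T (I e), (PM4_prim ..).comp hI', fun e => ?_⟩
  beta_reduce
  generalize I e = R
  let code : ℕ × Ce Q G → ℕ := fun x => x.1 * ls.length + enc x.2
  have hs : sz (T R) = (R.length + 3) * ls.length :=
    Nat.sub_add_cancel (Nat.mul_pos (Nat.succ_pos _) hm)
  have c1 : ∀ x : ℕ × Ce Q G, x.1 ≤ R.length + 2 → code x < (R.length + 3) * ls.length :=
    fun x hx => by
      have := he1 x.2
      have := Nat.mul_le_mul_right ls.length hx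
      simp only [code]
      nlinarith
  have c2 : ∀ x : ℕ × Ce Q G, code x / ls.length = x.1 := fun x => by
    simp only [code]
    rw [Nat.add_comm, Nat.add_mul_div_right _ _ hm, Nat.div_eq_of_lt (he1 _), Nat.zero_add]
  have c3 : ∀ x : ℕ × Ce Q G, ls.getD (code x % ls.length) none = x.2 := fun x => by
    simp only [code]
    rw [Nat.add_comm, Nat.add_mul_mod_self_right, Nat.mod_eq_of_lt (he1 _), he2]
  have c4 : ∀ c, enc c % ((R.length + 3) * ls.length) = code (0, c) := fun c => by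
    have e : code (0, c) = enc c := by simp only [code, Nat.zero_mul, Nat.zero_add]
    rw [← e]
    exact Nat.mod_eq_of_lt (c1 _ (Nat.zero_le _))
  have hX : ∀ (η : ℕ) (q : Q), seed (T R) η = F4 q (R.getD 0 b) % sz (T R) → ∀ i j, X (T R) η i j =
      code (grid M b (fun p => R.getD p b) R.length q i j) := fun η q hq =>
    PM4_X _ _ _ _ _ _ code (fun x => x.1 ≤ R.length + 2) (grid_le M b _ _ q)
      (by rw [hq, hs]; exact c4 _)
      (fun x y hx hy => by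
        unfold dl
        rw [hs]
        simp only [T, PM4_dat]
        rw [PM4_getD _ (c1 x hx), PM4_getD _ (c1 y hy), c3, c3, c4])
      (fun x hx => by
        unfold b1
        rw [hs]
        simp only [T, PM4_dat]
        rw [PM4_getD _ (c1 x hx), c2, c3]
        exact Nat.mod_eq_of_lt (c1 (_, _) (min_le_right _ _)))
      (fun x hx => by
        unfold b2
        rw [hs]
        simp only [T, PM4_dat]
        rw [PM4_getD _ (c1 x hx), c4])
  have hk : ∀ (η : ℕ) (q : Q), seed (T R) η = F4 q (R.getD 0 b) % sz (T R) → ∀ j,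
      mk (T R) (X (T R) η j j) =
        M.mark (M.step^[j] (q, fun _ => b, fun p => R.getD p b)).1 := fun η q hq j => by
    obtain ⟨w, hw⟩ := grid_diag M b (fun p => R.getD p b) R.length
      (fun p hp => List.getD_eq_default _ _ hp) q j
    unfold mk
    rw [hX η q hq]
    simp only [T, PM4_dat]
    rw [PM4_getD _ (c1 _ (grid_le M b _ _ q j j)), c3, hw]
    rfl
  refine ⟨fun j => ?_, hk 0 q0 rfl⟩
  rw [hk 0 q0 rfl, hk 1 q1 rfl, iterate_succ_apply, h1]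

end Pool.Agent.P.MP_48d4bc_co.EX.PI
end

-- part Pool.Agent.P.MP_48d4bc_co.PU1
section

set_option autoImplicit false

/-! Property (1) has finite hosts. -/

namespace Pool.Agent.P.MP_48d4bc_co.EX.PI

universe u

theorem PU1_iso {α β V W C : Type*} {G₁ : SimpleGraph α} {G₂ : SimpleGraph β} {H : SimpleGraph V}
    {H' : SimpleGraph W} (e : H ≃g H') (h : G₁.Free H ∧ ∀ c : Sym2 V → C, HasMonoCopy G₂ H c) :
    G₁.Free H' ∧ ∀ c : Sym2 W → C, HasMonoCopy G₂ H' c := by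
  refine ⟨fun ⟨f⟩ => h.1 ⟨e.symm.toCopy.comp f⟩, fun c => ?_⟩
  obtain ⟨f, k, hf⟩ := h.2 fun x => c (x.map e)
  exact ⟨e.toCopy.comp f, k, hf⟩

theorem PU1_code {α : Type*} [Finite α] (G : SimpleGraph α) :
    ∃ g : ℕ × List (ℕ × ℕ), Nonempty (G ≃g graphOf g.1 g.2) := by
  classical
  obtain ⟨k, ⟨e⟩⟩ := Finite.exists_equiv_fin α
  refine ⟨(k, ((Finset.univ.filter fun p : Fin k × Fin k =>
    G.Adj (e.symm p.1) (e.symm p.2)).image fun p => (p.1.1, p.2.1)).toList), ⟨⟨e, fun {a b} => ?_⟩⟩⟩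
  have key : ∀ a b : α, ((e a).1, (e b).1) ∈ ((Finset.univ.filter fun p : Fin k × Fin k =>
      G.Adj (e.symm p.1) (e.symm p.2)).image fun p => (p.1.1, p.2.1)).toList ↔ G.Adj a b := by
    intro a b
    rw [Finset.mem_toList, Finset.mem_image]
    refine ⟨fun ⟨p, h1, h2⟩ => ?_, fun h => ⟨(e a, e b), by simpa using h, rfl⟩⟩
    have h3 : p = (e a, e b) := Prod.ext (Fin.ext (congrArg Prod.fst h2))
      (Fin.ext (congrArg Prod.snd h2))
    simpa [h3] using h1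
  rw [graphOf, SimpleGraph.fromRel_adj, key, key]
  exact ⟨fun h => h.2.elim id G.adj_symm, fun h => ⟨e.injective.ne h.ne, Or.inl h⟩⟩

theorem finite_host {α β : Type} [Finite β] (G₁ : SimpleGraph α) (G₂ : SimpleGraph β) (n : ℕ) :
    (∃ (V : Type u) (H : SimpleGraph V),
      G₁.Free H ∧ ∀ c : Sym2 V → Fin (n + 1), HasMonoCopy G₂ H c) ↔
    ∃ q : ℕ × List (ℕ × ℕ), G₁.Free (graphOf q.1 q.2) ∧
      ∀ c : Sym2 (Fin q.1) → Fin (n + 1), HasMonoCopy G₂ (graphOf q.1 q.2) c := by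
  classical
  refine ⟨fun ⟨V, H, h1, h2⟩ => by_contra fun hc => ?_, fun ⟨q, h⟩ =>
    ⟨ULift.{u} (Fin q.1), _, PU1_iso (SimpleGraph.Iso.comap Equiv.ulift _).symm h⟩⟩
  have key : ∀ t : Finset (Sym2 V), ∃ c : Sym2 {v | ∃ x ∈ t, v ∈ x} → Fin (n + 1),
      ¬ HasMonoCopy G₂ (H.induce {v | ∃ x ∈ t, v ∈ x}) c := by
    intro t
    have : Finite {v | ∃ x ∈ t, v ∈ x} := Set.Finite.to_subtype
      ((t.finite_toSet.biUnion fun x _ => x.toFinset.finite_toSet).subset fun v ⟨x, a, b⟩ =>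
        Set.mem_biUnion a (Sym2.mem_toFinset.2 b))
    obtain ⟨q, ⟨e⟩⟩ := PU1_code (H.induce {v | ∃ x ∈ t, v ∈ x})
    by_contra hn
    exact hc ⟨q, PU1_iso e ⟨fun ⟨f⟩ => h1 ⟨(SimpleGraph.Embedding.induce _).toCopy.comp f⟩,
      fun c => by_contra fun h => hn ⟨c, h⟩⟩⟩
  choose c hc' using key
  obtain ⟨χ, hχ⟩ := Finset.rado_selection (β := fun _ => Fin (n + 1))
    fun t => Function.extend (Sym2.map Subtype.val) (c t) 0
  obtain ⟨f, k, hf⟩ := h2 χ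
  obtain ⟨t, ht, h3⟩ := hχ (Set.finite_range fun p : β × β => s(f p.1, f p.2)).toFinset
  have h4 : ∀ a b, s(f a, f b) ∈ (Set.finite_range fun p : β × β => s(f p.1, f p.2)).toFinset :=
    fun a b => (Set.Finite.mem_toFinset _).2 ⟨(a, b), rfl⟩
  refine hc' t ⟨⟨⟨fun a => ⟨f a, _, ht (h4 a a), Sym2.mem_mk_left _ _⟩, fun h => f.toHom.map_rel h⟩,
    fun a b h => f.injective (congrArg Subtype.val h)⟩, k, fun a b h => ?_⟩
  rw [← hf a b h, h3 _ (h4 a b)]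
  exact ((Sym2.map.injective Subtype.val_injective).extend_apply (c t) 0 _).symm

theorem exists_code {α : Type} [Finite α] (G : SimpleGraph α) :
    ∃ g : ℕ × List (ℕ × ℕ), Nonempty (G ≃g graphOf g.1 g.2) := PU1_code G

end Pool.Agent.P.MP_48d4bc_co.EX.PI
end

-- part Pool.Agent.P.MP_48d4bc_co.PU2
section

set_option autoImplicit false

/-! The finite statements are primitive recursive. -/

namespace Pool.Agent.P.MP_48d4bc_co.EX.PI

open Pool.Agent.Lib.PrimrecProp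

/-- All lists of length `k` with entries below `n`. -/
def PU2_lists (k n : ℕ) : List (List ℕ) :=
  (List.range k).foldr (fun _ acc => (List.range n).flatMap fun x => acc.map fun s => x :: s) [[]]

theorem PU2_mem_aux (m : List ℕ) (n : ℕ) (l : List ℕ) :
    l ∈ m.foldr (fun _ acc => (List.range n).flatMap fun x => acc.map fun s => x :: s) [[]] ↔
      l.length = m.length ∧ ∀ x ∈ l, x < n := by
  induction m generalizing l with
  | nil =>
    simp only [List.foldr_nil, List.mem_singleton, List.length_nil, List.length_eq_zero_iff]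
    exact ⟨fun h => ⟨h, by simp [h]⟩, fun h => h.1⟩
  | cons a m ih =>
    simp only [List.foldr_cons, List.mem_flatMap, List.mem_range, List.mem_map, ih,
      List.length_cons]
    constructor
    · rintro ⟨x, hx, s, ⟨h1, h2⟩, rfl⟩
      refine ⟨by simp [h1], fun y hy => ?_⟩
      rcases List.mem_cons.1 hy with rfl | hy
      · exact hx
      · exact h2 y hy
    · rintro ⟨h1, h2⟩
      cases l with
      | nil => simp at h1
      | cons x s =>
        exact ⟨x, h2 x List.mem_cons_self, s,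
          ⟨by simpa using h1, fun y hy => h2 y (List.mem_cons_of_mem _ hy)⟩, rfl⟩

theorem PU2_mem {k n : ℕ} {l : List ℕ} :
    l ∈ PU2_lists k n ↔ l.length = k ∧ ∀ x ∈ l, x < n := by
  rw [PU2_lists, PU2_mem_aux, List.length_range]

@[fun_prop] theorem PU2_p_lists {α : Type} [Primcodable α] {f g : α → ℕ} (hf : Primrec f)
    (hg : Primrec g) : Primrec (fun a => PU2_lists (f a) (g a)) := by
  unfold PU2_lists; fun_prop

/-- Adjacency test. -/
def PU2_adj (L : List (ℕ × ℕ)) (u v : ℕ) : Bool :=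
  (!(eqb u v)) && (memb (u, v) L || memb (v, u) L)

@[fun_prop] theorem PU2_p_adj {α : Type} [Primcodable α] {L : α → List (ℕ × ℕ)} {f g : α → ℕ}
    (hL : Primrec L) (hf : Primrec f) (hg : Primrec g) :
    Primrec (fun a => PU2_adj (L a) (f a) (g a)) := by
  unfold PU2_adj; fun_prop

theorem PU2_adj_iff {k : ℕ} (L : List (ℕ × ℕ)) (u v : Fin k) :
    (graphOf k L).Adj u v ↔ PU2_adj L u.1 v.1 = true := by
  simp [graphOf, SimpleGraph.fromRel_adj, PU2_adj, eqb, Fin.ext_iff]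

/-- The place of an unordered pair. -/
def PU2_idx (k u v : ℕ) : ℕ := cond (leb u v) (u * k + v) (v * k + u)

@[fun_prop] theorem PU2_p_idx {α : Type} [Primcodable α] {k f g : α → ℕ}
    (hk : Primrec k) (hf : Primrec f) (hg : Primrec g) :
    Primrec (fun a => PU2_idx (k a) (f a) (g a)) := by
  unfold PU2_idx; fun_prop

theorem PU2_idx_eq (k u v : ℕ) : PU2_idx k u v = if u ≤ v then u * k + v else v * k + u := by
  by_cases h : u ≤ v <;> simp [PU2_idx, leb, h]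

theorem PU2_idx_comm (k u v : ℕ) : PU2_idx k u v = PU2_idx k v u := by
  rw [PU2_idx_eq, PU2_idx_eq]
  rcases lt_trichotomy u v with h | rfl | h
  · rw [if_pos h.le, if_neg h.not_ge]
  · rfl
  · rw [if_neg h.not_ge, if_pos h.le]

/-- `f` lists a copy all of whose edges have colour `c`. -/
def PU2_cp (g h : ℕ × List (ℕ × ℕ)) (col : List ℕ) (c : ℕ) (f : List ℕ) : Bool :=
  (pairs (List.range g.1) (List.range g.1)).all fun p =>
    (eqb p.1 p.2 || !(eqb (f.getD p.1 0) (f.getD p.2 0))) &&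
      (!(PU2_adj g.2 p.1 p.2) || (PU2_adj h.2 (f.getD p.1 0) (f.getD p.2 0) &&
        eqb (col.getD (PU2_idx h.1 (f.getD p.1 0) (f.getD p.2 0)) 0) c))

@[fun_prop] theorem PU2_p_cp {α : Type} [Primcodable α] {g h : α → ℕ × List (ℕ × ℕ)}
    {col f : α → List ℕ} {c : α → ℕ} (hg : Primrec g) (hh : Primrec h) (hcol : Primrec col)
    (hc : Primrec c) (hf : Primrec f) :
    Primrec (fun a => PU2_cp (g a) (h a) (col a) (c a) (f a)) := by
  unfold PU2_cp; fun_prop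

theorem PU2_cp_iff (g h : ℕ × List (ℕ × ℕ)) (col : List ℕ) (c : ℕ) (f : List ℕ) :
    PU2_cp g h col c f = true ↔ ∀ a < g.1, ∀ b < g.1, (f.getD a 0 = f.getD b 0 → a = b) ∧
      (PU2_adj g.2 a b = true → PU2_adj h.2 (f.getD a 0) (f.getD b 0) = true ∧
        col.getD (PU2_idx h.1 (f.getD a 0) (f.getD b 0)) 0 = c) := by
  simp only [PU2_cp, List.all_eq_true, mem_pairs, List.mem_range, Bool.and_eq_true,
    Bool.or_eq_true, Bool.not_eq_true', eqb_iff, ← Bool.not_eq_true, Prod.forall]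
  constructor
  · intro H a ha b hb
    have := H a b ⟨ha, hb⟩
    tauto
  · intro H a b hab
    have := H a hab.1 b hab.2
    tauto

theorem PU2_mono (g h : ℕ × List (ℕ × ℕ)) (n : ℕ) (col : List ℕ)
    (cc : Sym2 (Fin h.1) → Fin (n + 1))
    (hcc : ∀ u v : Fin h.1, (cc s(u, v)).1 = col.getD (PU2_idx h.1 u.1 v.1) 0) :
    HasMonoCopy (graphOf g.1 g.2) (graphOf h.1 h.2) cc ↔
      ∃ c < n + 1, ∃ f ∈ PU2_lists g.1 h.1, PU2_cp g h col c f = true := by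
  constructor
  · rintro ⟨φ, c, hc⟩
    have e : ∀ a (ha : a < g.1), (List.ofFn fun a => (φ a).1).getD a 0 = (φ ⟨a, ha⟩).1 :=
      fun a ha => by simp [ha]
    refine ⟨c.1, c.2, List.ofFn fun a => (φ a).1, PU2_mem.2 ⟨List.length_ofFn, fun x hx => ?_⟩,
      (PU2_cp_iff _ _ _ _ _).2 fun a ha b hb => ?_⟩
    · obtain ⟨a, rfl⟩ := List.mem_ofFn.1 hx
      exact (φ a).2
    · rw [e a ha, e b hb]
      refine ⟨fun H => congrArg Fin.val (φ.injective (Fin.ext H)), fun H => ?_⟩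
      have hab := (PU2_adj_iff g.2 ⟨a, ha⟩ ⟨b, hb⟩).2 H
      exact ⟨(PU2_adj_iff h.2 _ _).1 (φ.toHom.map_adj hab), by rw [← hcc, hc _ _ hab]⟩
  · rintro ⟨c, hc, f, hf, H⟩
    obtain ⟨h1, h2⟩ := PU2_mem.1 hf
    rw [PU2_cp_iff] at H
    have hlt : ∀ a : Fin g.1, f.getD a.1 0 < h.1 := fun a => by
      have ha : a.1 < f.length := a.2.trans_eq h1.symm
      rw [List.getD_eq_getElem _ _ ha]
      exact h2 _ (List.getElem_mem ha)
    refine ⟨⟨⟨fun a => ⟨f.getD a.1 0, hlt a⟩, fun {a b} hab => ?_⟩, fun a b hab => ?_⟩, ⟨c, hc⟩,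
      fun a b hab => Fin.ext ?_⟩
    · exact (PU2_adj_iff h.2 _ _).2 ((H a.1 a.2 b.1 b.2).2 ((PU2_adj_iff g.2 a b).1 hab)).1
    · exact Fin.ext ((H a.1 a.2 b.1 b.2).1 (congrArg Fin.val hab))
    · exact (hcc _ _).trans ((H a.1 a.2 b.1 b.2).2 ((PU2_adj_iff g.2 a b).1 hab)).2

theorem PU2_col_of (k n : ℕ) (cc : Sym2 (Fin k) → Fin (n + 1)) :
    ∃ col ∈ PU2_lists (k * k) (n + 1),
      ∀ u v : Fin k, (cc s(u, v)).1 = col.getD (PU2_idx k u.1 v.1) 0 := by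
  let G : ℕ → ℕ → ℕ := fun u v =>
    if h : u < k ∧ v < k then (cc s(⟨u, h.1⟩, ⟨v, h.2⟩)).1 else 0
  have hG : ∀ u v : Fin k, ((List.range (k * k)).map fun i => G (i / k) (i % k)).getD
      (u.1 * k + v.1) 0 = (cc s(u, v)).1 := fun u v => by
    have hk : 0 < k := u.pos
    have hlt : u.1 * k + v.1 < k * k := by nlinarith [u.2, v.2]
    have e1 : (u.1 * k + v.1) / k = u.1 := by
      rw [mul_comm, Nat.mul_add_div hk, Nat.div_eq_of_lt v.2, add_zero]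
    have e2 : (u.1 * k + v.1) % k = v.1 := by
      rw [mul_comm, Nat.mul_add_mod, Nat.mod_eq_of_lt v.2]
    rw [List.getD_eq_getElem _ _ (by simpa using hlt), List.getElem_map, List.getElem_range, e1, e2]
    exact dif_pos ⟨u.2, v.2⟩
  refine ⟨(List.range (k * k)).map fun i => G (i / k) (i % k),
    PU2_mem.2 ⟨by simp, fun x hx => ?_⟩, fun u v => ?_⟩
  · obtain ⟨i, -, rfl⟩ := List.mem_map.1 hx
    simp only [G]
    split_ifs
    · exact Fin.is_lt _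
    · exact n.succ_pos
  · rw [PU2_idx_eq]
    split_ifs
    · exact (hG u v).symm
    · rw [hG v u, Sym2.eq_swap]

theorem PU2_of_col (k n : ℕ) {col : List ℕ} (h : col ∈ PU2_lists (k * k) (n + 1)) :
    ∃ cc : Sym2 (Fin k) → Fin (n + 1),
      ∀ u v : Fin k, (cc s(u, v)).1 = col.getD (PU2_idx k u.1 v.1) 0 := by
  have hlt : ∀ i, col.getD i 0 < n + 1 := fun i => by
    by_cases hi : i < col.length
    · rw [List.getD_eq_getElem _ _ hi]
      exact (PU2_mem.1 h).2 _ (List.getElem_mem hi)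
    · rw [List.getD_eq_default _ _ (not_lt.1 hi)]
      exact n.succ_pos
  exact ⟨Sym2.lift ⟨fun u v => ⟨col.getD (PU2_idx k u.1 v.1) 0, hlt _⟩,
    fun u v => Fin.ext (by simp only [PU2_idx_comm k u.1 v.1])⟩, fun u v => rfl⟩

/-- The test for the arrow relation. -/
def PU2_arr (z : ((ℕ × List (ℕ × ℕ)) × ℕ) × ℕ × List (ℕ × ℕ)) : Bool :=
  (PU2_lists (z.2.1 * z.2.1) (z.1.2 + 1)).all fun col => (List.range (z.1.2 + 1)).any fun c =>
    (PU2_lists z.1.1.1 z.2.1).any fun f => PU2_cp z.1.1 z.2 col c f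

theorem PU2_arrow : ∃ F : ((ℕ × List (ℕ × ℕ)) × ℕ) × ℕ × List (ℕ × ℕ) → Bool, Primrec F ∧
    ∀ z, F z = true ↔ ∀ c : Sym2 (Fin z.2.1) → Fin (z.1.2 + 1),
      HasMonoCopy (graphOf z.1.1.1 z.1.1.2) (graphOf z.2.1 z.2.2) c := by
  refine ⟨PU2_arr, by unfold PU2_arr; fun_prop, fun z => ?_⟩
  simp only [PU2_arr, List.all_eq_true, List.any_eq_true, List.mem_range]
  constructor
  · intro H cc
    obtain ⟨col, h1, h2⟩ := PU2_col_of _ _ cc
    exact (PU2_mono z.1.1 z.2 z.1.2 col cc h2).2 (H col h1)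
  · intro H col h1
    obtain ⟨cc, h2⟩ := PU2_of_col _ _ h1
    exact (PU2_mono z.1.1 z.2 z.1.2 col cc h2).1 (H cc)

theorem prim_free : ∃ F : (ℕ × List (ℕ × ℕ)) × ℕ × List (ℕ × ℕ) → Bool, Primrec F ∧
    ∀ z, F z = true ↔ (graphOf z.1.1 z.1.2).Free (graphOf z.2.1 z.2.2) := by
  obtain ⟨F, hF, H⟩ := PU2_arrow
  refine ⟨fun z => !(F ((z.1, 0), z.2)), by fun_prop, fun z => ?_⟩
  rw [Bool.not_eq_true', ← Bool.not_eq_true, H]
  refine not_congr ⟨fun h => ?_, fun ⟨φ⟩ c => ⟨φ, 0, fun a b _ => Fin.ext ?_⟩⟩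
  · obtain ⟨φ, -⟩ := h fun _ => 0
    exact ⟨φ⟩
  · exact Nat.lt_one_iff.1 (Fin.is_lt _)

theorem prim_arrow : ∃ F : ((ℕ × List (ℕ × ℕ)) × ℕ) × ℕ × List (ℕ × ℕ) → Bool, Primrec F ∧
    ∀ z, F z = true ↔ ∀ c : Sym2 (Fin z.2.1) → Fin (z.1.2 + 1),
      HasMonoCopy (graphOf z.1.1.1 z.1.1.2) (graphOf z.2.1 z.2.2) c := PU2_arrow

end Pool.Agent.P.MP_48d4bc_co.EX.PI
end

-- part Pool.Agent.P.MP_48d4bc_co.PU3
section

set_option autoImplicit false

/-! The upper bound. -/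

namespace Pool.Agent.P.MP_48d4bc_co.EX.PI

open Pool.Agent.Lib.PrimrecProp

universe u

theorem PU3_re {A : Type} [Primcodable A] (F : A × (ℕ × List (ℕ × ℕ)) → Bool) (hF : Primrec F) :
    REPred fun a => ∃ q, F (a, q) = true := by
  have h1 : Primrec fun z : A × ℕ => F (z.1, Denumerable.ofNat (ℕ × List (ℕ × ℕ)) z.2) :=
    hF.comp (Primrec.fst.pair ((Primrec.ofNat _).comp Primrec.snd))
  have h2 : Partrec fun a : A => Nat.rfind fun k =>
      (Part.some (F (a, Denumerable.ofNat (ℕ × List (ℕ × ℕ)) k)) : Part Bool) :=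
    Partrec.rfind (p := fun a k => Part.some (F (a, Denumerable.ofNat (ℕ × List (ℕ × ℕ)) k)))
      h1.to_comp.partrec
  refine h2.dom_re.of_eq fun a => ?_
  refine Nat.rfind_dom.trans ?_
  constructor
  · rintro ⟨k, hk, -⟩
    exact ⟨_, (Part.mem_some_iff.1 hk).symm⟩
  · rintro ⟨q, hq⟩
    refine ⟨Encodable.encode q, ?_, fun _ => trivial⟩
    rw [Denumerable.ofNat_encode, hq]
    exact Part.mem_some _

theorem PU3_tri : graphOf 3 [(0, 1), (0, 2), (1, 2)] = ⊤ := by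
  ext a b
  fin_cases a <;> fin_cases b <;> simp [graphOf]

theorem PU3_free {β : Type} (G : SimpleGraph β) :
    (graphOf 3 [(0, 1), (0, 2), (1, 2)]).Free G ↔ G.CliqueFree 3 := by
  rw [PU3_tri]
  simpa using (SimpleGraph.cliqueFree_iff_top_free (G := G) (β := Fin 3)).symm

theorem upper {α : Type} [Finite α] (G₁ : SimpleGraph α) (h : G₁.Colorable 3) :
    ∃ R : (ℕ × List (ℕ × ℕ)) × ℕ → Prop, REPred R ∧ ∀ p : ℕ × List (ℕ × ℕ),
      (¬ (graphOf p.1 p.2).CliqueFree 3 ∧ Exceptional.{u} G₁ (graphOf p.1 p.2)) ↔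
        ∀ n, R (p, n) := by
  obtain ⟨g, ⟨e⟩⟩ := exists_code G₁
  obtain ⟨F, hF, hF'⟩ := prim_free
  obtain ⟨A, hA, hA'⟩ := prim_arrow
  have hB : Primrec fun z : ((ℕ × List (ℕ × ℕ)) × ℕ) × (ℕ × List (ℕ × ℕ)) =>
      (!F ((3, [(0, 1), (0, 2), (1, 2)]), z.1.1)) && (F (g, z.2) && A z) :=
    p_and (p_not (hF.comp ((Primrec.const _).pair (Primrec.fst.comp Primrec.fst))))
      (p_and (hF.comp ((Primrec.const _).pair Primrec.snd)) hA)
  refine ⟨_, PU3_re _ hB, fun p => ?_⟩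
  have key : ∀ n : ℕ, (∃ q : ℕ × List (ℕ × ℕ),
      ((!F ((3, [(0, 1), (0, 2), (1, 2)]), p)) && (F (g, q) && A ((p, n), q))) = true) ↔
      (¬ (graphOf p.1 p.2).CliqueFree 3 ∧ ∃ (V : Type u) (H : SimpleGraph V),
        G₁.Free H ∧ ∀ c : Sym2 V → Fin (n + 1), HasMonoCopy (graphOf p.1 p.2) H c) := by
    intro n
    rw [finite_host.{u} G₁ (graphOf p.1 p.2) n, ← PU3_free,
      ← hF' ((3, [(0, 1), (0, 2), (1, 2)]), p), ← exists_and_left]
    refine exists_congr fun q => ?_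
    rw [Bool.and_eq_true, Bool.and_eq_true, hF' (g, q), hA' ((p, n), q),
      SimpleGraph.free_congr_left e]
    simp
  constructor
  · rintro ⟨h1, h2, -⟩ n
    exact (key n).2 ⟨h1, h2 (n + 1) (by omega)⟩
  · intro hR
    have h1 := ((key 0).1 (hR 0)).1
    refine ⟨h1, fun n hn => ?_, fun V H hH => countable_colouring H h h1 hH⟩
    obtain ⟨m, rfl⟩ : ∃ m, n = m + 1 := ⟨n - 1, by omega⟩
    exact ((key m).1 (hR m)).2

end Pool.Agent.P.MP_48d4bc_co.EX.PI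
end

-- part Pool.Agent.P.MP_48d4bc_co.PF
section

set_option autoImplicit false

/-! The exceptional pairs are complete at the second level of the arithmetical hierarchy. -/

namespace Pool.Agent.P.MP_48d4bc_co.EX.PI

universe u

theorem exc_iff_inf {D : Dat} (hs : Shift D) :
    Exceptional.{u} GG (graphOf (sig D).size (sig D).code) ↔ Inf D := by
  rw [sig_wf.exc_iff]
  exact ⟨inf_of_p1 hs, fun h => sig_wf.p1 (gmodel hs h)⟩

theorem hard (R : ℕ × ℕ → Prop) (hR : REPred R) : ∃ f : ℕ → ℕ × List (ℕ × ℕ), Computable f ∧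
    ∀ e, ¬ (graphOf (f e).1 (f e).2).CliqueFree 3 ∧
      (Exceptional.{u} GG (graphOf (f e).1 (f e).2) ↔ ∀ n, R (e, n)) := by
  obtain ⟨G, Λ, _, _, _, M, S, ρ, c₀, I, hS, hρ, hI, hM⟩ := tm0_pi R hR
  obtain ⟨Q, _, N, q0, q1, h1, h2⟩ := exists_sm M S hS ρ hρ c₀
  obtain ⟨D, hD, h3⟩ := exists_dat N q0 q1 h1 I hI
  refine ⟨fun e => ((sig (D e)).size, (sig (D e)).code), (prim_code.comp hD).to_comp,
    fun e => ⟨EXBridge_tri sig_wf, (exc_iff_inf (h3 e).1).trans ?_⟩⟩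
  rw [← hM, co_iff]
  unfold Inf
  simp only [(h3 e).2, h2]

end Pool.Agent.P.MP_48d4bc_co.EX.PI
end
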