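import Mathlib
import Pool.Agent.K.MP_48d4bc_co.C1
import Pool.Agent.K.MP_48d4bc_co.C0

-- part Pool.Agent.P.MP_48d4bc_co.T3Defs
section

/-! Cone systems, stars and towers. -/

set_option autoImplicit false

namespace Pool.Agent.P.MP_48d4bc_co.T3

open Cardinal Set

/-- Cone systems with supports in `M`. -/
structure Sys (M : Type) where
  Z : Type
  C : Type
  pt : Z
  ap : C → Z
  F : C → Set Z
  h : C → Z → Z → Prop
  supp : C → Set M
  base : Z → Z → Set M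
  root : C → Set M
  h_left : ∀ {X a b}, h X a b → a ∈ F X
  h_right : ∀ {X a b}, h X a b → b ∈ F X
  h_wf : ∀ X, WellFounded (h X)
  ap_not : ∀ X, ap X ∉ F X
  base_ap : ∀ {X b}, b ∈ F X → base (ap X) b = root X
  base_sub : ∀ {X a b}, h X a b → base a b ⊆ supp X
  root_sub : ∀ X, root X ⊆ supp X

variable {M : Type}

namespace Sys

variable (S : Sys M)

/-- arcs of a cone -/
def arc (X : S.C) (a b : S.Z) : Prop := (a = S.ap X ∧ b ∈ S.F X) ∨ S.h X a b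

/-- points of a cone -/
def pts (X : S.C) : Set S.Z := insert (S.ap X) (S.F X)

/-- points of a family of cones -/
def ptsF (A : Set S.C) : Set S.Z := {p | ∃ X ∈ A, p ∈ S.pts X}

/-- all cones are small -/
def Small (σ : Cardinal.{0}) : Prop := ∀ X, #(S.F X) ≤ σ ∧ #(S.supp X) ≤ σ

/-- the horizontal arcs are locally bipartite -/
def Bip (m : ℕ) : Prop := ∀ (X : S.C) (P : Finset S.Z), P.card ≤ m →
  ∃ c : S.Z → Bool, ∀ a ∈ P, ∀ b ∈ P, S.h X a b → c a ≠ c b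

/-- the horizontal arcs have no proper colouring -/
def Large (L : Type) (X : S.C) : Prop := ∀ c : S.Z → L, ∃ a b, S.h X a b ∧ c a = c b

/-- the partition property -/
def Ram (Λ L : Type) (κ : Cardinal.{0}) : Prop :=
  ∀ (π : S.Z → S.Z → Λ) (D : S.Z → S.Z → Set M), (∀ a b, #(D a b) ≤ κ) →
    ∃ (X : S.C) (j : Λ), S.Large L X ∧
      ∀ a b, S.arc X a b → π a b = j ∧ S.supp X ∩ D a b ⊆ S.base a b

/-- free families of cones -/
inductive Free : ℕ → Set S.C → Prop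
  | one (X : S.C) : Free 1 {X}
  | add {n : ℕ} {A : Set S.C} {X Y : S.C} {a b : S.Z} (hA : Free n A) (hX : X ∈ A)
      (h1 : S.arc X a b) (h2 : S.arc Y a b)
      (h3 : ∀ X' ∈ A, S.supp Y ∩ S.supp X' ⊆ S.base a b) : Free (n + 1) (insert Y A)
  | up {n : ℕ} {A : Set S.C} (hA : Free n A) : Free (n + 1) A

/-- proper colourings of the arcs inside `P` -/
def Col (G : Set S.C) (P : Finset S.Z) : Prop :=
  ∃ c : S.Z → Fin 3, ∀ X ∈ G, ∀ a ∈ P, ∀ b ∈ P, S.arc X a b → c a ≠ c b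

variable {S}

theorem arc.left {X : S.C} {a b : S.Z} (h : S.arc X a b) : a ∈ S.pts X := by
  rcases h with ⟨h, -⟩ | h
  · exact Or.inl h
  · exact Or.inr (S.h_left h)

theorem arc.right' {X : S.C} {a b : S.Z} (h : S.arc X a b) : b ∈ S.F X := by
  rcases h with ⟨-, h⟩ | h
  · exact h
  · exact S.h_right h

theorem arc.right {X : S.C} {a b : S.Z} (h : S.arc X a b) : b ∈ S.pts X := Or.inr h.right'

theorem arc.base_sub {X : S.C} {a b : S.Z} (h : S.arc X a b) : S.base a b ⊆ S.supp X := by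
  rcases h with ⟨rfl, h⟩ | h
  · rw [S.base_ap h]
    exact S.root_sub X
  · exact S.base_sub h

theorem arc.ne {X : S.C} {a b : S.Z} (h : S.arc X a b) : a ≠ b := by
  rintro rfl
  rcases h with ⟨rfl, h⟩ | h
  · exact S.ap_not X h
  · exact (S.h_wf X).irrefl.irrefl a h

theorem Free.mono {n m : ℕ} {A : Set S.C} (h : S.Free n A) (hm : n ≤ m) : S.Free m A := by
  induction hm with
  | refl => exact h
  | step _ ih => exact ih.up

theorem Free.encard_le {n : ℕ} {A : Set S.C} (h : S.Free n A) : A.encard ≤ n := by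
  induction h with
  | one X => simp
  | add _ _ _ _ _ ih =>
    refine (encard_insert_le _ _).trans ?_
    push_cast
    gcongr
  | up _ ih =>
    refine ih.trans ?_
    push_cast
    exact le_self_add

end Sys

/-- A centre with leaves and a marker. -/
structure Star (σ : Cardinal.{0}) (S : Sys M) where
  cen : S.C
  lv : Set S.C
  tag : M
  leaf : ∀ N ∈ lv, ∃ b ∈ S.F cen, S.h N (S.ap cen) b
  sep : ∀ N ∈ lv, ∀ N' ∈ insert cen lv, N ≠ N' → S.supp N ∩ S.supp N' ⊆ S.root cen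
  fresh : ∀ N ∈ insert cen lv, tag ∉ S.supp N
  small : #(lv) ≤ σ

namespace Star

variable {σ : Cardinal.{0}} {S : Sys M} (d : Star σ S)

/-- the cones of a star -/
def mem : Set S.C := insert d.cen d.lv

/-- the support of a star -/
def dsupp : Set M := {x | x = d.tag ∨ ∃ N ∈ d.mem, x ∈ S.supp N}

/-- the support without one cone -/
def outer (ξ : S.C) : Set M := {x | x = d.tag ∨ ∃ N ∈ d.mem, N ≠ ξ ∧ x ∈ S.supp N}

theorem cen_mem : d.cen ∈ d.mem := Or.inl rfl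

theorem mem_of_lv {N : S.C} (h : N ∈ d.lv) : N ∈ d.mem := Or.inr h

theorem supp_sub {N : S.C} (h : N ∈ d.mem) : S.supp N ⊆ d.dsupp := fun _ hx => Or.inr ⟨N, h, hx⟩

theorem supp_sub_outer {N ξ : S.C} (h : N ∈ d.mem) (h' : N ≠ ξ) : S.supp N ⊆ d.outer ξ :=
  fun _ hx => Or.inr ⟨N, h, h', hx⟩

theorem outer_sub (ξ : S.C) : d.outer ξ ⊆ d.dsupp := by
  rintro x (h | ⟨N, h, -, h'⟩)
  exacts [Or.inl h, Or.inr ⟨N, h, h'⟩]

theorem dsupp_sub (ξ : S.C) : d.dsupp ⊆ d.outer ξ ∪ S.supp ξ := by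
  rintro x (h | ⟨N, h, h'⟩)
  · exact Or.inl (Or.inl h)
  · by_cases e : N = ξ
    · exact Or.inr (e ▸ h')
    · exact Or.inl (Or.inr ⟨N, h, e, h'⟩)

theorem sep' {N N' : S.C} (h : N ∈ d.mem) (h' : N' ∈ d.mem) (e : N ≠ N') :
    S.supp N ∩ S.supp N' ⊆ S.root d.cen := by
  rcases h with rfl | h
  · rcases h' with rfl | h'
    · exact absurd rfl e
    · rw [inter_comm]
      exact d.sep _ h' _ (Or.inl rfl) e.symm
  · exact d.sep _ h _ h' e

theorem mk_dsupp_le (hσ : ℵ₀ ≤ σ) (hS : S.Small σ) : #(d.dsupp) ≤ σ := by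
  have h1 : d.dsupp = insert d.tag (⋃ N ∈ d.mem, S.supp N) := by
    ext x
    simp [dsupp]
  have h2 : #(d.mem) ≤ σ :=
    mk_insert_le.trans (add_le_of_le hσ d.small (one_le_aleph0.trans hσ))
  rw [h1]
  refine mk_insert_le.trans (add_le_of_le hσ ?_ (one_le_aleph0.trans hσ))
  refine (mk_biUnion_le _ _).trans (mul_le_of_le hσ h2 ?_)
  exact ciSup_le' fun N => (hS N.1).2

end Star

/-- `γ` is the first place where the branches differ -/
def Meet {Θ V : Type} [LinearOrder Θ] (br : V → Θ → V) (p q : V) (γ : Θ) : Prop :=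
  br p γ ≠ br q γ ∧ ∀ δ, δ < γ → br p δ = br q δ

section Meet

variable {Θ V : Type} [LinearOrder Θ] {br : V → Θ → V} {p q r : V} {γ γ' : Θ}

theorem Meet.symm (h : Meet br p q γ) : Meet br q p γ :=
  ⟨h.1.symm, fun δ hδ => (h.2 δ hδ).symm⟩

theorem Meet.ne (h : Meet br p q γ) : p ≠ q := fun e => h.1 (by rw [e])

theorem Meet.unique (h : Meet br p q γ) (h' : Meet br p q γ') : γ = γ' := by
  rcases lt_trichotomy γ γ' with e | e | e
  exacts [absurd (h'.2 _ e) h.1, e, absurd (h.2 _ e) h'.1]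

theorem Meet.trans (h : Meet br p q γ) (h' : Meet br r q γ') (e : γ < γ') : Meet br p r γ :=
  ⟨by rw [h'.2 _ e]; exact h.1, fun δ hδ => by rw [h.2 _ hδ, h'.2 _ (hδ.trans e)]⟩

end Meet

/-- The system `S'` lies over the system `S`. -/
structure Over (σ : Cardinal.{0}) (S S' : Sys M) where
  Θ : Type
  lo : LinearOrder Θ
  dat : Θ → Star σ S
  lab : S'.Z → S.Z
  br : S'.Z → Θ → S'.Z
  dn : S'.C → S.C
  y : S'.C → Θ → S'.Z
  Pos : S'.C → Set Θ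
  pts_eq : ∀ X, S'.pts X = y X '' Pos X
  br_lt : ∀ X γ δ, δ < γ → br (y X γ) δ = y X δ
  br_ne : ∀ X γ, br (y X γ) γ ≠ y X γ
  arc_pos : ∀ {X p q}, S'.arc X p q → ∃ μ ∈ Pos X, ∃ ν ∈ Pos X, μ < ν ∧ p = y X μ ∧ q = y X ν ∧
    S'.base p q = (dat μ).dsupp ∧ lab p = S.ap (dat μ).cen ∧ lab q ∈ S.F (dat μ).cen ∧
    S.arc (dn X) (lab p) (lab q)
  dn_mem : ∀ {X γ}, γ ∈ Pos X → dn X ∈ (dat γ).mem
  supp_eq : ∀ X, S'.supp X = ⋃ γ ∈ Pos X, (dat γ).dsupp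
  inv : ∀ {X γ δ N}, γ ∈ Pos X → δ ∈ Pos X → γ ≠ δ → N ∈ (dat γ).mem → N ≠ dn X →
    S.supp N ∩ (dat δ).dsupp ⊆ S.root (dat γ).cen
  mark : ∀ {X γ δ}, γ ∈ Pos X → δ ∈ Pos X → γ ≠ δ → (dat γ).tag ∉ (dat δ).dsupp

namespace Over

variable {σ : Cardinal.{0}} {S S' : Sys M} (O : Over σ S S')

instance : LinearOrder O.Θ := O.lo

/-- positions of a family of cones -/
def PosF (A : Set S'.C) : Set O.Θ := {γ | ∃ X ∈ A, γ ∈ O.Pos X}

theorem meet_y (X : S'.C) {γ δ : O.Θ} (h : γ < δ) : Meet O.br (O.y X γ) (O.y X δ) γ :=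
  ⟨by rw [O.br_lt X δ γ h]; exact O.br_ne X γ,
    fun ε hε => by rw [O.br_lt X γ ε hε, O.br_lt X δ ε (hε.trans h)]⟩

theorem pos_nonempty (X : S'.C) : (O.Pos X).Nonempty := by
  have : S'.ap X ∈ S'.pts X := Or.inl rfl
  rw [O.pts_eq] at this
  obtain ⟨γ, h, -⟩ := this
  exact ⟨γ, h⟩

end Over

/-- towers of systems -/
inductive Tw (σ : Cardinal.{0}) : ℕ → Sys M → Prop
  | zero (S : Sys M) : Tw σ 0 S
  | succ {n : ℕ} {S S' : Sys M} (h : Tw σ n S) (O : Over σ S S') (b : S'.Bip (n + 1)) :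
      Tw σ (n + 1) S'

theorem Tw.bip {σ : Cardinal.{0}} {n : ℕ} {S : Sys M} (h : Tw σ n S) : S.Bip n := by
  cases h with
  | zero S =>
    intro X P hP
    refine ⟨fun _ => true, fun a ha => ?_⟩
    rw [Finset.card_eq_zero.1 (Nat.le_zero.1 hP)] at ha
    exact absurd ha (Finset.notMem_empty a)
  | succ _ _ b => exact b

/-- well founded trees -/
inductive Tr (Z Θ : Type) : Type
  | nil : Tr Z Θ
  | mk (a : Z) (B : Θ → Tr Z Θ) : Tr Z Θ

/-- the branch of a tree -/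
def Tr.br {Z Θ : Type} : Tr Z Θ → Θ → Tr Z Θ
  | .nil => fun _ => .nil
  | .mk _ B => B

/-- the label of a tree -/
def Tr.lab {Z Θ : Type} (z : Z) : Tr Z Θ → Z
  | .nil => z
  | .mk a _ => a

theorem Tr.br_ne {Z Θ : Type} (a : Z) (B : Θ → Tr Z Θ) (γ : Θ) : B γ ≠ Tr.mk a B := by
  have key : ∀ p : Tr Z Θ, p ≠ .nil → p.br γ ≠ p := by
    intro p
    induction p with
    | nil => exact fun h => absurd rfl h
    | mk a B ih =>
      intro _ h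
      have h' : B γ = Tr.mk a B := h
      refine ih γ (by rw [h']; exact nofun) ?_
      rw [h']
      exact h'
  exact key (Tr.mk a B) nofun

/-- horizontal arcs inside `T` -/
def Idx (S : Sys M) (ξ : S.C) (T : Set S.Z) (e : S.Z × S.Z) : Prop :=
  e.1 ∈ T ∧ e.2 ∈ T ∧ S.h ξ e.1 e.2

/-- the cones of the next system -/
structure Cone {σ : Cardinal.{0}} {S : Sys M} {Θ : Type} [LinearOrder Θ]
    (dat : Θ → Star σ S) where
  y : Θ → Tr S.Z Θ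
  β : Θ
  T : Set S.Z
  α : S.Z × S.Z → Θ
  node : ∀ γ, ∃ B, y γ = Tr.mk (S.ap (dat γ).cen) B ∧ ∀ δ, δ < γ → B δ = y δ
  lt : ∀ {e}, Idx S (dat β).cen T e → β < α e
  lt' : ∀ {e e'}, Idx S (dat β).cen T e → Idx S (dat β).cen T e' → e.2 = e'.1 → α e < α e'
  ap_eq : ∀ {e}, Idx S (dat β).cen T e → S.ap (dat (α e)).cen = e.1
  mem : ∀ {e}, Idx S (dat β).cen T e → e.2 ∈ S.F (dat (α e)).cen
  leaf : ∀ {e}, Idx S (dat β).cen T e → (dat β).cen ∈ (dat (α e)).lv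
  out0 : ∀ {e}, Idx S (dat β).cen T e →
    (dat (α e)).outer (dat β).cen ∩ (dat β).dsupp ⊆ S.base e.1 e.2
  out : ∀ {e e'}, Idx S (dat β).cen T e → Idx S (dat β).cen T e' → e ≠ e' →
    (dat (α e)).outer (dat β).cen ∩ (dat (α e')).outer (dat β).cen ⊆ S.base e.1 e.2

namespace Cone

variable {σ : Cardinal.{0}} {S : Sys M} {Θ : Type} [LinearOrder Θ] {dat : Θ → Star σ S}
  (X : Cone dat)

/-- the index set -/
def I (e : S.Z × S.Z) : Prop := Idx S (dat X.β).cen X.T e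

/-- the positions -/
def Pos : Set Θ := {γ | γ = X.β ∨ ∃ e, X.I e ∧ γ = X.α e}

theorem br_lt {γ δ : Θ} (h : δ < γ) : (X.y γ).br δ = X.y δ := by
  obtain ⟨B, h1, h2⟩ := X.node γ
  rw [h1]
  exact h2 δ h

theorem br_ne (γ : Θ) : (X.y γ).br γ ≠ X.y γ := by
  obtain ⟨B, h1, -⟩ := X.node γ
  rw [h1]
  exact Tr.br_ne _ B γ

theorem lab_y (z : S.Z) (γ : Θ) : (X.y γ).lab z = S.ap (dat γ).cen := by
  obtain ⟨B, h1, -⟩ := X.node γ
  rw [h1]
  rfl

theorem meet {γ δ : Θ} (h : γ < δ) : Meet Tr.br (X.y γ) (X.y δ) γ :=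
  ⟨by rw [X.br_lt h]; exact X.br_ne γ, fun ε hε => by rw [X.br_lt hε, X.br_lt (hε.trans h)]⟩

theorem y_inj : Function.Injective X.y := by
  intro γ δ e
  rcases lt_trichotomy γ δ with h | h | h
  exacts [absurd e (X.meet h).ne, h, absurd e.symm (X.meet h).ne]

end Cone

theorem base_of_meet {σ : Cardinal.{0}} {S : Sys M} {Θ V : Type} [LinearOrder Θ]
    {dat : Θ → Star σ S} {br : V → Θ → V} {p q : V} {μ : Θ} (h : Meet br p q μ) :
    {x | ∃ γ, Meet br p q γ ∧ x ∈ (dat γ).dsupp} = (dat μ).dsupp := by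
  ext x
  exact ⟨fun ⟨γ, h1, h2⟩ => h1.unique h ▸ h2, fun h2 => ⟨μ, h, h2⟩⟩

/-- the next system -/
def step {σ : Cardinal.{0}} {S : Sys M} {Θ : Type} [LinearOrder Θ] [WellFoundedLT Θ]
    (dat : Θ → Star σ S) : Sys M where
  Z := Tr S.Z Θ
  C := Cone dat
  pt := Tr.nil
  ap X := X.y X.β
  F X := {p | ∃ e, X.I e ∧ p = X.y (X.α e)}
  h X p q := ∃ e e', X.I e ∧ X.I e' ∧ e.2 = e'.1 ∧ p = X.y (X.α e) ∧ q = X.y (X.α e')
  supp X := ⋃ γ ∈ X.Pos, (dat γ).dsupp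
  base p q := {x | ∃ γ, Meet Tr.br p q γ ∧ x ∈ (dat γ).dsupp}
  root X := (dat X.β).dsupp
  h_left := fun ⟨e, _, h, _, _, hp, _⟩ => ⟨e, h, hp⟩
  h_right := fun ⟨_, e, _, h, _, _, hq⟩ => ⟨e, h, hq⟩
  h_wf X := by
    have : Nonempty Θ := ⟨X.β⟩
    refine Subrelation.wf ?_ (InvImage.wf (Function.invFun X.y) wellFounded_lt)
    rintro p q ⟨e, e', h, h', h2, rfl, rfl⟩
    change Function.invFun X.y _ < Function.invFun X.y _
    rw [Function.leftInverse_invFun X.y_inj, Function.leftInverse_invFun X.y_inj]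
    exact X.lt' h h' h2
  ap_not X := fun ⟨_, h, he⟩ => (X.lt h).ne (X.y_inj he)
  base_ap := by
    rintro X b ⟨e, h, rfl⟩
    exact base_of_meet (X.meet (X.lt h))
  base_sub := by
    rintro X p q ⟨e, e', h, h', h2, rfl, rfl⟩
    rw [base_of_meet (X.meet (X.lt' h h' h2))]
    exact subset_biUnion_of_mem (u := fun γ => (dat γ).dsupp) (Or.inr ⟨e, h, rfl⟩)
  root_sub X := subset_biUnion_of_mem (u := fun γ => (dat γ).dsupp) (Or.inl rfl)

end Pool.Agent.P.MP_48d4bc_co.T3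
end

-- part Pool.Agent.P.MP_48d4bc_co.T3Root
section

/-! Recursive choices and roots. -/

set_option autoImplicit false

namespace Pool.Agent.P.MP_48d4bc_co.T3

open Cardinal Set

theorem exists_rec_wf {K S : Type} {r : K → K → Prop} (wf : WellFounded r) [Nonempty S]
    (Q : K → (K → S) → S → Prop)
    (hQ : ∀ ξ f g, (∀ ζ, r ζ ξ → f ζ = g ζ) → Q ξ f = Q ξ g) :
    ∃ f : K → S, ∀ ξ, (∃ x, Q ξ f x) → Q ξ f (f ξ) := by
  classical
  let d : S := Classical.arbitrary S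
  let f : K → S := wf.fix
    (fun ξ rec => Classical.epsilon (Q ξ (fun ζ => if h : r ζ ξ then rec ζ h else d)))
  refine ⟨f, fun ξ h => ?_⟩
  have h1 : f ξ = Classical.epsilon (Q ξ (fun ζ => if _h : r ζ ξ then f ζ else d)) := by
    simp only [f]
    rw [WellFounded.fix_eq]
  rw [h1, hQ ξ _ f fun ζ h => dif_pos h]
  exact Classical.epsilon_spec h

theorem mk_bU_le {ι M : Type} {κ : Cardinal.{0}} (hκ : ℵ₀ ≤ κ) {A : Set ι} (hA : #A ≤ κ)
    {f : ι → Set M} (hf : ∀ i ∈ A, #(f i) ≤ κ) : #(⋃ i ∈ A, f i) ≤ κ :=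
  (mk_biUnion_le _ _).trans (mul_le_of_le hκ hA (ciSup_le' fun i => hf i.1 i.2))

theorem mk_U_le {M : Type} {κ : Cardinal.{0}} (hκ : ℵ₀ ≤ κ) {A B : Set M} (hA : #A ≤ κ)
    (hB : #B ≤ κ) : #(A ∪ B : Set M) ≤ κ :=
  (mk_union_le _ _).trans (add_le_of_le hκ hA hB)

theorem mk_prod_le {ι ι' : Type} {κ : Cardinal.{0}} (hκ : ℵ₀ ≤ κ) {A : Set ι} {B : Set ι'}
    (hA : #A ≤ κ) (hB : #B ≤ κ) : #(A ×ˢ B : Set (ι × ι')) ≤ κ := by
  rw [mk_setProd]
  exact mul_le_of_le hκ hA hB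

/-- successive choices, each one avoiding the traces of the earlier ones -/
theorem exists_seq {ι X M : Type} [Nonempty X] {κ : Cardinal.{0}} (hκ : ℵ₀ ≤ κ) {A : Set ι}
    (hA : #A ≤ κ) {E₀ : Set M} (hE : #E₀ ≤ κ) (Φ : ι → Set M → X → Prop) (fp : ι → X → Set M)
    (hfp : ∀ i x, #(fp i x) ≤ κ) (h : ∀ i ∈ A, ∀ E : Set M, #E ≤ κ → ∃ x, Φ i E x) :
    ∃ (f : ι → X) (E : ι → Set M), (∀ i ∈ A, E₀ ⊆ E i ∧ Φ i (E i) (f i)) ∧
      ∀ i ∈ A, ∀ i' ∈ A, i ≠ i' → fp i (f i) ⊆ E i' ∨ fp i' (f i') ⊆ E i := by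
  let r : ι → ι → Prop := WellOrderingRel
  let En : ι → (ι → X) → Set M := fun i f => E₀ ∪ ⋃ i' ∈ {i' | i' ∈ A ∧ r i' i}, fp i' (f i')
  obtain ⟨f, hf⟩ := exists_rec_wf (WellOrderingRel.isWellOrder (α := ι)).wf
    (fun i f x => Φ i (En i f) x) (fun i f g hfg => by
      have : En i f = En i g := by
        simp only [En]
        congr 1
        exact iUnion₂_congr fun i' hi' => by rw [hfg i' hi'.2]
      rw [this])
  refine ⟨f, fun i => En i f, fun i hi => ⟨subset_union_left, hf i (h i hi _ ?_)⟩, ?_⟩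
  · exact mk_U_le hκ hE (mk_bU_le hκ ((mk_le_mk_of_subset fun _ h => h.1).trans hA)
      fun i' _ => hfp _ _)
  · intro i hi i' hi' hne
    rcases trichotomous_of (WellOrderingRel (α := ι)) i i' with e | e | e
    · exact Or.inl fun x hx => Or.inr (mem_biUnion (t := fun i => fp i (f i)) ⟨hi, e⟩ hx)
    · exact absurd e hne
    · exact Or.inr fun x hx => Or.inr (mem_biUnion (t := fun i => fp i (f i)) ⟨hi', e⟩ hx)

/-- the root lemma -/
theorem exists_root {ι M : Type} {κ : Cardinal.{0}} (hκ : ℵ₀ ≤ κ) (Φ : Set M → ι → Prop)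
    (hΦ : ∀ E E' i, E ⊆ E' → Φ E' i → Φ E i) (D : ι → Set M) (hD : ∀ i, #(D i) ≤ κ)
    (h : ∀ E : Set M, #E ≤ Order.succ κ → ∃ i, Φ E i) :
    ∃ R : Set M, #R ≤ κ ∧ ∀ E : Set M, #E ≤ κ → ∃ i, Φ E i ∧ D i ∩ E ⊆ R := by
  by_contra hn
  have h1 : ∀ R : Set M, ∃ E : Set M, #E ≤ κ ∧ (#R ≤ κ → ∀ i, Φ E i → ¬ D i ∩ E ⊆ R) := by
    intro R
    by_cases hR : #R ≤ κ
    · by_contra h2
      refine hn ⟨R, hR, fun E hE => ?_⟩
      by_contra h3
      exact h2 ⟨E, hE, fun _ i hi h4 => h3 ⟨i, hi, h4⟩⟩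
    · exact ⟨∅, by simp, fun h => absurd h hR⟩
  choose En hE1 hE2 using h1
  let K : Type := (Order.succ κ).ord.ToType
  have hK : #K = Order.succ κ := by simp [K]
  obtain ⟨f, hf⟩ := exists_rec_wf (K := K) wellFounded_lt
    (fun ν (f : K → Set M) x => x = En (⋃ μ ∈ Iio ν, f μ)) (fun ν f g hfg => by
      have : ⋃ μ ∈ Iio ν, f μ = ⋃ μ ∈ Iio ν, g μ := iUnion₂_congr fun μ hμ => hfg μ hμ
      rw [this])
  have hf' : ∀ ν, f ν = En (⋃ μ ∈ Iio ν, f μ) := fun ν => hf ν ⟨_, rfl⟩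
  have hs : ∀ ν, #(f ν) ≤ κ := fun ν => hf' ν ▸ hE1 _
  have hκ' : ℵ₀ ≤ Order.succ κ := hκ.trans (Order.le_succ κ)
  obtain ⟨i, hi⟩ := h (⋃ ν ∈ (univ : Set K), f ν)
    (mk_bU_le hκ' (by rw [mk_univ, hK]) fun ν _ => (hs ν).trans (Order.le_succ κ))
  have h2 : ∀ ν : K, ∃ x : D i, x.1 ∈ f ν ∧ x.1 ∉ ⋃ μ ∈ Iio ν, f μ := by
    intro ν
    have h3 : #(Iio ν) ≤ κ := Order.lt_succ_iff.1 ((mk_Iio_lt ν (by simp [K])).trans_eq hK)
    have h4 := hE2 _ (mk_bU_le hκ h3 fun μ _ => hs μ) i (hΦ _ _ i (by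
      rw [← hf' ν]
      exact subset_biUnion_of_mem (mem_univ ν)) hi)
    obtain ⟨x, ⟨hx1, hx2⟩, hx3⟩ := not_subset.1 h4
    exact ⟨⟨x, hx1⟩, hf' ν ▸ hx2, hx3⟩
  choose x hx1 hx2 using h2
  have hinj : Function.Injective x := by
    intro μ ν e
    rcases lt_trichotomy μ ν with h | h | h
    · exact absurd (mem_iUnion₂.2 ⟨μ, h, e ▸ hx1 μ⟩) (hx2 ν)
    · exact h
    · exact absurd (mem_iUnion₂.2 ⟨ν, h, e ▸ hx1 ν⟩) (hx2 μ)
  have h5 := (mk_le_of_injective hinj).trans (hD i)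
  rw [hK] at h5
  exact absurd h5 (not_le.2 (Order.lt_succ κ))

theorem exists_fresh {M : Type} {κ : Cardinal.{0}} (hM : κ < #M) {E : Set M} (hE : #E ≤ κ) :
    ∃ x, x ∉ E := by
  by_contra h
  have : E = Set.univ := eq_univ_of_forall fun x => by
    by_contra hx
    exact h ⟨x, hx⟩
  rw [this, mk_univ] at hE
  exact absurd hE (not_le.2 hM)

end Pool.Agent.P.MP_48d4bc_co.T3
end

-- part Pool.Agent.P.MP_48d4bc_co.T3Star
section

/-! The star at the apex. -/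

set_option autoImplicit false

namespace Pool.Agent.P.MP_48d4bc_co.T3

open Cardinal Set

variable {M : Type} {σ κ : Cardinal.{0}} {S : Sys M} {Λ L : Type}

/-- stars that can be put on the arc `(a, b)` of the leaf `ξ` -/
def Fit (j : Star σ S → S.Z → Λ) (ξ : S.C) (i : Λ) (a b : S.Z) (E : Set M) (d : Star σ S) :
    Prop :=
  S.ap d.cen = a ∧ b ∈ S.F d.cen ∧ ξ ∈ d.lv ∧ j d b = i ∧ d.outer ξ ∩ E ⊆ S.base a b

theorem Fit.anti {j : Star σ S → S.Z → Λ} {ξ : S.C} {i : Λ} {a b : S.Z} {E E' : Set M}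
    {d : Star σ S} (h : E ⊆ E') (h' : Fit j ξ i a b E' d) : Fit j ξ i a b E d :=
  ⟨h'.1, h'.2.1, h'.2.2.1, h'.2.2.2.1, (inter_subset_inter_right _ h).trans h'.2.2.2.2⟩

theorem exists_star (hσ : ℵ₀ ≤ σ) (hκ : σ ≤ κ) (hΛ : #Λ ≤ σ) (hM : Order.succ κ < #M)
    (hS : S.Small σ) (hR : S.Ram (Set Λ) L (Order.succ (Order.succ κ)))
    (j : Star σ S → S.Z → Λ) (D : Star σ S → S.Z → Set M) (hD : ∀ d a, #(D d a) ≤ κ) :
    ∃ (d₀ : Star σ S) (R : Set M), #R ≤ κ ∧ S.Large L d₀.cen ∧ d₀.dsupp ∩ R ⊆ S.supp d₀.cen ∧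
      ∀ η ∈ S.F d₀.cen, ∀ a b, S.h d₀.cen a b → ∀ E : Set M, #E ≤ κ →
        ∃ d, Fit j d₀.cen (j d₀ η) a b E d ∧ D d b ∩ E ⊆ R := by
  classical
  have k0 : ℵ₀ ≤ κ := hσ.trans hκ
  have k1 : κ ≤ Order.succ κ := Order.le_succ κ
  have k2 : ℵ₀ ≤ Order.succ κ := k0.trans k1
  have k3 : Order.succ κ ≤ Order.succ (Order.succ κ) := Order.le_succ _
  have kΛ : ∀ A : Set Λ, #A ≤ σ := fun A => (mk_set_le A).trans hΛ
  -- good triples, their roots and the witnesses for bad triples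
  let good : S.C → Λ → S.Z → S.Z → Prop := fun ξ i a b =>
    ∀ E : Set M, #E ≤ Order.succ κ → ∃ d, Fit j ξ i a b E d
  have h1 : ∀ ξ i a b, ∃ R : Set M, #R ≤ κ ∧ (good ξ i a b →
      ∀ E : Set M, #E ≤ κ → ∃ d, Fit j ξ i a b E d ∧ D d b ∩ E ⊆ R) := by
    intro ξ i a b
    by_cases h : good ξ i a b
    · obtain ⟨R, r1, r2⟩ := exists_root k0 (Fit j ξ i a b) (fun _ _ _ => Fit.anti)
        (fun d => D d b) (fun d => hD d b) h
      exact ⟨R, r1, fun _ => r2⟩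
    · exact ⟨∅, by simp, fun q => absurd q h⟩
  choose R hR1 hR2 using h1
  have h2 : ∀ ξ i a b, ∃ W : Set M, #W ≤ Order.succ κ ∧ (¬ good ξ i a b →
      ∀ d, ¬ Fit j ξ i a b W d) := by
    intro ξ i a b
    by_cases h : good ξ i a b
    · exact ⟨∅, by simp, fun q => absurd h q⟩
    · obtain ⟨W, hW⟩ := not_forall.1 h
      obtain ⟨w1, w2⟩ := Classical.not_imp.1 hW
      exact ⟨W, w1, fun _ d hd => w2 ⟨d, hd⟩⟩
  choose W hW1 hW2 using h2
  -- robustly bad colours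
  let bad : Λ → S.Z → S.Z → Set M → S.C → Prop := fun i a b E ξ =>
    S.h ξ a b ∧ S.supp ξ ∩ E ⊆ S.base a b ∧ ¬ good ξ i a b
  let P : S.Z → S.Z → Set Λ := fun a b =>
    {i | ∀ E : Set M, #E ≤ Order.succ (Order.succ κ) → ∃ ξ, bad i a b E ξ}
  have h3 : ∀ i a b, ∃ U : Set M, #U ≤ Order.succ (Order.succ κ) ∧
      (i ∈ P a b → #U ≤ Order.succ κ ∧ ∀ E : Set M, #E ≤ Order.succ κ →
        ∃ ξ, bad i a b E ξ ∧ W ξ i a b ∩ E ⊆ U) ∧
      (i ∉ P a b → ∀ ξ, ¬ bad i a b U ξ) := by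
    intro i a b
    by_cases h : i ∈ P a b
    · obtain ⟨U, u1, u2⟩ := exists_root k2 (bad i a b) (fun E E' ξ hE q =>
        ⟨q.1, (inter_subset_inter_right _ hE).trans q.2.1, q.2.2⟩)
        (fun ξ => W ξ i a b) (fun ξ => hW1 ξ i a b) h
      exact ⟨U, u1.trans k3, fun _ => ⟨u1, u2⟩, fun q => absurd h q⟩
    · obtain ⟨U, hU⟩ := not_forall.1 h
      obtain ⟨u1, u2⟩ := Classical.not_imp.1 hU
      exact ⟨U, u1, fun q => absurd q h, fun _ ξ q => u2 ⟨ξ, q⟩⟩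
  choose U hU1 hU2 hU3 using h3
  obtain ⟨ζ, P₀, hL, hζ⟩ := hR P (fun a b => ⋃ i ∈ (Set.univ : Set Λ), U i a b) fun a b =>
    mk_bU_le (k2.trans k3) ((kΛ _).trans (hκ.trans (k1.trans k3))) fun i _ => hU1 i a b
  have hζ' : ∀ a b i, S.arc ζ a b → S.supp ζ ∩ U i a b ⊆ S.base a b := fun a b i h =>
    (inter_subset_inter_right _ (subset_biUnion_of_mem (u := fun i => U i a b)
      (mem_univ i))).trans (hζ a b h).2
  have hv : ∀ η ∈ S.F ζ, S.arc ζ (S.ap ζ) η := fun η h => Or.inl ⟨rfl, h⟩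
  -- the leaves
  let A : Set (S.Z × Λ) := S.F ζ ×ˢ P₀
  have hA : #A ≤ σ := mk_prod_le hσ (hS ζ).1 (kΛ _)
  have hP : ∀ q ∈ A, q.2 ∈ P (S.ap ζ) q.1 := fun q hq => by
    rw [(hζ _ _ (hv _ hq.1)).1]
    exact hq.2
  let R₀ : Set M := ⋃ q ∈ (S.F ζ ×ˢ S.F ζ) ×ˢ (Set.univ : Set Λ), R ζ q.2 q.1.1 q.1.2
  have hR₀ : #R₀ ≤ κ := mk_bU_le k0 ((mk_prod_le hσ (mk_prod_le hσ (hS ζ).1 (hS ζ).1)
    (kΛ _)).trans hκ) fun q _ => hR1 _ _ _ _
  let U₀ : Set M := ⋃ q ∈ A, U q.2 (S.ap ζ) q.1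
  have hU₀ : #U₀ ≤ Order.succ κ := mk_bU_le k2 (hA.trans (hκ.trans k1))
    fun q hq => (hU2 _ _ _ (hP q hq)).1
  have : Nonempty S.C := ⟨ζ⟩
  have ks : ∀ ξ, #(S.supp ξ) ≤ Order.succ κ := fun ξ => (hS ξ).2.trans (hκ.trans k1)
  obtain ⟨f, E, hf, hf'⟩ := exists_seq k2 (hA.trans (hκ.trans k1))
    (E₀ := S.supp ζ ∪ R₀ ∪ U₀) (mk_U_le k2 (mk_U_le k2 (ks ζ) (hR₀.trans k1)) hU₀)
    (fun q E ξ => bad q.2 (S.ap ζ) q.1 E ξ ∧ W ξ q.2 (S.ap ζ) q.1 ∩ E ⊆ U q.2 (S.ap ζ) q.1)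
    (fun q ξ => S.supp ξ ∪ W ξ q.2 (S.ap ζ) q.1) (fun q ξ => mk_U_le k2 (ks ξ) (hW1 _ _ _ _))
    fun q hq => (hU2 _ _ _ (hP q hq)).2
  have g1 : ∀ q ∈ A, S.supp (f q) ∩ E q ⊆ S.root ζ := fun q hq => by
    rw [← S.base_ap hq.1]
    exact (hf q hq).2.1.2.1
  obtain ⟨t, ht⟩ := exists_fresh hM (E := (S.supp ζ ∪ R₀) ∪
      ⋃ q ∈ A, (S.supp (f q) ∪ W (f q) q.2 (S.ap ζ) q.1))
    (mk_U_le k2 (mk_U_le k2 (ks ζ) (hR₀.trans k1)) (mk_bU_le k2 (hA.trans (hκ.trans k1))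
      fun q _ => mk_U_le k2 (ks _) (hW1 _ _ _ _)))
  have ht' : ∀ q ∈ A, t ∉ S.supp (f q) ∪ W (f q) q.2 (S.ap ζ) q.1 := fun q hq h =>
    ht (Or.inr (mem_iUnion₂.2 ⟨q, hq, h⟩))
  let d₀ : Star σ S :=
    { cen := ζ
      lv := f '' A
      tag := t
      leaf := by
        rintro _ ⟨q, hq, rfl⟩
        exact ⟨q.1, hq.1, (hf q hq).2.1.1⟩
      sep := by
        rintro _ ⟨q, hq, rfl⟩ _ (rfl | ⟨q', hq', rfl⟩) hne x ⟨x1, x2⟩
        · exact g1 q hq ⟨x1, (hf q hq).1 (Or.inl (Or.inl x2))⟩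
        · rcases hf' q hq q' hq' (fun e => hne (by rw [e])) with h | h
          · exact g1 q' hq' ⟨x2, h (Or.inl x1)⟩
          · exact g1 q hq ⟨x1, h (Or.inl x2)⟩
      fresh := by
        rintro _ (rfl | ⟨q, hq, rfl⟩) h
        · exact ht (Or.inl (Or.inl h))
        · exact ht' q hq (Or.inl h)
      small := mk_image_le.trans hA }
  refine ⟨d₀, R₀, hR₀, hL, ?_, fun η hη a b hab E' hE' => ?_⟩
  · rintro x ⟨rfl | ⟨_, rfl | ⟨q, hq, rfl⟩, x1⟩, x2⟩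
    · exact absurd (Or.inl (Or.inr x2)) ht
    · exact x1
    · exact S.root_sub ζ (g1 q hq ⟨x1, (hf q hq).1 (Or.inl (Or.inr x2))⟩)
  have g2 : j d₀ η ∉ P₀ := by
    intro h
    have hq : (η, j d₀ η) ∈ A := ⟨hη, h⟩
    obtain ⟨e1, ⟨-, -, e2⟩, e3⟩ := hf _ hq
    refine hW2 _ _ _ _ e2 d₀ ⟨rfl, hη, ⟨_, hq, rfl⟩, rfl, ?_⟩
    rintro x ⟨rfl | ⟨_, rfl | ⟨q, hq', rfl⟩, hne, x1⟩, x2⟩
    · exact absurd (Or.inr x2) (ht' _ hq)
    · exact hζ' _ _ _ (hv η hη) ⟨x1, e3 ⟨x2, e1 (Or.inl (Or.inl x1))⟩⟩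
    · rw [S.base_ap hη]
      rcases hf' q hq' _ hq (fun e => hne (by rw [e])) with h | h
      · exact g1 q hq' ⟨x1, (hf q hq').1
          (Or.inr (mem_iUnion₂.2 ⟨_, hq, e3 ⟨x2, h (Or.inl x1)⟩⟩))⟩
      · exact g1 q hq' ⟨x1, h (Or.inr x2)⟩
  have g3 : good ζ (j d₀ η) a b := by
    by_contra h
    refine hU3 (j d₀ η) a b ?_ ζ ⟨hab, hζ' _ _ _ (Or.inr hab), h⟩
    rw [(hζ a b (Or.inr hab)).1]
    exact g2
  obtain ⟨d, e1, e2⟩ := hR2 _ _ _ _ g3 E' hE'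
  exact ⟨d, e1, e2.trans fun x hx => mem_iUnion₂.2
    ⟨((a, b), j d₀ η), ⟨⟨S.h_left hab, S.h_right hab⟩, mem_univ _⟩, hx⟩⟩

end Pool.Agent.P.MP_48d4bc_co.T3
end

-- part Pool.Agent.P.MP_48d4bc_co.T3Refl
section

/-! The reflecting branch. -/

set_option autoImplicit false

namespace Pool.Agent.P.MP_48d4bc_co.T3

open Cardinal Set

theorem exists_refl (Dat Z Col J : Type) [Nonempty Dat] [Nonempty Col] (lab : Dat → Z) :
    ∃ (Θ : Type) (_ : LinearOrder Θ) (_ : WellFoundedLT Θ) (_ : Nonempty Θ) (dat : Θ → Dat),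
      ∀ χ : Tr Z Θ → Tr Z Θ → Col, ∃ (y : Θ → Tr Z Θ) (g : Dat → Z → Col),
        (∀ γ, ∃ B, y γ = Tr.mk (lab (dat γ)) B ∧ ∀ δ, δ < γ → B δ = y δ) ∧
        ∀ (d : Dat) (D : J → Θ), ∃ α, dat α = d ∧
          (∀ i, D i < α ∧ χ (y (D i)) (y α) = χ (y (D i)) (Tr.mk (lab d) y)) ∧
          ∀ θ, χ (y α) (Tr.mk θ y) = g d θ := by
  obtain ⟨Θ, _, _, hΘ, k, D, g, hb⟩ := exists_book Dat ((Z → Col) × J) Col
  refine ⟨Θ, inferInstance, inferInstance, hΘ, k, fun χ => ?_⟩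
  have : Nonempty (Tr Z Θ) := ⟨Tr.nil⟩
  let N : Θ → (Θ → Tr Z Θ) → Tr Z Θ → Prop := fun α y x =>
    ∃ B, x = Tr.mk (lab (k α)) B ∧ ∀ δ, δ < α → B δ = y δ
  let G : Θ → (Θ → Tr Z Θ) → Tr Z Θ → Prop := fun α y x =>
    ∀ i, D α i < α → χ (y (D α i)) x = g α i
  have hN : ∀ α y y', (∀ ζ, ζ < α → y ζ = y' ζ) → N α y = N α y' := fun α y y' h => by
    funext x
    simp only [N]
    refine propext (exists_congr fun B => and_congr_right' (forall₂_congr fun δ hδ => ?_))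
    rw [h δ hδ]
  have hG : ∀ α y y', (∀ ζ, ζ < α → y ζ = y' ζ) → G α y = G α y' := fun α y y' h => by
    funext x
    simp only [G]
    refine propext (forall₂_congr fun i hi => ?_)
    rw [h _ hi]
  obtain ⟨y, hy⟩ := exists_rec_rel
    (fun α y x => N α y x ∧ ((∃ x', N α y x' ∧ G α y x') → G α y x))
    (fun α y y' h => by rw [hN α y y' h, hG α y y' h])
  have hy' : ∀ α, N α y (y α) ∧ ((∃ x', N α y x' ∧ G α y x') → G α y (y α)) := fun α => by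
    refine hy α ?_
    by_cases h : ∃ x', N α y x' ∧ G α y x'
    · obtain ⟨x, h1, h2⟩ := h
      exact ⟨x, h1, fun _ => h2⟩
    · exact ⟨Tr.mk _ y, ⟨y, rfl, fun _ _ => rfl⟩, fun h' => absurd h' h⟩
  have key : ∀ d : Dat, ∃ c : Z → Col, ∀ D' : J → Θ, ∃ α, k α = d ∧
      (∀ i, D' i < α ∧ χ (y (D' i)) (y α) = χ (y (D' i)) (Tr.mk (lab d) y)) ∧
      ∀ θ, χ (y α) (Tr.mk θ y) = c θ := by
    intro d
    by_contra hn
    have h1 : ∀ c : Z → Col, ∃ D' : J → Θ, ¬ ∃ α, k α = d ∧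
        (∀ i, D' i < α ∧ χ (y (D' i)) (y α) = χ (y (D' i)) (Tr.mk (lab d) y)) ∧
        ∀ θ, χ (y α) (Tr.mk θ y) = c θ := fun c => not_forall.1 fun h => hn ⟨c, h⟩
    choose D' hD' using h1
    obtain ⟨α, h1, h2, h3, h4⟩ := hb d (fun q => D' q.1 q.2)
      (fun q => χ (y (D' q.1 q.2)) (Tr.mk (lab d) y))
    have h5 := (hy' α).2 ⟨Tr.mk (lab d) y, ⟨y, by rw [h1], fun _ _ => rfl⟩, fun i _ => by
      rw [h2, h3]⟩
    refine hD' (fun θ => χ (y α) (Tr.mk θ y)) ⟨α, h1, fun i => ⟨h4 (_, i), ?_⟩, fun _ => rfl⟩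
    have h6 := h5 (fun θ => χ (y α) (Tr.mk θ y), i) (by rw [h2]; exact h4 _)
    rwa [h2, h3] at h6
  choose c hc using key
  exact ⟨y, c, fun γ => (hy' γ).1, hc⟩

end Pool.Agent.P.MP_48d4bc_co.T3
end

-- part Pool.Agent.P.MP_48d4bc_co.T3Step
section

/-! The next system lies over the old one. -/

set_option autoImplicit false

namespace Pool.Agent.P.MP_48d4bc_co.T3

open Cardinal Set

variable {M : Type} {σ : Cardinal.{0}} {S : Sys M} {Θ : Type} [LinearOrder Θ]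
  {dat : Θ → Star σ S}

namespace Cone

variable (X : Cone dat)

theorem cen_mem {γ : Θ} (h : γ ∈ X.Pos) : (dat X.β).cen ∈ (dat γ).mem := by
  rcases h with rfl | ⟨e, h, rfl⟩
  · exact Star.cen_mem _
  · exact Star.mem_of_lv _ (X.leaf h)

theorem root_eq {e : S.Z × S.Z} (h : X.I e) : S.root (dat (X.α e)).cen = S.base e.1 e.2 := by
  rw [← S.base_ap (X.mem h), X.ap_eq h]

theorem outer_inter {e : S.Z × S.Z} (h : X.I e) {δ : Θ} (hδ : δ ∈ X.Pos) (hne : X.α e ≠ δ) :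
    (dat (X.α e)).outer (dat X.β).cen ∩ (dat δ).dsupp ⊆ S.base e.1 e.2 := by
  rintro x ⟨h1, h2⟩
  rcases (dat δ).dsupp_sub (dat X.β).cen h2 with h3 | h3
  · rcases hδ with rfl | ⟨e', h', rfl⟩
    · exact X.out0 h ⟨h1, h2⟩
    · exact X.out h h' (fun q => hne (by rw [q])) ⟨h1, h3⟩
  · exact X.out0 h ⟨h1, (dat X.β).supp_sub (Star.cen_mem _) h3⟩

theorem outer_inter' {γ δ : Θ} (hγ : γ ∈ X.Pos) (hδ : δ ∈ X.Pos) (hne : γ ≠ δ) :
    (dat γ).outer (dat X.β).cen ∩ (dat δ).dsupp ⊆ S.supp (dat X.β).cen := by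
  rcases hγ with rfl | ⟨e, h, rfl⟩
  · rcases hδ with rfl | ⟨e, h, rfl⟩
    · exact absurd rfl hne
    · rintro x ⟨h1, h2⟩
      rcases (dat (X.α e)).dsupp_sub (dat X.β).cen h2 with h3 | h3
      · exact S.base_sub h.2.2 (X.out0 h ⟨h3, Star.outer_sub _ _ h1⟩)
      · exact h3
  · exact (X.outer_inter h hδ hne).trans (S.base_sub h.2.2)

theorem inv {γ δ : Θ} {N : S.C} (hγ : γ ∈ X.Pos) (hδ : δ ∈ X.Pos) (hne : γ ≠ δ)
    (hN : N ∈ (dat γ).mem) (hN' : N ≠ (dat X.β).cen) :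
    S.supp N ∩ (dat δ).dsupp ⊆ S.root (dat γ).cen := by
  rintro x ⟨h1, h2⟩
  exact (dat γ).sep' hN (X.cen_mem hγ) hN'
    ⟨h1, X.outer_inter' hγ hδ hne ⟨Star.supp_sub_outer _ hN hN' h1, h2⟩⟩

theorem mark {γ δ : Θ} (hγ : γ ∈ X.Pos) (hδ : δ ∈ X.Pos) (hne : γ ≠ δ) :
    (dat γ).tag ∉ (dat δ).dsupp := fun h =>
  (dat γ).fresh _ (X.cen_mem hγ) (X.outer_inter' hγ hδ hne ⟨Or.inl rfl, h⟩)

end Cone

variable [WellFoundedLT Θ]

/-- the next system lies over the old one -/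
def stepOver (dat : Θ → Star σ S) : Over σ S (step dat) where
  Θ := Θ
  lo := inferInstance
  dat := dat
  lab := Tr.lab S.pt
  br := Tr.br
  dn X := (dat X.β).cen
  y X := X.y
  Pos X := X.Pos
  pts_eq X := by
    ext p
    constructor
    · rintro (rfl | ⟨e, h, rfl⟩)
      exacts [⟨_, Or.inl rfl, rfl⟩, ⟨_, Or.inr ⟨e, h, rfl⟩, rfl⟩]
    · rintro ⟨_, rfl | ⟨e, h, rfl⟩, rfl⟩
      exacts [Or.inl rfl, Or.inr ⟨e, h, rfl⟩]
  br_lt X _ _ h := X.br_lt h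
  br_ne X := X.br_ne
  arc_pos := by
    rintro X p q (⟨rfl, e, h, rfl⟩ | ⟨e, e', h, h', h2, rfl, rfl⟩)
    · have h3 : (X.y (X.α e)).lab S.pt ∈ S.F (dat X.β).cen := by
        rw [X.lab_y, X.ap_eq h]
        exact S.h_left h.2.2
      exact ⟨X.β, Or.inl rfl, X.α e, Or.inr ⟨e, h, rfl⟩, X.lt h, rfl, rfl,
        base_of_meet (X.meet (X.lt h)), X.lab_y _ _, h3, Or.inl ⟨X.lab_y _ _, h3⟩⟩
    · refine ⟨X.α e, Or.inr ⟨e, h, rfl⟩, X.α e', Or.inr ⟨e', h', rfl⟩, X.lt' h h' h2, rfl, rfl,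
        base_of_meet (X.meet (X.lt' h h' h2)), X.lab_y _ _, ?_, Or.inr ?_⟩
      · rw [X.lab_y, X.ap_eq h', ← h2]
        exact X.mem h
      · rw [X.lab_y, X.lab_y, X.ap_eq h, X.ap_eq h', ← h2]
        exact h.2.2
  dn_mem h := Cone.cen_mem _ h
  supp_eq _ := rfl
  inv := Cone.inv _
  mark := Cone.mark _

theorem step_small (hσ : ℵ₀ ≤ σ) (hS : S.Small σ) (dat : Θ → Star σ S) : (step dat).Small σ := by
  intro X
  have h1 : #{e | X.I e} ≤ σ :=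
    (mk_le_mk_of_subset (t := S.F (dat X.β).cen ×ˢ S.F (dat X.β).cen)
      fun e h => ⟨S.h_left h.2.2, S.h_right h.2.2⟩).trans (mk_prod_le hσ (hS _).1 (hS _).1)
  refine ⟨?_, mk_bU_le hσ ?_ fun γ _ => (dat γ).mk_dsupp_le hσ hS⟩
  · refine le_trans (mk_le_mk_of_subset (t := (fun e => X.y (X.α e)) '' {e | X.I e}) ?_)
      (mk_image_le.trans h1)
    rintro _ ⟨e, h, rfl⟩
    exact ⟨e, h, rfl⟩
  · refine le_trans (mk_le_mk_of_subset (t := insert X.β (X.α '' {e | X.I e})) ?_)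
      (mk_insert_le.trans (add_le_of_le hσ (mk_image_le.trans h1) (one_le_aleph0.trans hσ)))
    rintro _ (rfl | ⟨e, h, rfl⟩)
    exacts [Or.inl rfl, Or.inr ⟨e, h, rfl⟩]

theorem step_bip {m : ℕ} (hS : S.Bip m) (dat : Θ → Star σ S) : (step dat).Bip (m + 1) := by
  classical
  intro X P hP
  rcases P.eq_empty_or_nonempty with rfl | hne
  · exact ⟨fun _ => true, fun a ha => absurd ha (Finset.notMem_empty a)⟩
  obtain ⟨p, hp, hmin⟩ := ((step dat).h_wf X).has_min (P : Set (step dat).Z) hne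
  have hP' : (P.erase p).card ≤ m := by
    rw [Finset.card_erase_of_mem hp]
    omega
  obtain ⟨c, hc⟩ := hS (dat X.β).cen ((P.erase p).image (Tr.lab S.pt))
    (Finset.card_image_le.trans hP')
  refine ⟨fun q => if q = p then !decide (∃ r, (step dat).h X p r ∧ c (r.lab S.pt) = true)
    else c (q.lab S.pt), fun a ha b hb hab => ?_⟩
  have hbp : b ≠ p := fun e => hmin a ha (e ▸ hab)
  simp only [if_neg hbp]
  by_cases hap : a = p
  · subst hap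
    rw [if_pos rfl]
    have h1 : ∀ r, (step dat).h X a r → r.lab S.pt = b.lab S.pt := by
      obtain ⟨e, e', h, h', h2, h3, rfl⟩ := hab
      rintro r ⟨f, f', k, k', k2, k3, rfl⟩
      have h4 : e = f := by
        by_contra hn
        exact X.mark (Or.inr ⟨e, h, rfl⟩) (Or.inl rfl) (X.lt h).ne'
          ((dat X.β).supp_sub (Star.cen_mem _) (S.base_sub h.2.2 (X.out h k hn
            ⟨Or.inl rfl, X.y_inj (h3.symm.trans k3) ▸ Or.inl rfl⟩)))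
      rw [X.lab_y, X.lab_y, X.ap_eq k', X.ap_eq h', ← k2, ← h2, h4]
    cases hcb : c (b.lab S.pt)
    · rw [decide_eq_false]
      · simp
      · rintro ⟨r, h2, h3⟩
        rw [h1 r h2, hcb] at h3
        exact absurd h3 (by simp)
    · rw [decide_eq_true ⟨b, hab, hcb⟩]
      simp
  · rw [if_neg hap]
    refine hc _ (Finset.mem_image_of_mem _ (Finset.mem_erase.2 ⟨hap, ha⟩)) _
      (Finset.mem_image_of_mem _ (Finset.mem_erase.2 ⟨hbp, hb⟩)) ?_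
    obtain ⟨e, e', h, h', h2, rfl, rfl⟩ := hab
    rw [X.lab_y, X.lab_y, X.ap_eq h, X.ap_eq h', ← h2]
    exact h.2.2

end Pool.Agent.P.MP_48d4bc_co.T3
end

-- part Pool.Agent.P.MP_48d4bc_co.T3Ram
section

/-! The partition property passes to the next system. -/

set_option autoImplicit false

namespace Pool.Agent.P.MP_48d4bc_co.T3

open Cardinal Set

variable {M : Type} {σ κ : Cardinal.{0}} {S : Sys M} {Λ L : Type}

theorem exists_data (hσ : ℵ₀ ≤ σ) (hκ : σ ≤ κ) (hΛ : #Λ ≤ σ) (hM : Order.succ κ < #M)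
    (hS : S.Small σ) (hR : S.Ram (Set Λ) (Λ × Set L) (Order.succ (Order.succ κ)))
    (j : Star σ S → S.Z → Λ) (D : Star σ S → S.Z → Set M) (hD : ∀ d a, #(D d a) ≤ κ) :
    ∃ (d₀ : Star σ S) (T : Set S.Z) (i : Λ) (d : S.Z × S.Z → Star σ S),
      (∀ c : S.Z → Set L, ∃ a b, Idx S d₀.cen T (a, b) ∧ c a = c b) ∧ (∀ a ∈ T, j d₀ a = i) ∧
      ∀ e, Idx S d₀.cen T e → Fit j d₀.cen i e.1 e.2 d₀.dsupp (d e) ∧
        d₀.dsupp ∩ D (d e) e.2 ⊆ (d e).dsupp ∧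
        ∀ e', Idx S d₀.cen T e' →
          (e ≠ e' → (d e).outer d₀.cen ∩ (d e').outer d₀.cen ⊆ S.base e.1 e.2) ∧
          (d e').dsupp ∩ D d₀ e.1 ⊆ d₀.dsupp ∧ (d e').dsupp ∩ D (d e) e.2 ⊆ (d e).dsupp := by
  have k0 : ℵ₀ ≤ κ := hσ.trans hκ
  obtain ⟨d₀, R, hR1, hL, hR2, hd⟩ := exists_star hσ hκ hΛ hM hS hR j D hD
  obtain ⟨i, hi⟩ : ∃ i, ∀ c : S.Z → Set L, ∃ a b,
      Idx S d₀.cen {η | η ∈ S.F d₀.cen ∧ j d₀ η = i} (a, b) ∧ c a = c b := by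
    by_contra hn
    have h1 : ∀ i, ∃ c : S.Z → Set L, ¬ ∃ a b,
        Idx S d₀.cen {η | η ∈ S.F d₀.cen ∧ j d₀ η = i} (a, b) ∧ c a = c b :=
      fun i => not_forall.1 fun h => hn ⟨i, h⟩
    choose c hc using h1
    obtain ⟨a, b, h2, h3⟩ := hL fun η => (j d₀ η, c (j d₀ η) η)
    have h4 : j d₀ a = j d₀ b := congrArg Prod.fst h3
    have h5 : c (j d₀ a) a = c (j d₀ b) b := congrArg Prod.snd h3
    exact hc (j d₀ a) ⟨a, b, ⟨⟨S.h_left h2, rfl⟩, ⟨S.h_right h2, h4.symm⟩, h2⟩, by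
      rw [h5, h4]⟩
  let T : Set S.Z := {η | η ∈ S.F d₀.cen ∧ j d₀ η = i}
  have hA : #{e | Idx S d₀.cen T e} ≤ κ :=
    (mk_le_mk_of_subset (t := S.F d₀.cen ×ˢ S.F d₀.cen)
      fun e h => ⟨h.1.1, h.2.1.1⟩).trans ((mk_prod_le hσ (hS _).1 (hS _).1).trans hκ)
  have : Nonempty (Star σ S) := ⟨d₀⟩
  have ks : ∀ d : Star σ S, #(d.dsupp) ≤ κ := fun d => (d.mk_dsupp_le hσ hS).trans hκ
  obtain ⟨d, E, h1, h2⟩ := exists_seq k0 hA
    (E₀ := d₀.dsupp ∪ R ∪ ⋃ η ∈ S.F d₀.cen, D d₀ η)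
    (mk_U_le k0 (mk_U_le k0 (ks _) hR1) (mk_bU_le k0 ((hS _).1.trans hκ) fun _ _ => hD _ _))
    (fun e E d => Fit j d₀.cen i e.1 e.2 E d ∧ D d e.2 ∩ E ⊆ R)
    (fun e d => d.outer d₀.cen ∪ D d e.2)
    (fun e d => mk_U_le k0 ((mk_le_mk_of_subset (d.outer_sub _)).trans (ks d)) (hD _ _))
    fun e he E hE => by
      have := hd e.1 he.1.1 e.1 e.2 he.2.2 E hE
      rwa [he.1.2] at this
  have g1 : ∀ e, Idx S d₀.cen T e → (d e).outer d₀.cen ∩ E e ⊆ S.base e.1 e.2 :=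
    fun e he => (h1 e he).2.1.2.2.2.2
  have g2 : ∀ e, Idx S d₀.cen T e → (d e).outer d₀.cen ∩ E e ⊆ S.supp d₀.cen :=
    fun e he => (g1 e he).trans (S.base_sub he.2.2)
  have g3 : S.supp d₀.cen ⊆ d₀.dsupp := d₀.supp_sub d₀.cen_mem
  have g4 : ∀ e, Idx S d₀.cen T e → S.supp d₀.cen ⊆ (d e).dsupp := fun e he =>
    (d e).supp_sub ((d e).mem_of_lv (h1 e he).2.1.2.2.1)
  have g5 : ∀ e, Idx S d₀.cen T e → d₀.dsupp ⊆ E e := fun e he x hx =>
    (h1 e he).1 (Or.inl (Or.inl hx))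
  refine ⟨d₀, T, i, d, hi, fun a ha => ha.2, fun e he => ⟨(h1 e he).2.1.anti (g5 e he),
    fun x hx => g4 e he (hR2 ⟨hx.1, (h1 e he).2.2 ⟨hx.2, g5 e he hx.1⟩⟩),
    fun e' he' => ⟨fun hne x hx => ?_, fun x hx => ?_, fun x hx => ?_⟩⟩⟩
  · rcases h2 e he e' he' hne with h | h
    · exact g1 e he ⟨hx.1, g5 e he (g3 (g2 e' he' ⟨hx.2, h (Or.inl hx.1)⟩))⟩
    · exact g1 e he ⟨hx.1, h (Or.inl hx.2)⟩
  · rcases (d e').dsupp_sub d₀.cen hx.1 with h | h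
    · exact g3 (g2 e' he' ⟨h, (h1 e' he').1 (Or.inr (mem_iUnion₂.2 ⟨e.1, he.1.1, hx.2⟩))⟩)
    · exact g3 h
  · by_cases hne : e = e'
    · exact hne ▸ hx.1
    rcases (d e').dsupp_sub d₀.cen hx.1 with h | h
    · refine g4 e he (g2 e' he' ⟨h, ?_⟩)
      rcases h2 e he e' he' hne with q | q
      · exact q (Or.inr hx.2)
      · exact (h1 e' he').1 (Or.inl (Or.inr ((h1 e he).2.2 ⟨hx.2, q (Or.inl h)⟩)))
    · exact g4 e he h

theorem exists_step [Nonempty Λ] (hσ : ℵ₀ ≤ σ) (hκ : σ ≤ κ) (hΛ : #Λ ≤ σ)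
    (hM : Order.succ κ < #M) (hS : S.Small σ)
    (hR : S.Ram (Set Λ) (Λ × Set L) (Order.succ (Order.succ κ))) :
    ∃ (Θ : Type) (_ : LinearOrder Θ) (_ : WellFoundedLT Θ) (dat : Θ → Star σ S),
      (step dat).Ram Λ L κ := by
  classical
  have : Nonempty (Star σ S) := by
    obtain ⟨d, -⟩ := exists_star hσ hκ hΛ hM hS hR (fun _ _ => Classical.arbitrary Λ)
      (fun _ _ => ∅) (by simp)
    exact ⟨d⟩
  have : Nonempty {D : Set M // #D ≤ κ} := ⟨⟨∅, by simp⟩⟩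
  obtain ⟨Θ, _, _, _, dat, hΘ⟩ := exists_refl (Star σ S) S.Z (Λ × {D : Set M // #D ≤ κ})
    (Option (S.Z × S.Z)) fun d => S.ap d.cen
  refine ⟨Θ, inferInstance, inferInstance, dat, fun π D hD => ?_⟩
  obtain ⟨y, g, hy, hg⟩ := hΘ fun p q => (π p q, ⟨D p q, hD p q⟩)
  obtain ⟨d₀, T, i, d, h1, h2, h3⟩ := exists_data hσ hκ hΛ hM hS hR (fun d a => (g d a).1)
    (fun d a => (g d a).2.1) fun d a => (g d a).2.2
  let χ : Tr S.Z Θ → Tr S.Z Θ → Λ × {D : Set M // #D ≤ κ} := fun p q => (π p q, ⟨D p q, hD p q⟩)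
  obtain ⟨β, rfl, -, hβ⟩ := hg d₀ fun _ => Classical.arbitrary Θ
  let r : S.Z × S.Z → S.Z × S.Z → Prop := fun e e' => Idx S (dat β).cen T e ∧ e.2 = e'.1
  have wf : WellFounded r := Subrelation.wf (fun {e e'} h => by
    change S.h _ e.1 e'.1
    rw [← h.2]
    exact h.1.2.2) (InvImage.wf Prod.fst (S.h_wf (dat β).cen))
  let pr : S.Z × S.Z → (S.Z × S.Z → Θ) → Option (S.Z × S.Z) → Θ := fun e α o =>
    o.elim β fun e' => if r e' e then α e' else β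
  obtain ⟨α, hα⟩ := exists_rec_wf wf (fun e α γ => dat γ = d e ∧
      (∀ o, pr e α o < γ ∧ χ (y (pr e α o)) (y γ) = χ (y (pr e α o)) (Tr.mk (S.ap (d e).cen) y)) ∧
      ∀ θ, χ (y γ) (Tr.mk θ y) = g (d e) θ) (fun e α α' h => by
    have : pr e α = pr e α' := by
      funext o
      rcases o with _ | e'
      · rfl
      · simp only [pr, Option.elim]
        split_ifs with q
        exacts [h e' q, rfl]
    rw [this])
  have hα' := fun e => hα e (hg (d e) (pr e α))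
  have a1 : ∀ e, dat (α e) = d e := fun e => (hα' e).1
  have a2 : ∀ e e', r e e' → pr e' α (some e) = α e := fun e e' h => if_pos h
  let X : Cone dat :=
    { y := y
      β := β
      T := T
      α := α
      node := hy
      lt := fun {e} _ => ((hα' e).2.1 none).1
      lt' := fun {e e'} h _ q => a2 e e' ⟨h, q⟩ ▸ ((hα' e').2.1 (some e)).1
      ap_eq := fun {e} h => a1 e ▸ (h3 e h).1.1
      mem := fun {e} h => a1 e ▸ (h3 e h).1.2.1
      leaf := fun {e} h => a1 e ▸ (h3 e h).1.2.2.1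
      out0 := fun {e} h => a1 e ▸ (h3 e h).1.2.2.2.2
      out := fun {e e'} h h' q => a1 e ▸ a1 e' ▸ ((h3 e h).2.2 e' h').1 q }
  refine ⟨X, i, fun c => ?_, ?_⟩
  · obtain ⟨a, b, k1, k2⟩ := h1 fun η =>
      {l | ∃ e, Idx S (dat β).cen T e ∧ e.1 = η ∧ c (y (α e)) = l}
    have k3 : c (y (α (a, b))) ∈
      {l | ∃ e, Idx S (dat β).cen T e ∧ e.1 = a ∧ c (y (α e)) = l} := ⟨(a, b), k1, rfl, rfl⟩
    rw [k2] at k3
    obtain ⟨e, k4, k5, k6⟩ := k3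
    exact ⟨_, _, ⟨(a, b), e, k1, k4, k5.symm, rfl, rfl⟩, k6.symm⟩
  · rintro p q (⟨rfl, e, h, rfl⟩ | ⟨e, e', h, h', h4, rfl, rfl⟩)
    · have k1 : χ (y β) (y (α e)) = g (dat β) e.1 := by
        rw [← hβ, ← (h3 e h).1.1]
        exact ((hα' e).2.1 none).2
      refine ⟨(congrArg Prod.fst k1).trans (h2 _ h.1),
        Subset.trans ?_ (base_of_meet (X.meet (X.lt h))).symm.subset⟩
      rintro x ⟨x1, x2⟩
      have x3 : x ∈ (g (dat β) e.1).2.1 := by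
        rw [← k1]
        exact x2
      obtain ⟨_, rfl | ⟨e', h', rfl⟩, x4⟩ := mem_iUnion₂.1 x1
      · exact x4
      · exact ((h3 e h).2.2 e' h').2.1 ⟨a1 e' ▸ x4, x3⟩
    · have k1 : χ (y (α e)) (y (α e')) = g (d e) e.2 := by
        rw [← (hα' e).2.2, h4, ← (h3 e' h').1.1, ← a2 e e' ⟨h, h4⟩]
        exact ((hα' e').2.1 (some e)).2
      refine ⟨(congrArg Prod.fst k1).trans (h3 e h).1.2.2.2.1,
        Subset.trans ?_ (base_of_meet (X.meet (X.lt' h h' h4))).symm.subset⟩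
      rintro x ⟨x1, x2⟩
      have x3 : x ∈ (g (d e) e.2).2.1 := by
        rw [← k1]
        exact x2
      change x ∈ (dat (α e)).dsupp
      rw [a1 e]
      obtain ⟨_, rfl | ⟨e'', h'', rfl⟩, x4⟩ := mem_iUnion₂.1 x1
      · exact (h3 e h).2.1 ⟨x4, x3⟩
      · exact ((h3 e h).2.2 e'' h'').2.2 ⟨a1 e'' ▸ x4, x3⟩

end Pool.Agent.P.MP_48d4bc_co.T3
end

-- part Pool.Agent.P.MP_48d4bc_co.T3Desc
section

/-! Descent of free families. -/

set_option autoImplicit false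

namespace Pool.Agent.P.MP_48d4bc_co.T3

open Cardinal Set

variable {M : Type} {σ : Cardinal.{0}} {S S' : Sys M} (O : Over σ S S')

namespace Over

theorem dsupp_sub {X : S'.C} {γ : O.Θ} (h : γ ∈ O.Pos X) : (O.dat γ).dsupp ⊆ S'.supp X := by
  rw [O.supp_eq]
  exact subset_biUnion_of_mem (u := fun γ => (O.dat γ).dsupp) h

/-- the data of an arc that lies in two cones -/
theorem arc_two {X Y : S'.C} {a b : S'.Z} (h1 : S'.arc X a b) (h2 : S'.arc Y a b) :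
    ∃ μ, μ ∈ O.Pos X ∧ μ ∈ O.Pos Y ∧ S'.base a b = (O.dat μ).dsupp ∧
      S.base (O.lab a) (O.lab b) = S.root (O.dat μ).cen ∧ Meet O.br a b μ ∧ a = O.y Y μ ∧
      ∃ ν ∈ O.Pos Y, μ < ν ∧ b = O.y Y ν := by
  obtain ⟨μ, hμ, ν, -, h3, h4, h5, -⟩ := O.arc_pos h1
  obtain ⟨μ', hμ', ν', hν', h3', h4', h5', h6, h7, h8, -⟩ := O.arc_pos h2
  have m1 : Meet O.br a b μ := by
    rw [h4, h5]
    exact O.meet_y X h3
  have m2 : Meet O.br a b μ' := by
    rw [h4', h5']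
    exact O.meet_y Y h3'
  obtain rfl := m1.unique m2
  exact ⟨μ, hμ, hμ', h6, by rw [h7, S.base_ap h8], m1, h4', ν', hν', h3', h5'⟩

theorem inv_free {n : ℕ} {A : Set S'.C} (h : S'.Free n A) : ∀ γ ∈ O.PosF A, ∀ δ ∈ O.PosF A,
    γ ≠ δ → ∀ N ∈ (O.dat γ).mem, N ∉ O.dn '' A →
      S.supp N ∩ (O.dat δ).dsupp ⊆ S.root (O.dat γ).cen := by
  induction h with
  | one X =>
    rintro γ ⟨_, rfl, hγ⟩ δ ⟨_, rfl, hδ⟩ hne N hN hN'
    exact O.inv hγ hδ hne hN fun e => hN' ⟨_, rfl, e.symm⟩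
  | up _ ih => exact ih
  | @add n A X Y a b _ hX h1 h2 h3 ih =>
    obtain ⟨μ, hμX, hμY, hb, -⟩ := O.arc_two h1 h2
    have hμ : μ ∈ O.PosF A := ⟨X, hX, hμX⟩
    rintro γ ⟨U, hU, hγ⟩ δ ⟨W, hW, hδ⟩ hne N hN hN'
    have n1 : N ≠ O.dn Y := fun e => hN' ⟨Y, Or.inl rfl, e.symm⟩
    have n2 : N ∉ O.dn '' A := fun ⟨Z, hZ, e⟩ => hN' ⟨Z, Or.inr hZ, e⟩
    rcases hU with rfl | hU
    · rcases hW with rfl | hW
      · exact O.inv hγ hδ hne hN n1
      · by_cases e : γ = μ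
        · exact ih γ (e ▸ hμ) δ ⟨W, hW, hδ⟩ hne N hN n2
        · rintro x ⟨x1, x2⟩
          refine O.inv hγ hμY e hN n1 ⟨x1, ?_⟩
          rw [← hb]
          exact h3 W hW ⟨O.dsupp_sub hγ ((O.dat γ).supp_sub hN x1), O.dsupp_sub hδ x2⟩
    · rcases hW with rfl | hW
      · by_cases e : γ = μ
        · exact O.inv (e ▸ hμY) hδ hne hN n1
        · rintro x ⟨x1, x2⟩
          refine ih γ ⟨U, hU, hγ⟩ μ hμ e N hN n2 ⟨x1, ?_⟩
          rw [← hb]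
          exact h3 U hU ⟨O.dsupp_sub hδ x2, O.dsupp_sub hγ ((O.dat γ).supp_sub hN x1)⟩
      · exact ih γ ⟨U, hU, hγ⟩ δ ⟨W, hW, hδ⟩ hne N hN n2

theorem sep_free {n : ℕ} {A : Set S'.C} (h : S'.Free n A) {γ : O.Θ} (hγ : γ ∈ O.PosF A)
    {N : S.C} (hN : N ∈ (O.dat γ).mem) (hN' : N ∉ O.dn '' A) :
    ∀ U ∈ O.dn '' A, S.supp N ∩ S.supp U ⊆ S.root (O.dat γ).cen := by
  rintro _ ⟨X, hX, rfl⟩
  obtain ⟨δ, hδ⟩ := O.pos_nonempty X
  by_cases e : γ = δ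
  · exact (O.dat γ).sep' hN (O.dn_mem (e ▸ hδ)) fun q => hN' ⟨X, hX, q.symm⟩
  · exact (inter_subset_inter_right _ ((O.dat δ).supp_sub (O.dn_mem hδ))).trans
      (O.inv_free h γ hγ δ ⟨X, hX, hδ⟩ e N hN hN')

theorem arc_dn {X : S'.C} {a b : S'.Z} (h : S'.arc X a b) :
    S.arc (O.dn X) (O.lab a) (O.lab b) := by
  obtain ⟨_, _, _, _, _, _, _, _, _, _, h⟩ := O.arc_pos h
  exact h

theorem free_dn {n : ℕ} {A : Set S'.C} (h : S'.Free n A) : S.Free n (O.dn '' A) := by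
  induction h with
  | one X =>
    rw [image_singleton]
    exact .one _
  | up _ ih => exact ih.up
  | @add n A X Y a b hA hX h1 h2 h3 ih =>
    rw [image_insert_eq]
    by_cases e : O.dn Y ∈ O.dn '' A
    · rw [insert_eq_of_mem e]
      exact ih.up
    · obtain ⟨μ, hμX, hμY, -, hb, -⟩ := O.arc_two h1 h2
      refine ih.add (mem_image_of_mem _ hX) (O.arc_dn h1) (O.arc_dn h2) ?_
      rw [hb]
      exact O.sep_free hA ⟨X, hX, hμX⟩ (O.dn_mem hμY) e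

theorem absorb {n : ℕ} {A : Set S'.C} (h : S'.Free n A) {γ : O.Θ} (hγ : γ ∈ O.PosF A)
    {N : S.C} (hN : N ∈ (O.dat γ).mem) :
    ∃ U : Set S.C, S.Free (n + 2) U ∧ O.dn '' A ⊆ U ∧ N ∈ U := by
  have h1 : S.Free (n + 1) (insert (O.dat γ).cen (O.dn '' A)) := by
    by_cases e : (O.dat γ).cen ∈ O.dn '' A
    · rw [insert_eq_of_mem e]
      exact (O.free_dn h).up
    · obtain ⟨X, hX, hγX⟩ := id hγ
      rcases O.dn_mem hγX with q | q
      · exact absurd ⟨X, hX, q⟩ e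
      · obtain ⟨b, hb, hb'⟩ := (O.dat γ).leaf _ q
        refine (O.free_dn h).add (mem_image_of_mem _ hX) (Or.inr hb') (Or.inl ⟨rfl, hb⟩) ?_
        rw [S.base_ap hb]
        exact O.sep_free h hγ (Star.cen_mem _) e
  by_cases e : N ∈ insert (O.dat γ).cen (O.dn '' A)
  · exact ⟨_, h1.up, subset_insert _ _, e⟩
  refine ⟨insert N (insert (O.dat γ).cen (O.dn '' A)), ?_,
    (subset_insert _ _).trans (subset_insert _ _), Or.inl rfl⟩
  rcases id hN with q | q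
  · exact absurd (Or.inl q) e
  · obtain ⟨b, hb, hb'⟩ := (O.dat γ).leaf _ q
    refine h1.add (Or.inl rfl) (Or.inl ⟨rfl, hb⟩) (Or.inr hb') ?_
    rw [S.base_ap hb]
    rintro U (rfl | hU)
    · exact (O.dat γ).sep' hN (Star.cen_mem _) fun q => e (Or.inl q)
    · exact O.sep_free h hγ hN (fun q => e (Or.inr q)) U hU

end Over

/-- free families are connected -/
theorem Sys.Free.cut {n : ℕ} {B : Set S.C} (h : S.Free n B) (A : Set S.C)
    (h1 : (B ∩ A).Nonempty) (h2 : (B \ A).Nonempty) :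
    ∃ X ∈ B ∩ A, ∃ Y ∈ B \ A, ∃ a b, S.arc X a b ∧ S.arc Y a b := by
  induction h with
  | one X =>
    obtain ⟨_, rfl, h1⟩ := h1
    obtain ⟨_, rfl, h2⟩ := h2
    exact absurd h1 h2
  | up _ ih => exact ih h1 h2
  | @add n B X Y a b _ hX k1 k2 _ ih =>
    by_cases e1 : (B ∩ A).Nonempty
    · by_cases e2 : (B \ A).Nonempty
      · obtain ⟨U, hU, W, hW, q⟩ := ih e1 e2
        exact ⟨U, ⟨Or.inr hU.1, hU.2⟩, W, ⟨Or.inr hW.1, hW.2⟩, q⟩
      · obtain ⟨W, rfl | hW, hW'⟩ := h2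
        · refine ⟨X, ⟨Or.inr hX, ?_⟩, W, ⟨Or.inl rfl, hW'⟩, a, b, k1, k2⟩
          by_contra q
          exact e2 ⟨X, hX, q⟩
        · exact absurd ⟨W, hW, hW'⟩ e2
    · obtain ⟨W, rfl | hW, hW'⟩ := h1
      · exact ⟨W, ⟨Or.inl rfl, hW'⟩, X, ⟨Or.inr hX, fun q => e1 ⟨X, hX, q⟩⟩, a, b, k2, k1⟩
      · exact absurd ⟨W, hW, hW'⟩ e1

end Pool.Agent.P.MP_48d4bc_co.T3
end

-- part Pool.Agent.P.MP_48d4bc_co.T3Col
section

/-! Colourings of free families. -/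

set_option autoImplicit false

namespace Pool.Agent.P.MP_48d4bc_co.T3

open Cardinal Set

variable {M : Type} {σ : Cardinal.{0}} {S S' : Sys M} (O : Over σ S S')

namespace Over

theorem meet_one {X : S'.C} {p q : S'.Z} (hp : p ∈ S'.pts X) (hq : q ∈ S'.pts X) (e : p ≠ q) :
    ∃ γ ∈ O.Pos X, Meet O.br p q γ := by
  rw [O.pts_eq] at hp hq
  obtain ⟨γ, hγ, rfl⟩ := hp
  obtain ⟨δ, hδ, rfl⟩ := hq
  rcases lt_trichotomy γ δ with h | h | h
  · exact ⟨γ, hγ, O.meet_y X h⟩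
  · exact absurd (by rw [h]) e
  · exact ⟨δ, hδ, (O.meet_y X h).symm⟩

/-- a new point of a new cone meets the old points at an old or a new position -/
theorem meet_new {A : Set S'.C} {X Y : S'.C} {a b : S'.Z} (hX : X ∈ A) (h1 : S'.arc X a b)
    (h2 : S'.arc Y a b) (h3 : ∀ X' ∈ A, S'.supp Y ∩ S'.supp X' ⊆ S'.base a b)
    (ih : ∀ p ∈ S'.ptsF A, ∀ q ∈ S'.ptsF A, p ≠ q → ∃ γ ∈ O.PosF A, Meet O.br p q γ)
    {p q : S'.Z} (hp : p ∈ S'.ptsF A) (hq : q ∈ S'.pts Y) (qa : q ≠ a) (qb : q ≠ b) :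
    ∃ γ ∈ O.PosF (insert Y A), Meet O.br p q γ := by
  obtain ⟨μ, -, hμY, hb, -, -, ha, ν, -, hμν, hν⟩ := O.arc_two h1 h2
  have hq' := hq
  rw [O.pts_eq] at hq'
  obtain ⟨ε, hε, rfl⟩ := hq'
  obtain ⟨δ, hδ, m2⟩ := O.meet_one hq h2.right qb
  by_cases pb : p = b
  · exact ⟨δ, ⟨Y, Or.inl rfl, hδ⟩, pb ▸ m2.symm⟩
  obtain ⟨γ, ⟨U, hU, hγ⟩, m1⟩ := ih p hp b ⟨X, hX, h1.right⟩ pb
  rcases lt_trichotomy γ δ with h | h | h
  · exact ⟨γ, ⟨U, Or.inr hU, hγ⟩, m1.trans m2 h⟩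
  · subst h
    have e : γ = μ := by
      by_contra e
      refine O.mark hδ hμY e ?_
      rw [← hb]
      exact h3 U hU ⟨O.dsupp_sub hδ (Or.inl rfl), O.dsupp_sub hγ (Or.inl rfl)⟩
    subst e
    rw [hν] at m2
    rcases lt_trichotomy ε ν with h | h | h
    · exact absurd (by rw [ha, m2.unique (O.meet_y Y h)]) qa
    · exact absurd (by rw [hν, h]) qb
    · exact absurd (m2.unique (O.meet_y Y h).symm) hμν.ne
  · exact ⟨δ, ⟨Y, Or.inl rfl, hδ⟩, (m2.trans m1 h).symm⟩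

theorem meet_free {n : ℕ} {A : Set S'.C} (h : S'.Free n A) :
    ∀ p ∈ S'.ptsF A, ∀ q ∈ S'.ptsF A, p ≠ q → ∃ γ ∈ O.PosF A, Meet O.br p q γ := by
  induction h with
  | one X =>
    rintro p ⟨_, rfl, hp⟩ q ⟨_, rfl, hq⟩ e
    obtain ⟨γ, h1, h2⟩ := O.meet_one hp hq e
    exact ⟨γ, ⟨_, rfl, h1⟩, h2⟩
  | up _ ih => exact ih
  | @add n A X Y a b _ hX h1 h2 h3 ih =>
    have key : ∀ p ∈ S'.ptsF A, ∀ q ∈ S'.pts Y, p ≠ q →
        ∃ γ ∈ O.PosF (insert Y A), Meet O.br p q γ := by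
      intro p hp q hq e
      by_cases hq' : q ∈ S'.ptsF A
      · obtain ⟨γ, ⟨U, hU, hγ⟩, m⟩ := ih p hp q hq' e
        exact ⟨γ, ⟨U, Or.inr hU, hγ⟩, m⟩
      · exact O.meet_new hX h1 h2 h3 ih hp hq (fun r => hq' ⟨X, hX, r ▸ h1.left⟩)
          fun r => hq' ⟨X, hX, r ▸ h1.right⟩
    rintro p ⟨U, rfl | hU, hp⟩ q ⟨W, rfl | hW, hq⟩ e
    · obtain ⟨γ, k1, k2⟩ := O.meet_one hp hq e
      exact ⟨γ, ⟨_, Or.inl rfl, k1⟩, k2⟩
    · obtain ⟨γ, k1, k2⟩ := key q ⟨W, hW, hq⟩ p hp e.symm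
      exact ⟨γ, k1, k2.symm⟩
    · exact key p ⟨U, hU, hp⟩ q hq e
    · obtain ⟨γ, ⟨Z, hZ, hγ⟩, m⟩ := ih p ⟨U, hU, hp⟩ q ⟨W, hW, hq⟩ e
      exact ⟨γ, ⟨Z, Or.inr hZ, hγ⟩, m⟩

end Over

theorem exists_perm3 : ∀ a b c d : Fin 3, a ≠ b → c ≠ d →
    ∃ s : Equiv.Perm (Fin 3), s a = c ∧ s b = d := by
  decide

theorem Sys.Bip.col {m : ℕ} (h : S.Bip m) (X : S.C) {P : Finset S.Z} (hP : P.card ≤ m) :
    S.Col {X} P := by
  classical
  obtain ⟨c, hc⟩ := h X P hP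
  refine ⟨fun p => if p = S.ap X then 2 else if c p then 1 else 0, ?_⟩
  intro Y hY a ha b hb hab
  rw [hY] at hab
  have h1 : b ≠ S.ap X := fun e => S.ap_not X (e ▸ hab.right')
  rcases hab with ⟨rfl, -⟩ | hab
  · simp only [if_neg h1, if_true]
    split_ifs <;> decide
  · have h2 : a ≠ S.ap X := fun e => S.ap_not X (e ▸ S.h_left hab)
    have := hc a ha b hb hab
    simp only [if_neg h1, if_neg h2]
    cases h3 : c a <;> cases h4 : c b <;> simp_all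

include O in
theorem Over.col_free {m : ℕ} (hB : S'.Bip m) {n : ℕ} {A : Set S'.C} (h : S'.Free n A) :
    ∀ P : Finset S'.Z, P.card + 2 * n ≤ m → S'.Col A P := by
  classical
  induction h with
  | one X => exact fun P hP => hB.col X (by omega)
  | up _ ih => exact fun P hP => ih P (by omega)
  | @add n A X Y a b hA hX h1 h2 h3 ih =>
    intro P hP
    have hc : (insert a (insert b P)).card ≤ P.card + 2 :=
      (Finset.card_insert_le _ _).trans (Nat.succ_le_succ (Finset.card_insert_le _ _))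
    have ha : a ∈ insert a (insert b P) := by simp
    have hb : b ∈ insert a (insert b P) := by simp
    have hs : ∀ x ∈ P, x ∈ insert a (insert b P) := fun x hx => by simp [hx]
    obtain ⟨c, hc1⟩ := ih (insert a (insert b P)) (by omega)
    obtain ⟨c', hc2⟩ := hB.col Y (P := insert a (insert b P)) (by omega)
    obtain ⟨s, s1, s2⟩ := exists_perm3 _ _ _ _ (hc2 Y rfl a ha b hb h2) (hc1 X hX a ha b hb h1)
    have e : ∀ p ∈ S'.ptsF A, (if p ∈ S'.pts Y then s (c' p) else c p) = c p := by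
      intro p hp
      split_ifs with hY
      · by_cases pa : p = a
        · rw [pa, s1]
        by_cases pb : p = b
        · rw [pb, s2]
        obtain ⟨γ, -, m⟩ := O.meet_new hX h1 h2 h3 (O.meet_free hA) hp hY pa pb
        exact absurd rfl m.ne
      · rfl
    refine ⟨fun p => if p ∈ S'.pts Y then s (c' p) else c p, ?_⟩
    rintro U (rfl | hU) p hp q hq hpq
    · simp only [if_pos hpq.left, if_pos hpq.right]
      exact s.injective.ne (hc2 U rfl p (hs p hp) q (hs q hq) hpq)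
    · simp only [e p ⟨U, hU, hpq.left⟩, e q ⟨U, hU, hpq.right⟩]
      exact hc1 U hU p (hs p hp) q (hs q hq) hpq

/-- gluing colourings along an ultrametric -/
theorem glue {Θ V G : Type} [LinearOrder Θ] (br : V → Θ → V) (own : Θ → G) (c : G → V → Fin 3)
    (Γ : Finset Θ) : ∀ P : G → Set V,
      (∀ a, ∀ p ∈ P a, ∀ q ∈ P a, p ≠ q → ∃ γ ∈ Γ, own γ = a ∧ Meet br p q γ) →
      ∃ c₀ : V → Fin 3, ∀ a, ∃ s : Equiv.Perm (Fin 3), ∀ p ∈ P a, c₀ p = s (c a p) := by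
  classical
  induction Γ using Finset.induction_on_min with
  | empty =>
    intro P h
    refine ⟨fun _ => 0, fun a => ?_⟩
    rcases (P a).eq_empty_or_nonempty with e | ⟨p, hp⟩
    · exact ⟨1, fun p hp => absurd (e ▸ hp) (notMem_empty p)⟩
    · refine ⟨Equiv.swap (c a p) 0, fun q hq => ?_⟩
      by_cases e : q = p
      · rw [e, Equiv.swap_apply_left]
      · obtain ⟨γ, hγ, -⟩ := h a q hq p hp e
        exact absurd hγ (Finset.notMem_empty γ)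
  | insert μ Γ hμ ih =>
    intro P h
    let K : V → Set V := fun p => {q | ∀ δ, δ ≤ μ → br q δ = br p δ}
    have h1 : ∀ T : Set V, ∃ c₀ : V → Fin 3, (∃ p, T = K p) →
        (∀ p ∈ P (own μ) ∩ T, c₀ p = c (own μ) p) ∧
        ∀ a, ∃ s : Equiv.Perm (Fin 3), ∀ p ∈ P a ∩ T, c₀ p = s (c a p) := by
      intro T
      by_cases hT : ∃ p, T = K p
      · obtain ⟨r, rfl⟩ := hT
        obtain ⟨c₀, hc⟩ := ih (fun a => P a ∩ K r) (by
          rintro a p ⟨hp, hp'⟩ q ⟨hq, hq'⟩ e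
          obtain ⟨γ, hγ, k1, k2⟩ := h a p hp q hq e
          rcases Finset.mem_insert.1 hγ with rfl | hγ
          · exact absurd ((hp' γ le_rfl).trans (hq' γ le_rfl).symm) k2.1
          · exact ⟨γ, hγ, k1, k2⟩)
        obtain ⟨t, ht⟩ := hc (own μ)
        refine ⟨fun p => t.symm (c₀ p), fun _ => ⟨fun p hp => by
          simp only [ht p hp, Equiv.symm_apply_apply], fun a => ?_⟩⟩
        obtain ⟨s, hs⟩ := hc a
        exact ⟨s.trans t.symm, fun p hp => by simp only [hs p hp, Equiv.trans_apply]⟩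
      · exact ⟨fun _ => 0, fun q => absurd q hT⟩
    choose c₁ hc using h1
    have hK : ∀ p, p ∈ K p := fun p _ _ => rfl
    refine ⟨fun p => c₁ (K p) p, fun a => ?_⟩
    by_cases ha : a = own μ
    · exact ⟨1, fun p hp => ha ▸ (hc (K p) ⟨p, rfl⟩).1 p ⟨ha ▸ hp, hK p⟩⟩
    rcases (P a).eq_empty_or_nonempty with e | ⟨r, hr⟩
    · exact ⟨1, fun p hp => absurd (e ▸ hp) (notMem_empty p)⟩
    obtain ⟨s, hs⟩ := (hc (K r) ⟨r, rfl⟩).2 a
    refine ⟨s, fun p hp => ?_⟩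
    have h2 : p ∈ K r := by
      by_cases e : p = r
      · exact e ▸ hK p
      obtain ⟨γ, hγ, k1, k2⟩ := h a p hp r hr e
      rcases Finset.mem_insert.1 hγ with rfl | hγ
      · exact absurd k1.symm ha
      · exact fun δ hδ => k2.2 δ (hδ.trans_lt (hμ γ hγ))
    have h3 : K p = K r := by
      ext q
      exact forall₂_congr fun δ hδ => by rw [h2 δ hδ]
    simp only [h3]
    exact hs p ⟨hp, h2⟩

end Pool.Agent.P.MP_48d4bc_co.T3
end

-- part Pool.Agent.P.MP_48d4bc_co.T3Merge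
section

/-! Merging free families. -/

set_option autoImplicit false

namespace Pool.Agent.P.MP_48d4bc_co.T3

open Cardinal Set

section
variable {M : Type} {σ : Cardinal.{0}} {S S' : Sys M} (O : Over σ S S')

theorem Over.col_dn [DecidableEq S.Z] {A : Set S'.C} {B : Set S.C} {P : Finset S'.Z}
    (h : S.Col B (P.image O.lab)) (hs : O.dn '' A ⊆ B) : S'.Col A P := by
  obtain ⟨c, hc⟩ := h
  exact ⟨fun p => c (O.lab p), fun X hX a ha b hb hab => hc _ (hs ⟨X, hX, rfl⟩) _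
    (Finset.mem_image_of_mem _ ha) _ (Finset.mem_image_of_mem _ hb) (O.arc_dn hab)⟩

theorem Over.col_disj {m s : ℕ} (hB : S'.Bip m) {G : Finset (Set S'.C)}
    (hG : ∀ A ∈ G, S'.Free s A) (hd : ∀ A ∈ G, ∀ B ∈ G, ∀ γ ∈ O.PosF A, γ ∈ O.PosF B → A = B)
    {P : Finset S'.Z} (hP : P.card + 2 * s ≤ m) : S'.Col (⋃₀ (G : Set (Set S'.C))) P := by
  classical
  have h1 : ∀ A : Set S'.C, ∃ c : S'.Z → Fin 3, A ∈ G →
      ∀ X ∈ A, ∀ a ∈ P, ∀ b ∈ P, S'.arc X a b → c a ≠ c b := by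
    intro A
    by_cases hA : A ∈ G
    · obtain ⟨c, hc⟩ := O.col_free hB (hG A hA) P hP
      exact ⟨c, fun _ => hc⟩
    · exact ⟨fun _ => 0, fun h => absurd h hA⟩
  choose c hc using h1
  have h2 : ∀ γ : O.Θ, ∃ A : Set S'.C, ∀ B ∈ G, γ ∈ O.PosF B → A = B := by
    intro γ
    by_cases h : ∃ A ∈ G, γ ∈ O.PosF A
    · obtain ⟨A, hA, hγ⟩ := h
      exact ⟨A, fun B hB h => hd A hA B hB γ hγ h⟩
    · exact ⟨∅, fun B hB q => absurd ⟨B, hB, q⟩ h⟩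
  choose own hown using h2
  have h3 : (⋃ p ∈ (P : Set S'.Z), ⋃ q ∈ (P : Set S'.Z), {γ | Meet O.br p q γ}).Finite :=
    P.finite_toSet.biUnion fun p _ => P.finite_toSet.biUnion fun q _ =>
      Set.Subsingleton.finite fun γ h δ h' => Meet.unique h h'
  obtain ⟨c₀, h4⟩ := glue O.br own c h3.toFinset
    (fun A => {p | A ∈ G ∧ p ∈ S'.ptsF A ∧ p ∈ P}) (by
      rintro A p ⟨hA, p1, p2⟩ q ⟨-, q1, q2⟩ e
      obtain ⟨γ, k1, k2⟩ := O.meet_free (hG A hA) p p1 q q1 e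
      exact ⟨γ, h3.mem_toFinset.2 (mem_iUnion₂.2 ⟨p, p2, mem_iUnion₂.2 ⟨q, q2, k2⟩⟩),
        hown γ A hA k1, k2⟩)
  refine ⟨c₀, ?_⟩
  rintro X ⟨A, hA, hX⟩ a ha b hb hab
  obtain ⟨t, ht⟩ := h4 A
  rw [ht a ⟨hA, ⟨X, hX, hab.left⟩, ha⟩, ht b ⟨hA, ⟨X, hX, hab.right⟩, hb⟩]
  exact t.injective.ne (hc A hA X hX a ha b hb hab)

end

/-- `r` free families of size `s` are colourable on `m` points from the level `k` on -/
def Good (r s m k : ℕ) : Prop :=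
  ∀ (M : Type) (σ : Cardinal.{0}) (n : ℕ) (S : Sys M), k ≤ n → Tw σ n S →
    ∀ G : Finset (Set S.C), G.card ≤ r → (∀ A ∈ G, S.Free s A) →
      ∀ P : Finset S.Z, P.card ≤ m → S.Col (⋃₀ (G : Set (Set S.C))) P

/-- the same for families two of which overlap -/
def Good' (r t s m k : ℕ) : Prop :=
  ∀ (M : Type) (σ : Cardinal.{0}) (n : ℕ) (S : Sys M), k ≤ n → Tw σ n S →
    ∀ (G : Finset (Set S.C)) (A B : Set S.C), G.card ≤ r → (∀ U ∈ G, S.Free s U) → A ∈ G →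
      S.Free s B → (B ∩ A).Nonempty → (B \ A).encard ≤ t →
      ∀ P : Finset S.Z, P.card ≤ m → S.Col (B ∪ ⋃₀ (G : Set (Set S.C))) P

/-- one step of the absorption -/
theorem good'_step {r t s m k : ℕ} (h : Good' r t (s + 2) m k) {M : Type} {σ : Cardinal.{0}}
    {n : ℕ} {S S' : Sys M} (hk : k ≤ n) (hT : Tw σ n S) (O : Over σ S S')
    {G : Finset (Set S'.C)} {A B : Set S'.C} (hG : G.card ≤ r) (hF : ∀ U ∈ G, S'.Free s U)
    (hA : A ∈ G) (hB : S'.Free s B) {Y : S'.C} (hY : Y ∈ B) {γ : O.Θ} (h1 : γ ∈ O.PosF A)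
    (h2 : γ ∈ O.Pos Y) (h3 : ((B \ A) \ {Y}).encard ≤ t) {P : Finset S'.Z} (hP : P.card ≤ m) :
    S'.Col (B ∪ ⋃₀ (G : Set (Set S'.C))) P := by
  classical
  obtain ⟨U, u1, u2, u3⟩ := O.absorb (hF A hA) h1 (O.dn_mem h2)
  refine O.col_dn (h M σ n S hk hT (insert U ((G.erase A).image fun W => O.dn '' W)) U
    (O.dn '' B) ?_ ?_ (Finset.mem_insert_self _ _) (O.free_dn hB).up.up
    ⟨_, mem_image_of_mem _ hY, u3⟩ ?_ _ (Finset.card_image_le.trans hP)) ?_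
  · refine (Finset.card_insert_le _ _).trans ?_
    have h4 := Finset.card_image_le (s := G.erase A) (f := fun W => O.dn '' W)
    have h5 := Finset.card_erase_add_one hA
    omega
  · intro W hW
    rcases Finset.mem_insert.1 hW with rfl | hW
    · exact u1
    · obtain ⟨W', hW', rfl⟩ := Finset.mem_image.1 hW
      exact (O.free_dn (hF _ (Finset.mem_of_mem_erase hW'))).up.up
  · refine le_trans (encard_le_encard (t := O.dn '' ((B \ A) \ {Y})) ?_)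
      ((encard_image_le _ _).trans h3)
    rintro _ ⟨⟨X, hX, rfl⟩, hn⟩
    exact ⟨X, ⟨⟨hX, fun q => hn (u2 ⟨X, q, rfl⟩)⟩, fun q => hn (by rw [q]; exact u3)⟩, rfl⟩
  · rintro _ ⟨X, hX | ⟨W, hW, hX⟩, rfl⟩
    · exact Or.inl ⟨X, hX, rfl⟩
    · by_cases e : W = A
      · exact Or.inr ⟨U, Finset.mem_insert_self _ _, u2 ⟨X, e ▸ hX, rfl⟩⟩
      · exact Or.inr ⟨O.dn '' W, Finset.mem_insert_of_mem
          (Finset.mem_image_of_mem _ (Finset.mem_erase.2 ⟨e, hW⟩)), X, hX, rfl⟩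

theorem good' {r m : ℕ} (h : ∀ s, ∃ k, Good r s m k) (t : ℕ) : ∀ s, ∃ k, Good' r t s m k := by
  have base : ∀ {s k}, Good r s m k → ∀ (M : Type) (σ : Cardinal.{0}) (n : ℕ) (S : Sys M),
      k ≤ n → Tw σ n S → ∀ (G : Finset (Set S.C)) (A B : Set S.C), G.card ≤ r →
      (∀ U ∈ G, S.Free s U) → A ∈ G → B \ A = ∅ → ∀ P : Finset S.Z, P.card ≤ m →
      S.Col (B ∪ ⋃₀ (G : Set (Set S.C))) P := by
    intro s k hk M σ n S h1 h2 G A B h3 h4 h5 h6 P hP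
    rw [union_eq_self_of_subset_left ((sdiff_eq_empty.1 h6).trans (subset_sUnion_of_mem h5))]
    exact hk M σ n S h1 h2 G h3 h4 P hP
  induction t with
  | zero =>
    intro s
    obtain ⟨k, hk⟩ := h s
    exact ⟨k, fun M σ n S h1 h2 G A B h3 h4 h5 _ _ h6 =>
      base hk M σ n S h1 h2 G A B h3 h4 h5 (encard_eq_zero.1 (nonpos_iff_eq_zero.1 h6))⟩
  | succ t ih =>
    intro s
    obtain ⟨k, hk⟩ := h s
    obtain ⟨k', hk'⟩ := ih (s + 2)
    refine ⟨k + k' + 1, fun M σ n S h1 h2 G A B h3 h4 h5 h6 h7 h8 P hP => ?_⟩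
    rcases (B \ A).eq_empty_or_nonempty with e | e
    · exact base hk M σ n S (by omega) h2 G A B h3 h4 h5 e P hP
    obtain ⟨X, hX, Y, hY, a, b, k1, k2⟩ := h6.cut A h7 e
    cases h2 with
    | zero => omega
    | succ hT O _ =>
      obtain ⟨μ, m1, m2, -⟩ := O.arc_two k1 k2
      refine good'_step hk' (by omega) hT O h3 h4 h5 h6 hY.1 ⟨X, hX.2, m1⟩ m2 ?_ hP
      rw [← encard_sdiff_singleton_add_one hY] at h8
      push_cast at h8
      exact (ENat.add_le_add_iff_right ENat.one_ne_top).1 h8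

theorem good (m r : ℕ) : ∀ s, ∃ k, Good r s m k := by
  classical
  induction r with
  | zero =>
    refine fun s => ⟨0, fun M σ n S _ _ G hG _ P _ => ⟨fun _ => 0, ?_⟩⟩
    rintro X ⟨A, hA, -⟩
    rw [Finset.card_eq_zero.1 (Nat.le_zero.1 hG)] at hA
    exact absurd hA (by simp)
  | succ r ih =>
    intro s
    obtain ⟨k, hk⟩ := good' ih s (s + 2)
    refine ⟨k + m + 2 * s + 1, fun M σ n S h1 h2 G h3 h4 P hP => ?_⟩
    have hb := h2.bip
    cases h2 with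
    | zero => omega
    | succ hT O _ =>
      by_cases hd : ∀ A ∈ G, ∀ B ∈ G, ∀ γ ∈ O.PosF A, γ ∈ O.PosF B → A = B
      · exact O.col_disj hb h4 hd (by omega)
      · simp only [not_forall] at hd
        obtain ⟨A, hA, B, hB, γ, g1, ⟨Y, hY, g2⟩, hne⟩ := hd
        have h5 := Finset.card_erase_add_one hB
        have h6 := good'_step hk (by omega) hT O (G := G.erase B) (by omega)
          (fun U hU => h4 U (Finset.mem_of_mem_erase hU)) (Finset.mem_erase.2 ⟨hne, hA⟩)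
          (h4 B hB) hY g1 g2
          ((encard_le_encard (sdiff_subset.trans sdiff_subset)).trans (h4 B hB).encard_le) hP
        rwa [← sUnion_insert, ← Finset.coe_insert, Finset.insert_erase hB] at h6

/-- small sets of points in a high tower are colourable -/
theorem exists_height (m : ℕ) : ∃ n : ℕ, ∀ (M : Type) (σ : Cardinal.{0}) (S : Sys M),
    Tw σ n S → ∀ P : Finset S.Z, P.card ≤ m → S.Col Set.univ P := by
  classical
  obtain ⟨k, hk⟩ := good m (m * m) 1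
  refine ⟨k, fun M σ S hT P hP => ?_⟩
  have h1 : ∀ e : S.Z × S.Z, ∃ A : Set S.C, (∃ X, S.arc X e.1 e.2) →
      ∃ X, S.arc X e.1 e.2 ∧ A = {X} := by
    intro e
    by_cases h : ∃ X, S.arc X e.1 e.2
    · obtain ⟨X, hX⟩ := h
      exact ⟨{X}, fun _ => ⟨X, hX, rfl⟩⟩
    · exact ⟨∅, fun q => absurd q h⟩
  choose f hf using h1
  obtain ⟨c, hc⟩ := hk M σ k S le_rfl hT
    (((P ×ˢ P).filter fun e => ∃ X, S.arc X e.1 e.2).image f)
    (Finset.card_image_le.trans ((Finset.card_filter_le _ _).trans (by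
      rw [Finset.card_product]
      exact Nat.mul_le_mul hP hP))) (by
      intro A hA
      obtain ⟨e, he, rfl⟩ := Finset.mem_image.1 hA
      obtain ⟨X, -, h⟩ := hf e (Finset.mem_filter.1 he).2
      rw [h]
      exact .one X) P hP
  refine ⟨c, fun X _ a ha b hb hab => ?_⟩
  obtain ⟨Y, h1, h2⟩ := hf (a, b) ⟨X, hab⟩
  exact hc Y ⟨f (a, b), Finset.mem_coe.2 (Finset.mem_image_of_mem _ (Finset.mem_filter.2
    ⟨Finset.mem_product.2 ⟨ha, hb⟩, X, hab⟩)), h2 ▸ rfl⟩ a ha b hb h1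

end Pool.Agent.P.MP_48d4bc_co.T3
end

-- part Pool.Agent.P.MP_48d4bc_co.T3Main
section

/-! Locally three-colourable hosts for the triangle. -/

set_option autoImplicit false

namespace Pool.Agent.P.MP_48d4bc_co.T3

open Cardinal Set

universe u

/-- the bottom system -/
def bottom (M X : Type) [LinearOrder X] [WellFoundedLT X] (x : X) : Sys M where
  Z := X
  C := {p : X × Set X // ∀ η ∈ p.2, p.1 < η}
  pt := x
  ap p := p.1.1
  F p := p.1.2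
  h p a b := a ∈ p.1.2 ∧ b ∈ p.1.2 ∧ a < b
  supp _ := ∅
  base _ _ := ∅
  root _ := ∅
  h_left h := h.1
  h_right h := h.2.1
  h_wf _ := Subrelation.wf (fun h => h.2.2) wellFounded_lt
  ap_not p h := lt_irrefl _ (p.2 _ h)
  base_ap _ := rfl
  base_sub _ := Subset.rfl
  root_sub _ := Subset.rfl

theorem exists_bottom (Λ L : Type) [Nonempty Λ] : ∃ (X : Type) (_ : LinearOrder X)
    (_ : WellFoundedLT X) (x : X), ∀ (M : Type) (κ : Cardinal.{0}), (bottom M X x).Ram Λ L κ := by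
  classical
  obtain ⟨X, _, _, T, hX⟩ := coneRamsey 2 Λ L
  obtain ⟨x, -⟩ := hX fun _ => Classical.arbitrary Λ
  refine ⟨X, inferInstance, inferInstance, x, fun M κ π D _ => ?_⟩
  let π' : Finset X → Λ := fun s =>
    if h : s.Nonempty then π (s.min' h) (s.max' h) else Classical.arbitrary Λ
  have h0 : ∀ a b : X, a < b → π' {a, b} = π a b := fun a b h => by
    simp only [π', dif_pos (Finset.insert_nonempty a {b})]
    congr 1
    · simp [h.le]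
    · simp [h.le]
  obtain ⟨a, F, h1, h2, -, h3⟩ := hX π'
  obtain ⟨η, hη, -⟩ := not_subset.1 (h1 fun _ => a)
  refine ⟨⟨(a, F), h2⟩, π a η, fun c => ?_, fun (p q : X) h => ⟨?_, fun _ h => h.1⟩⟩
  · by_contra hn
    have : Nonempty X := ⟨a⟩
    refine h1 (Function.invFunOn c F) fun b hb => ⟨c b, ?_⟩
    refine InjOn.leftInvOn_invFunOn (fun p hp q hq e => ?_) hb
    rcases lt_trichotomy (p : X) q with h | h | h
    · exact absurd ⟨p, q, ⟨hp, hq, h⟩, e⟩ hn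
    · exact h
    · exact absurd ⟨q, p, ⟨hq, hp, h⟩, e.symm⟩ hn
  · have h4 : (p : X) < q ∧ (p : X) ∈ insert a F ∧ (q : X) ∈ F := by
      rcases h with ⟨rfl, h⟩ | h
      exacts [⟨h2 _ h, Or.inl rfl, h⟩, ⟨h.2.2, Or.inr h.1, h.2.1⟩]
    rw [← h0 _ _ h4.1, ← h0 _ _ (h2 η hη)]
    refine h3 _ _ ?_ ?_ ?_ ?_
    · rw [Finset.coe_pair]
      exact pair_subset h4.2.1 (Or.inr h4.2.2)
    · rw [Finset.coe_pair]
      exact pair_subset (Or.inl rfl) (Or.inr hη)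
    · rw [Finset.card_pair h4.1.ne, Finset.card_pair (h2 η hη).ne]
    · rw [Finset.card_pair h4.1.ne]

theorem exists_tower (n : ℕ) : ∀ (Λ L : Type) [Nonempty Λ], ∃ σ : Cardinal.{0}, ℵ₀ ≤ σ ∧
    #Λ ≤ σ ∧ ∀ κ, σ ≤ κ → ∃ μ : Cardinal.{0}, ∀ M : Type, μ < #M →
      ∃ S : Sys M, Tw σ n S ∧ S.Small σ ∧ S.Ram Λ L κ := by
  induction n with
  | zero =>
    intro Λ L _
    obtain ⟨X, _, _, x, h⟩ := exists_bottom Λ L
    refine ⟨max ℵ₀ (max #Λ #X), le_max_left _ _, le_max_of_le_right (le_max_left _ _),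
      fun κ _ => ⟨0, fun M _ => ⟨bottom M X x, .zero _, fun p => ⟨?_, ?_⟩, h M κ⟩⟩⟩
    · exact (mk_set_le _).trans (le_max_of_le_right (le_max_right _ _))
    · exact (mk_eq_zero (∅ : Set M)).le.trans bot_le
  | succ n ih =>
    intro Λ L _
    obtain ⟨σ, h1, h2, h3⟩ := ih (Set Λ) (Λ × Set L)
    have h4 : #Λ ≤ σ := (mk_le_of_injective singleton_injective).trans h2
    refine ⟨σ, h1, h4, fun κ hκ => ?_⟩
    obtain ⟨μ, hμ⟩ := h3 (Order.succ (Order.succ κ))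
      (hκ.trans ((Order.le_succ _).trans (Order.le_succ _)))
    refine ⟨max μ (Order.succ κ), fun M hM => ?_⟩
    obtain ⟨S, s1, s2, s3⟩ := hμ M ((le_max_left _ _).trans_lt hM)
    obtain ⟨Θ, _, _, dat, h⟩ := exists_step h1 hκ h4 ((le_max_right _ _).trans_lt hM) s2 s3
    exact ⟨step dat, .succ s1 (stepOver dat) (step_bip s1.bip dat), step_small h1 s2 dat, h⟩

/-- a locally three-colourable graph that is not a countable union of triangle-free graphs -/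
theorem exists_host (m : ℕ) : ∃ (V : Type) (H : SimpleGraph V),
    (∀ P : Finset V, P.card ≤ m → ∃ c : V → Fin 3, ∀ a ∈ P, ∀ b ∈ P, H.Adj a b → c a ≠ c b) ∧
    ∀ c : Sym2 V → ℕ, ∃ x y z, H.Adj x y ∧ H.Adj x z ∧ H.Adj y z ∧
      c s(x, y) = c s(x, z) ∧ c s(x, y) = c s(y, z) := by
  obtain ⟨n, hn⟩ := exists_height m
  obtain ⟨σ, -, -, h⟩ := exists_tower n ℕ Unit
  obtain ⟨μ, hμ⟩ := h σ le_rfl
  obtain ⟨S, s1, -, s3⟩ := hμ (Order.succ μ).out (by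
    rw [mk_out]
    exact Order.lt_succ μ)
  let H : SimpleGraph S.Z := SimpleGraph.fromRel fun a b => ∃ X, S.arc X a b
  have hH : ∀ X a b, S.arc X a b → H.Adj a b := fun X a b h =>
    (SimpleGraph.fromRel_adj _ _ _).2 ⟨h.ne, Or.inl ⟨X, h⟩⟩
  refine ⟨S.Z, H, fun P hP => ?_, fun c => ?_⟩
  · obtain ⟨c, hc⟩ := hn _ σ S s1 P hP
    refine ⟨c, fun a ha b hb hab => ?_⟩
    obtain ⟨-, ⟨X, h⟩ | ⟨X, h⟩⟩ := (SimpleGraph.fromRel_adj _ _ _).1 hab
    · exact hc X trivial a ha b hb h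
    · exact (hc X trivial b hb a ha h).symm
  · obtain ⟨X, j, h1, h2⟩ := s3 (fun a b => c s(a, b)) (fun _ _ => ∅) (by simp)
    obtain ⟨a, b, h3, -⟩ := h1 fun _ => ()
    have e1 : S.arc X (S.ap X) a := Or.inl ⟨rfl, S.h_left h3⟩
    have e2 : S.arc X (S.ap X) b := Or.inl ⟨rfl, S.h_right h3⟩
    have e3 : S.arc X a b := Or.inr h3
    exact ⟨_, a, b, hH X _ _ e1, hH X _ _ e2, hH X _ _ e3,
      (h2 _ _ e1).1.trans (h2 _ _ e2).1.symm, (h2 _ _ e1).1.trans (h2 _ _ e3).1.symm⟩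

theorem host_three {α β : Type} [Finite α] [Finite β] (G₁ : SimpleGraph α) (G₂ : SimpleGraph β)
    (h₁ : ¬ G₁.Colorable 3) (h₂ : G₂.Colorable 3) :
    ∃ (V : Type u) (H : SimpleGraph V), G₁.Free H ∧ ∀ c : Sym2 V → ℕ, HasMonoCopy G₂ H c := by
  classical
  have := Fintype.ofFinite α
  obtain ⟨W, K, k1, k2⟩ := exists_host (Fintype.card α)
  refine ⟨ULift.{u} W, K.comap ULift.down, ?_, fun c => ?_⟩
  · rintro ⟨f⟩
    obtain ⟨c, hc⟩ := k1 (Finset.univ.image fun a => (f a).down) Finset.card_image_le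
    exact h₁ ⟨SimpleGraph.Coloring.mk (fun a => c (f a).down) fun {a b} hab =>
      hc _ (Finset.mem_image_of_mem _ (Finset.mem_univ a)) _
        (Finset.mem_image_of_mem _ (Finset.mem_univ b)) (f.toHom.map_adj hab)⟩
  · by_contra hn
    let H : ℕ → SimpleGraph (ULift.{u} W) := fun i =>
      { Adj := fun a b => K.Adj a.down b.down ∧ c s(a, b) = i
        symm := ⟨fun a b h => ⟨h.1.symm, by rw [Sym2.eq_swap]; exact h.2⟩⟩
        loopless := ⟨fun a h => h.1.ne rfl⟩ }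
    have h1 : ∀ i, G₂.Free (H i) := by
      rintro i ⟨f⟩
      exact hn ⟨⟨⟨f, fun h => (f.toHom.map_adj h).1⟩, f.injective⟩, i,
        fun a b h => (f.toHom.map_adj h).2⟩
    choose e he using fun i => edge_col (H i) _ (no3_of_free (H i) h₂ (h1 i)) Set.univ
    obtain ⟨x, y, z, a1, a2, a3, a4, a5⟩ := k2 fun s =>
      Nat.pair (c (s.map ULift.up)) (e (c (s.map ULift.up)) (s.map ULift.up))
    simp only [Sym2.map_mk, Nat.pair_eq_pair] at a4 a5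
    refine he (c s(ULift.up x, ULift.up y)) (ULift.up x) trivial (ULift.up y) trivial
      (ULift.up z) trivial ⟨a1, rfl⟩ ⟨a2, a4.1.symm⟩ ⟨a3, a5.1.symm⟩ ?_ ?_
    · rw [a4.2, a4.1]
    · rw [a5.2, a5.1]

theorem property_two_iff {α β : Type} [Finite α] [Finite β] (G₁ : SimpleGraph α)
    (G₂ : SimpleGraph β) (h₂ : G₂.Colorable 3) (h₃ : ¬ G₂.CliqueFree 3) :
    (∀ (V : Type u) (H : SimpleGraph V), G₁.Free H → ∃ c : Sym2 V → ℕ, ¬ HasMonoCopy G₂ H c) ↔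
      G₁.Colorable 3 := by
  refine ⟨fun h => ?_, fun h V H hH => countable_colouring H h h₃ hH⟩
  by_contra h₁
  obtain ⟨V, H, h4, h5⟩ := host_three.{u} G₁ G₂ h₁ h₂
  obtain ⟨c, hc⟩ := h V H h4
  exact hc (h5 c)

end Pool.Agent.P.MP_48d4bc_co.T3
end
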